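import Pool.Agent.helper748_mc.Bin

set_option autoImplicit false
set_option linter.unusedSectionVars false

/-! # Ternary forms `h x₂ ^ j (a x₂ ^ k + b) ^ n` -/

namespace Pool.Agent.Helper748.MC

open MvPolynomial

/-- There are linear coordinates in which `f = h x₂ ^ j (a x₂ ^ k + b) ^ n`, where `h`, `a`, `b` are
nonzero polynomials in `x₀` and `x₁`, `k ≥ 1`, `n ≥ 1`, such that `h(t, 1)`, `a(t, 1)` and `b(t, 1)`
have the degrees `d - j - n D`, `D - k` and `D` for some `D`, such that neither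
`θ = (1 - 3 j / d) / k` nor `μ = θ - 3 n / d` is an integer, and such that `h a b` has more than
`2 + S` roots `t`, where `S` is the sum of `1 + e` over those of them at which
`e = -(3/d) χ - θ α + μ β` is a natural number; here `χ`, `α`, `β` are the multiplicities of `t` as a
root of `h`, of `a` and of `b`. -/
def BinomialForm (d : ℕ) (f : MvPolynomial (Fin 3) ℂ) : Prop :=
  ∃ (A : Matrix (Fin 3) (Fin 3) ℂ) (h a b : MvPolynomial (Fin 2) ℂ) (j k n : ℕ), A.det ≠ 0 ∧
    0 < k ∧ 0 < n ∧
    lin A f = rename Fin.castSucc h * X 2 ^ j *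
      (rename Fin.castSucc a * X 2 ^ k + rename Fin.castSucc b) ^ n ∧
    binPoly h ≠ 0 ∧ binPoly a ≠ 0 ∧
    (binPoly a).natDegree + k = (binPoly b).natDegree ∧
    (binPoly h).natDegree + j + n * (binPoly b).natDegree = d ∧
    (∀ z : ℤ, ((1 - 3 * j / d) / k : ℚ) ≠ z) ∧
    (∀ z : ℤ, ((1 - 3 * j / d) / k - 3 * n / d : ℚ) ≠ z) ∧
    BPos (-3 / d) ((1 - 3 * j / d) / k) ((1 - 3 * j / d) / k - 3 * n / d) (binPoly h) (binPoly a)
      (binPoly b)

theorem BinomialForm.pos {d : ℕ} {f : MvPolynomial (Fin 3) ℂ} (h : BinomialForm d f) : 0 < d := by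
  obtain ⟨A, h, a, b, j, k, n, -, hk, hn, -, -, -, hab, hd, -⟩ := h
  have h1 : 0 < (binPoly b).natDegree := by omega
  have h2 : 0 < n * (binPoly b).natDegree := Nat.mul_pos hn h1
  omega

section Eq

variable {j k n : ℕ} {h a b : MvPolynomial (Fin 2) ℂ}

theorem evt_G (t : ℂ) : evt t (rename Fin.castSucc h * X 2 ^ j *
      (rename Fin.castSucc a * X 2 ^ k + rename Fin.castSucc b) ^ n) =
    Gt j k n (binPoly h) (binPoly a) (binPoly b) t := by
  have hX : evt t (X 2) = Polynomial.X := by simp [evt]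
  rw [Gt, map_mul, map_mul, map_pow, map_pow, map_add, map_mul, map_pow, hX, evt_ren, evt_ren,
    evt_ren]

theorem evt_G' (t : ℂ) : evt t (pderiv 0 (rename Fin.castSucc h * X 2 ^ j *
      (rename Fin.castSucc a * X 2 ^ k + rename Fin.castSucc b) ^ n)) =
    Gt' j k n (binPoly h) (binPoly a) (binPoly b) t := by
  have hX : evt t (X 2) = Polynomial.X := by simp [evt]
  have hX0 : ∀ r : ℕ, pderiv 0 ((X 2 : MvPolynomial (Fin 3) ℂ) ^ r) = 0 := by
    intro r
    rw [Derivation.leibniz_pow, pderiv_X_of_ne (by decide : (2 : Fin 3) ≠ 0)]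
    simp
  rw [Gt', Derivation.leibniz, Derivation.leibniz, Derivation.leibniz_pow, Derivation.map_add,
    Derivation.leibniz, hX0, hX0]
  simp only [smul_eq_mul, nsmul_eq_mul, mul_zero, zero_add, map_add, map_mul, map_pow,
    hX, evt_ren, evt_pderiv_ren, map_natCast]
  ring

theorem exists_eval_ne {p : Polynomial ℂ} (hp : p ≠ 0) : ∃ t : ℂ, p.eval t ≠ 0 := by
  by_contra hcon
  push Not at hcon
  exact hp (Polynomial.funext fun t => by rw [hcon t, Polynomial.eval_zero])

theorem bin_eq {θ σ s : ℂ} {c : ℤ → ℕ → ℂ} (hc : BetaSys θ σ c) (hk : 0 < k) (hn : 0 < n)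
    (hσ : σ = n * s) (hθ : k * θ = 1 + s * j) (hw : binPoly h * binPoly a * binPoly b ≠ 0)
    {K : ℕ} {P Q G : MvPolynomial (Fin 3) ℂ}
    (hG : G = rename Fin.castSucc h * X 2 ^ j *
      (rename Fin.castSucc a * X 2 ^ k + rename Fin.castSucc b) ^ n)
    (hEq : X 1 * G ^ (K + 1) = G * (pderiv 0 P + pderiv 2 Q) +
        C (s - K) * (pderiv 0 G * P + pderiv 2 G * Q)) :
    ∃ (M : ℕ) (κ : Polynomial ℂ),
      Polynomial.C (c 0 0) * (binPoly h * binPoly a * binPoly b) ^ (M + 1) =
        (binPoly h * binPoly a * binPoly b) * Polynomial.derivative κ +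
        (vpol s θ (σ + θ) (binPoly h) (binPoly a) (binPoly b) - Polynomial.C (M : ℂ) *
          Polynomial.derivative (binPoly h * binPoly a * binPoly b)) * κ := by
  set h' := binPoly h
  set a' := binPoly a
  set b' := binPoly b
  obtain ⟨M, κ, hκ⟩ := gP_poly (c := c) (j := j) (n := n) (h := h') (a := a') (b := b') hk K P
  refine ⟨M, κ, ?_⟩
  -- the derivative
  have hder : ∀ t : ℂ, (h' * a' * b').eval t ≠ 0 → HasDerivAt (gP c j k n h' a' b' K P)
      (c 0 0 - om s θ (σ + θ) h' a' b' t * gP c j k n h' a' b' K P t) t := by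
    intro t ht
    rw [Polynomial.eval_mul, Polynomial.eval_mul] at ht
    have h1 := left_ne_zero_of_mul (left_ne_zero_of_mul ht)
    have h2 := right_ne_zero_of_mul (left_ne_zero_of_mul ht)
    have h3 := right_ne_zero_of_mul ht
    refine (gP_deriv (j := j) hc hk hn h1 h2 h3 hσ K P).congr_deriv ?_
    congr 1
    have e1 := congrArg (evt t) hEq
    have hX1 : evt t (X 1) = 1 := by simp [evt]
    have eG : evt t G = Gt j k n h' a' b' t := by rw [hG, evt_G]
    have eG' : evt t (pderiv 0 G) = Gt' j k n h' a' b' t := by rw [hG, evt_G']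
    rw [map_add, map_mul, map_mul, map_mul, map_add, map_add, map_pow, map_mul, map_mul, hX1,
      evt_pderiv2, evt_pderiv2, evt_C, eG, eG', one_mul] at e1
    have e2 := congrArg (Fn c j k (h'.eval t) (a'.eval t) (b'.eval t) (K + 1) (n * K + n) 0) e1
    have e3 := Fn_Gpow (j := j) hc hk h1 h2 h3 n (K + 1) 0 1
    rw [mul_one, Nat.mul_succ] at e3
    have e4 : Fn c j k (h'.eval t) (a'.eval t) (b'.eval t) 0 0 0 1 = c 0 0 := by
      rw [← Polynomial.monomial_zero_one, Fn_monomial, bpsi_of hk 0 (by simp)]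
      simp
    have e5 := Fn_exact (j := j) hc hk h1 h2 h3 (K := K) hn hσ hθ (evt t Q)
    change Fn c j k _ _ _ (K + 1) (n * K + n) 0 (Gt j k n h' a' b' t *
      Polynomial.derivative (evt t Q) + Polynomial.C (s - K) *
        (Polynomial.derivative (Gt j k n h' a' b' t) * (evt t Q))) = 0 at e5
    change Fn c j k _ _ _ (K + 1) (n * K + n) 0 (Gt j k n h' a' b' t ^ (K + 1)) = _ at e3
    rw [e3, e4] at e2
    rw [e2, ← add_zero (Fn c j k _ _ _ (K + 1) (n * K + n) 0 _), ← e5, ← map_add]
    congr 1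
    ring
  -- the equation at the points
  have hpt : ∀ t : ℂ, (h' * a' * b').eval t ≠ 0 →
      (Polynomial.C (c 0 0) * (h' * a' * b') ^ (M + 1)).eval t =
        ((h' * a' * b') * Polynomial.derivative κ +
        (vpol s θ (σ + θ) h' a' b' - Polynomial.C (M : ℂ) *
          Polynomial.derivative (h' * a' * b')) * κ).eval t := by
    intro t ht
    set w := h' * a' * b' with hwdef
    have hop : IsOpen {t : ℂ | w.eval t ≠ 0} := isOpen_ne_fun w.continuous continuous_const
    have hev : (fun t => κ.eval t) =ᶠ[nhds t] fun t => w.eval t ^ M * gP c j k n h' a' b' K P t := by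
      filter_upwards [hop.mem_nhds ht] with x hx
      exact hκ x hx
    have d1 := κ.hasDerivAt t
    have d2 := ((w.hasDerivAt t).pow M).mul (hder t ht)
    have d3 := d1.unique (d2.congr_of_eventuallyEq hev)
    have hκt := hκ t ht
    have hv : (vpol s θ (σ + θ) h' a' b').eval t = w.eval t * om s θ (σ + θ) h' a' b' t := by
      have ht' := ht
      rw [hwdef, Polynomial.eval_mul, Polynomial.eval_mul] at ht'
      have h1 := left_ne_zero_of_mul (left_ne_zero_of_mul ht')
      have h2 := right_ne_zero_of_mul (left_ne_zero_of_mul ht')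
      have h3 := right_ne_zero_of_mul ht'
      rw [vpol, om, hwdef]
      simp only [Polynomial.eval_add, Polynomial.eval_sub, Polynomial.eval_mul, Polynomial.eval_C]
      field_simp
    simp only [Polynomial.eval_add, Polynomial.eval_sub, Polynomial.eval_mul, Polynomial.eval_C,
      Polynomial.eval_pow] at d3 ⊢
    rw [Pi.pow_apply] at d3
    have hM : w.eval t * (M * w.eval t ^ (M - 1)) = M * w.eval t ^ M := by
      rcases M with _ | M
      · simp
      · rw [Nat.add_sub_cancel]; ring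
    rw [hv, d3, hκt]
    linear_combination (-((Polynomial.derivative w).eval t * gP c j k n h' a' b' K P t)) * hM
  have hfin : (Polynomial.C (c 0 0) * (h' * a' * b') ^ (M + 1) -
      ((h' * a' * b') * Polynomial.derivative κ +
        (vpol s θ (σ + θ) h' a' b' - Polynomial.C (M : ℂ) *
          Polynomial.derivative (h' * a' * b')) * κ)) * (h' * a' * b') = 0 := by
    refine Polynomial.funext fun t => ?_
    rw [Polynomial.eval_mul, Polynomial.eval_zero]
    by_cases ht : (h' * a' * b').eval t = 0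
    · rw [ht, mul_zero]
    · rw [Polynomial.eval_sub, hpt t ht, sub_self, zero_mul]
  exact sub_eq_zero.1 ((mul_eq_zero.1 hfin).resolve_right hw)

end Eq

theorem not_exact_bin {d : ℕ} {f : MvPolynomial (Fin 3) ℂ}
    (hf : f.IsHomogeneous d) (h : BinomialForm d f) : f ≠ 0 ∧ ¬ Exact d f (-3 / d) := by
  have hd0 := h.pos
  obtain ⟨A, h, a, b, j, k, n, hA, hk, hn, hG, hh0, ha0, hab, hd, hθ, hμ, hpos⟩ := h
  have hb0 : binPoly b ≠ 0 := by
    intro h0
    rw [h0, Polynomial.natDegree_zero] at hab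
    omega
  have hw : binPoly h * binPoly a * binPoly b ≠ 0 := mul_ne_zero (mul_ne_zero hh0 ha0) hb0
  set G := lin A f with hGdef
  have hGh : G.IsHomogeneous d := lin_homog A hf
  have hf0 : f ≠ 0 := by
    rintro rfl
    rw [map_zero] at hGdef
    obtain ⟨t, ht⟩ := exists_eval_ne hw
    have h1 := congrArg (evt t) hG
    rw [evt_G, hGdef, map_zero, Gt] at h1
    rw [Polynomial.eval_mul, Polynomial.eval_mul] at ht
    have h2 := left_ne_zero_of_mul (left_ne_zero_of_mul ht)
    have h3 := right_ne_zero_of_mul (left_ne_zero_of_mul ht)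
    refine mul_ne_zero (mul_ne_zero (Polynomial.C_ne_zero.2 h2)
      (pow_ne_zero _ Polynomial.X_ne_zero)) (pow_ne_zero _ ?_) h1.symm
    intro h4
    have h5 := congrArg (fun p => Polynomial.coeff p k) h4
    simp only [Polynomial.coeff_add, Polynomial.coeff_C_mul, Polynomial.coeff_X_pow_self,
      Polynomial.coeff_C, if_neg hk.ne', mul_one, add_zero, Polynomial.coeff_zero] at h5
    exact h3 h5
  refine ⟨hf0, fun hE => ?_⟩
  have hdc : (d : ℂ) ≠ 0 := Nat.cast_ne_zero.2 hd0.ne'
  have hdq : (d : ℚ) ≠ 0 := Nat.cast_ne_zero.2 hd0.ne'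
  have hkc : (k : ℂ) ≠ 0 := Nat.cast_ne_zero.2 hk.ne'
  have hkq : (k : ℚ) ≠ 0 := Nat.cast_ne_zero.2 hk.ne'
  have hds : (d : ℂ) * (-3 / d) = -3 := by field_simp
  obtain ⟨K, P, Q, -, -, hEq⟩ := exact_two hGh hds (exact_lin hE A (isUnit_iff_ne_zero.2 hA))
  set θ : ℚ := (1 - 3 * j / d) / k with hθdef
  set s : ℚ := -3 / d with hsdef
  set μ : ℚ := θ - 3 * n / d with hμdef
  have hsc : ((s : ℚ) : ℂ) = -3 / d := by rw [hsdef]; push_cast; ring
  have hσθ : (n : ℂ) * s + θ = μ := by
    rw [hμdef, hsdef]; push_cast; ring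
  obtain ⟨c, hc⟩ := exists_betaSys (θ := (θ : ℂ)) (σ := (n : ℂ) * s) (by
    intro z h0
    refine hθ (-z) ?_
    have : ((θ : ℚ) : ℂ) = ((-z : ℤ) : ℂ) := by push_cast; linear_combination h0
    exact_mod_cast this) (by
    intro z h0
    rw [hσθ] at h0
    refine hμ (-z) ?_
    have : ((μ : ℚ) : ℂ) = ((-z : ℤ) : ℂ) := by push_cast; linear_combination h0
    exact_mod_cast this) (by
    intro N h0
    have h1 : (N : ℚ) - n * s = 0 := by exact_mod_cast h0
    have h2 : (0 : ℚ) < d := by exact_mod_cast hd0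
    have h3 : (0 : ℚ) < n := by exact_mod_cast hn
    have h4 : 0 < (n : ℚ) * (3 / d) := by positivity
    have h5 : (0 : ℚ) ≤ N := Nat.cast_nonneg N
    rw [hsdef] at h1
    have h6 : (N : ℚ) - n * (-3 / d) = N + n * (3 / d) := by ring
    rw [h6] at h1
    linarith)
  rw [← hsc] at hEq
  obtain ⟨M, κ, hfin⟩ := bin_eq (j := j) (k := k) (n := n) (h := h) (a := a) (b := b) (s := s)
    hc hk hn rfl (by
      rw [hθdef, hsdef]; push_cast; field_simp; ring) hw hG hEq
  rw [hσθ] at hfin
  refine ode_count (M := M) (κ := κ) hc.r4 hw ?_ hpos hfin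
  have e1 : ((binPoly h).natDegree : ℚ) = d - j - n * (binPoly b).natDegree := by
    have : ((binPoly h).natDegree : ℚ) + j + n * (binPoly b).natDegree = d := by exact_mod_cast hd
    linarith
  have e2 : ((binPoly a).natDegree : ℚ) = (binPoly b).natDegree - k := by
    have : ((binPoly a).natDegree : ℚ) + k = (binPoly b).natDegree := by exact_mod_cast hab
    linarith
  rw [e1, e2, hμdef, hθdef, hsdef]
  field_simp
  ring

end Pool.Agent.Helper748.MC
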