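import Pool.Agent.helper748_mc.QuadOrd

set_option autoImplicit false
set_option linter.unusedSectionVars false

/-! # Counting zeros -/

namespace Pool.Agent.Helper748.MC

open Polynomial

/-- `(1/2 - 3/d) β - (1 - 3/d) α`, where `α` and `β` are the multiplicities of `t` as a root of `a`
and of `δ` -/
noncomputable def qexp (d : ℕ) (a δ : ℂ[X]) (t : ℂ) : ℚ :=
  (1 / 2 - 3 / d) * δ.rootMultiplicity t - (1 - 3 / d) * a.rootMultiplicity t

open Classical in
/-- The number of the roots of `a δ` is greater than `2` plus the sum of `1 + e`, `e` the number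
`qexp`, over those roots of `a δ` at which `e` is a natural number. -/
def QPos (d : ℕ) (a δ : ℂ[X]) : Prop :=
  2 + ∑ t ∈ (a * δ).roots.toFinset with ∃ n : ℕ, qexp d a δ t = n, (1 + qexp d a δ t) <
    (a * δ).roots.toFinset.card

theorem sum_mult_le (T : Finset ℂ) (k : ℂ[X]) :
    ∑ t ∈ T, k.rootMultiplicity t ≤ k.natDegree := by
  classical
  have h1 : ∑ t ∈ T ∪ k.roots.toFinset, k.roots.count t = Multiset.card k.roots :=
    Multiset.sum_count_eq_card fun t ht => by
      rw [Finset.mem_union]; right; exact Multiset.mem_toFinset.2 ht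
  calc ∑ t ∈ T, k.rootMultiplicity t = ∑ t ∈ T, k.roots.count t := by
        simp only [count_roots]
    _ ≤ ∑ t ∈ T ∪ k.roots.toFinset, k.roots.count t :=
        Finset.sum_le_sum_of_subset Finset.subset_union_left
    _ = Multiset.card k.roots := h1
    _ ≤ k.natDegree := card_roots' k

theorem sum_mult_eq (T : Finset ℂ) (k : ℂ[X]) (hT : ∀ t ∈ k.roots, t ∈ T) :
    ∑ t ∈ T, k.rootMultiplicity t = k.natDegree := by
  classical
  have h1 : ∑ t ∈ T, k.roots.count t = Multiset.card k.roots :=
    Multiset.sum_count_eq_card hT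
  have h2 : k.natDegree = Multiset.card k.roots :=
    (IsAlgClosed.splits k).natDegree_eq_card_roots
  rw [h2, ← h1]
  simp only [count_roots]

theorem quad_count {a δ k : ℂ[X]} {M K d : ℕ} {C1 C2 s : ℂ} (hs : s = -3 / d) (hd : 0 < d) (ha : a ≠ 0) (hδ : δ ≠ 0)
    (hC1 : C1 ≠ 0) (hC2 : C2 ≠ 0) (had : a.natDegree + 2 = d) (hδd : δ.natDegree + 2 = 2 * d)
    (hkd : (k.natDegree : ℤ) ≤ d * K + 2 + M * ((d : ℤ) - 2)) (hpos : QPos d a δ)
    (h : C C1 * (a ^ (M + 1) * δ ^ (K + 1)) = C C2 * (a ^ K * (a * (δ * derivative k) +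
      (C (s - K + 1 / 2) * (a * derivative δ) - C (s - K + 1 + M) *
        (derivative a * δ)) * k))) : False := by
  classical
  have hk : k ≠ 0 := by
    rintro rfl
    rw [derivative_zero, mul_zero, mul_zero, mul_zero, add_zero, mul_zero, mul_zero] at h
    exact mul_ne_zero (C_ne_zero.2 hC1) (mul_ne_zero (pow_ne_zero _ ha) (pow_ne_zero _ hδ)) h
  set T := (a * δ).roots.toFinset with hT
  have haδ : a * δ ≠ 0 := mul_ne_zero ha hδ
  have hTa : ∀ t ∈ a.roots, t ∈ T := by
    intro t ht
    rw [hT, Multiset.mem_toFinset, roots_mul haδ, Multiset.mem_add]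
    exact Or.inl ht
  have hTδ : ∀ t ∈ δ.roots, t ∈ T := by
    intro t ht
    rw [hT, Multiset.mem_toFinset, roots_mul haδ, Multiset.mem_add]
    exact Or.inr ht
  have sa := sum_mult_eq T a hTa
  have sδ := sum_mult_eq T δ hTδ
  have sk := sum_mult_le T k
  have hdq : (d : ℚ) ≠ 0 := by exact_mod_cast hd.ne'
  have saq : ∑ t ∈ T, (a.rootMultiplicity t : ℚ) = d - 2 := by
    have : (a.natDegree : ℚ) + 2 = d := by exact_mod_cast had
    rw [← Nat.cast_sum, sa]; linarith
  have sδq : ∑ t ∈ T, (δ.rootMultiplicity t : ℚ) = 2 * d - 2 := by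
    have : (δ.natDegree : ℚ) + 2 = 2 * d := by exact_mod_cast hδd
    rw [← Nat.cast_sum, sδ]; linarith
  have skq : ∑ t ∈ T, (k.rootMultiplicity t : ℚ) ≤ d * K + 2 + M * (d - 2) := by
    have h1 : (k.natDegree : ℚ) ≤ d * K + 2 + M * ((d : ℚ) - 2) := by
      have h2 := (Int.cast_le (R := ℚ)).2 hkd
      push_cast at h2
      exact h2
    have h3 : ((∑ t ∈ T, k.rootMultiplicity t : ℕ) : ℚ) ≤ k.natDegree := Nat.cast_le.2 sk
    rw [Nat.cast_sum] at h3
    exact le_trans h3 h1
  have hloc : ∀ t ∈ T, ((M : ℚ) - K) * a.rootMultiplicity t + K * δ.rootMultiplicity t -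
      qexp d a δ t + (if (∀ n : ℕ, qexp d a δ t ≠ n) then 1 + qexp d a δ t else 0) ≤
        k.rootMultiplicity t := by
    intro t _
    have key := ord_at t ha hδ hC1 hC2 hk h
    by_cases he : ∀ n : ℕ, qexp d a δ t ≠ n
    · rw [if_pos he]
      rcases key with h1 | ⟨n, hn, _⟩
      · have h2 : (k.rootMultiplicity t : ℚ) = ((M : ℚ) - K) * a.rootMultiplicity t +
          K * δ.rootMultiplicity t + 1 := by exact_mod_cast h1
        rw [h2]
        linarith
      · exfalso
        refine he n ?_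
        have h3 : ((qexp d a δ t : ℚ) : ℂ) = n := by
          rw [← hn, qexp, hs]
          push_cast
          ring
        exact_mod_cast h3
    · rw [if_neg he]
      push Not at he
      obtain ⟨n, hn⟩ := he
      rcases key with h1 | ⟨n', hn', h1⟩
      · have h2 : (k.rootMultiplicity t : ℚ) = ((M : ℚ) - K) * a.rootMultiplicity t +
          K * δ.rootMultiplicity t + 1 := by exact_mod_cast h1
        have h3 : (0 : ℚ) ≤ n := Nat.cast_nonneg n
        rw [h2, hn]
        linarith
      · have h2 : (k.rootMultiplicity t : ℚ) = ((M : ℚ) - K) * a.rootMultiplicity t +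
          K * δ.rootMultiplicity t - n' := by exact_mod_cast h1
        have h3 : ((qexp d a δ t : ℚ) : ℂ) = n' := by
          rw [← hn', qexp, hs]
          push_cast
          ring
        have h4 : qexp d a δ t = n' := by exact_mod_cast h3
        rw [h2, h4]
        linarith
  have hsum := Finset.sum_le_sum hloc
  rw [Finset.sum_add_distrib, Finset.sum_sub_distrib, Finset.sum_add_distrib, ← Finset.mul_sum,
    ← Finset.mul_sum, saq, sδq, ← Finset.sum_filter] at hsum
  have hq : ∑ t ∈ T, qexp d a δ t = -2 := by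
    simp only [qexp]
    rw [Finset.sum_sub_distrib, ← Finset.mul_sum, ← Finset.mul_sum, saq, sδq]
    field_simp
    ring
  rw [hq] at hsum
  have hpos' : 2 + ∑ t ∈ T with ∃ n : ℕ, qexp d a δ t = n, (1 + qexp d a δ t) < T.card := hpos
  have hsplit := Finset.sum_filter_add_sum_filter_not T (fun t => ∃ n : ℕ, qexp d a δ t = n)
    (fun t => 1 + qexp d a δ t)
  rw [Finset.sum_add_distrib (s := T), hq, Finset.sum_const, nsmul_eq_mul, mul_one] at hsplit
  have hnot : ∑ t ∈ T with ¬ ∃ n : ℕ, qexp d a δ t = n, (1 + qexp d a δ t) =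
      ∑ t ∈ T with ∀ n : ℕ, qexp d a δ t ≠ n, (1 + qexp d a δ t) := by
    refine Finset.sum_congr (Finset.filter_congr fun t _ => ?_) fun _ _ => rfl
    push Not
    rfl
  rw [hnot] at hsplit
  linarith [hsum, skq, hpos', hsplit]

end Pool.Agent.Helper748.MC
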