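import Pool.Agent.helper748_mc.Quad
import Pool.Agent.helper748_mc.QuadCount

set_option autoImplicit false
set_option linter.unusedSectionVars false

/-! # Ternary forms with a point of multiplicity `d - 2` -/

namespace Pool.Agent.Helper748.MC

open MvPolynomial

/-- the polynomial `a(t, 1)` -/
noncomputable def binPoly : MvPolynomial (Fin 2) ℂ →ₐ[ℂ] Polynomial ℂ := aeval ![Polynomial.X, 1]

/-- There are linear coordinates in which `f = a x₂ ^ 2 + b x₂ + c`, where `a`, `b`, `c` are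
polynomials in `x₀` and `x₁`, such that `a(t, 1)` and `δ(t, 1)`, `δ = b ^ 2 - 4 a c`, have the
degrees `d - 2` and `2 d - 2`, and such that `a δ` has more than `2 + S` roots `t`, where `S` is the
sum of `1 + e` over those of them at which `e = (1/2 - 3/d) β - (1 - 3/d) α` is a natural number;
here `α` and `β` are the multiplicities of `t` as a root of `a` and of `δ`. So the curve `f = 0` of
degree `d` has a point of multiplicity `d - 2`. -/
def QuadForm (d : ℕ) (f : MvPolynomial (Fin 3) ℂ) : Prop :=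
  ∃ (A : Matrix (Fin 3) (Fin 3) ℂ) (a b c : MvPolynomial (Fin 2) ℂ), A.det ≠ 0 ∧
    lin A f = rename Fin.castSucc a * X 2 ^ 2 + rename Fin.castSucc b * X 2 +
      rename Fin.castSucc c ∧
    (binPoly a).natDegree + 2 = d ∧ (binPoly (b ^ 2 - 4 * a * c)).natDegree + 2 = 2 * d ∧
    QPos d (binPoly a) (binPoly (b ^ 2 - 4 * a * c))

theorem ev01_rename (a : MvPolynomial (Fin 2) ℂ) : ev01 (rename Fin.castSucc a) = binPoly a := by
  rw [ev01, binPoly, aeval_rename]
  congr 1
  ext i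
  fin_cases i <;> simp

theorem natDegree_ev01 {N : ℤ} (hN : 0 ≤ N) {κ : MvPolynomial (Fin 3) ℂ} (h : Dle N κ) :
    ((ev01 κ).natDegree : ℤ) ≤ N := by
  obtain ⟨n, rfl⟩ := Int.eq_ofNat_of_zero_le hN
  have h1 : (ev01 κ).natDegree ≤ n := by
    rw [κ.as_sum, map_sum]
    refine Polynomial.natDegree_sum_le_of_forall_le _ _ fun m hm => ?_
    have hm' := h m (mem_support_iff.1 hm)
    rw [mw, Fin.sum_univ_three] at hm'
    rw [ev01, aeval_monomial, Finsupp.prod_fintype _ _ (by simp), Fin.prod_univ_three]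
    simp only [Matrix.cons_val_zero, Matrix.cons_val_one, Matrix.cons_val_two, one_pow, mul_one,
      Matrix.tail_cons, Matrix.head_cons]
    have e1 : (algebraMap ℂ (Polynomial ℂ) (coeff m κ) * (Polynomial.X ^ m 0 * 0 ^ m 2) :
        Polynomial ℂ) = Polynomial.C (coeff m κ * 0 ^ m 2) * Polynomial.X ^ m 0 := by
      rw [Polynomial.C_mul, Polynomial.C_pow, Polynomial.C_0]
      change Polynomial.C _ * _ = _
      ring
    have e2 : (![Polynomial.X, 1, 0] : Fin 3 → Polynomial ℂ) 2 = 0 := rfl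
    try rw [e2]
    rw [e1]
    refine le_trans (Polynomial.natDegree_C_mul_X_pow_le _ _) ?_
    omega
  exact_mod_cast h1

theorem dle_of_homog {n : ℕ} {p : MvPolynomial (Fin 3) ℂ} (hp : p.IsHomogeneous n) : Dle n p := by
  intro m hm
  have h1 := hp hm
  rw [Finsupp.weight_apply, Finsupp.sum_fintype _ _ (by simp), Fin.sum_univ_three] at h1
  rw [mw, Fin.sum_univ_three]
  simp only [Pi.one_apply, smul_eq_mul, mul_one] at h1
  push_cast [← h1]
  linarith

theorem not_exact_quad {d : ℕ} (hd : ¬ d ∣ 6) {f : MvPolynomial (Fin 3) ℂ}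
    (hf : f.IsHomogeneous d) (h : QuadForm d f) : f ≠ 0 ∧ ¬ Exact d f (-3 / d) := by
  obtain ⟨A, a, b, c, hA, hG, had, hδd, hpos⟩ := h
  set δ := b ^ 2 - 4 * a * c with hδ
  set a' : MvPolynomial (Fin 3) ℂ := rename Fin.castSucc a with ha'
  set b' : MvPolynomial (Fin 3) ℂ := rename Fin.castSucc b with hb'
  set c' : MvPolynomial (Fin 3) ℂ := rename Fin.castSucc c with hc'
  have hd0 : d ≠ 0 := by omega
  have hd1 : d ≠ 1 := by rintro rfl; exact hd (by norm_num)
  have hd2 : d ≠ 2 := by rintro rfl; exact hd (by norm_num)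
  have ha0 : binPoly a ≠ 0 := by
    intro h0
    rw [h0, Polynomial.natDegree_zero] at had
    omega
  have hδ0 : binPoly δ ≠ 0 := by
    intro h0
    rw [h0, Polynomial.natDegree_zero] at hδd
    omega
  have ha0' : a' ≠ 0 := by
    intro h0
    apply ha0
    rw [← ev01_rename, ← ha', h0, map_zero]
  set δ' : MvPolynomial (Fin 3) ℂ := rename Fin.castSucc δ with hδ'
  have hδe : δ' = b' ^ 2 - 4 * a' * c' := by
    rw [hδ', hδ, map_sub, map_pow, map_mul, map_mul, ← ha', ← hb', ← hc']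
    congr 2
    rw [map_ofNat]
  set G := lin A f with hGdef
  have hGh : G.IsHomogeneous d := lin_homog A hf
  set E : MvPolynomial (Fin 3) ℂ := C 2 * a' * X 2 + b' with hEdef
  have hA2 : pderiv 2 a' = 0 := pderiv2_ren a
  have hb2 : pderiv 2 b' = 0 := pderiv2_ren b
  have hc2 : pderiv 2 c' = 0 := pderiv2_ren c
  have hδ2 : pderiv 2 δ' = 0 := pderiv2_ren δ
  have h22 : (C 2 : MvPolynomial (Fin 3) ℂ) = 2 := map_ofNat C 2
  have h44 : (C 4 : MvPolynomial (Fin 3) ℂ) = 4 := map_ofNat C 4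
  have hGE : pderiv 2 G = E := by
    rw [hG, hEdef, h22]
    simp only [Derivation.map_add, Derivation.leibniz, Derivation.leibniz_pow, hA2, hb2, hc2,
      pderiv_X_self, smul_eq_mul, nsmul_eq_mul, mul_zero, add_zero, mul_one]
    push_cast
    ring
  have hE2 : pderiv 2 E = C 2 * a' := by
    rw [hEdef]
    simp only [Derivation.map_add, Derivation.leibniz, pderiv_C, hA2, hb2,
      pderiv_X_self, smul_eq_mul, mul_zero, add_zero, mul_one]
  have hD : E ^ 2 = δ' + C 4 * (a' * G) := by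
    rw [hG, hEdef, hδe, h22, h44]
    ring
  have hah : a'.IsHomogeneous (d - 1 - 1) := by
    have h1 : (pderiv 2 (pderiv 2 G)).IsHomogeneous (d - 1 - 1) := hGh.pderiv.pderiv
    rw [hGE, hE2] at h1
    have h2 := (isHomogeneous_C (Fin 3) (2⁻¹ : ℂ)).mul h1
    rwa [zero_add, ← mul_assoc, ← C_mul, inv_mul_cancel₀ (two_ne_zero' ℂ), C_1, one_mul] at h2
  have hAd : Dle ((d : ℤ) - 2) a' := by
    refine (dle_of_homog hah).mono' ?_
    omega
  have hG0 : G ≠ 0 := by
    intro h0
    rw [h0, map_zero] at hGE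
    rw [← hGE, map_zero] at hE2
    rcases mul_eq_zero.1 hE2.symm with h1 | h1
    · rw [C_eq_zero] at h1
      exact two_ne_zero h1
    · exact ha0' h1
  have hf0 : f ≠ 0 := by
    rintro rfl
    exact hG0 (by rw [hGdef, map_zero])
  refine ⟨hf0, fun hE => ?_⟩
  have hdc : (d : ℂ) ≠ 0 := Nat.cast_ne_zero.2 hd0
  have hs : ∀ n : ℤ, 2 * (-3 / d : ℂ) + n ≠ 0 := by
    intro n h0
    have h1 : (n : ℂ) * d = 6 := by
      field_simp at h0
      linear_combination h0
    have h2 : n * d = 6 := by exact_mod_cast h1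
    have h3 : (d : ℤ) ∣ 6 := ⟨n, by rw [← h2]; ring⟩
    exact hd (by exact_mod_cast h3)
  have hds : (d : ℂ) * (-3 / d) = -3 := by field_simp
  obtain ⟨K, P, Q, hP, -, hEq⟩ := exact_two hGh hds (exact_lin hE A (isUnit_iff_ne_zero.2 hA))
  have hY : pderiv 2 (X 1 : MvPolynomial (Fin 3) ℂ) = 0 :=
    pderiv_X_of_ne (by decide : (1 : Fin 3) ≠ 2)
  obtain ⟨M, κ, C1, C2, hC1, hC2, hκ, hfin⟩ := quad_eq (G := G) (A := a') (E := E) (Δ := δ')
    (s := -3 / d) (K := K) (d := d) (Y := X 1) (P := P) (Q := Q) ha0' hA2 hGE hE2 hδ2 hD hs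
    (dle_of_homog hGh) hAd hY (dle_of_homog hP) hEq
  have hX1 : ev01 (X 1) = 1 := by simp [ev01]
  have hC : ∀ c : ℂ, ev01 (C c) = Polynomial.C c := by
    intro c
    rw [ev01, aeval_C]; rfl
  have h1 := congrArg ev01 hfin
  have hea : ev01 a' = binPoly a := ev01_rename a
  have heδ : ev01 δ' = binPoly δ := ev01_rename δ
  simp only [map_add, map_sub, map_mul, map_pow, hX1, one_mul, ev01_pderiv, hC, hea, heδ] at h1
  have hN : (0 : ℤ) ≤ ((d * K + 2 : ℕ) : ℤ) + M * ((d : ℤ) - 2) := by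
    have : (2 : ℤ) ≤ d := by omega
    have h3 : (0 : ℤ) ≤ (M : ℤ) * ((d : ℤ) - 2) := mul_nonneg (by positivity) (by linarith)
    positivity
  have hkd := natDegree_ev01 hN hκ
  push_cast at hkd
  refine quad_count (s := -3 / d) (M := M) (K := K) (k := ev01 κ) rfl (Nat.pos_of_ne_zero hd0)
    ha0 hδ0 hC1 hC2 had hδd hkd hpos ?_
  simp only [← Polynomial.C_sub, ← Polynomial.C_add] at h1
  exact h1

end Pool.Agent.Helper748.MC
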