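import Pool.Agent.helper748_mc.Thm

set_option autoImplicit false
set_option linter.unusedSectionVars false

/-! # The motivic zeta functions of `∑ y_j f_j(x₀, x₁, x₂)` at the points `(P, 0)` -/

namespace Pool.Agent.Helper748.MC

open MvPolynomial Pool.Agent.W574.SM Pool.Agent.W574.CN Pool.Agent.W574.MO Pool.Agent.W574.HS
  Pool.Agent.W574.LM Pool.Agent.H628R4.TP

variable {ι : Type} [Fintype ι] [DecidableEq ι]

/-- `b(-3/d) = 0` for the Bernstein-Sato polynomial of `F = ∑ y_j f_j`, if three of the forms have a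
nonzero Jacobian determinant or if a linear combination of the forms is strictly semistable. -/
theorem root_of_form (f : ι → MvPolynomial (Fin 3) ℂ) (d : ℕ) (hd : 0 < d)
    (hf : ∀ j, (f j).IsHomogeneous d) (b : Polynomial ℂ) (hb : IsFunctionalEq f b)
    (h : (∃ e : Fin 3 → ι, (Matrix.of fun s t => pderiv s (f (e t))).det ≠ 0) ∨
      ∃ lam : ι → ℂ, StrictlySemistable (lcomb f lam) ∨ BoundaryForm d (lcomb f lam)) :
    b.eval (-3 / d : ℂ) = 0 := by
  rcases h with ⟨e, he⟩ | ⟨lam, h⟩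
  · have h2 := generic_root f d hd hf b hb e he
    have h3 : -(((2 : ℕ) : ℂ) + 1) / d = -3 / d := by push_cast; ring
    rw [← h3]
    exact h2
  · have hlc : (lcomb f lam).IsHomogeneous d := by
      rw [lcomb]
      exact IsHomogeneous.sum _ _ _ fun j _ => by
        simpa using (isHomogeneous_C (Fin 3) (lam j)).mul (hf j)
    obtain ⟨hne, hE⟩ := not_exact_of hd hlc h
    exact root_of_not_exact f d hd hf b hb lam hne hE

variable {M : Type} [CommRing M] (L : Mˣ)

/-- `Z` is (of the form of) the local motivic zeta function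
`Z_{F,0}(T) = ∑_{m ≥ 1} [X_{m,1,0}] L^(-m N) T^m` at the origin of the polynomial
`F = ∑ y_j f_j(x₀, x₁, x₂)` in `N = 3 + |ι|` variables, where the `f_j` are forms of degree `d`, and
`X_{m,1,0}` is the set of the `m`-jets `φ` with `φ(0) = 0` and `F(φ) = t^m` modulo `t^(m + 1)`:
`Z = L³ Z_{I,0} L⁻¹ T / (1 - L⁻¹ T)`, where `Z_{I,0} = L⁻³ Z_J (L - 1) L⁻³ T^d / (1 - L⁻³ T^d)` is
the local motivic zeta function of the ideal `I = (f_j)` at the origin, see `ConeMot`, and `ProjMot`
for `Z_J`.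

(Compare `JetFormMot`: for fixed `x(t)` with `e = min_j ord f_j(x(t))` one has
`F(x(t), y(t)) = t^e ℓ(y(t))` with a linear form `ℓ` one of whose coefficients is a unit, so that
the integral over the arcs `y(t)` with `y(0) = 0`, such that the first nonzero coefficient of
`F(φ)` is `1`, is `T^e L^(-|ι|) L⁻¹ T / (1 - L⁻¹ T)`.) -/
def ConeJetLocalMot (f : ι → MvPolynomial (Fin 3) ℂ) (d : ℕ) (Z : PowerSeries M) : Prop :=
  ∃ Z' : PowerSeries M, ProjMot L f Z' ∧
    Z = PowerSeries.C ((L⁻¹ : Mˣ) : M) * (Z' * mf L d 3) * (PowerSeries.X * geo L 1 1)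

theorem cone_jet_local (f : ι → MvPolynomial (Fin 3) ℂ) (d : ℕ)
    (hf : ∀ j, (f j).IsHomogeneous d) (hf0 : ∃ j, f j ≠ 0) (b : Polynomial ℂ)
    (hb : Pool.Agent.H628R4.TP.IsBFunction (univ f) b) (hr : b.eval (-3 / d : ℂ) = 0)
    (Z : PowerSeries M) (hZ : ConeJetLocalMot L f d Z) : Z ∈ DenRing L (RootPair b) := by
  obtain ⟨Z', hZ', rfl⟩ := hZ
  have hb' := functionalEq_of_univ f b hb
  refine Subring.mul_mem _ (Subring.mul_mem _ (C_mem _) (Subring.mul_mem _ ?_ ?_))
    (Subring.mul_mem _ X_mem ?_)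
  · exact proj_of L f d hf b hb' Z' hZ'
  · exact mf_mem (by norm_num) fun _ => pair_of hr
  · exact geo11_mem L b (minus_one_form f hf0 b hb)

/-- The points `(P, 0)` with `P ≠ 0`, in the coordinates `x_i ≠ 0`, `x_j / x_i`. -/
theorem cone_jet_point (f : ι → MvPolynomial (Fin 3) ℂ) (d : ℕ)
    (hf : ∀ j, (f j).IsHomogeneous d) (hf0 : ∃ j, f j ≠ 0) (b : Polynomial ℂ)
    (hb : Pool.Agent.H628R4.TP.IsBFunction (univ f) b) (i : Fin 3) (Q : Fin 2 → ℂ)
    (Z : PowerSeries M) (hZ : JetFormMot L (fun j => deh i (f j)) Q Z) :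
    Z ∈ DenRing L (RootPair b) := by
  obtain ⟨Z', hZ', rfl⟩ := hZ
  have hb' := functionalEq_of_univ f b hb
  refine Subring.mul_mem _ (Subring.mul_mem _ (C_mem _) ?_) (Subring.mul_mem _ X_mem ?_)
  · exact point_mot L _ b 1 (locEq_one _ b (functionalEq_deh i f d hf b hb')) Q
      (by rw [map_one]; exact one_ne_zero) Z' hZ'
  · exact geo11_mem L b (minus_one_form f hf0 b hb)

end Pool.Agent.Helper748.MC
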