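import Pool.Agent.helper748_mc.Strict
import Pool.Agent.W574.MO.Cone

set_option autoImplicit false
set_option linter.unusedSectionVars false

/-! # The zeta functions of ternary forms which are not exact -/

namespace Pool.Agent.Helper748.MC

open MvPolynomial Pool.Agent.W574.SM Pool.Agent.W574.CN Pool.Agent.W574.MO Pool.Agent.W574.HS
  Pool.Agent.H628R4.TP

section Unit

variable {σ : Type} [Fintype σ] [DecidableEq σ]

/-- A functional equation of a polynomial is a functional equation of the principal ideal. -/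
theorem funEq_unit (f : MvPolynomial σ ℂ) (b : Polynomial ℂ) (hb : IsBFunction f b) :
    IsFunctionalEq (fun _ : Unit => f) b := by
  classical
  obtain ⟨P, hP⟩ := hb
  set P' : ℕ → weyl σ := fun m => ⟨(P m : Module.End ℂ (MvPolynomial σ ℂ)), (P m).2⟩ with hP'
  refine ⟨{fun _ => 1}, fun _ => ∑ m ∈ P.support, Finsupp.single (Finsupp.single () m) (P' m),
    fun c hc => ?_, fun s => ?_⟩
  · rw [Finset.mem_singleton] at hc
    rw [hc]
    simp
  · have h1 : ∀ (T : Finset ℕ) (g : MvPolynomial σ ℂ), applyAt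
        (∑ m ∈ T, Finsupp.single (Finsupp.single () m) (P' m)) s g =
        ∑ m ∈ T, ((s () : ℂ) ^ m) • (P m : Module.End ℂ (MvPolynomial σ ℂ)) g := by
      intro T g
      rw [applyAt_sum]
      refine Finset.sum_congr rfl fun m _ => ?_
      rw [applyAt, Finsupp.sum_single_index]
      · rw [Finset.univ_unique, Finset.prod_singleton, PUnit.default_eq_unit,
          Finsupp.single_eq_same]
      · simp
    have h2 := hP (s ())
    rw [Finsupp.sum] at h2
    simp only [Finset.sum_singleton, Finset.univ_unique, Finset.prod_singleton,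
      PUnit.default_eq_unit]
    rw [h1]
    have h3 : C (((if (1 : ℤ) < 0 then (s ()).choose (-1 : ℤ).toNat else 1 : ℕ) : ℕ) : ℂ) *
        f ^ ((s () : ℤ) + 1).toNat = f ^ (s () + 1) := by
      rw [if_neg (by norm_num)]
      simp only [Nat.cast_one, C_1, one_mul]
      congr 1
    rw [h3]
    exact h2

end Unit

section Main

variable {ι : Type} [Fintype ι] [DecidableEq ι]

/-- `b(-3/d) = 0`, if a member of the linear system is not exact. -/
theorem root_of_not_exact (f : ι → MvPolynomial (Fin 3) ℂ) (d : ℕ) (hd : 0 < d)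
    (hf : ∀ j, (f j).IsHomogeneous d) (b : Polynomial ℂ) (hb : IsFunctionalEq f b) (lam : ι → ℂ)
    (hne : lcomb f lam ≠ 0) (hE : ¬ Exact d (lcomb f lam) (-3 / d)) : b.eval (-3 / d : ℂ) = 0 := by
  by_contra h
  exact hE (exact_of_b f lam d hd hf b hb hne _ h)

theorem top_of_not_exact (f : ι → MvPolynomial (Fin 3) ℂ) (d : ℕ) (hd : 0 < d)
    (hf : ∀ j, (f j).IsHomogeneous d) (b : Polynomial ℂ) (hb : IsFunctionalEq f b) (lam : ι → ℂ)
    (hne : lcomb f lam ≠ 0) (hE : ¬ Exact d (lcomb f lam) (-3 / d))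
    (Z : RatFunc ℂ) (hZ : ConeZeta f d Z) (s0 : ℂ) (hs0 : Z.denom.eval s0 = 0) :
    b.eval s0 = 0 := by
  by_cases h : s0 = -3 / d
  · rw [h]
    exact root_of_not_exact f d hd hf b hb lam hne hE
  · exact cone_main f d hd hf b hb Z hZ s0 hs0 (Or.inl h)

variable {M : Type} [CommRing M] (L : Mˣ)

theorem proj_of (f : ι → MvPolynomial (Fin 3) ℂ) (d : ℕ)
    (hf : ∀ j, (f j).IsHomogeneous d) (b : Polynomial ℂ) (hb : IsFunctionalEq f b)
    (Z : PowerSeries M) (hZ : ProjMot L f Z) : Z ∈ DenRing L (RootPair b) := by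
  obtain ⟨Zc, hZc, rfl⟩ := hZ
  exact Subring.sum_mem _ fun i _ => plane_mot L _ b (functionalEq_deh i f d hf b hb) _ (hZc i)

theorem pair_of {d : ℕ} {b : Polynomial ℂ} (h : b.eval (-3 / d : ℂ) = 0) : RootPair b d 3 := by
  rw [RootPair]
  have : -((3 : ℕ) : ℂ) / d = -3 / d := by push_cast; ring
  rw [this]
  exact h

/-- The local motivic zeta function. -/
theorem mot_local_of (f : ι → MvPolynomial (Fin 3) ℂ) (d : ℕ)
    (hf : ∀ j, (f j).IsHomogeneous d) (b : Polynomial ℂ) (hb : IsFunctionalEq f b)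
    (hr : b.eval (-3 / d : ℂ) = 0) (Z : PowerSeries M) (hZ : ConeMot L f d Z) :
    Z ∈ DenRing L (RootPair b) := by
  obtain ⟨Z', hZ', rfl⟩ := hZ
  exact Subring.mul_mem _ (Subring.mul_mem _ (C_mem _) (proj_of L f d hf b hb Z' hZ'))
    (mf_mem (by norm_num) fun _ => pair_of hr)

/-- `Z` is (of the form of) the global motivic zeta function of the ideal `I = (f_j)` of
`ℂ[x₀, x₁, x₂]` which is generated by forms `f_j` of degree `d`:
`Z = L⁻³ (L - 1) Z_J / (1 - L⁻³ T^d)`, see `ProjMot` for `Z_J`.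

An arc of `ℂ ^ 3` is `t^k x(t)` with `k ≥ 0` and `x(0) ≠ 0`, so that `Z` is `∑_k (L⁻³ T^d)^k` times
the integral over the arcs with `x(0) ≠ 0`, which is `L⁻³ (L - 1) Z_J`, because `ℂ ^ 3 ∖ 0` is,
over the sets `x_i ≠ 0`, the product of the projective plane with `ℂ ∖ 0`. -/
def ConeGlobalMot (L : Mˣ) (f : ι → MvPolynomial (Fin 3) ℂ) (d : ℕ) (Z : PowerSeries M) : Prop :=
  ∃ Z' : PowerSeries M, ProjMot L f Z' ∧
    Z = PowerSeries.C (((L⁻¹ ^ 3 : Mˣ) : M) * ((L : M) - 1)) * Z' * geo L d 3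

/-- The global motivic zeta function. -/
theorem mot_global_of (f : ι → MvPolynomial (Fin 3) ℂ) (d : ℕ) (hd : 0 < d)
    (hf : ∀ j, (f j).IsHomogeneous d) (b : Polynomial ℂ) (hb : IsFunctionalEq f b)
    (hr : b.eval (-3 / d : ℂ) = 0) (Z : PowerSeries M) (hZ : ConeGlobalMot L f d Z) :
    Z ∈ DenRing L (RootPair b) := by
  obtain ⟨Z', hZ', rfl⟩ := hZ
  exact Subring.mul_mem _ (Subring.mul_mem _ (C_mem _) (proj_of L f d hf b hb Z' hZ'))
    (geo_mem hd (by norm_num) (pair_of hr))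

end Main

section Statement

/-- `f` is semistable and not stable (Hilbert-Mumford criterion). -/
def StrictlySemistable (f : MvPolynomial (Fin 3) ℂ) : Prop := Semistable f ∧ ¬ Stable f

/-- There are linear coordinates (given by the matrix `A`) and a weight `w ≠ 0` with
`w_0 + w_1 + w_2 = 0` such that all monomials `x ^ m` of `f(A x)` have `w · m ≥ 0`, the barycenter
`(d/3, d/3, d/3)` is in the convex hull of the `m` with `w · m = 0`, and none of these `m` has
`m_i = 0` and `m_j = 2 d / 3` for some `i`, `j`. So the barycenter lies on an edge of the Newton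
polygon of `f(A x)` (or is a vertex of it). -/
def BoundaryForm (d : ℕ) (f : MvPolynomial (Fin 3) ℂ) : Prop :=
  ∃ (A : Matrix (Fin 3) (Fin 3) ℂ) (w : Fin 3 → ℤ), A.det ≠ 0 ∧ ∑ i, w i = 0 ∧ w ≠ 0 ∧
    (∀ m ∈ (lin A f).support, 0 ≤ ∑ i, w i * (m i : ℤ)) ∧
    (fun _ => (d : ℝ) / 3) ∈ convexHull ℝ {x : Fin 3 → ℝ | ∃ m ∈ (lin A f).support,
      ∑ i, w i * (m i : ℤ) = 0 ∧ x = fun i => (m i : ℝ)} ∧
    ∀ m ∈ (lin A f).support, ∑ i, w i * (m i : ℤ) = 0 → ∀ i j, m i = 0 → 3 * m j ≠ 2 * d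

theorem exists_of_hull (d : ℕ) (S : Set (Fin 3 →₀ ℕ)) (e : Fin 3 → ℤ) (he : ∑ i, e i = 0)
    (h : (fun _ => (d : ℝ) / 3) ∈ convexHull ℝ {x : Fin 3 → ℝ | ∃ m ∈ S,
      x = fun i => (m i : ℝ)}) : ∃ m ∈ S, mw e m ≤ 0 := by
  by_contra hne
  push Not at hne
  set H : Set (Fin 3 → ℝ) := {x | 0 < ∑ i, (e i : ℝ) * x i} with hH
  have hconv : Convex ℝ H := by
    intro x hx y hy a b ha hb hab
    rw [hH, Set.mem_setOf_eq] at hx hy ⊢
    have h1 : ∑ i, (e i : ℝ) * (a • x + b • y) i =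
        a * ∑ i, (e i : ℝ) * x i + b * ∑ i, (e i : ℝ) * y i := by
      rw [Finset.mul_sum, Finset.mul_sum, ← Finset.sum_add_distrib]
      refine Finset.sum_congr rfl fun i _ => ?_
      simp only [Pi.add_apply, Pi.smul_apply, smul_eq_mul]
      ring
    rw [h1]
    rcases ha.eq_or_lt with h2 | h2
    · have hb1 : b = 1 := by rw [← h2] at hab; linarith
      rw [← h2, hb1]
      linarith
    · have h3 := mul_pos h2 hx
      have h4 := mul_nonneg hb hy.le
      linarith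
  have hsub : {x : Fin 3 → ℝ | ∃ m ∈ S, x = fun i => (m i : ℝ)} ⊆ H := by
    rintro x ⟨m, hm, rfl⟩
    rw [hH, Set.mem_setOf_eq]
    have h1 := hne m hm
    have h2 : (0 : ℝ) < (mw e m : ℤ) := by exact_mod_cast h1
    rw [mw] at h2
    push_cast at h2
    exact h2
  have h1 := convexHull_min hsub hconv h
  rw [hH, Set.mem_setOf_eq, ← Finset.sum_mul] at h1
  have h2 : (∑ i, (e i : ℝ)) = 0 := by exact_mod_cast he
  rw [h2, zero_mul] at h1
  exact lt_irrefl _ h1

theorem BoundaryForm.face {d : ℕ} {f : MvPolynomial (Fin 3) ℂ} (h : BoundaryForm d f) :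
    ∃ A w, FaceCond d f A w := by
  obtain ⟨A, w, hA, hw, hw0, hge, hhull, hex⟩ := h
  have hw3 : w 0 + w 1 + w 2 = 0 := by rwa [Fin.sum_univ_three] at hw
  have he : ∑ i, ev w i = 0 := by
    rw [Fin.sum_univ_three]
    change (w 1 - w 2) + (w 2 - w 0) + (w 0 - w 1) = 0
    ring
  have hset : {x : Fin 3 → ℝ | ∃ m ∈ (lin A f).support,
      ∑ i, w i * (m i : ℤ) = 0 ∧ x = fun i => (m i : ℝ)} = {x : Fin 3 → ℝ | ∃ m ∈
        {m : Fin 3 →₀ ℕ | m ∈ (lin A f).support ∧ ∑ i, w i * (m i : ℤ) = 0},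
          x = fun i => (m i : ℝ)} := by
    ext x
    simp only [Set.mem_setOf_eq]
    constructor
    · rintro ⟨m, h1, h2, h3⟩; exact ⟨m, ⟨h1, h2⟩, h3⟩
    · rintro ⟨m, ⟨h1, h2⟩, h3⟩; exact ⟨m, h1, h2, h3⟩
  rw [hset] at hhull
  refine ⟨A, w, hA, hw3, hw0, fun m hm => hge m (mem_support_iff.2 hm), ?_, ?_,
    fun m hm hmw => hex m (mem_support_iff.2 hm) hmw⟩
  · obtain ⟨m, ⟨h1, h2⟩, h3⟩ := exists_of_hull d _ (ev w) he hhull
    exact ⟨m, mem_support_iff.1 h1, h2, h3⟩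
  · obtain ⟨m, ⟨h1, h2⟩, h3⟩ := exists_of_hull d _ (fun i => - ev w i) (by
      rw [Finset.sum_neg_distrib, he, neg_zero]) hhull
    refine ⟨m, mem_support_iff.1 h1, h2, ?_⟩
    have h4 : mw (fun i => - ev w i) m = - mw (ev w) m := by
      rw [mw, mw, ← Finset.sum_neg_distrib]
      exact Finset.sum_congr rfl fun i _ => by ring
    rw [h4] at h3
    linarith

theorem not_exact_of {d : ℕ} (hd : 0 < d) {f : MvPolynomial (Fin 3) ℂ} (hf : f.IsHomogeneous d)
    (h : StrictlySemistable f ∨ BoundaryForm d f) : f ≠ 0 ∧ ¬ Exact d f (-3 / d) := by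
  have hF : ∃ A w, FaceCond d f A w := by
    rcases h with h | h
    · exact exists_face hd hf h.1 h.2
    · exact h.face
  obtain ⟨A, w, hF⟩ := hF
  refine ⟨?_, hF.not_exact hd hf⟩
  rintro rfl
  obtain ⟨_, _, _, _, ⟨m, hm, _⟩, _⟩ := hF
  rw [map_zero, coeff_zero] at hm
  exact hm rfl

end Statement

end Pool.Agent.Helper748.MC
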