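import Pool.Agent.W574.PA.Forms
import Pool.Agent.helper748_mc.Thm

set_option autoImplicit false
set_option linter.unusedSectionVars false

/-! # The Igusa zeta functions of ternary forms which are not exact

The power series of this file are the expansions of Igusa zeta functions in powers of
`T = p^(-s)`; they are rational functions of `T`. -/

namespace Pool.Agent.Helper748.MC

open MvPolynomial Pool.Agent.W574.SM Pool.Agent.W574.CN Pool.Agent.W574.MO Pool.Agent.W574.HS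
  Pool.Agent.W574.PA Pool.Agent.H628R4.TP

variable {ι : Type} [Fintype ι] [DecidableEq ι]

/-- `Z` is (of the form of) the Igusa zeta function `∫ max_j |f_j(x)| ^ s dμ` on `ℤ_p ^ 3`, as a
power series in `T = p^(-s)`, of the ideal generated by the forms `f_j` of degree `d` with rational
coefficients, for a prime number `p` of good reduction: `Z = p⁻³ (p - 1) Z_J / (1 - p⁻³ T^d)`,
where `Z_J = Z₀ + Z₁ + Z₂` is the sum of the contributions of the points of the projective plane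
with `x₀ ≠ 0`, with `x₀ = 0`, `x₁ ≠ 0`, and with `x₀ = x₁ = 0`, see `PlaneFrob`. (A point of
`ℤ_p ^ 3` is `p^k x` with `k ≥ 0` and `x ≠ 0` modulo `p`, and the integral over the `x` which are
non-zero modulo `p` is `p⁻³ (p - 1) Z_J`.) If there is only one form `f`, this is the Igusa zeta
function `∫ |f(x)| ^ s dμ` of `f`. -/
def PadicConeZeta (p : ℕ) (hp : p.Prime) (f : ι → MvPolynomial (Fin 3) ℚ) (d : ℕ)
    (Z : PowerSeries ℚ) : Prop :=
  ∃ (τ : ℂ ≃+* ℂ) (Zc : Fin 3 → PowerSeries ℚ),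
    (∀ i, PlaneFrob τ (pu p hp) (fun j => deh i (cx f j)) (Zc i)) ∧
    Z = PowerSeries.C ((((pu p hp)⁻¹ ^ 3 : ℚˣ) : ℚ) * ((p : ℚ) - 1)) * (∑ i, Zc i) *
      geo (pu p hp) d 3

theorem padic_of (p : ℕ) (hp : p.Prime) (f : ι → MvPolynomial (Fin 3) ℚ) (d : ℕ)
    (hd : 0 < d) (hf : ∀ j, (f j).IsHomogeneous d) (b : Polynomial ℂ)
    (hb : IsFunctionalEq (cx f) b) (hr : b.eval (-3 / d : ℂ) = 0)
    (Z : PowerSeries ℚ) (hZ : PadicConeZeta p hp f d Z) (s : ℂ)
    (hs : IsPoleAt Z ((p : ℂ) ^ (-s))) : b.eval (s.re : ℂ) = 0 := by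
  obtain ⟨τ, Zc, hZc, rfl⟩ := hZ
  have hf' : ∀ j, (cx f j).IsHomogeneous d := fun j => (hf j).map _
  refine re_root p hp b ?_ s hs
  refine Subring.mul_mem _ (Subring.mul_mem _ (C_mem _) (Subring.sum_mem _ fun i _ => ?_))
    (geo_mem hd (by norm_num) (pair_of hr))
  exact plane_frob τ (pu p hp) (fun j => deh i (cx f j)) (tm_cx_deh τ f i) b
    (functionalEq_deh i (cx f) d hf' b hb) _ (hZc i)

theorem padic_form_of (p : ℕ) (hp : p.Prime) (f : ι → MvPolynomial (Fin 3) ℚ) (d : ℕ)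
    (hd : 0 < d) (hf : ∀ j, (f j).IsHomogeneous d) (hf0 : ∃ j, f j ≠ 0)
    (b : Polynomial ℂ) (hb : Pool.Agent.H628R4.TP.IsBFunction (univ (cx f)) b)
    (hr : b.eval (-3 / d : ℂ) = 0)
    (Z : PowerSeries ℚ) (hZ : PadicConeFormZeta p hp f d Z) (s : ℂ)
    (hs : IsPoleAt Z ((p : ℂ) ^ (-s))) : b.eval (s.re : ℂ) = 0 := by
  obtain ⟨τ, Zc, hZc, rfl⟩ := hZ
  have hf' : ∀ j, (cx f j).IsHomogeneous d := fun j => (hf j).map _
  have hb' := functionalEq_of_univ (cx f) b hb
  refine re_root p hp b ?_ s hs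
  refine Subring.mul_mem _ (Subring.mul_mem _ (Subring.mul_mem _ (C_mem _)
    (Subring.sum_mem _ fun i _ => ?_))
    (geo_mem hd (by norm_num) (pair_of hr)))
    (geo11_mem _ b (minus_one_form (cx f) (cx_ne_zero f hf0) b hb))
  exact plane_frob τ (pu p hp) (fun j => deh i (cx f j)) (tm_cx_deh τ f i) b
    (functionalEq_deh i (cx f) d hf' b hb') _ (hZc i)

end Pool.Agent.Helper748.MC
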