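import Pool.Agent.helper748_mc.Fan
import Pool.Agent.helper748_mc.Mot
import Pool.Agent.helper748_mc.Padic

set_option autoImplicit false
set_option linter.unusedSectionVars false

/-! # The root `-3/d` and the zeta functions of ternary forms -/

namespace Pool.Agent.Helper748.MC

open MvPolynomial Pool.Agent.W574.SM Pool.Agent.W574.CN Pool.Agent.W574.MO Pool.Agent.W574.HS
  Pool.Agent.W574.LM Pool.Agent.H628R4.TP

theorem global_of (f : MvPolynomial (Fin 3) ℂ) (hf0 : f ≠ 0) (d : ℕ) (hf : f.IsHomogeneous d)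
    (b : Polynomial ℂ) (hb : IsBFunction f b ∨ IsLocalBFunction f b) : IsBFunction f b := by
  rcases hb with hb | hb
  · exact hb
  · exact global_of_local f hf0 d hf b hb

theorem minus_one_single (f : MvPolynomial (Fin 3) ℂ) (d : ℕ) (hd : 0 < d)
    (hf : f.IsHomogeneous d) (hf0 : f ≠ 0) (b : Polynomial ℂ) (hb : IsBFunction f b) :
    b.eval (-1) = 0 := by
  obtain ⟨P, hP⟩ := hb
  refine minus_one f 1 hf0 ?_ b P fun s => ?_
  · rintro ⟨g, hg⟩
    have h1 := congrArg constantCoeff hg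
    have h2 : constantCoeff f = 0 := by
      rw [constantCoeff_eq]
      by_contra h3
      have := hf h3
      rw [map_zero] at this
      omega
    rw [map_one, map_mul, h2, zero_mul] at h1
    exact one_ne_zero h1
  · rw [one_mul]
    exact hP s

variable {ι : Type} [Fintype ι] [DecidableEq ι]

theorem lcomb_homog {f : ι → MvPolynomial (Fin 3) ℂ} {d : ℕ} (hf : ∀ j, (f j).IsHomogeneous d)
    (lam : ι → ℂ) : (lcomb f lam).IsHomogeneous d := by
  rw [lcomb]
  exact IsHomogeneous.sum _ _ _ fun j _ => by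
    simpa using (isHomogeneous_C (Fin 3) (lam j)).mul (hf j)

theorem exists_ne_of_lcomb {f : ι → MvPolynomial (Fin 3) ℂ} {lam : ι → ℂ}
    (h : lcomb f lam ≠ 0) : ∃ j, f j ≠ 0 := by
  by_contra hcon
  push Not at hcon
  apply h
  rw [lcomb]
  refine Finset.sum_eq_zero fun j _ => ?_
  rw [hcon j, mul_zero]

theorem lcomb_unit (f : MvPolynomial (Fin 3) ℂ) :
    lcomb (fun _ : Unit => f) (fun _ => 1) = f := by
  rw [lcomb, Finset.univ_unique, Finset.sum_singleton, C_1, one_mul]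

/-- The root `-3/d` of the Bernstein-Sato polynomial of a form with `FanForm`. -/
theorem fan_single (f : MvPolynomial (Fin 3) ℂ) (d : ℕ) (hd : 0 < d) (hf : f.IsHomogeneous d)
    (h : FanForm f) (b : Polynomial ℂ) (hb : IsBFunction f b) : b.eval (-3 / d : ℂ) = 0 := by
  by_cases hd3 : d = 3
  · have hf0 : f ≠ 0 := by
      subst hd3
      rintro rfl
      obtain ⟨A, a, b', _, hG, _, hb'⟩ := h
      rw [map_zero] at hG
      have h1 := congrArg (fun p => (ev01 p).eval 0) hG
      have hX2 : ev01 (X 2) = 0 := by simp [ev01]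
      simp only [map_zero, map_add, map_mul, hX2, mul_zero, zero_mul, zero_add,
        Polynomial.eval_zero, ev01_ren] at h1
      exact hb' h1.symm
    have h2 := minus_one_single f d hd hf hf0 b hb
    rw [hd3]
    have h3 : (-3 / (3 : ℕ) : ℂ) = -1 := by push_cast; norm_num
    rw [h3]
    exact h2
  · obtain ⟨hf0, hE⟩ := not_exact_fan hd hd3 hf h
    exact root_of_not_exact (fun _ : Unit => f) d hd (fun _ => hf) b (funEq_unit f b hb)
      (fun _ => 1) (by rw [lcomb_unit]; exact hf0) (by rw [lcomb_unit]; exact hE)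

theorem fan_ideal (f : ι → MvPolynomial (Fin 3) ℂ) (d : ℕ) (hd : 0 < d) (hd3 : d ≠ 3)
    (hf : ∀ j, (f j).IsHomogeneous d) (lam : ι → ℂ) (h : FanForm (lcomb f lam))
    (b : Polynomial ℂ) (hb : IsFunctionalEq f b) : b.eval (-3 / d : ℂ) = 0 := by
  obtain ⟨hf0, hE⟩ := not_exact_fan hd hd3 (lcomb_homog hf lam) h
  exact root_of_not_exact f d hd hf b hb lam hf0 hE

theorem FanForm.ne_zero {f : MvPolynomial (Fin 3) ℂ} (h : FanForm f) : f ≠ 0 := by
  rintro rfl
  obtain ⟨A, a, b', _, hG, _, hb'⟩ := h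
  rw [map_zero] at hG
  have h1 := congrArg (fun p => (ev01 p).eval 0) hG
  have hX2 : ev01 (X 2) = 0 := by simp [ev01]
  simp only [map_zero, map_add, map_mul, hX2, mul_zero, zero_mul, zero_add,
    Polynomial.eval_zero, ev01_ren] at h1
  exact hb' h1.symm

theorem fan_form (f : ι → MvPolynomial (Fin 3) ℂ) (d : ℕ) (hd : 0 < d)
    (hf : ∀ j, (f j).IsHomogeneous d) (lam : ι → ℂ) (h : FanForm (lcomb f lam))
    (b : Polynomial ℂ) (hb : IsBFunction (univ f) b) : b.eval (-3 / d : ℂ) = 0 := by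
  by_cases hd3 : d = 3
  · have h2 := minus_one_form f (exists_ne_of_lcomb h.ne_zero) b hb
    rw [hd3]
    have h3 : (-3 / (3 : ℕ) : ℂ) = -1 := by push_cast; norm_num
    rw [h3]
    exact h2
  · exact fan_ideal f d hd hd3 hf lam h b (functionalEq_of_univ f b hb)

theorem top_ideal_of (f : ι → MvPolynomial (Fin 3) ℂ) (d : ℕ) (hd : 0 < d)
    (hf : ∀ j, (f j).IsHomogeneous d) (b : Polynomial ℂ) (hb : IsFunctionalEq f b)
    (hr : b.eval (-3 / d : ℂ) = 0)
    (Z : RatFunc ℂ) (hZ : ConeZeta f d Z) (s0 : ℂ) (hs0 : Z.denom.eval s0 = 0) :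
    b.eval s0 = 0 := by
  by_cases h : s0 = -3 / d
  · rw [h]
    exact hr
  · exact cone_main f d hd hf b hb Z hZ s0 hs0 (Or.inl h)

theorem top_form_of (f : ι → MvPolynomial (Fin 3) ℂ) (d : ℕ) (hd : 0 < d)
    (hf : ∀ j, (f j).IsHomogeneous d) (hf0 : ∃ j, f j ≠ 0) (b : Polynomial ℂ)
    (hb : IsBFunction (univ f) b) (hr : b.eval (-3 / d : ℂ) = 0)
    (Z : RatFunc ℂ) (hZ : ConeFormZeta f d Z) (s0 : ℂ) (hs0 : Z.denom.eval s0 = 0) :
    b.eval s0 = 0 := by
  by_cases h : s0 = -3 / d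
  · rw [h]
    exact hr
  · exact cone_form_main f d hd hf hf0 b hb Z hZ s0 hs0 (Or.inl h)

end Pool.Agent.Helper748.MC
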