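import Pool.Agent.helper748_mc.Iso8
import Pool.Agent.helper748_mc.FanThm

set_option autoImplicit false
set_option linter.unusedSectionVars false

/-! # Ternary forms `(h / r) L ^ j G(a L ^ k, b)`, `L = l x₂ + m`, with any number of factors of `G`

This class contains the forms with `PencilForm` and with `BinomialForm`, and most of the forms with
`QuadForm`. -/

namespace Pool.Agent.Helper748.MC

open MvPolynomial

open Classical in
/-- The number of the different roots of `g` is greater than `u + v`, where `u = 1` if `θ = 1` and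
`u = 0` otherwise, and `v = -μ` if `-μ` is a natural number and `v = 0` otherwise. -/
def LineCount (θ μ : ℚ) (g : Polynomial ℂ) : Prop :=
  (if θ = 1 then 1 else 0) + (if ∃ n : ℕ, -μ = n then -μ else 0) < g.roots.toFinset.card

open Classical in
theorem LineCount.pos {θ μ : ℚ} {g : Polynomial ℂ} (h : LineCount θ μ g) : 0 < g.natDegree := by
  have h0 : (0 : ℚ) ≤ (if θ = 1 then 1 else 0) := by split_ifs <;> norm_num
  have h1 : (0 : ℚ) ≤ (if ∃ n : ℕ, -μ = n then -μ else 0) := by
    split_ifs with h2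
    · obtain ⟨n, hn⟩ := h2
      rw [hn]
      exact Nat.cast_nonneg n
    · exact le_rfl
  rw [LineCount] at h
  have h3 : (0 : ℚ) < g.roots.toFinset.card := by
    refine lt_of_le_of_lt ?_ h
    positivity
  have h4 : 0 < g.roots.toFinset.card := by exact_mod_cast h3
  have h5 := (Multiset.toFinset_card_le g.roots).trans (Polynomial.card_roots' g)
  omega

/-- There are linear coordinates in which `r f = h L ^ j G(a L ^ k, b)`, `L = l x₂ + m`, where `r`,
`h`, `a`, `b`, `l`, `m` are polynomials in `x₀` and `x₁`, and `G(u, v)` is the form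
`∑ g_i u ^ i v ^ (n - i)` of degree `n` belonging to the polynomial `g = ∑ g_i W ^ i` of degree `n`
with `g(0) ≠ 0`, such that `r(t, 1)`, `h(t, 1)`, `a(t, 1)`, `b(t, 1)`, `l(t, 1)` are nonzero and have
the degrees `R`, `R + d - j (D + 1) - n (k (D + 1) + D')`, `D'`, `k (D + 1) + D'` and `D` for some
`R`, `D`, `D'`, such that with `θ = (1 - 3 j / d) / k` and `μ = θ - 3 n / d`

* the number of the different roots of `g` is greater than the sum of `1` if `θ = 1` (that is,
  `j = 0` and `k = 1`) and of `-μ` if `-μ` is a natural number;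
* the number of the roots `t` of `r h a b l` is greater than `2` plus the sum of `1 + e` over those
  of them at which `e = -(3/d) (χ - ρ) - θ α + μ β - λ` is a natural number; here `χ`, `ρ`, `α`,
  `β`, `λ` are the multiplicities of `t` as a root of `h`, `r`, `a`, `b` and `l`.

For example, a form `A x₂ ^ 2 + B x₂ + C` is `(1 / (4 A)) (L ^ 2 - (B ^ 2 - 4 A C))` with
`L = 2 A x₂ + B`. -/
def IsotrivialForm (d : ℕ) (f : MvPolynomial (Fin 3) ℂ) : Prop :=
  ∃ (A : Matrix (Fin 3) (Fin 3) ℂ) (h r a b l m : MvPolynomial (Fin 2) ℂ) (g : Polynomial ℂ)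
    (j k : ℕ), 0 < d ∧ A.det ≠ 0 ∧ 0 < k ∧ g.eval 0 ≠ 0 ∧
    rename Fin.castSucc r * lin A f = rename Fin.castSucc h *
      (rename Fin.castSucc l * X 2 + rename Fin.castSucc m) ^ j *
      ∑ i ∈ Finset.range (g.natDegree + 1), C (g.coeff i) *
        (rename Fin.castSucc a * (rename Fin.castSucc l * X 2 + rename Fin.castSucc m) ^ k) ^ i *
          rename Fin.castSucc b ^ (g.natDegree - i) ∧
    binPoly h ≠ 0 ∧ binPoly r ≠ 0 ∧ binPoly a ≠ 0 ∧ binPoly b ≠ 0 ∧ binPoly l ≠ 0 ∧
    (binPoly a).natDegree + k * ((binPoly l).natDegree + 1) = (binPoly b).natDegree ∧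
    (binPoly h).natDegree + j * ((binPoly l).natDegree + 1) +
      g.natDegree * (binPoly b).natDegree = (binPoly r).natDegree + d ∧
    LineCount ((1 - 3 * j / d) / k) ((1 - 3 * j / d) / k - 3 * g.natDegree / d) g ∧
    CPos (binPoly h * binPoly r * binPoly a * binPoly b * binPoly l)
      (pexp (-3 / d) ((1 - 3 * j / d) / k) ((1 - 3 * j / d) / k - 3 * g.natDegree / d)
        (binPoly h) (binPoly r) (binPoly a) (binPoly b) (binPoly l))

theorem IsotrivialForm.pos {d : ℕ} {f : MvPolynomial (Fin 3) ℂ} (h : IsotrivialForm d f) :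
    0 < d := by
  obtain ⟨A, h, r, a, b, l, m, g, j, k, hd, -⟩ := h
  exact hd

open Classical in
theorem not_exact_isotrivial {d : ℕ} {f : MvPolynomial (Fin 3) ℂ}
    (hf : f.IsHomogeneous d) (h : IsotrivialForm d f) : f ≠ 0 ∧ ¬ Exact d f (-3 / d) := by
  obtain ⟨A, h, r, a, b, l, m, g, j, k, hd0, hA, hk, hg0, hG, hh0, hr0, ha0, hb0,
    hl0, hab, hd, hcnt, hpos⟩ := h
  have hgn := hcnt.pos
  rw [LineCount] at hcnt
  have hw : binPoly h * binPoly r * binPoly a * binPoly b * binPoly l ≠ 0 :=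
    mul_ne_zero (mul_ne_zero (mul_ne_zero (mul_ne_zero hh0 hr0) ha0) hb0) hl0
  set G := lin A f with hGdef
  have hGh : G.IsHomogeneous d := lin_homog A hf
  have hGt : ∀ t : ℂ, (binPoly r).eval t ≠ 0 → (binPoly l).eval t ≠ 0 →
      evL (binPoly l) (binPoly m) t G =
      Glt g j k (binPoly h) (binPoly r) (binPoly a) (binPoly b) t :=
    fun t ht ht' => evL_form ht ht' hG
  have hf0 : f ≠ 0 := by
    rintro rfl
    rw [map_zero] at hGdef
    obtain ⟨t, ht⟩ := exists_eval_ne hw
    rw [Polynomial.eval_mul, Polynomial.eval_mul, Polynomial.eval_mul, Polynomial.eval_mul] at ht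
    have h4 := right_ne_zero_of_mul ht
    have ht'' := left_ne_zero_of_mul ht
    have h1 := left_ne_zero_of_mul (left_ne_zero_of_mul (left_ne_zero_of_mul ht''))
    have h2 := right_ne_zero_of_mul (left_ne_zero_of_mul (left_ne_zero_of_mul ht''))
    have h3 := right_ne_zero_of_mul ht''
    have h5 := hGt t h2 h4
    rw [hGdef, map_zero, Glt, Gl] at h5
    exact mul_ne_zero (mul_ne_zero (Polynomial.C_ne_zero.2 (et_ne h1 h2))
      (pow_ne_zero _ Polynomial.X_ne_zero)) (Hg_ne hk hg0 h3) h5.symm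
  refine ⟨hf0, fun hE => ?_⟩
  have hdc : (d : ℂ) ≠ 0 := Nat.cast_ne_zero.2 hd0.ne'
  have hdq : (d : ℚ) ≠ 0 := Nat.cast_ne_zero.2 hd0.ne'
  have hkc : (k : ℂ) ≠ 0 := Nat.cast_ne_zero.2 hk.ne'
  have hkq : (k : ℚ) ≠ 0 := Nat.cast_ne_zero.2 hk.ne'
  have hds : (d : ℂ) * (-3 / d) = -3 := by field_simp
  obtain ⟨K, P, Q, -, -, hEq⟩ := exact_two hGh hds (exact_lin hE A (isUnit_iff_ne_zero.2 hA))
  set θ : ℚ := (1 - 3 * j / d) / k with hθdef
  set s : ℚ := -3 / d with hsdef
  set μ : ℚ := θ - 3 * g.natDegree / d with hμdef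
  have hsc : ((s : ℚ) : ℂ) = -3 / d := by rw [hsdef]; push_cast; ring
  have hσθ : (g.natDegree : ℂ) * s + θ = μ := by
    rw [hμdef, hsdef]; push_cast; ring
  have hθ1 : θ ≤ 1 := theta_le hk
  obtain ⟨ε, hε⟩ : ∃ ε : ℕ, (if θ = 1 then (1 : ℚ) else 0) = ε := by
    by_cases h1 : θ = 1
    · exact ⟨1, by rw [if_pos h1]; simp⟩
    · exact ⟨0, by rw [if_neg h1]; simp⟩
  obtain ⟨ν, hν⟩ : ∃ ν : ℕ, (if ∃ n : ℕ, -μ = n then -μ else 0) = ν := by
    by_cases h1 : ∃ n : ℕ, -μ = n
    · obtain ⟨n, hn⟩ := h1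
      exact ⟨n, by rw [if_pos ⟨n, hn⟩, hn]⟩
    · exact ⟨0, by rw [if_neg h1]; simp⟩
  have hcnt' : ε + ν < g.roots.toFinset.card := by
    rw [hε, hν] at hcnt
    exact_mod_cast hcnt
  obtain ⟨c, hc⟩ := exists_penSys (θ : ℂ) (s : ℂ) g (ε := ε) (ν := ν) hg0 hgn (by
    intro n h0
    have h1 : θ = n + 1 := by exact_mod_cast h0
    have h2 : (n : ℚ) ≤ 0 := by linarith
    have h3 : n = 0 := by
      have : n ≤ 0 := by exact_mod_cast h2
      omega
    rw [h3, Nat.cast_zero, zero_add] at h1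
    rw [if_pos h1] at hε
    rw [h3]
    have : (1 : ℕ) = ε := by exact_mod_cast hε
    omega) (by
    intro n h0
    rw [hσθ] at h0
    have h1 : -μ = n := by
      have : μ = -(n : ℚ) := by exact_mod_cast h0
      linarith
    rw [if_pos ⟨n, h1⟩, h1] at hν
    have : n = ν := by exact_mod_cast hν
    omega) (by
    intro N N' hN h0
    have h1 : (N : ℚ) * s = N' := by exact_mod_cast h0
    have h2 : (0 : ℚ) < d := by exact_mod_cast hd0
    have h3 : (0 : ℚ) < N := by exact_mod_cast hN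
    have h4 : 0 < (N : ℚ) * (3 / d) := by positivity
    have h5 : (0 : ℚ) ≤ N' := Nat.cast_nonneg N'
    rw [hsdef] at h1
    have h6 : (N : ℚ) * (-3 / d) = -(N * (3 / d)) := by ring
    rw [h6] at h1
    linarith) hcnt'
  rw [← hsc] at hEq
  obtain ⟨M, κ, hfin⟩ := iso_eq (j := j) (k := k) (h := binPoly h) (r := binPoly r)
    (a := binPoly a) (b := binPoly b) (l := binPoly l) (m := binPoly m) (s := (s : ℂ)) hc hk (by
      rw [hθdef, hsdef]; push_cast; field_simp; ring) hw hGt hEq
  rw [hσθ] at hfin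
  have hlog := logF_vL hh0 hr0 ha0 hb0 hl0 s θ μ
  have e1 : ((binPoly h).natDegree : ℚ) = (binPoly r).natDegree + d -
      j * ((binPoly l).natDegree + 1) - g.natDegree * (binPoly b).natDegree := by
    have : ((binPoly h).natDegree : ℚ) + j * ((binPoly l).natDegree + 1) +
      g.natDegree * (binPoly b).natDegree = (binPoly r).natDegree + d := by exact_mod_cast hd
    linarith
  have e2 : ((binPoly a).natDegree : ℚ) = (binPoly b).natDegree -
      k * ((binPoly l).natDegree + 1) := by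
    have : ((binPoly a).natDegree : ℚ) + k * ((binPoly l).natDegree + 1) =
      (binPoly b).natDegree := by exact_mod_cast hab
    linarith
  have e3 : s * (binPoly h).natDegree + -s * (binPoly r).natDegree + -θ * (binPoly a).natDegree +
      μ * (binPoly b).natDegree + -1 * (binPoly l).natDegree = -2 := by
    rw [e1, e2, hμdef, hθdef, hsdef]
    field_simp
    ring
  rw [e3] at hlog
  exact ode_count_gen hc.r4 hlog hpos hfin


section Thm

open Pool.Agent.W574.SM Pool.Agent.W574.CN Pool.Agent.W574.MO Pool.Agent.W574.HS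
  Pool.Agent.W574.LM Pool.Agent.H628R4.TP

/-- The root `-3/d` of the Bernstein-Sato polynomial of a form with `IsotrivialForm`. -/
theorem iso_single (f : MvPolynomial (Fin 3) ℂ) (d : ℕ) (hf : f.IsHomogeneous d)
    (h : IsotrivialForm d f) (b : Polynomial ℂ) (hb : IsBFunction f b) :
    b.eval (-3 / d : ℂ) = 0 := by
  obtain ⟨hf0, hE⟩ := not_exact_isotrivial hf h
  exact root_of_not_exact (fun _ : Unit => f) d h.pos (fun _ => hf) b (funEq_unit f b hb)
    (fun _ => 1) (by rw [lcomb_unit]; exact hf0) (by rw [lcomb_unit]; exact hE)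

end Thm

end Pool.Agent.Helper748.MC
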