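import Pool.Agent.helper748_mc.Mot

set_option autoImplicit false
set_option linter.unusedSectionVars false

/-! # The motivic zeta functions of `∑ y_j f_j(x₀, x₁, x₂)`: jets, and the origin -/

namespace Pool.Agent.Helper748.MC

open MvPolynomial Pool.Agent.W574.SM Pool.Agent.W574.CN Pool.Agent.W574.MO Pool.Agent.W574.HS
  Pool.Agent.W574.LM Pool.Agent.H628R4.TP

variable {ι : Type} [Fintype ι] [DecidableEq ι]

variable {M : Type} [CommRing M] (L : Mˣ)

theorem root_pair_d3 {d : ℕ} {b : Polynomial ℂ} (hr : b.eval (-3 / d : ℂ) = 0) :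
    RootPair b d 3 := by
  rw [RootPair]
  have h3 : -((3 : ℕ) : ℂ) / d = -3 / d := by push_cast; ring
  rw [h3]
  exact hr

theorem cone_jet_of (f : ι → MvPolynomial (Fin 3) ℂ) (d : ℕ) (hd : 0 < d)
    (hf : ∀ j, (f j).IsHomogeneous d) (hf0 : ∃ j, f j ≠ 0) (b : Polynomial ℂ)
    (hb : Pool.Agent.H628R4.TP.IsBFunction (univ f) b) (hr : b.eval (-3 / d : ℂ) = 0)
    (Z : PowerSeries M) (hZ : ConeJetMot L f d Z) : Z ∈ DenRing L (RootPair b) := by
  obtain ⟨Z', hZ', rfl⟩ := hZ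
  have hb' := functionalEq_of_univ f b hb
  exact Subring.mul_mem _ (Subring.mul_mem _ (Subring.mul_mem _ (C_mem _)
    (proj_of L f d hf b hb' Z' hZ'))
    (geo_mem hd (by norm_num) (root_pair_d3 hr)))
    (geo11_mem L b (minus_one_form f hf0 b hb))

theorem cone_local_of (f : ι → MvPolynomial (Fin 3) ℂ) (d : ℕ)
    (hf : ∀ j, (f j).IsHomogeneous d) (hf0 : ∃ j, f j ≠ 0) (b : Polynomial ℂ)
    (hb : Pool.Agent.H628R4.TP.IsBFunction (univ f) b) (hr : b.eval (-3 / d : ℂ) = 0)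
    (Z : PowerSeries M) (hZ : ConeLocalFormMot L f d Z) : Z ∈ DenRing L (RootPair b) := by
  obtain ⟨Z', hZ', rfl⟩ := hZ
  have hb' := functionalEq_of_univ f b hb
  exact Subring.mul_mem _ (Subring.mul_mem _ (C_mem _)
    (mot_local_of L f d hf b hb' hr Z' hZ'))
    (Subring.mul_mem _ X_mem (geo11_mem L b (minus_one_form f hf0 b hb)))

end Pool.Agent.Helper748.MC
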