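import Pool.Agent.helper748_mc.Ode

set_option autoImplicit false
set_option linter.unusedSectionVars false

/-! # The integrals of the monomials against a power of `η x ^ j (α x ^ k + β) ^ n` -/

namespace Pool.Agent.Helper748.MC

open Polynomial

/-- The values of the beta integrals. -/
structure BetaSys (θ σ : ℂ) (c : ℤ → ℕ → ℂ) : Prop where
  r1 : ∀ (q : ℤ) (N : ℕ), (q + θ) * c q N = (N - σ) * c (q + 1) (N + 1)
  r2 : ∀ (q : ℤ) (N : ℕ), (N - σ - θ - q) * c q N = (N - σ) * c q (N + 1)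
  r3 : ∀ (q : ℤ) (N : ℕ), c q N = c q (N + 1) + c (q + 1) (N + 1)
  r4 : c 0 0 ≠ 0

theorem exists_betaSys {θ σ : ℂ} (hθ : ∀ n : ℤ, θ + n ≠ 0) (hμ : ∀ n : ℤ, σ + θ + n ≠ 0)
    (hσ : ∀ n : ℕ, (n : ℂ) - σ ≠ 0) : ∃ c : ℤ → ℕ → ℂ, BetaSys θ σ c := by
  have hθ' : ∀ q : ℤ, (q : ℂ) + θ ≠ 0 := fun q h0 => hθ q (by linear_combination h0)
  have hμ' : ∀ (q : ℤ) (N : ℕ), (N : ℂ) - σ - θ - q ≠ 0 := by
    intro q N h0
    have := hμ (q - N)
    push_cast at this
    exact this (by linear_combination -h0)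
  have g0 : ∀ N : ℕ, Complex.Gamma (N - σ) ≠ 0 := by
    intro N
    refine Complex.Gamma_ne_zero fun m h0 => hσ (N + m) ?_
    push_cast
    linear_combination h0
  have r1 : ∀ (q : ℤ) (N : ℕ), ((q : ℂ) + θ) * (Complex.Gamma (θ + q) *
      Complex.Gamma (N - σ - θ - q) / Complex.Gamma (N - σ)) =
      (N - σ) * (Complex.Gamma (θ + (q + 1 : ℤ)) * Complex.Gamma ((N + 1 : ℕ) - σ - θ - (q + 1 : ℤ)) /
        Complex.Gamma ((N + 1 : ℕ) - σ)) := by
    intro q N
    have e1 : Complex.Gamma (θ + (q + 1 : ℤ)) = (θ + q) * Complex.Gamma (θ + q) := by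
      rw [← Complex.Gamma_add_one _ (by rw [add_comm]; exact hθ' q)]
      congr 1
      push_cast
      ring
    have e2 : Complex.Gamma ((N + 1 : ℕ) - σ) = (N - σ) * Complex.Gamma (N - σ) := by
      rw [← Complex.Gamma_add_one _ (hσ N)]
      congr 1
      push_cast
      ring
    have e3 : ((N + 1 : ℕ) : ℂ) - σ - θ - (q + 1 : ℤ) = N - σ - θ - q := by
      push_cast; ring
    rw [e1, e2, e3]
    have := g0 N
    have := hσ N
    field_simp
    ring
  have r2 : ∀ (q : ℤ) (N : ℕ), ((N : ℂ) - σ - θ - q) * (Complex.Gamma (θ + q) *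
      Complex.Gamma (N - σ - θ - q) / Complex.Gamma (N - σ)) =
      (N - σ) * (Complex.Gamma (θ + q) * Complex.Gamma ((N + 1 : ℕ) - σ - θ - q) /
        Complex.Gamma ((N + 1 : ℕ) - σ)) := by
    intro q N
    have e1 : Complex.Gamma ((N + 1 : ℕ) - σ - θ - q) =
        (N - σ - θ - q) * Complex.Gamma (N - σ - θ - q) := by
      rw [← Complex.Gamma_add_one _ (hμ' q N)]
      congr 1
      push_cast
      ring
    have e2 : Complex.Gamma ((N + 1 : ℕ) - σ) = (N - σ) * Complex.Gamma (N - σ) := by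
      rw [← Complex.Gamma_add_one _ (hσ N)]
      congr 1
      push_cast
      ring
    rw [e1, e2]
    have := g0 N
    have := hσ N
    field_simp
  refine ⟨fun q N => Complex.Gamma (θ + q) * Complex.Gamma (N - σ - θ - q) /
    Complex.Gamma (N - σ), r1, r2, ?_, ?_⟩
  · intro q N
    have h1 := r1 q N
    have h2 := r2 q N
    refine mul_left_cancel₀ (hσ N) ?_
    rw [mul_add]
    beta_reduce
    rw [← h1, ← h2]
    ring
  · beta_reduce
    refine div_ne_zero (mul_ne_zero (Complex.Gamma_ne_zero fun m h0 => ?_)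
      (Complex.Gamma_ne_zero fun m h0 => ?_)) (g0 0)
    · refine hθ m ?_
      push_cast at h0 ⊢
      linear_combination h0
    · refine hμ (-m) ?_
      push_cast at h0 ⊢
      linear_combination -h0

/-- the integral of `x ^ m` against the power of `η x ^ j (α x ^ k + β) ^ n` -/
noncomputable def bpsi (c : ℤ → ℕ → ℂ) (j k : ℕ) (η α β : ℂ) (K N : ℕ) (m : ℤ) : ℂ :=
  if (k : ℤ) ∣ m - j * K then
    c ((m - j * K) / k) N * (η ^ (-(K : ℤ)) * α ^ (-((m - j * K) / k)) *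
      β ^ ((m - j * K) / k - N)) else 0

theorem bpsi_of {c : ℤ → ℕ → ℂ} {j k : ℕ} (hk : 0 < k) {η α β : ℂ} {K N : ℕ} {m : ℤ} (q : ℤ)
    (hq : m = k * q + j * K) : bpsi c j k η α β K N m =
      c q N * (η ^ (-(K : ℤ)) * α ^ (-q) * β ^ (q - N)) := by
  have h1 : m - j * K = k * q := by linarith
  have h2 : (m - j * K) / (k : ℤ) = q := by
    rw [h1]
    exact Int.mul_ediv_cancel_left q (by exact_mod_cast hk.ne')
  rw [bpsi, if_pos ⟨q, h1⟩, h2]

theorem bpsi_zero {c : ℤ → ℕ → ℂ} {j k : ℕ} {η α β : ℂ} {K N : ℕ} {m : ℤ}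
    (h : ¬ (k : ℤ) ∣ m - j * K) : bpsi c j k η α β K N m = 0 := by
  rw [bpsi, if_neg h]

variable {θ σ : ℂ} {c : ℤ → ℕ → ℂ} {j k : ℕ} {η α β : ℂ}

theorem bpsi_B (hc : BetaSys θ σ c) (hk : 0 < k) (hα : α ≠ 0) (hβ : β ≠ 0) (K N : ℕ) (m : ℤ) :
    α * bpsi c j k η α β K (N + 1) (m + k) + β * bpsi c j k η α β K (N + 1) m =
      bpsi c j k η α β K N m := by
  by_cases h : (k : ℤ) ∣ m - j * K
  · obtain ⟨q, hq⟩ := h
    rw [bpsi_of hk (q + 1) (by linarith), bpsi_of hk q (by linarith), bpsi_of hk q (by linarith),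
      hc.r3 q N]
    have e1 : α * α ^ (-(q + 1)) = α ^ (-q) := by
      rw [← zpow_one_add₀ hα]; congr 1; ring
    have e2 : β * β ^ (q - (N + 1 : ℕ)) = β ^ (q - N) := by
      rw [← zpow_one_add₀ hβ]; congr 1; push_cast; ring
    have e3 : β ^ (q + 1 - (N + 1 : ℕ)) = β ^ (q - N) := by
      congr 1; push_cast; ring
    rw [e3]
    linear_combination (c (q + 1) (N + 1) * η ^ (-(K : ℤ)) * β ^ (q - N)) * e1 +
      (c q (N + 1) * η ^ (-(K : ℤ)) * α ^ (-q)) * e2
  · rw [bpsi_zero (by rwa [show m + k - j * K = m - j * K + k by ring, dvd_add_self_right]),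
      bpsi_zero h, bpsi_zero h]
    ring

theorem bpsi_h (hη : η ≠ 0) (hk : 0 < k) (K N : ℕ) (m : ℤ) :
    η * bpsi c j k η α β (K + 1) N (m + j) = bpsi c j k η α β K N m := by
  have e0 : m + j - j * (K + 1 : ℕ) = m - j * K := by push_cast; ring
  by_cases h : (k : ℤ) ∣ m - j * K
  · obtain ⟨q, hq⟩ := h
    rw [bpsi_of hk q (by linarith), bpsi_of hk q (by linarith)]
    have e1 : η * η ^ (-((K + 1 : ℕ) : ℤ)) = η ^ (-(K : ℤ)) := by
      rw [← zpow_one_add₀ hη]; congr 1; push_cast; ring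
    linear_combination (c q N * α ^ (-q) * β ^ (q - N)) * e1
  · rw [bpsi_zero (by rwa [e0]), bpsi_zero h]
    ring

/-- the functional -/
noncomputable def Fn (c : ℤ → ℕ → ℂ) (j k : ℕ) (η α β : ℂ) (K N : ℕ) (e : ℤ) : ℂ[X] →ₗ[ℂ] ℂ :=
  Polynomial.lsum fun i => bpsi c j k η α β K N (i + e) • LinearMap.id

theorem Fn_monomial (K N : ℕ) (e : ℤ) (i : ℕ) (a : ℂ) :
    Fn c j k η α β K N e (monomial i a) = a * bpsi c j k η α β K N (i + e) := by
  rw [Fn, Polynomial.lsum_apply, Polynomial.sum_monomial_index]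
  · simp [mul_comm]
  · simp

theorem Fn_ext {f g : ℂ[X] →ₗ[ℂ] ℂ} (h : ∀ i, f (monomial i 1) = g (monomial i 1)) (Y : ℂ[X]) :
    f Y = g Y := by
  have : f = g := by
    refine Polynomial.lhom_ext' fun i => LinearMap.ext_ring ?_
    exact h i
  rw [this]

theorem Fn_X (K N : ℕ) (e : ℤ) (Y : ℂ[X]) :
    Fn c j k η α β K N e (X * Y) = Fn c j k η α β K N (e + 1) Y := by
  refine Fn_ext (f := (Fn c j k η α β K N e).comp (LinearMap.mulLeft ℂ X)) (fun i => ?_) Y
  rw [LinearMap.comp_apply, LinearMap.mulLeft_apply, X_mul_monomial, Fn_monomial, Fn_monomial]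
  congr 2
  push_cast
  ring

theorem Fn_Xpow (K N : ℕ) (e : ℤ) (r : ℕ) (Y : ℂ[X]) :
    Fn c j k η α β K N e (X ^ r * Y) = Fn c j k η α β K N (e + r) Y := by
  refine Fn_ext (f := (Fn c j k η α β K N e).comp (LinearMap.mulLeft ℂ (X ^ r))) (fun i => ?_) Y
  rw [LinearMap.comp_apply, LinearMap.mulLeft_apply, X_pow_mul_monomial, Fn_monomial, Fn_monomial]
  congr 2
  push_cast
  ring

theorem Fn_B (hc : BetaSys θ σ c) (hk : 0 < k) (hα : α ≠ 0) (hβ : β ≠ 0) (K N : ℕ) (e : ℤ)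
    (Y : ℂ[X]) : Fn c j k η α β K (N + 1) e ((C α * X ^ k + C β) * Y) =
      Fn c j k η α β K N e Y := by
  refine Fn_ext (f := (Fn c j k η α β K (N + 1) e).comp (LinearMap.mulLeft ℂ
    (C α * X ^ k + C β))) (fun i => ?_) Y
  rw [LinearMap.comp_apply, LinearMap.mulLeft_apply, add_mul, map_add, mul_assoc, ← smul_eq_C_mul,
    ← smul_eq_C_mul, map_smul, map_smul, Fn_Xpow, Fn_monomial, Fn_monomial, Fn_monomial,
    ← bpsi_B hc hk hα hβ K N]
  simp only [smul_eq_mul, one_mul]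
  rw [show (i : ℤ) + (e + k) = i + e + k by ring]

theorem Fn_h (hη : η ≠ 0) (hk : 0 < k) (K N : ℕ) (e : ℤ) (Y : ℂ[X]) :
    Fn c j k η α β (K + 1) N e (C η * X ^ j * Y) = Fn c j k η α β K N e Y := by
  refine Fn_ext (f := (Fn c j k η α β (K + 1) N e).comp (LinearMap.mulLeft ℂ
    (C η * X ^ j))) (fun i => ?_) Y
  rw [LinearMap.comp_apply, LinearMap.mulLeft_apply, mul_assoc, ← smul_eq_C_mul,
    map_smul, Fn_Xpow, Fn_monomial, Fn_monomial, ← bpsi_h hη hk K N]
  simp only [smul_eq_mul, one_mul]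
  rw [show (i : ℤ) + (e + j) = i + e + j by ring]

theorem Fn_Bpow (hc : BetaSys θ σ c) (hk : 0 < k) (hα : α ≠ 0) (hβ : β ≠ 0) (K N r : ℕ) (e : ℤ)
    (Y : ℂ[X]) : Fn c j k η α β K (N + r) e ((C α * X ^ k + C β) ^ r * Y) =
      Fn c j k η α β K N e Y := by
  induction r with
  | zero => rw [pow_zero, one_mul, add_zero]
  | succ r ih =>
    rw [pow_succ', mul_assoc, ← add_assoc, Fn_B hc hk hα hβ, ih]

theorem Fn_G (hc : BetaSys θ σ c) (hk : 0 < k) (hη : η ≠ 0) (hα : α ≠ 0) (hβ : β ≠ 0)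
    (K N n : ℕ) (e : ℤ) (Y : ℂ[X]) :
    Fn c j k η α β (K + 1) (N + n) e (C η * X ^ j * (C α * X ^ k + C β) ^ n * Y) =
      Fn c j k η α β K N e Y := by
  rw [mul_assoc, Fn_h hη hk, Fn_Bpow hc hk hα hβ]

theorem Fn_Gpow (hc : BetaSys θ σ c) (hk : 0 < k) (hη : η ≠ 0) (hα : α ≠ 0) (hβ : β ≠ 0)
    (n K : ℕ) (e : ℤ) (Y : ℂ[X]) :
    Fn c j k η α β K (n * K) e ((C η * X ^ j * (C α * X ^ k + C β) ^ n) ^ K * Y) =
      Fn c j k η α β 0 0 e Y := by
  induction K with
  | zero => rw [pow_zero, one_mul, mul_zero]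
  | succ K ih =>
    rw [pow_succ', mul_assoc, Nat.mul_succ, Fn_G hc hk hη hα hβ, ih]

/-- Integration by parts in `x`. -/
theorem Fn_exact (hc : BetaSys θ σ c) (hk : 0 < k) (hη : η ≠ 0) (hα : α ≠ 0) (hβ : β ≠ 0)
    {n K : ℕ} (hn : 0 < n) {s : ℂ} (hσ : σ = n * s) (hθ : k * θ = 1 + s * j) (Q : ℂ[X]) :
    Fn c j k η α β (K + 1) (n * K + n) 0
      (C η * X ^ j * (C α * X ^ k + C β) ^ n * derivative Q + C (s - K) *
        (derivative (C η * X ^ j * (C α * X ^ k + C β) ^ n) * Q)) = 0 := by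
  obtain ⟨n', rfl⟩ : ∃ n', n = n' + 1 := ⟨n - 1, by omega⟩
  set n := n' + 1 with hndef
  set B : ℂ[X] := C α * X ^ k + C β with hB
  have hsplit : ∀ Y : ℂ[X], Fn c j k η α β (K + 1) (n * K + n) 0 Y =
      Fn c j k η α β (K + 1) (n * K + n) (-1) (X * Y) := by
    intro Y
    rw [Fn_X]
    congr 2
  rw [hsplit]
  have hXp : ∀ r : ℕ, X * derivative ((X : ℂ[X]) ^ r) = C (r : ℂ) * X ^ r := by
    intro r
    rw [derivative_X_pow]
    rcases r with _ | r
    · simp
    · rw [Nat.add_sub_cancel]; ring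
  have hXB : X * derivative B = C (k : ℂ) * C α * X ^ k := by
    rw [hB, derivative_add, derivative_C, add_zero, derivative_C_mul]
    linear_combination C α * hXp k
  have hXG : X * derivative (C η * X ^ j * B ^ n) = C η * X ^ j * B ^ n * C (j : ℂ) +
      C η * X ^ j * B ^ n' * (C ((n : ℂ) * k * α) * X ^ k) := by
    rw [mul_assoc, derivative_C_mul, derivative_mul, derivative_pow B, C_mul, C_mul, hndef,
      Nat.add_sub_cancel]
    linear_combination (C η * B ^ (n' + 1)) * hXp j +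
      (C η * X ^ j * C ((n' + 1 : ℕ) : ℂ) * B ^ n') * hXB
  have h1 : X * (C η * X ^ j * B ^ n * derivative Q + C (s - K) *
        (derivative (C η * X ^ j * B ^ n) * Q)) =
      C η * X ^ j * B ^ n * (X * derivative Q + C ((s - K) * j) * Q) +
        C η * X ^ j * B ^ n' * (C ((s - K) * n * k * α) * (X ^ k * Q)) := by
    have e1 : (C ((s - K) * n * k * α) : ℂ[X]) = C (s - K) * C ((n : ℂ) * k * α) := by
      rw [← C_mul]; congr 1; ring
    rw [e1, C_mul]
    linear_combination (C (s - K) * Q) * hXG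
  rw [h1, map_add, Fn_G hc hk hη hα hβ]
  have h2 : n * K + n = (n * K + 1) + n' := by rw [hndef]; ring
  have h3 : C ((s - K) * n * k * α) * (X ^ k * Q) = ((s - K) * n * k * α) • (X ^ k * Q) := by
    rw [smul_eq_C_mul]
  have h4 : C ((s - K) * j) * Q = ((s - K) * j) • Q := by rw [smul_eq_C_mul]
  rw [h2, Fn_G hc hk hη hα hβ, h3, map_smul, Fn_Xpow, map_add, h4, map_smul]
  rw [add_comm (-1 : ℤ)]
  have key : ∀ Q : ℂ[X], Fn c j k η α β K (n * K) (-1) (X * derivative Q) =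
      - ((s - K) * j * Fn c j k η α β K (n * K) (-1) Q +
        (s - K) * n * k * α * Fn c j k η α β K (n * K + 1) (k + -1) Q) := by
    refine Fn_ext (f := (Fn c j k η α β K (n * K) (-1)).comp ((LinearMap.mulLeft ℂ X).comp
      derivative)) (g := -(((s - K) * j) • Fn c j k η α β K (n * K) (-1) +
        ((s - K) * n * k * α) • Fn c j k η α β K (n * K + 1) (k + -1))) (fun i => ?_)
    simp only [LinearMap.comp_apply, LinearMap.mulLeft_apply, LinearMap.neg_apply,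
      LinearMap.add_apply, LinearMap.smul_apply, smul_eq_mul, Fn_monomial, one_mul]
    have e1 : X * derivative (monomial i (1 : ℂ)) = monomial i (i : ℂ) := by
      rw [← C_mul_X_pow_eq_monomial, ← C_mul_X_pow_eq_monomial, C_1, one_mul, hXp]
    rw [e1, Fn_monomial]
    by_cases h : (k : ℤ) ∣ (i + -1 : ℤ) - j * K
    · obtain ⟨q, hq⟩ := h
      rw [bpsi_of hk q (by linarith), bpsi_of hk (q + 1) (by linarith)]
      have e2 : α * α ^ (-(q + 1)) = α ^ (-q) := by
        rw [← zpow_one_add₀ hα]; congr 1; ring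
      have e3 : β ^ (q + 1 - (n * K + 1 : ℕ)) = β ^ (q - (n * K : ℕ)) := by
        congr 1; push_cast; ring
      rw [e3]
      have e4 := hc.r1 q (n * K)
      have e5 : (i : ℂ) = k * q + 1 + j * K := by
        have : (i : ℤ) = k * q + 1 + j * K := by linarith
        exact_mod_cast congrArg (Int.cast : ℤ → ℂ) this
      rw [e5]
      push_cast at e4 ⊢
      rw [hσ] at e4
      set w1 := η ^ (-(K : ℤ)) * β ^ (q - (n : ℤ) * K)
      linear_combination ((s - K) * n * k * c (q + 1) (n * K + 1) * w1) * e2 -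
        (c q (n * K) * w1 * α ^ (-q)) * hθ + (k * w1 * α ^ (-q)) * e4
    · rw [bpsi_zero h, bpsi_zero (by
        rwa [show (i : ℤ) + (k + -1) - j * K = i + -1 - j * K + k by ring, dvd_add_self_right])]
      ring
  rw [key]
  simp only [smul_eq_mul]
  ring

end Pool.Agent.Helper748.MC
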