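import Pool.Agent.helper748_mc.Beta
import Pool.Agent.helper748_mc.QuadForm

set_option autoImplicit false
set_option linter.unusedSectionVars false

/-! # The differential equation of the integral -/

namespace Pool.Agent.Helper748.MC

open Polynomial

theorem hasDerivAt_eval_zpow (p : ℂ[X]) (m : ℤ) {t : ℂ} (h : p.eval t ≠ 0) :
    HasDerivAt (fun t => p.eval t ^ m)
      (p.eval t ^ m * (m * ((derivative p).eval t * (p.eval t)⁻¹))) t := by
  have h1 := (hasDerivAt_zpow m (p.eval t) (Or.inl h)).comp t (p.hasDerivAt t)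
  have h2 : (m : ℂ) * p.eval t ^ (m - 1) * (derivative p).eval t =
      p.eval t ^ m * (m * ((derivative p).eval t * (p.eval t)⁻¹)) := by
    rw [zpow_sub_one₀ h]; ring
  rw [h2] at h1
  exact h1

/-- the logarithmic derivative of `h ^ s a ^ (-θ) b ^ μ` -/
noncomputable def om (s θ μ : ℂ) (h a b : ℂ[X]) (t : ℂ) : ℂ :=
  s * ((derivative h).eval t * (h.eval t)⁻¹) - θ * ((derivative a).eval t * (a.eval t)⁻¹) +
    μ * ((derivative b).eval t * (b.eval t)⁻¹)

/-- the form `h x ^ j (a x ^ k + b) ^ n` for a value of `t` -/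
noncomputable def Gt (j k n : ℕ) (h a b : ℂ[X]) (t : ℂ) : ℂ[X] :=
  C (h.eval t) * X ^ j * (C (a.eval t) * X ^ k + C (b.eval t)) ^ n

/-- its derivative with respect to `t` -/
noncomputable def Gt' (j k n : ℕ) (h a b : ℂ[X]) (t : ℂ) : ℂ[X] :=
  C ((derivative h).eval t) * X ^ j * (C (a.eval t) * X ^ k + C (b.eval t)) ^ n +
    C (n : ℂ) * (C (h.eval t) * X ^ j * (C (a.eval t) * X ^ k + C (b.eval t)) ^ (n - 1)) *
      (C ((derivative a).eval t) * X ^ k + C ((derivative b).eval t))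

variable {θ σ : ℂ} {c : ℤ → ℕ → ℂ} {j k n : ℕ} {h a b : ℂ[X]} {t : ℂ}

theorem Fn_Gt' (hc : BetaSys θ σ c) (hk : 0 < k) (hn : 0 < n) (hη : h.eval t ≠ 0)
    (hα : a.eval t ≠ 0) (hβ : b.eval t ≠ 0) (K N : ℕ) (i : ℕ) :
    Fn c j k (h.eval t) (a.eval t) (b.eval t) (K + 1) (N + n) 0
      (Gt' j k n h a b t * monomial i 1) =
      (derivative h).eval t * (h.eval t)⁻¹ *
          bpsi c j k (h.eval t) (a.eval t) (b.eval t) K N i +
        n * ((derivative a).eval t * bpsi c j k (h.eval t) (a.eval t) (b.eval t) K (N + 1) (i + k) +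
          (derivative b).eval t * bpsi c j k (h.eval t) (a.eval t) (b.eval t) K (N + 1) i) := by
  obtain ⟨n', rfl⟩ : ∃ n', n = n' + 1 := ⟨n - 1, by omega⟩
  rw [Gt', Nat.add_sub_cancel]
  set η := h.eval t
  set α := a.eval t
  set β := b.eval t
  set η' := (derivative h).eval t
  set α' := (derivative a).eval t
  set β' := (derivative b).eval t
  have e1 : (C η' * X ^ j * (C α * X ^ k + C β) ^ (n' + 1) + C ((n' + 1 : ℕ) : ℂ) *
      (C η * X ^ j * (C α * X ^ k + C β) ^ n') * (C α' * X ^ k + C β')) * monomial i 1 =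
      (η' * η⁻¹) • (C η * X ^ j * (C α * X ^ k + C β) ^ (n' + 1) * monomial i 1) +
      ((n' + 1 : ℕ) : ℂ) • (C η * X ^ j * (C α * X ^ k + C β) ^ n' *
        (α' • (X ^ k * monomial i 1) + β' • monomial i 1)) := by
    have e2 : (C (η' * η⁻¹) * C η : ℂ[X]) = C η' := by
      rw [← C_mul]; congr 1; field_simp
    simp only [smul_eq_C_mul]
    linear_combination (-(X ^ j * (C α * X ^ k + C β) ^ (n' + 1) * monomial i 1)) * e2
  rw [e1, map_add, map_smul, map_smul, Fn_G hc hk hη hα hβ]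
  have h2 : N + (n' + 1) = (N + 1) + n' := by ring
  rw [h2, Fn_G hc hk hη hα hβ, map_add, map_smul, map_smul, Fn_Xpow, Fn_monomial, Fn_monomial,
    Fn_monomial]
  simp only [smul_eq_mul, one_mul, zero_add, add_zero]

theorem bpsi_ode (hc : BetaSys θ σ c) (hk : 0 < k) (hn : 0 < n) (hη : h.eval t ≠ 0)
    (hα : a.eval t ≠ 0) (hβ : b.eval t ≠ 0) {s : ℂ} (hσ : σ = n * s) (K i : ℕ) :
    HasDerivAt (fun t => bpsi c j k (h.eval t) (a.eval t) (b.eval t) K (n * K) i)
      ((s - K) * Fn c j k (h.eval t) (a.eval t) (b.eval t) (K + 1) (n * K + n) 0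
        (Gt' j k n h a b t * monomial i 1) - om s θ (σ + θ) h a b t *
          bpsi c j k (h.eval t) (a.eval t) (b.eval t) K (n * K) i) t := by
  rw [Fn_Gt' hc hk hn hη hα hβ]
  by_cases hd : (k : ℤ) ∣ (i : ℤ) - j * K
  · obtain ⟨q, hq⟩ := hd
    have h1 : ∀ t : ℂ, bpsi c j k (h.eval t) (a.eval t) (b.eval t) K (n * K) i =
        c q (n * K) * (h.eval t ^ (-(K : ℤ)) * a.eval t ^ (-q) * b.eval t ^ (q - (n * K : ℕ))) :=
      fun t => bpsi_of hk q (by linarith)
    simp only [h1]
    rw [bpsi_of hk (q + 1) (by linarith), bpsi_of hk q (by linarith)]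
    have h2 := ((((hasDerivAt_eval_zpow h (-(K : ℤ)) hη).mul
      (hasDerivAt_eval_zpow a (-q) hα)).mul
      (hasDerivAt_eval_zpow b (q - (n * K : ℕ)) hβ)).const_mul (c q (n * K)))
    refine h2.congr_deriv ?_
    rw [om]
    have e1 : a.eval t ^ (-(q + 1)) = a.eval t ^ (-q) * (a.eval t)⁻¹ := by
      rw [show -(q + 1) = -q - 1 by ring, zpow_sub_one₀ hα]
    have e2 : b.eval t ^ (q - ((n * K + 1 : ℕ) : ℤ)) =
        b.eval t ^ (q - ((n * K : ℕ) : ℤ)) * (b.eval t)⁻¹ := by
      rw [show q - ((n * K + 1 : ℕ) : ℤ) = q - ((n * K : ℕ) : ℤ) - 1 by push_cast; ring,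
        zpow_sub_one₀ hβ]
    have e3 : b.eval t ^ (q + 1 - ((n * K + 1 : ℕ) : ℤ)) = b.eval t ^ (q - ((n * K : ℕ) : ℤ)) := by
      congr 1; push_cast; ring
    rw [e1, e2, e3]
    have r1 := hc.r1 q (n * K)
    have r2 := hc.r2 q (n * K)
    simp only [Pi.mul_apply]
    generalize h.eval t ^ (-(K : ℤ)) = x
    generalize a.eval t ^ (-q) = y
    generalize b.eval t ^ (q - ((n * K : ℕ) : ℤ)) = z
    generalize (derivative h).eval t * (h.eval t)⁻¹ = lh
    push_cast at r1 r2 ⊢
    rw [hσ] at r1 r2 ⊢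
    linear_combination (-(x * y * z * ((derivative a).eval t * (a.eval t)⁻¹))) * r1 +
      (-(x * y * z * ((derivative b).eval t * (b.eval t)⁻¹))) * r2
  · have h1 : ∀ t : ℂ, bpsi c j k (h.eval t) (a.eval t) (b.eval t) K (n * K) i = 0 :=
      fun t => bpsi_zero hd
    simp only [h1]
    rw [bpsi_zero (by
      rwa [show (i : ℤ) + k - j * K = i - j * K + k by ring, dvd_add_self_right]), bpsi_zero hd]
    have h2 := hasDerivAt_const t (0 : ℂ)
    refine h2.congr_deriv ?_
    ring

section Mv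

open MvPolynomial

/-- the substitution `x₀ = t`, `x₁ = 1`, `x₂ = X` -/
noncomputable def evt (t : ℂ) : MvPolynomial (Fin 3) ℂ →ₐ[ℂ] ℂ[X] :=
  aeval ![Polynomial.C t, 1, Polynomial.X]

theorem evt_monomial (t : ℂ) (u : Fin 3 →₀ ℕ) (x : ℂ) :
    evt t (MvPolynomial.monomial u x) = Polynomial.monomial (u 2) (x * t ^ u 0) := by
  rw [evt, MvPolynomial.aeval_monomial, Finsupp.prod_fintype _ _ (by simp), Fin.prod_univ_three]
  have e1 : (![Polynomial.C t, 1, Polynomial.X] : Fin 3 → ℂ[X]) 0 = Polynomial.C t := rfl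
  have e2 : (![Polynomial.C t, 1, Polynomial.X] : Fin 3 → ℂ[X]) 1 = 1 := rfl
  have e3 : (![Polynomial.C t, 1, Polynomial.X] : Fin 3 → ℂ[X]) 2 = Polynomial.X := rfl
  rw [e1, e2, e3, one_pow, mul_one, ← Polynomial.C_mul_X_pow_eq_monomial, Polynomial.C_mul,
    Polynomial.C_pow]
  change Polynomial.C x * _ = _
  ring

theorem evt_pderiv2 (t : ℂ) (p : MvPolynomial (Fin 3) ℂ) :
    evt t (pderiv 2 p) = Polynomial.derivative (evt t p) := by
  induction p using MvPolynomial.induction_on' with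
  | monomial u x =>
    rw [pderiv_monomial, evt_monomial, evt_monomial, Polynomial.derivative_monomial]
    have e0 : (u - Finsupp.single 2 1 : Fin 3 →₀ ℕ) 0 = u 0 := by
      rw [Finsupp.tsub_apply, Finsupp.single_eq_of_ne (by decide), Nat.sub_zero]
    have e2 : (u - Finsupp.single 2 1 : Fin 3 →₀ ℕ) 2 = u 2 - 1 := by
      rw [Finsupp.tsub_apply, Finsupp.single_eq_same]
    rw [e0, e2]
    congr 1
    ring
  | add p q hp hq => rw [map_add, map_add, map_add, hp, hq, Polynomial.derivative_add]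

theorem evt_ren (t : ℂ) (p : MvPolynomial (Fin 2) ℂ) :
    evt t (rename Fin.castSucc p) = Polynomial.C ((binPoly p).eval t) := by
  induction p using MvPolynomial.induction_on with
  | C x => simp [evt, binPoly]
  | add p q hp hq => rw [map_add, map_add, hp, hq, map_add, Polynomial.eval_add, Polynomial.C_add]
  | mul_X p i hp =>
    rw [map_mul, map_mul, hp, map_mul, rename_X, Polynomial.eval_mul, Polynomial.C_mul]
    congr 1
    fin_cases i
    · simp [evt, binPoly]
    · simp [evt, binPoly]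

theorem evt_pderiv_ren (t : ℂ) (p : MvPolynomial (Fin 2) ℂ) :
    evt t (pderiv 0 (rename Fin.castSucc p)) =
      Polynomial.C ((Polynomial.derivative (binPoly p)).eval t) := by
  induction p using MvPolynomial.induction_on with
  | C x => simp [evt, binPoly]
  | add p q hp hq =>
    rw [map_add, map_add, map_add, hp, hq, map_add, Polynomial.derivative_add,
      Polynomial.eval_add, Polynomial.C_add]
  | mul_X p i hp =>
    rw [map_mul, Derivation.leibniz, map_add, smul_eq_mul, smul_eq_mul, map_mul, map_mul, hp,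
      evt_ren, map_mul, Polynomial.derivative_mul, Polynomial.eval_add, Polynomial.eval_mul,
      Polynomial.eval_mul, Polynomial.C_add, Polynomial.C_mul, Polynomial.C_mul, rename_X]
    fin_cases i
    · simp [evt, binPoly]
      ring
    · simp [evt, binPoly]

theorem evt_C (t x : ℂ) : evt t (MvPolynomial.C x) = Polynomial.C x := by
  rw [evt, MvPolynomial.aeval_C]; rfl

/-- the integral of `P` -/
noncomputable def gP (c : ℤ → ℕ → ℂ) (j k n : ℕ) (h a b : ℂ[X]) (K : ℕ)
    (P : MvPolynomial (Fin 3) ℂ) (t : ℂ) : ℂ :=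
  Fn c j k (h.eval t) (a.eval t) (b.eval t) K (n * K) 0 (evt t P)

theorem gP_add (K : ℕ) (P Q : MvPolynomial (Fin 3) ℂ) (t : ℂ) :
    gP c j k n h a b K (P + Q) t = gP c j k n h a b K P t + gP c j k n h a b K Q t := by
  rw [gP, map_add, map_add]; rfl

theorem gP_monomial (K : ℕ) (u : Fin 3 →₀ ℕ) (x : ℂ) (t : ℂ) :
    gP c j k n h a b K (MvPolynomial.monomial u x) t =
      x * t ^ u 0 * bpsi c j k (h.eval t) (a.eval t) (b.eval t) K (n * K) (u 2) := by
  rw [gP, evt_monomial, Fn_monomial, add_zero]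

theorem gP_deriv (hc : BetaSys θ σ c) (hk : 0 < k) (hn : 0 < n) (hη : h.eval t ≠ 0)
    (hα : a.eval t ≠ 0) (hβ : b.eval t ≠ 0) {s : ℂ} (hσ : σ = n * s) (K : ℕ)
    (P : MvPolynomial (Fin 3) ℂ) :
    HasDerivAt (gP c j k n h a b K P)
      (Fn c j k (h.eval t) (a.eval t) (b.eval t) (K + 1) (n * K + n) 0
        (Gt j k n h a b t * evt t (pderiv 0 P) + Polynomial.C (s - K) *
          (Gt' j k n h a b t * evt t P)) -
        om s θ (σ + θ) h a b t * gP c j k n h a b K P t) t := by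
  induction P using MvPolynomial.induction_on' with
  | monomial u x =>
    have h1 : gP c j k n h a b K (MvPolynomial.monomial u x) =
        fun t => (x * t ^ u 0) * bpsi c j k (h.eval t) (a.eval t) (b.eval t) K (n * K) (u 2) :=
      funext fun t => gP_monomial K u x t
    have h2 := (((hasDerivAt_pow (u 0) t).const_mul x).mul
      (bpsi_ode (j := j) hc hk hn hη hα hβ hσ K (u 2)))
    rw [h1]
    refine h2.congr_deriv ?_
    rw [map_add, Gt, Fn_G hc hk hη hα hβ, pderiv_monomial, evt_monomial, evt_monomial,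
      Fn_monomial]
    have e0 : (u - Finsupp.single 0 1 : Fin 3 →₀ ℕ) 0 = u 0 - 1 := by
      rw [Finsupp.tsub_apply, Finsupp.single_eq_same]
    have e2 : (u - Finsupp.single 0 1 : Fin 3 →₀ ℕ) 2 = u 2 := by
      rw [Finsupp.tsub_apply, Finsupp.single_eq_of_ne (by decide), Nat.sub_zero]
    have e3 : Polynomial.C (s - K) * (Gt' j k n h a b t *
        Polynomial.monomial (u 2) (x * t ^ u 0)) =
        ((s - K) * (x * t ^ u 0)) • (Gt' j k n h a b t * Polynomial.monomial (u 2) 1) := by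
      rw [Polynomial.smul_eq_C_mul, Polynomial.C_mul]
      have e4 : Polynomial.monomial (u 2) (x * t ^ u 0) =
          Polynomial.C (x * t ^ u 0) * Polynomial.monomial (u 2) 1 := by
        rw [Polynomial.C_mul_monomial, mul_one]
      rw [e4]
      ring
    rw [e0, e2, e3, map_smul, add_zero]
    simp only [smul_eq_mul]
    ring
  | add P Q hP hQ =>
    have h1 : gP c j k n h a b K (P + Q) = fun t => gP c j k n h a b K P t +
        gP c j k n h a b K Q t := funext fun t => gP_add K P Q t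
    rw [h1]
    refine (hP.add hQ).congr_deriv ?_
    simp only [map_add, mul_add]
    ring

theorem gP_poly (hk : 0 < k) (K : ℕ) (P : MvPolynomial (Fin 3) ℂ) :
    ∃ (M : ℕ) (κ : ℂ[X]), ∀ t : ℂ, (h * a * b).eval t ≠ 0 →
      κ.eval t = (h * a * b).eval t ^ M * gP c j k n h a b K P t := by
  induction P using MvPolynomial.induction_on' with
  | monomial u x =>
    by_cases hd : (k : ℤ) ∣ (u 2 : ℤ) - j * K
    · obtain ⟨q, hq⟩ := hd
      set M := K + q.natAbs + n * K with hM
      refine ⟨M, Polynomial.C (x * c q (n * K)) * Polynomial.X ^ u 0 * h ^ ((M : ℤ) - K).toNat *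
        a ^ ((M : ℤ) - q).toNat * b ^ ((M : ℤ) + q - (n * K : ℕ)).toNat, fun t ht => ?_⟩
      rw [Polynomial.eval_mul, Polynomial.eval_mul] at ht
      have h1 := left_ne_zero_of_mul (left_ne_zero_of_mul ht)
      have h2 := right_ne_zero_of_mul (left_ne_zero_of_mul ht)
      have h3 := right_ne_zero_of_mul ht
      have hnK : (0 : ℤ) ≤ (n : ℤ) * K := by positivity
      have hK0 : (0 : ℤ) ≤ (K : ℤ) := by positivity
      have hq1 := abs_nonneg q
      have hq2 := le_abs_self q
      have hq3 := neg_abs_le q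
      have k1 : (0 : ℤ) ≤ (M : ℤ) - K := by rw [hM]; push_cast; linarith
      have k2 : (0 : ℤ) ≤ (M : ℤ) - q := by rw [hM]; push_cast; linarith
      have k3 : (0 : ℤ) ≤ (M : ℤ) + q - (n * K : ℕ) := by rw [hM]; push_cast; linarith
      have z1 : ∀ (y : ℂ) (m : ℤ), 0 ≤ m → y ^ m.toNat = y ^ m := by
        intro y m hm
        rw [← zpow_natCast, Int.toNat_of_nonneg hm]
      rw [gP_monomial, bpsi_of hk q (by linarith)]
      simp only [Polynomial.eval_mul, Polynomial.eval_pow, Polynomial.eval_C, Polynomial.eval_X]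
      rw [z1 _ _ k1, z1 _ _ k2, z1 _ _ k3, ← zpow_natCast (Polynomial.eval t h * _ * _), mul_zpow,
        mul_zpow, zpow_sub₀ h1, zpow_sub₀ h2, zpow_sub₀ h3, zpow_add₀ h3, zpow_sub₀ h3, zpow_neg,
        zpow_neg]
      field_simp
    · refine ⟨0, 0, fun t _ => ?_⟩
      rw [gP_monomial, bpsi_zero hd, mul_zero, mul_zero, Polynomial.eval_zero]
  | add P Q hP hQ =>
    obtain ⟨M1, κ1, h1⟩ := hP
    obtain ⟨M2, κ2, h2⟩ := hQ
    refine ⟨M1 + M2, (h * a * b) ^ M2 * κ1 + (h * a * b) ^ M1 * κ2, fun t ht => ?_⟩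
    rw [gP_add, Polynomial.eval_add, Polynomial.eval_mul, Polynomial.eval_mul,
      Polynomial.eval_pow, Polynomial.eval_pow, h1 t ht, h2 t ht]
    ring

end Mv

end Pool.Agent.Helper748.MC
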