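import Mathlib

set_option autoImplicit false

/-! # A differential equation for polynomials in one variable -/

namespace Pool.Agent.Helper748.MC

open Polynomial

theorem coeff_mul_low {p q : ℂ[X]} {a b : ℕ} (hp : ∀ i < a, p.coeff i = 0)
    (hq : ∀ i < b, q.coeff i = 0) : (p * q).coeff (a + b) = p.coeff a * q.coeff b := by
  rw [coeff_mul, Finset.sum_eq_single (a, b)]
  · rintro ⟨i, j⟩ hij hne
    rw [Finset.HasAntidiagonal.mem_antidiagonal] at hij
    dsimp only at hij ⊢
    rcases lt_trichotomy i a with h | h | h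
    · rw [hp i h, zero_mul]
    · exact absurd (by rw [h, show j = b by omega]) hne
    · rw [hq j (by omega), mul_zero]
  · intro h
    exact absurd (Finset.HasAntidiagonal.mem_antidiagonal.2 rfl : (a, b) ∈ _) h

theorem coeff_X_mul_deriv (p : ℂ[X]) (n : ℕ) :
    (X * derivative p).coeff n = (n : ℂ) * p.coeff n := by
  rcases n with _ | n
  · simp
  · rw [coeff_X_mul, coeff_derivative]
    push_cast
    ring

variable {g u : ℂ[X]} {K T : ℕ} {c q : ℂ}

theorem uni_low (hg : g ≠ 0) (hu : u ≠ 0)
    (h : C q * X ^ T * g ^ (K + 1) = X * (g * derivative u + C c * derivative g * u))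
    (hlt : u.natTrailingDegree < T + K * g.natTrailingDegree) :
    (u.natTrailingDegree : ℂ) + c * g.natTrailingDegree = 0 := by
  set α := g.natTrailingDegree with hα
  set μ := u.natTrailingDegree with hμ
  have hgl : ∀ i < α, g.coeff i = 0 := fun i hi => coeff_eq_zero_of_lt_natTrailingDegree hi
  have hul : ∀ i < μ, u.coeff i = 0 := fun i hi => coeff_eq_zero_of_lt_natTrailingDegree hi
  have h1 := congrArg (fun p => p.coeff (α + μ)) h
  beta_reduce at h1
  have h2 : (C q * X ^ T * g ^ (K + 1)).coeff (α + μ) = 0 := by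
    have h3 : X ^ (T + (K + 1) * α) ∣ C q * X ^ T * g ^ (K + 1) := by
      have h4 : X ^ α ∣ g := X_pow_dvd_iff.2 hgl
      have h5 := pow_dvd_pow_of_dvd h4 (K + 1)
      rw [← pow_mul, mul_comm α] at h5
      rw [pow_add]
      exact mul_dvd_mul (Dvd.intro_left _ rfl) h5
    refine X_pow_dvd_iff.1 h3 _ ?_
    nlinarith
  have h3 : X * (g * derivative u + C c * derivative g * u) =
      g * (X * derivative u) + C c * ((X * derivative g) * u) := by ring
  rw [h2, h3, coeff_add, coeff_C_mul, coeff_mul_low hgl, coeff_mul_low _ hul,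
    coeff_X_mul_deriv, coeff_X_mul_deriv] at h1
  · have h4 : g.coeff α ≠ 0 := by
      have := trailingCoeff_nonzero_iff_nonzero.2 hg
      exact this
    have h5 : u.coeff μ ≠ 0 := by
      have := trailingCoeff_nonzero_iff_nonzero.2 hu
      exact this
    have h6 : (g.coeff α * u.coeff μ) * ((μ : ℂ) + c * α) = 0 := by linear_combination -h1
    exact (mul_eq_zero.1 h6).resolve_left (mul_ne_zero h4 h5)
  · intro i hi
    rw [coeff_X_mul_deriv, hgl i hi, mul_zero]
  · intro i hi
    rw [coeff_X_mul_deriv, hul i hi, mul_zero]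

theorem natDegree_X_mul_deriv (p : ℂ[X]) : (X * derivative p).natDegree ≤ p.natDegree := by
  rw [natDegree_le_iff_coeff_eq_zero]
  intro n hn
  rw [coeff_X_mul_deriv, coeff_eq_zero_of_natDegree_lt hn, mul_zero]

theorem uni_high (hg : g ≠ 0) (hu : u ≠ 0)
    (h : C q * X ^ T * g ^ (K + 1) = X * (g * derivative u + C c * derivative g * u))
    (hlt : T + K * g.natDegree < u.natDegree) :
    (u.natDegree : ℂ) + c * g.natDegree = 0 := by
  set α := g.natDegree with hα
  set μ := u.natDegree with hμ
  have h1 := congrArg (fun p => p.coeff (α + μ)) h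
  beta_reduce at h1
  have h2 : (C q * X ^ T * g ^ (K + 1)).coeff (α + μ) = 0 := by
    apply coeff_eq_zero_of_natDegree_lt
    have h3 : (C q * X ^ T * g ^ (K + 1)).natDegree ≤ T + (K + 1) * α := by
      refine natDegree_mul_le.trans (add_le_add ?_ natDegree_pow_le)
      exact natDegree_C_mul_X_pow_le q T
    nlinarith
  have h3 : X * (g * derivative u + C c * derivative g * u) =
      g * (X * derivative u) + C c * ((X * derivative g) * u) := by ring
  rw [h2, h3, coeff_add, coeff_C_mul, coeff_mul_add_eq_of_natDegree_le le_rfl (natDegree_X_mul_deriv u),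
    coeff_mul_add_eq_of_natDegree_le (natDegree_X_mul_deriv g) le_rfl, coeff_X_mul_deriv,
    coeff_X_mul_deriv] at h1
  have h4 : g.coeff α ≠ 0 := leadingCoeff_ne_zero.2 hg
  have h5 : u.coeff μ ≠ 0 := leadingCoeff_ne_zero.2 hu
  have h6 : (g.coeff α * u.coeff μ) * ((μ : ℂ) + c * α) = 0 := by linear_combination -h1
  exact (mul_eq_zero.1 h6).resolve_left (mul_ne_zero h4 h5)

theorem uni_root (hg : g ≠ 0) (hu : u ≠ 0)
    (h : C q * X ^ T * g ^ (K + 1) = X * (g * derivative u + C c * derivative g * u))
    (hc : ∀ m ρ : ℕ, 1 ≤ m → ρ ≤ K * m → (ρ : ℂ) + c * m ≠ 0) {a : ℂ} (ha : a ≠ 0)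
    (hm : 1 ≤ g.rootMultiplicity a) :
    K * g.rootMultiplicity a + 1 ≤ u.rootMultiplicity a := by
  obtain ⟨g1, hg1, hg1'⟩ := exists_eq_pow_rootMultiplicity_mul_and_not_dvd g hg a
  obtain ⟨u1, hu1, hu1'⟩ := exists_eq_pow_rootMultiplicity_mul_and_not_dvd u hu a
  set m := g.rootMultiplicity a with hmdef
  set ρ := u.rootMultiplicity a with hρdef
  by_contra hlt
  push Not at hlt
  have hle : ρ ≤ K * m := by omega
  obtain ⟨m', hm'⟩ : ∃ m', m = m' + 1 := ⟨m - 1, by omega⟩
  have hdg : derivative g = (X - C a) ^ m' * (C (m : ℂ) * g1 + (X - C a) * derivative g1) := by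
    rw [hg1, hm', derivative_mul, derivative_X_sub_C_pow, Nat.add_sub_cancel]
    push_cast
    rw [C_add, C_1]
    have : (C (m' : ℂ) : ℂ[X]) = (m' : ℂ[X]) := by simp
    rw [this]
    ring
  have hdu : (X - C a) * derivative u =
      (X - C a) ^ ρ * (C (ρ : ℂ) * u1 + (X - C a) * derivative u1) := by
    conv_lhs => rw [hu1]
    rw [derivative_mul, derivative_X_sub_C_pow]
    have h2 : (X - C a) * (C (ρ : ℂ) * (X - C a) ^ (ρ - 1)) = C (ρ : ℂ) * (X - C a) ^ ρ := by
      rcases Nat.eq_zero_or_pos ρ with h0 | h0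
      · rw [h0]; simp
      · obtain ⟨k, hk⟩ : ∃ k, ρ = k + 1 := ⟨ρ - 1, by omega⟩
        rw [hk, Nat.add_sub_cancel]
        ring
    linear_combination u1 * h2
  have h1 : X * (g * derivative u + C c * derivative g * u) = (X - C a) ^ (m' + ρ) *
      (X * (C ((ρ : ℂ) + c * m) * (g1 * u1) + (X - C a) * (g1 * derivative u1 +
        C c * derivative g1 * u1))) := by
    have h2 : g * derivative u = (X - C a) ^ (m' + ρ) * (g1 * (C (ρ : ℂ) * u1 +
        (X - C a) * derivative u1)) := by
      have h3 : g = (X - C a) ^ m' * g1 * (X - C a) := by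
        conv_lhs => rw [hg1, hm']
        ring
      calc g * derivative u = (X - C a) ^ m' * g1 * ((X - C a) * derivative u) := by
            conv_lhs => rw [h3]
            ring
        _ = _ := by rw [hdu]; ring
    have h4 : derivative g * u = (X - C a) ^ (m' + ρ) * ((C (m : ℂ) * g1 +
        (X - C a) * derivative g1) * u1) := by
      rw [hdg]
      conv_lhs => rw [hu1]
      ring
    rw [C_add, C_mul]
    linear_combination X * h2 + X * C c * h4
  have h2 : (X - C a) ^ (m' + ρ + 1) ∣ C q * X ^ T * g ^ (K + 1) := by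
    have h3 : (X - C a) ^ m ∣ g := ⟨g1, hg1⟩
    have h4 := pow_dvd_pow_of_dvd h3 (K + 1)
    rw [← pow_mul] at h4
    refine dvd_mul_of_dvd_right ((pow_dvd_pow _ ?_).trans h4) _
    have : m * (K + 1) = K * m + m := by ring
    omega
  rw [h, h1, pow_succ, mul_dvd_mul_iff_left (pow_ne_zero _ (X_sub_C_ne_zero a)),
    dvd_iff_isRoot, IsRoot.def] at h2
  simp only [eval_mul, eval_add, eval_X, eval_C, eval_sub, sub_self, zero_mul, add_zero] at h2
  rw [dvd_iff_isRoot, IsRoot.def] at hg1' hu1'
  have h3 := hc m ρ hm hle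
  rcases mul_eq_zero.1 h2 with h4 | h4
  · exact ha h4
  · rcases mul_eq_zero.1 h4 with h5 | h5
    · exact h3 h5
    · rcases mul_eq_zero.1 h5 with h6 | h6
      · exact hg1' h6
      · exact hu1' h6

/-- The differential equation has solutions only for monomials. -/
theorem uni_main (hg : g ≠ 0) (hq : q ≠ 0)
    (h : C q * X ^ T * g ^ (K + 1) = X * (g * derivative u + C c * derivative g * u))
    (hc : ∀ m ρ : ℕ, 1 ≤ m → ρ ≤ K * m → (ρ : ℂ) + c * m ≠ 0)
    (hlow : T + K * g.natTrailingDegree ≤ u.natTrailingDegree)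
    (hhigh : u.natDegree ≤ T + K * g.natDegree) :
    g.natTrailingDegree = g.natDegree ∧ (T : ℂ) + K * g.natDegree + c * g.natDegree ≠ 0 := by
  have hu : u ≠ 0 := by
    rintro rfl
    rw [derivative_zero, mul_zero, mul_zero, add_zero, mul_zero] at h
    exact mul_ne_zero (mul_ne_zero (C_ne_zero.2 hq) (pow_ne_zero T X_ne_zero))
      (pow_ne_zero (K + 1) hg) h
  classical
  have htr : ∀ p : ℂ[X], p.rootMultiplicity 0 = p.natTrailingDegree :=
    fun p => rootMultiplicity_eq_natTrailingDegree'
  set R : Multiset ℂ := Multiset.replicate T 0 + K • g.roots + (g.roots.toFinset.erase 0).val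
    with hR
  have hle : R ≤ u.roots := by
    rw [Multiset.le_iff_count]
    intro a
    rw [hR, Multiset.count_add, Multiset.count_add, Multiset.count_nsmul, count_roots,
      count_roots, Multiset.count_replicate]
    by_cases ha : a = 0
    · subst ha
      have h0 : (0 : ℂ) ∉ (g.roots.toFinset.erase 0).val := fun h1 =>
        Finset.notMem_erase 0 g.roots.toFinset h1
      rw [if_pos rfl, htr, htr, Multiset.count_eq_zero_of_notMem h0]
      omega
    · rw [if_neg (fun h => ha h.symm), zero_add]
      by_cases hm : 1 ≤ g.rootMultiplicity a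
      · have h1 := uni_root hg hu h hc ha hm
        have h2 : Multiset.count a (g.roots.toFinset.erase 0).val ≤ 1 :=
          Multiset.nodup_iff_count_le_one.1 (Finset.nodup _) a
        omega
      · have h0 : g.rootMultiplicity a = 0 := by omega
        rw [h0, mul_zero, zero_add, Multiset.count_eq_zero_of_notMem]
        · exact Nat.zero_le _
        · intro hmem
          have h3 : a ∈ g.roots := by
            have := Finset.mem_of_mem_erase (s := g.roots.toFinset) (a := 0) (b := a) hmem
            exact Multiset.mem_toFinset.1 this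
          rw [← Multiset.count_pos, count_roots] at h3
          omega
  have hcard := Multiset.card_le_card hle
  have hgs : g.roots.card = g.natDegree := splits_iff_card_roots.1 (IsAlgClosed.splits g)
  have hud := card_roots' u
  rw [hR, Multiset.card_add, Multiset.card_add, Multiset.card_nsmul, Multiset.card_replicate, hgs,
    Finset.card_val] at hcard
  have hempty : (g.roots.toFinset.erase 0).card = 0 := by omega
  have hall : ∀ a ∈ g.roots, a = 0 := by
    intro a ha
    by_contra h0
    have : a ∈ g.roots.toFinset.erase 0 :=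
      Finset.mem_erase.2 ⟨h0, Multiset.mem_toFinset.2 ha⟩
    rw [Finset.card_eq_zero] at hempty
    rw [hempty] at this
    exact absurd this (Finset.notMem_empty a)
  have hα : g.natTrailingDegree = g.natDegree := by
    rw [← htr, ← count_roots, ← hgs, Multiset.eq_replicate_card.2 hall, Multiset.count_replicate,
      if_pos rfl, Multiset.card_replicate]
  refine ⟨hα, ?_⟩
  rw [hα] at hlow
  have huT : u.natTrailingDegree = u.natDegree := by
    have := natTrailingDegree_le_natDegree u
    omega
  have huD : u.natDegree = T + K * g.natDegree := by omega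
  have hmono : ∀ p : ℂ[X], p.natTrailingDegree = p.natDegree →
      p = C p.leadingCoeff * X ^ p.natDegree := by
    intro p hp
    ext n
    rw [coeff_C_mul, coeff_X_pow]
    split_ifs with hn
    · rw [hn, mul_one]; rfl
    · rw [mul_zero]
      rcases lt_or_gt_of_ne hn with h1 | h1
      · exact coeff_eq_zero_of_lt_natTrailingDegree (by rw [hp]; exact h1)
      · exact coeff_eq_zero_of_natDegree_lt h1
  have hgm := hmono g hα
  have hum := hmono u huT
  have h1 := congrArg (fun p => p.coeff (g.natDegree + u.natDegree)) h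
  beta_reduce at h1
  have h3 : X * (g * derivative u + C c * derivative g * u) =
      g * (X * derivative u) + C c * ((X * derivative g) * u) := by ring
  rw [h3, coeff_add, coeff_C_mul, coeff_mul_add_eq_of_natDegree_le le_rfl (natDegree_X_mul_deriv u),
    coeff_mul_add_eq_of_natDegree_le (natDegree_X_mul_deriv g) le_rfl, coeff_X_mul_deriv,
    coeff_X_mul_deriv] at h1
  intro h4
  have h5 : (C q * X ^ T * g ^ (K + 1)).coeff (g.natDegree + u.natDegree) ≠ 0 := by
    have h6 : C q * X ^ T * g ^ (K + 1) =
        C (q * g.leadingCoeff ^ (K + 1)) * X ^ (g.natDegree + u.natDegree) := by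
      conv_lhs => rw [hgm]
      rw [mul_pow, ← C_pow, ← pow_mul, huD, C_mul]
      ring
    rw [h6, coeff_C_mul_X_pow, if_pos rfl]
    exact mul_ne_zero hq (pow_ne_zero _ (leadingCoeff_ne_zero.2 hg))
  apply h5
  rw [h1, huD]
  push_cast
  linear_combination g.coeff g.natDegree * u.coeff (T + K * g.natDegree) * h4

end Pool.Agent.Helper748.MC
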