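import Pool.Agent.helper748_mc.Init
import Pool.Agent.helper748_mc.Uni

set_option autoImplicit false
set_option linter.unusedSectionVars false

/-! # Ternary forms whose Newton polygon has the barycenter on its boundary are not exact -/

namespace Pool.Agent.Helper748.MC

open MvPolynomial

section Ops

/-- the operator `∑ a_j x_j ∂_j` -/
noncomputable def Eop (a : Fin 3 → ℤ) (p : MvPolynomial (Fin 3) ℂ) : MvPolynomial (Fin 3) ℂ :=
  ∑ j, C (a j : ℂ) * (X j * pderiv j p)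

theorem coeff_X_pderiv (j : Fin 3) (p : MvPolynomial (Fin 3) ℂ) (m : Fin 3 →₀ ℕ) :
    coeff m (X j * pderiv j p) = (m j : ℂ) * coeff m p := by
  rw [coeff_X_mul']
  split_ifs with h
  · have h1 : (m - Finsupp.single j 1) + Finsupp.single j 1 = m := by
      rw [tsub_add_cancel_of_le]
      rw [Finsupp.single_le_iff]
      have : m j ≠ 0 := by simpa using h
      omega
    have h2 : m j ≠ 0 := by simpa using h
    rw [coeff_pderiv, h1, Finsupp.tsub_apply, Finsupp.single_eq_same]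
    have h3 : (((m j - 1 : ℕ) : ℂ) + 1) = (m j : ℂ) := by
      have : m j - 1 + 1 = m j := by omega
      exact_mod_cast this
    rw [h3, mul_comm]
  · have h2 : m j = 0 := by simpa using h
    rw [h2]; simp

theorem coeff_Eop (a : Fin 3 → ℤ) (p : MvPolynomial (Fin 3) ℂ) (m : Fin 3 →₀ ℕ) :
    coeff m (Eop a p) = (mw a m : ℂ) * coeff m p := by
  rw [Eop, coeff_sum, mw]
  push_cast
  rw [Finset.sum_mul]
  refine Finset.sum_congr rfl fun j _ => ?_
  rw [coeff_C_mul, coeff_X_pderiv]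
  ring

theorem Eop_add (a : Fin 3 → ℤ) (p q : MvPolynomial (Fin 3) ℂ) :
    Eop a (p + q) = Eop a p + Eop a q := by
  ext m
  rw [coeff_Eop, coeff_add, coeff_add, coeff_Eop, coeff_Eop]
  ring

theorem Eop_C_mul (a : Fin 3 → ℤ) (c : ℂ) (p : MvPolynomial (Fin 3) ℂ) :
    Eop a (C c * p) = C c * Eop a p := by
  ext m
  rw [coeff_Eop, coeff_C_mul, coeff_C_mul, coeff_Eop]
  ring

end Ops

section Line

/-- the vector product of `w` and `(1, 1, 1)` -/
def ev (w : Fin 3 → ℤ) : Fin 3 → ℤ := ![w 1 - w 2, w 2 - w 0, w 0 - w 1]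

/-- its square -/
def nq (w : Fin 3 → ℤ) : ℤ := (w 1 - w 2) ^ 2 + (w 2 - w 0) ^ 2 + (w 0 - w 1) ^ 2

theorem nq_pos (w : Fin 3 → ℤ) (hw : w 0 + w 1 + w 2 = 0) (hw0 : w ≠ 0) : 0 < nq w := by
  by_contra h
  push Not at h
  rw [nq] at h
  have ha := sq_nonneg (w 1 - w 2)
  have hb := sq_nonneg (w 2 - w 0)
  have hc := sq_nonneg (w 0 - w 1)
  have h1 : w 1 - w 2 = 0 := by
    have : (w 1 - w 2) ^ 2 = 0 := by omega
    exact pow_eq_zero_iff (by norm_num) |>.1 this
  have h2 : w 2 - w 0 = 0 := by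
    have : (w 2 - w 0) ^ 2 = 0 := by omega
    exact pow_eq_zero_iff (by norm_num) |>.1 this
  apply hw0
  funext i
  fin_cases i
  · change w 0 = 0; omega
  · change w 1 = 0; omega
  · change w 2 = 0; omega

theorem mw3 (a : Fin 3 → ℤ) (m : Fin 3 →₀ ℕ) :
    mw a m = a 0 * m 0 + a 1 * m 1 + a 2 * m 2 := by
  rw [mw, Fin.sum_univ_three]

theorem mono_eq (w : Fin 3 → ℤ) (hw : w 0 + w 1 + w 2 = 0) (m : Fin 3 →₀ ℕ) (N : ℤ)
    (hm : (m 0 : ℤ) + m 1 + m 2 = N) (i : Fin 3) :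
    3 * nq w * m i = nq w * N + 3 * mw (ev w) m * ev w i + 9 * mw w m * w i := by
  have h2 : w 2 = - w 0 - w 1 := by omega
  subst hm
  rw [mw3, mw3, nq]
  have e0 : ev w 0 = w 1 - w 2 := rfl
  have e1 : ev w 1 = w 2 - w 0 := rfl
  have e2 : ev w 2 = w 0 - w 1 := rfl
  rw [e0, e1, e2, h2]
  fin_cases i
  · change 3 * _ * (m 0 : ℤ) = _ + 3 * _ * ev w 0 + 9 * _ * w 0
    rw [e0, h2]
    ring
  · change 3 * _ * (m 1 : ℤ) = _ + 3 * _ * ev w 1 + 9 * _ * w 1
    rw [e1, h2]
    ring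
  · change 3 * _ * (m 2 : ℤ) = _ + 3 * _ * ev w 2 + 9 * _ * w 2
    rw [e2, h2]
    ring

theorem degree3 {N : ℕ} {p : MvPolynomial (Fin 3) ℂ} (hp : p.IsHomogeneous N) {m : Fin 3 →₀ ℕ}
    (hm : coeff m p ≠ 0) : m 0 + m 1 + m 2 = N := by
  have := hp hm
  rw [← this, ← Fin.sum_univ_three (fun i => m i), ← Finsupp.degree_eq_sum,
    Finsupp.degree_eq_weight_one]
  rfl

/-- On the forms of the weight zero, the operators `x_i ∂_i` are multiples of one operator. -/
theorem D_eq (w : Fin 3 → ℤ) (hw : w 0 + w 1 + w 2 = 0) {N : ℕ} {p : MvPolynomial (Fin 3) ℂ}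
    (hp : p.IsHomogeneous N) (hpw : IsW w 0 p) (i : Fin 3) :
    C (3 * nq w : ℂ) * (X i * pderiv i p) =
      C (nq w * N : ℂ) * p + C (3 * ev w i : ℂ) * Eop (ev w) p := by
  ext m
  rw [coeff_add, coeff_C_mul, coeff_C_mul, coeff_C_mul, coeff_X_pderiv, coeff_Eop]
  by_cases h : coeff m p = 0
  · rw [h]; ring
  have h1 := mono_eq w hw m N (by have := degree3 hp h; exact_mod_cast this) i
  rw [hpw m h] at h1
  have h2 : (3 * nq w * m i : ℂ) = nq w * N + 3 * mw (ev w) m * ev w i := by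
    have := congrArg (Int.cast : ℤ → ℂ) h1
    push_cast at this
    linear_combination this
  linear_combination coeff m p * h2

/-- the products of two of the variables -/
noncomputable def Qm : Fin 3 → MvPolynomial (Fin 3) ℂ := ![X 1 * X 2, X 0 * X 2, X 0 * X 1]

theorem Qm_mul (i : Fin 3) : X i * Qm i = X 0 * X 1 * X 2 := by
  fin_cases i
  · change X 0 * (X 1 * X 2) = _; ring
  · change X 1 * (X 0 * X 2) = _; ring
  · change X 2 * (X 0 * X 1) = _; ring

theorem Qm_pderiv (i : Fin 3) : pderiv i (Qm i) = 0 := by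
  have h : ∀ j k : Fin 3, j ≠ i → k ≠ i →
      pderiv i (X j * X k : MvPolynomial (Fin 3) ℂ) = 0 := by
    intro j k hj hk
    rw [Derivation.leibniz, pderiv_X_of_ne hj, pderiv_X_of_ne hk]
    simp
  fin_cases i
  · exact h 1 2 (by decide) (by decide)
  · exact h 0 2 (by decide) (by decide)
  · exact h 0 1 (by decide) (by decide)

theorem Qm_homog (i : Fin 3) : (Qm i).IsHomogeneous 2 := by
  have h : ∀ j k : Fin 3, (X j * X k : MvPolynomial (Fin 3) ℂ).IsHomogeneous 2 :=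
    fun j k => (isHomogeneous_X ℂ j).mul (isHomogeneous_X ℂ k)
  fin_cases i
  · exact h 1 2
  · exact h 0 2
  · exact h 0 1

theorem isW_X (w : Fin 3 → ℤ) (j : Fin 3) : IsW w (w j) (X j : MvPolynomial (Fin 3) ℂ) := by
  intro m hm
  rw [coeff_X'] at hm
  split_ifs at hm with h
  · rw [← h, mw_single]
  · exact absurd rfl hm

theorem IsW.mul {w : Fin 3 → ℤ} {a b : ℤ} {p q : MvPolynomial (Fin 3) ℂ} (hp : IsW w a p)
    (hq : IsW w b q) : IsW w (a + b) (p * q) := by
  intro m hm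
  rw [coeff_mul] at hm
  obtain ⟨x, hx, hx0⟩ := Finset.exists_ne_zero_of_sum_ne_zero hm
  rw [Finset.HasAntidiagonal.mem_antidiagonal] at hx
  rw [← hx, mw_add, hp _ (left_ne_zero_of_mul hx0), hq _ (right_ne_zero_of_mul hx0)]

theorem Qm_isW (w : Fin 3 → ℤ) (hw : w 0 + w 1 + w 2 = 0) (i : Fin 3) :
    IsW w (- w i) (Qm i) := by
  have h : ∀ j k l : Fin 3, w j + w k = - w l →
      IsW w (- w l) (X j * X k : MvPolynomial (Fin 3) ℂ) := by
    intro j k l hl
    rw [← hl]
    exact (isW_X w j).mul (isW_X w k)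
  fin_cases i
  · exact h 1 2 0 (by omega)
  · exact h 0 2 1 (by omega)
  · exact h 0 1 2 (by omega)

theorem Qm_ge (i : Fin 3) (v : MvPolynomial (Fin 3) ℂ) {m : Fin 3 →₀ ℕ}
    (hm : coeff m (Qm i * v) ≠ 0) : ∀ j, j ≠ i → 1 ≤ m j := by
  have h : ∀ j k : Fin 3, coeff m ((X j * X k) * v) ≠ 0 → 1 ≤ m j ∧ 1 ≤ m k := by
    intro j k h
    have h1 : coeff m (X j * (X k * v)) ≠ 0 := by rwa [← mul_assoc]
    have h2 : coeff m (X k * (X j * v)) ≠ 0 := by
      rwa [show X k * (X j * v) = (X j * X k) * v by ring]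
    rw [coeff_X_mul'] at h1 h2
    constructor
    · by_contra h3
      rw [if_neg (by simp; omega)] at h1
      exact h1 rfl
    · by_contra h3
      rw [if_neg (by simp; omega)] at h2
      exact h2 rfl
  intro j hj
  fin_cases i
  · have := h 1 2 hm
    fin_cases j
    · exact absurd rfl hj
    · exact this.1
    · exact this.2
  · have := h 0 2 hm
    fin_cases j
    · exact this.1
    · exact absurd rfl hj
    · exact this.2
  · have := h 0 1 hm
    fin_cases j
    · exact this.1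
    · exact this.2
    · exact absurd rfl hj

end Line

section Psi

variable (a : Fin 3 → ℕ)

/-- the substitution `x_i = t ^ (a i)` -/
noncomputable def psi : MvPolynomial (Fin 3) ℂ →ₐ[ℂ] Polynomial ℂ :=
  aeval fun i => Polynomial.X ^ a i

/-- the exponent -/
def nw (m : Fin 3 →₀ ℕ) : ℕ := a 0 * m 0 + a 1 * m 1 + a 2 * m 2

theorem psi_monomial (m : Fin 3 →₀ ℕ) (c : ℂ) :
    psi a (monomial m c) = Polynomial.C c * Polynomial.X ^ nw a m := by
  rw [psi, aeval_monomial, Finsupp.prod_fintype _ _ (by simp), Fin.prod_univ_three, nw]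
  have : (algebraMap ℂ (Polynomial ℂ)) c = Polynomial.C c := rfl
  rw [this]
  simp only [← pow_mul, ← pow_add]

theorem psi_sum (p : MvPolynomial (Fin 3) ℂ) :
    psi a p = ∑ m ∈ p.support, Polynomial.C (coeff m p) * Polynomial.X ^ nw a m := by
  conv_lhs => rw [p.as_sum]
  rw [map_sum]
  exact Finset.sum_congr rfl fun m _ => psi_monomial a m _

theorem psi_coeff (p : MvPolynomial (Fin 3) ℂ) (e : ℕ) :
    (psi a p).coeff e = ∑ m ∈ p.support, if nw a m = e then coeff m p else 0 := by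
  rw [psi_sum, Polynomial.finsetSum_coeff]
  refine Finset.sum_congr rfl fun m _ => ?_
  rw [Polynomial.coeff_C_mul_X_pow]
  by_cases h : nw a m = e
  · rw [if_pos h, if_pos h.symm]
  · rw [if_neg h, if_neg (fun h' => h h'.symm)]

theorem exists_of_psi {p : MvPolynomial (Fin 3) ℂ} {e : ℕ} (h : (psi a p).coeff e ≠ 0) :
    ∃ m, coeff m p ≠ 0 ∧ nw a m = e := by
  rw [psi_coeff] at h
  obtain ⟨m, _, hm0⟩ := Finset.exists_ne_zero_of_sum_ne_zero h
  split_ifs at hm0 with h1
  · exact ⟨m, hm0, h1⟩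
  · exact absurd rfl hm0

theorem psi_deriv (p : MvPolynomial (Fin 3) ℂ) :
    Polynomial.X * Polynomial.derivative (psi a p) = psi a (Eop (fun i => (a i : ℤ)) p) := by
  induction p using MvPolynomial.induction_on' with
  | monomial m c =>
    have h1 : Eop (fun i => (a i : ℤ)) (monomial m c) = monomial m ((nw a m : ℂ) * c) := by
      ext k
      rw [coeff_Eop, coeff_monomial, coeff_monomial]
      split_ifs with h
      · subst h
        rw [mw3, nw]
        push_cast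
        ring
      · rw [mul_zero]
    rw [h1, psi_monomial, psi_monomial]
    ext n
    rw [coeff_X_mul_deriv, Polynomial.coeff_C_mul_X_pow, Polynomial.coeff_C_mul_X_pow]
    split_ifs with h
    · rw [h]
    · rw [mul_zero]
  | add p q hp hq =>
    rw [map_add, map_add, mul_add, hp, hq, Eop_add, map_add]

end Psi

section Main

variable (w : Fin 3 → ℤ) (hw : w 0 + w 1 + w 2 = 0)

/-- the exponents of the substitution -/
def Nb (w : Fin 3 → ℤ) : ℕ := (w 1 - w 2).natAbs + (w 2 - w 0).natAbs + (w 0 - w 1).natAbs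

/-- the exponents of the substitution -/
def ax (w : Fin 3 → ℤ) (i : Fin 3) : ℕ := (ev w i + Nb w).toNat

theorem ax_eq (w : Fin 3 → ℤ) (i : Fin 3) : (ax w i : ℤ) = ev w i + Nb w := by
  rw [ax, Int.toNat_of_nonneg]
  fin_cases i
  · change 0 ≤ (w 1 - w 2) + ((Nb w : ℕ) : ℤ)
    rw [Nb]; push_cast
    have := neg_abs_le (w 1 - w 2)
    have h1 := abs_nonneg (w 2 - w 0)
    have h2 := abs_nonneg (w 0 - w 1)
    linarith
  · change 0 ≤ (w 2 - w 0) + ((Nb w : ℕ) : ℤ)
    rw [Nb]; push_cast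
    have := neg_abs_le (w 2 - w 0)
    have h1 := abs_nonneg (w 1 - w 2)
    have h2 := abs_nonneg (w 0 - w 1)
    linarith
  · change 0 ≤ (w 0 - w 1) + ((Nb w : ℕ) : ℤ)
    rw [Nb]; push_cast
    have := neg_abs_le (w 0 - w 1)
    have h1 := abs_nonneg (w 1 - w 2)
    have h2 := abs_nonneg (w 2 - w 0)
    linarith

theorem nw_eq (m : Fin 3 →₀ ℕ) (N : ℕ) (hm : m 0 + m 1 + m 2 = N) :
    (nw (ax w) m : ℤ) = mw (ev w) m + Nb w * N := by
  rw [nw, mw3, ← hm]
  push_cast
  rw [ax_eq, ax_eq, ax_eq]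
  ring

include hw in
theorem nw_inj (hw0 : w ≠ 0) {m m' : Fin 3 →₀ ℕ} {N : ℕ} (hm : m 0 + m 1 + m 2 = N)
    (hm' : m' 0 + m' 1 + m' 2 = N) (h1 : mw w m = 0) (h1' : mw w m' = 0)
    (h : nw (ax w) m = nw (ax w) m') : m = m' := by
  have hq := nq_pos w hw hw0
  have h2 : mw (ev w) m = mw (ev w) m' := by
    have ha := nw_eq w m N hm
    have hb := nw_eq w m' N hm'
    rw [h] at ha
    linarith
  ext i
  have ha := mono_eq w hw m N (by exact_mod_cast hm) i
  have hb := mono_eq w hw m' N (by exact_mod_cast hm') i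
  rw [h1, h2] at ha
  rw [h1'] at hb
  have h3 : 3 * nq w * (m i : ℤ) = 3 * nq w * (m' i : ℤ) := by rw [ha, hb]
  have h4 := mul_left_cancel₀ (by positivity : (3 * nq w : ℤ) ≠ 0) h3
  exact_mod_cast h4

include hw in
/-- the exponents of the exceptional terms -/
theorem mon_main (hw0 : w ≠ 0) {d K : ℕ} (hd : 0 < d) {m m0 : Fin 3 →₀ ℕ} (i : Fin 3)
    (hm : m 0 + m 1 + m 2 = d * K + 3) (hm0 : m0 0 + m0 1 + m0 2 = d)
    (h1 : mw w m = 0) (h1' : mw w m0 = 0) (hge : ∀ j, j ≠ i → 1 ≤ m j)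
    (hex : ∀ i j, m0 i = 0 → 3 * m0 j ≠ 2 * d)
    (h : (nw (ax w) m : ℂ) + (-3 / d - K) * (nw (ax w) m0 : ℂ) = 0) :
    nw (ax w) m = 3 * Nb w + K * nw (ax w) m0 := by
  have hq := nq_pos w hw hw0
  have hdc : (d : ℂ) ≠ 0 := Nat.cast_ne_zero.2 hd.ne'
  have h2 : (d : ℤ) * nw (ax w) m = (d * K + 3) * nw (ax w) m0 := by
    have h3 : (d : ℂ) * nw (ax w) m = (d * K + 3) * nw (ax w) m0 := by
      field_simp at h
      linear_combination h
    exact_mod_cast h3
  have ha := nw_eq w m _ hm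
  have hb := nw_eq w m0 _ hm0
  have h3 : ∀ j, (d : ℤ) * m j = (d * K + 3) * m0 j := by
    intro j
    have hc := mono_eq w hw m (d * K + 3) (by exact_mod_cast hm) j
    have he := mono_eq w hw m0 d (by exact_mod_cast hm0) j
    rw [h1] at hc
    rw [h1'] at he
    push_cast at ha hb
    have h4 : (3 * nq w) * ((d : ℤ) * m j) = (3 * nq w) * ((d * K + 3) * m0 j) := by
      have h5 : (d : ℤ) * mw (ev w) m = (d * K + 3) * mw (ev w) m0 := by
        rw [ha, hb] at h2
        linear_combination h2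
      linear_combination d * hc - (d * K + 3) * he + 3 * ev w j * h5
    exact mul_left_cancel₀ (by positivity) h4
  -- the differences
  have h4 : ∀ j, (d : ℤ) * ((m j : ℤ) - K * m0 j) = 3 * m0 j := by
    intro j
    have := h3 j
    linear_combination this
  have hdz : (0 : ℤ) < d := by exact_mod_cast hd
  have h5 : ∀ j, 0 ≤ (m j : ℤ) - K * m0 j := by
    intro j
    have h6 := h4 j
    by_contra h7
    push Not at h7
    have h8 : (d : ℤ) * ((m j : ℤ) - K * m0 j) < 0 := mul_neg_of_pos_of_neg hdz h7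
    have h9 : (0 : ℤ) ≤ 3 * m0 j := by positivity
    omega
  have h6 : ∀ j, j ≠ i → 1 ≤ (m j : ℤ) - K * m0 j := by
    intro j hj
    by_contra h7
    have h8 : (m j : ℤ) - K * m0 j = 0 := by have := h5 j; omega
    have h9 := h4 j
    rw [h8, mul_zero] at h9
    have h10 : (m0 j : ℤ) = 0 := by omega
    rw [h10, mul_zero, sub_zero] at h8
    have := hge j hj
    omega
  have h7 : ((m 0 : ℤ) - K * m0 0) + ((m 1 : ℤ) - K * m0 1) + ((m 2 : ℤ) - K * m0 2) = 3 := by
    have e1 : (m 0 : ℤ) + m 1 + m 2 = d * K + 3 := by exact_mod_cast hm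
    have e2 : (m0 0 : ℤ) + m0 1 + m0 2 = d := by exact_mod_cast hm0
    linear_combination e1 - K * e2
  have key : ∀ x y z : Fin 3, ((m x : ℤ) - K * m0 x) + ((m y : ℤ) - K * m0 y) +
      ((m z : ℤ) - K * m0 z) = 3 → 1 ≤ (m y : ℤ) - K * m0 y → 1 ≤ (m z : ℤ) - K * m0 z →
      (m x : ℤ) - K * m0 x = 1 ∧ (m y : ℤ) - K * m0 y = 1 ∧ (m z : ℤ) - K * m0 z = 1 := by
    intro x y z hs hy hz
    by_cases hx : (m x : ℤ) - K * m0 x = 0
    · exfalso
      have hx4 := h4 x
      rw [hx, mul_zero] at hx4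
      have hx0 : m0 x = 0 := by omega
      have hyz : ((m y : ℤ) - K * m0 y = 2) ∨ ((m z : ℤ) - K * m0 z = 2) := by omega
      rcases hyz with h8 | h8
      · have h9 := h4 y
        rw [h8] at h9
        exact hex x y hx0 (by omega)
      · have h9 := h4 z
        rw [h8] at h9
        exact hex x z hx0 (by omega)
    · have := h5 x
      omega
  have h8 : (m 0 : ℤ) - K * m0 0 = 1 ∧ (m 1 : ℤ) - K * m0 1 = 1 ∧ (m 2 : ℤ) - K * m0 2 = 1 := by
    fin_cases i
    · exact key 0 1 2 h7 (h6 1 (by decide)) (h6 2 (by decide))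
    · have := key 1 0 2 (by linarith) (h6 0 (by decide)) (h6 2 (by decide))
      exact ⟨this.2.1, this.1, this.2.2⟩
    · have := key 2 0 1 (by linarith) (h6 0 (by decide)) (h6 1 (by decide))
      exact ⟨this.2.1, this.2.2, this.1⟩
  have h9 : (nw (ax w) m : ℤ) = 3 * Nb w + K * nw (ax w) m0 := by
    rw [nw, nw]
    push_cast
    rw [ax_eq, ax_eq, ax_eq]
    have e0 : ev w 0 = w 1 - w 2 := rfl
    have e1 : ev w 1 = w 2 - w 0 := rfl
    have e2 : ev w 2 = w 0 - w 1 := rfl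
    rw [e0, e1, e2]
    obtain ⟨f0, f1, f2⟩ := h8
    linear_combination (w 1 - w 2 + Nb w) * f0 + (w 2 - w 0 + Nb w) * f1 +
      (w 0 - w 1 + Nb w) * f2
  exact_mod_cast h9

end Main

end Pool.Agent.Helper748.MC
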