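import Pool.Agent.W574.CN.Deh2
import Pool.Agent.W574.SM.Main
import Pool.Agent.W574.HS.Flat

set_option autoImplicit false
set_option linter.unusedSectionVars false

/-! # Functional equations of ideals generated by forms: the exactness of the functions -/

namespace Pool.Agent.Helper748.MC

open MvPolynomial Pool.Agent.W574.SM Pool.Agent.W574.CN

section Dec

variable {σ : Type} [Fintype σ] [DecidableEq σ]

/-- the operators `∑ ∂_i A_i + R` -/
def Dec (Q : Module.End ℂ (MvPolynomial σ ℂ)) : Prop :=
  ∃ (A : σ → Module.End ℂ (MvPolynomial σ ℂ)) (R : MvPolynomial σ ℂ), (∀ i, A i ∈ weyl σ) ∧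
    ∀ g, Q g = ∑ i, pderiv i (A i g) + R * g

theorem dec_one : Dec (1 : Module.End ℂ (MvPolynomial σ ℂ)) :=
  ⟨fun _ => 0, 1, fun _ => Subalgebra.zero_mem _, fun g => by simp⟩

theorem dec_add {Q1 Q2 : Module.End ℂ (MvPolynomial σ ℂ)} (h1 : Dec Q1) (h2 : Dec Q2) :
    Dec (Q1 + Q2) := by
  obtain ⟨A1, R1, hA1, h1⟩ := h1
  obtain ⟨A2, R2, hA2, h2⟩ := h2
  refine ⟨fun i => A1 i + A2 i, R1 + R2, fun i => Subalgebra.add_mem _ (hA1 i) (hA2 i),
    fun g => ?_⟩
  rw [LinearMap.add_apply, h1, h2]
  simp only [LinearMap.add_apply, map_add, Finset.sum_add_distrib]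
  ring

theorem dec_mul_gen {Q G : Module.End ℂ (MvPolynomial σ ℂ)} (h : Dec Q)
    (hG : G ∈ (Set.range (fun i : σ => LinearMap.mulLeft ℂ (X i : MvPolynomial σ ℂ)) ∪
      Set.range (fun i : σ => ((pderiv i : Derivation ℂ (MvPolynomial σ ℂ)
        (MvPolynomial σ ℂ)) : MvPolynomial σ ℂ →ₗ[ℂ] MvPolynomial σ ℂ)))) : Dec (Q * G) := by
  obtain ⟨A, R, hA, h⟩ := h
  rcases hG with ⟨k, rfl⟩ | ⟨k, rfl⟩
  · refine ⟨fun i => A i * LinearMap.mulLeft ℂ (X k), R * X k,
      fun i => Subalgebra.mul_mem _ (hA i) (weyl_X k), fun g => ?_⟩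
    rw [Module.End.mul_apply, h]
    simp only [Module.End.mul_apply, LinearMap.mulLeft_apply]
    ring
  · refine ⟨fun i => A i * ((pderiv k : Derivation ℂ (MvPolynomial σ ℂ)
        (MvPolynomial σ ℂ)) : MvPolynomial σ ℂ →ₗ[ℂ] MvPolynomial σ ℂ) +
        (if i = k then LinearMap.mulLeft ℂ R else 0), - pderiv k R, fun i => ?_, fun g => ?_⟩
    · refine Subalgebra.add_mem _ (Subalgebra.mul_mem _ (hA i) (weyl_d k)) ?_
      split_ifs
      · exact Pool.Agent.W574.HS.mulLeft_mem R
      · exact Subalgebra.zero_mem _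
    · rw [Module.End.mul_apply, h]
      simp only [Module.End.mul_apply, LinearMap.add_apply, map_add, Finset.sum_add_distrib]
      have h1 : ∑ i, pderiv i ((if i = k then LinearMap.mulLeft ℂ R else 0 :
          Module.End ℂ (MvPolynomial σ ℂ)) g) = pderiv k (R * g) := by
        rw [Finset.sum_eq_single k]
        · rw [if_pos rfl]; rfl
        · intro i _ hi
          rw [if_neg hi]; simp
        · intro h; exact absurd (Finset.mem_univ k) h
      rw [h1, Derivation.leibniz]
      simp only [smul_eq_mul, Derivation.coeFn_coe]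
      ring

theorem dec_weyl (Q : Module.End ℂ (MvPolynomial σ ℂ)) (hQ : Q ∈ weyl σ) : Dec Q := by
  have key : ∀ D : Module.End ℂ (MvPolynomial σ ℂ), Dec D → Dec (D * Q) := by
    induction hQ using Algebra.adjoin_induction with
    | mem G hG => exact fun D hD => dec_mul_gen hD hG
    | algebraMap r =>
      intro D hD
      obtain ⟨A, R, hA, h⟩ := hD
      refine ⟨fun i => r • A i, r • R, fun i => Subalgebra.smul_mem _ (hA i) r, fun g => ?_⟩
      rw [Module.End.mul_apply, Module.algebraMap_end_apply, map_smul, h, smul_add,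
        Finset.smul_sum]
      simp
    | add Q1 Q2 _ _ h1 h2 =>
      intro D hD
      rw [mul_add]
      exact dec_add (h1 D hD) (h2 D hD)
    | mul Q1 Q2 _ _ h1 h2 =>
      intro D hD
      rw [← mul_assoc]
      exact h2 _ (h1 D hD)
  have := key 1 dec_one
  rwa [one_mul] at this

end Dec

section Hom

variable {σ : Type} [Fintype σ] [DecidableEq σ]

theorem hc_pderiv (i : σ) (m : ℕ) (p : MvPolynomial σ ℂ) :
    homogeneousComponent m (pderiv i p) = pderiv i (homogeneousComponent (m + 1) p) := by
  induction p using MvPolynomial.induction_on' with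
  | monomial u a =>
    have h1 : (monomial u a : MvPolynomial σ ℂ).IsHomogeneous u.degree :=
      isHomogeneous_monomial a rfl
    rw [homogeneousComponent_of_mem h1]
    by_cases hu : u.degree = 0
    · have h2 : u = 0 := (Finsupp.degree_eq_zero_iff u).1 hu
      subst h2
      rw [if_neg (by rw [hu]; omega), map_zero]
      have h3 : (monomial 0 a : MvPolynomial σ ℂ) = C a := rfl
      rw [h3, pderiv_C, map_zero]
    · obtain ⟨k, hk⟩ := Nat.exists_eq_succ_of_ne_zero hu
      have h2 : (pderiv i (monomial u a : MvPolynomial σ ℂ)).IsHomogeneous k := by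
        have := h1.pderiv (i := i)
        rw [hk] at this
        simpa using this
      rw [homogeneousComponent_of_mem h2, hk]
      by_cases hm : m = k
      · rw [if_pos hm, if_pos (by rw [hm])]
      · rw [if_neg hm, if_neg (by omega), map_zero]
  | add p q hp hq => rw [map_add, map_add, map_add, map_add, hp, hq]

theorem hc_mul (N m : ℕ) (p g : MvPolynomial σ ℂ) (hg : g.IsHomogeneous N) :
    homogeneousComponent (m + N) (p * g) = homogeneousComponent m p * g := by
  induction p using MvPolynomial.induction_on' with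
  | monomial u a =>
    have h1 : (monomial u a : MvPolynomial σ ℂ).IsHomogeneous u.degree :=
      isHomogeneous_monomial a rfl
    rw [homogeneousComponent_of_mem h1, homogeneousComponent_of_mem (h1.mul hg)]
    by_cases hm : m = u.degree
    · rw [if_pos hm, if_pos (by rw [hm])]
    · rw [if_neg hm, if_neg (by omega), zero_mul]
  | add p q hp hq => rw [add_mul, map_add, map_add, add_mul, hp, hq]

theorem hc_mul_lt (N m : ℕ) (hm : m < N) (p g : MvPolynomial σ ℂ) (hg : g.IsHomogeneous N) :
    homogeneousComponent m (p * g) = 0 := by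
  induction p using MvPolynomial.induction_on' with
  | monomial u a =>
    have h1 : (monomial u a : MvPolynomial σ ℂ).IsHomogeneous u.degree :=
      isHomogeneous_monomial a rfl
    rw [homogeneousComponent_of_mem (h1.mul hg), if_neg (by omega)]
  | add p q hp hq => rw [add_mul, map_add, hp, hq, add_zero]

end Hom

end Pool.Agent.Helper748.MC
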