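import Pool.Agent.helper748_mc.Dec

set_option autoImplicit false
set_option linter.unusedSectionVars false

/-! # The exactness of the functions -/

namespace Pool.Agent.Helper748.MC

open MvPolynomial Pool.Agent.W574.SM Pool.Agent.W574.CN

section Fam

variable {σ : Type}

/-- a polynomial which depends polynomially on a number -/
def PolyFam (F : ℂ → MvPolynomial σ ℂ) : Prop :=
  ∃ P : Polynomial (MvPolynomial σ ℂ), ∀ c, F c = P.eval (C c)

theorem pf_const (p : MvPolynomial σ ℂ) : PolyFam (fun _ => p) :=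
  ⟨Polynomial.C p, fun c => by rw [Polynomial.eval_C]⟩

theorem pf_add {F G : ℂ → MvPolynomial σ ℂ} (hF : PolyFam F) (hG : PolyFam G) :
    PolyFam (fun c => F c + G c) := by
  obtain ⟨P, hP⟩ := hF
  obtain ⟨Q, hQ⟩ := hG
  exact ⟨P + Q, fun c => by beta_reduce; rw [hP, hQ, Polynomial.eval_add]⟩

theorem pf_mul {F G : ℂ → MvPolynomial σ ℂ} (hF : PolyFam F) (hG : PolyFam G) :
    PolyFam (fun c => F c * G c) := by
  obtain ⟨P, hP⟩ := hF
  obtain ⟨Q, hQ⟩ := hG
  exact ⟨P * Q, fun c => by beta_reduce; rw [hP, hQ, Polynomial.eval_mul]⟩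

theorem pf_sum {α : Type} (s : Finset α) {F : α → ℂ → MvPolynomial σ ℂ}
    (hF : ∀ i ∈ s, PolyFam (F i)) : PolyFam (fun c => ∑ i ∈ s, F i c) := by
  classical
  induction s using Finset.induction_on with
  | empty => simpa using pf_const 0
  | insert i s hi ih =>
    have := pf_add (hF i (Finset.mem_insert_self i s))
      (ih fun j hj => hF j (Finset.mem_insert_of_mem hj))
    refine (congrArg PolyFam ?_).mp this
    funext c
    rw [Finset.sum_insert hi]

theorem pf_poly (p : Polynomial ℂ) : PolyFam (σ := σ) (fun c => C (p.eval c)) := by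
  refine ⟨p.map C, fun c => ?_⟩
  rw [Polynomial.eval_map, Polynomial.eval₂_hom]

theorem pf_pderiv {F : ℂ → MvPolynomial σ ℂ} (hF : PolyFam F) (i : σ) :
    PolyFam (fun c => pderiv i (F c)) := by
  obtain ⟨P, hP⟩ := hF
  refine ⟨∑ k ∈ P.support, Polynomial.monomial k (pderiv i (P.coeff k)), fun c => ?_⟩
  beta_reduce
  rw [hP, Polynomial.eval_eq_sum, Polynomial.sum_def, map_sum, Polynomial.eval_finsetSum]
  refine Finset.sum_congr rfl fun k _ => ?_
  rw [Derivation.leibniz, Polynomial.eval_monomial, Derivation.leibniz_pow, pderiv_C]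
  simp only [smul_eq_mul, smul_zero, mul_zero, zero_add]
  ring

theorem pf_congr {F G : ℂ → MvPolynomial σ ℂ} (hF : PolyFam F) (h : ∀ c, F c = G c) :
    PolyFam G := by
  obtain ⟨P, hP⟩ := hF
  exact ⟨P, fun c => by rw [← h, hP]⟩

theorem pf_map {τ : Type} {F : ℂ → MvPolynomial σ ℂ} (hF : PolyFam F)
    (φ : MvPolynomial σ ℂ →ₐ[ℂ] MvPolynomial τ ℂ) : PolyFam (fun c => φ (F c)) := by
  obtain ⟨P, hP⟩ := hF
  refine ⟨P.map φ.toRingHom, fun c => ?_⟩
  have h1 : (C c : MvPolynomial τ ℂ) = φ.toRingHom (C c) := by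
    change _ = φ (C c)
    rw [algHom_C, algebraMap_eq]
  beta_reduce
  rw [hP, h1, Polynomial.eval_map, Polynomial.eval₂_hom]
  rfl

/-- A polynomial family which vanishes at all large natural numbers is zero. -/
theorem pf_zero {F : ℂ → MvPolynomial σ ℂ} (hF : PolyFam F) (n0 : ℕ)
    (h : ∀ n : ℕ, n0 ≤ n → F n = 0) (c : ℂ) : F c = 0 := by
  obtain ⟨P, hP⟩ := hF
  have hP0 : P = 0 := by
    apply Polynomial.eq_zero_of_infinite_isRoot
    have hinj : Function.Injective (fun n : ℕ => (C ((n : ℕ) : ℂ) : MvPolynomial σ ℂ)) := by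
      intro m n hmn
      exact_mod_cast C_injective σ ℂ hmn
    refine Set.Infinite.mono ?_ (Set.Infinite.image hinj.injOn (Set.Ici_infinite n0))
    rintro _ ⟨n, hn, rfl⟩
    change P.IsRoot _
    rw [Polynomial.IsRoot.def]
    beta_reduce
    rw [← hP]
    exact h n hn
  rw [hP, hP0, Polynomial.eval_zero]

theorem pf_eq {F G : ℂ → MvPolynomial σ ℂ} (hF : PolyFam F) (hG : PolyFam G) (n0 : ℕ)
    (h : ∀ n : ℕ, n0 ≤ n → F n = G n) (c : ℂ) : F c = G c := by
  have h1 : PolyFam (fun c => F c + (-1) * G c) := pf_add hF (pf_mul (pf_const (-1)) hG)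
  have h2 := pf_zero h1 n0 (fun n hn => by rw [h n hn]; ring) c
  linear_combination h2

end Fam

section Lift

variable {σ ι : Type} [Fintype σ] [DecidableEq σ] [Fintype ι] [DecidableEq ι]
  (f : ι → MvPolynomial σ ℂ)

theorem exists_lift (Q : Module.End ℂ (MvPolynomial σ ℂ)) (hQ : Q ∈ weyl σ) :
    ∃ Qh : MvPolynomial ι (MvPolynomial σ ℂ) → MvPolynomial ι (MvPolynomial σ ℂ),
      ∀ s q, Q (ip (E f s) q) = ip (E f s) (Qh q) := by
  induction hQ using Algebra.adjoin_induction with
  | mem Q hQ =>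
    rcases hQ with ⟨i, rfl⟩ | ⟨i, rfl⟩
    · exact ⟨fun q => C (X i) * q, fun s q => by rw [ip_C_mul]; rfl⟩
    · exact ⟨fun q => dh f i q, fun s q => ip_dh f i s q⟩
  | algebraMap r =>
    exact ⟨fun q => C (C r) * q, fun s q => by rw [ip_C_mul, C_mul']; rfl⟩
  | add Q1 Q2 _ _ h1 h2 =>
    obtain ⟨A1, hA1⟩ := h1
    obtain ⟨A2, hA2⟩ := h2
    exact ⟨fun q => A1 q + A2 q, fun s q => by rw [LinearMap.add_apply, hA1, hA2, map_add]⟩
  | mul Q1 Q2 _ _ h1 h2 =>
    obtain ⟨A1, hA1⟩ := h1
    obtain ⟨A2, hA2⟩ := h2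
    exact ⟨fun q => A1 (A2 q), fun s q => by rw [Module.End.mul_apply, hA2, hA1]⟩

theorem exists_theta (β : ι →₀ ℕ) :
    ∃ Th : MvPolynomial ι (MvPolynomial σ ℂ) → MvPolynomial ι (MvPolynomial σ ℂ),
      ∀ s q, ip (E f s) (Th q) = (∏ j, ((s j : ℂ)) ^ β j) • ip (E f s) q := by
  induction β using finsupp_ind with
  | h0 => exact ⟨id, fun s q => by simp⟩
  | h1 β j ih =>
    obtain ⟨Th, h1⟩ := ih
    refine ⟨fun q => theta f j (Th q), fun s q => ?_⟩
    rw [ip_theta, h1]
    have h3 : ∏ k, ((s k : ℂ)) ^ ((β + Finsupp.single j 1 : ι →₀ ℕ) k)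
        = (s j : ℂ) * ∏ k, ((s k : ℂ)) ^ (β k) := by
      rw [← Finset.mul_prod_erase _ _ (Finset.mem_univ j),
        ← Finset.mul_prod_erase Finset.univ (fun k => ((s k : ℂ)) ^ (β k)) (Finset.mem_univ j),
        Finsupp.add_apply, Finsupp.single_eq_same, pow_succ, mul_comm (_ ^ _) (s j : ℂ), mul_assoc]
      congr 2
      refine Finset.prod_congr rfl fun k hk => ?_
      rw [Finsupp.add_apply, Finsupp.single_eq_of_ne (Finset.ne_of_mem_erase hk), add_zero]
    rw [h3, mul_smul]
    have h4 : ((s j : ℕ) : MvPolynomial σ ℂ) = C ((s j : ℕ) : ℂ) := by simp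
    rw [h4, C_mul']

theorem homog_prod_pow (d : ℕ) (hf : ∀ j, (f j).IsHomogeneous d) (s : ι → ℕ) :
    (∏ j, f j ^ s j).IsHomogeneous (d * ∑ j, s j) := by
  rw [Finset.mul_sum]
  exact IsHomogeneous.prod _ _ _ fun j _ => (hf j).pow (s j)

/-- the argument of the operators in the functional equation is homogeneous -/
theorem homog_arg (d : ℕ) (hf : ∀ j, (f j).IsHomogeneous d) (s : ι → ℕ) (c : ι → ℤ)
    (hc : ∑ j, c j = 1) :
    (C ((∏ j, (if c j < 0 then (s j).choose (-c j).toNat else 1) : ℕ) : ℂ) *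
      ∏ j, f j ^ ((s j : ℤ) + c j).toNat).IsHomogeneous (d * (∑ j, s j + 1)) := by
  set m : ℕ := ∏ j, (if c j < 0 then (s j).choose (-c j).toNat else 1) with hm
  by_cases hpos : ∀ j, 0 ≤ (s j : ℤ) + c j
  · have hsum : ∑ j, ((s j : ℤ) + c j).toNat = ∑ j, s j + 1 := by
      have : ((∑ j, ((s j : ℤ) + c j).toNat : ℕ) : ℤ) = ((∑ j, s j + 1 : ℕ) : ℤ) := by
        push_cast
        rw [← hc, ← Finset.sum_add_distrib]
        refine Finset.sum_congr rfl fun j _ => ?_
        exact Int.toNat_of_nonneg (hpos j)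
      exact_mod_cast this
    rw [C_mul']
    apply (homogeneousSubmodule _ ℂ _).smul_mem
    rw [← hsum]
    exact homog_prod_pow f d hf _
  · push Not at hpos
    obtain ⟨j, hj⟩ := hpos
    have : m = 0 := by
      refine Finset.prod_eq_zero (Finset.mem_univ j) ?_
      rw [if_pos (by omega), Nat.choose_eq_zero_iff]
      omega
    rw [this, Nat.cast_zero, C_0, zero_mul]
    exact isHomogeneous_zero _ _ _

theorem exists_prim (d : ℕ) (hd : 0 < d) (hf : ∀ j, (f j).IsHomogeneous d) (b : Polynomial ℂ)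
    (hb : IsFunctionalEq f b) :
    ∃ a : σ → MvPolynomial ι (MvPolynomial σ ℂ), ∀ s : ι →₀ ℕ,
      C (b.eval ((∑ j, s j : ℕ) : ℂ)) * ∏ j, f j ^ s j =
        ∑ i, pderiv i (homogeneousComponent (d * ∑ j, s j + 1) (ip (E f s) (a i))) := by
  classical
  obtain ⟨S, P, hS, hP⟩ := hb
  choose A R hA hQ using fun (c : ι → ℤ) (β : ι →₀ ℕ) => dec_weyl (P c β).1 (P c β).2
  choose Ah hAh using fun (c : ι → ℤ) (β : ι →₀ ℕ) (i : σ) =>
    exists_lift f (A c β i) (hA c β i)
  choose Th hTh using fun β => exists_theta f β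
  refine ⟨fun i => ∑ c ∈ S, ∑ β ∈ (P c).support, Ah c β i (Th β (qc f c)), fun s => ?_⟩
  have h1 := congrArg (homogeneousComponent (d * ∑ j, s j)) (hP s)
  rw [homogeneousComponent_C_mul, homogeneousComponent_of_mem (homog_prod_pow f d hf s),
    if_pos rfl] at h1
  rw [h1, map_sum]
  simp only [map_sum]
  rw [Finset.sum_comm]
  refine Finset.sum_congr rfl fun c hc => ?_
  rw [Finset.sum_comm, applyAt, Finsupp.sum, map_sum]
  refine Finset.sum_congr rfl fun β _ => ?_
  have hh := homog_arg f d hf s c (hS c hc)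
  rw [hQ c β, map_smul, map_add, hc_mul_lt _ _ (by rw [mul_add]; omega) _ _ hh, add_zero, map_sum,
    Finset.smul_sum]
  refine Finset.sum_congr rfl fun i _ => ?_
  rw [← hAh, hTh, ip_qc, hc_pderiv, map_smul, map_smul, Derivation.map_smul]

theorem exists_prim_F (d : ℕ) (hd : 0 < d) (hf : ∀ j, (f j).IsHomogeneous d) (b : Polynomial ℂ)
    (hb : IsFunctionalEq f b) :
    ∃ a : σ → MvPolynomial ι (MvPolynomial σ ℂ), ∀ (S : ℕ) (F : MvPolynomial ι ℂ),
      F.IsHomogeneous S → C (b.eval (S : ℂ)) * aeval f F =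
        ∑ i, pderiv i (homogeneousComponent (d * S + 1) (ip (Phi f F) (a i))) := by
  obtain ⟨a, ha⟩ := exists_prim f d hd hf b hb
  refine ⟨a, fun S F hF => ?_⟩
  have hdec : F = ∑ s ∈ F.support, coeff s F • monomial s (1 : ℂ) := by
    conv_lhs => rw [F.as_sum]
    refine Finset.sum_congr rfl fun s _ => ?_
    rw [smul_monomial, smul_eq_mul, mul_one]
  have h1 : Phi f F = ∑ s ∈ F.support, C (C (coeff s F)) * E f s := by
    conv_lhs => rw [hdec]
    rw [map_sum]
    refine Finset.sum_congr rfl fun s _ => ?_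
    rw [map_smul, Algebra.smul_def]
    rfl
  have h2 : aeval f F = ∑ s ∈ F.support, C (coeff s F) * ∏ j, f j ^ s j := by
    conv_lhs => rw [hdec]
    rw [map_sum]
    refine Finset.sum_congr rfl fun s _ => ?_
    rw [map_smul, aeval_monomial, map_one, one_mul, Finsupp.prod_fintype _ _ (by simp), C_mul']
  rw [h2, Finset.mul_sum, h1]
  simp only [ip_sum_left, ip_C_mul_left, map_sum]
  rw [Finset.sum_comm]
  refine Finset.sum_congr rfl fun s hs => ?_
  have hs1 : ∑ j, s j = S := by
    have := hF (mem_support_iff.1 hs)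
    rw [← this, ← Finsupp.degree_eq_sum, Finsupp.degree_eq_weight_one]; rfl
  have h3 := ha s
  rw [hs1] at h3
  rw [mul_left_comm, h3, Finset.mul_sum]
  refine Finset.sum_congr rfl fun i _ => ?_
  rw [homogeneousComponent_C_mul, pderiv_C_mul, C_mul']

end Lift

section Power

variable {σ ι : Type} [Fintype σ] [DecidableEq σ] [Fintype ι] [DecidableEq ι]
  (f : ι → MvPolynomial σ ℂ) (lam : ι → ℂ)

/-- the linear form with the coefficients `lam` -/
noncomputable def lf : MvPolynomial ι ℂ := ∑ j, C (lam j) * X j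

/-- the linear combination of the polynomials -/
noncomputable def lcomb : MvPolynomial σ ℂ := ∑ j, C (lam j) * f j

theorem pderiv_lf (j : ι) : pderiv j (lf lam) = C (lam j) := by
  rw [lf, map_sum, Finset.sum_eq_single j]
  · rw [pderiv_C_mul, pderiv_X_self, mul_one]
  · intro k _ hk
    rw [pderiv_C_mul, pderiv_X_of_ne hk, mul_zero]
  · intro h; exact absurd (Finset.mem_univ j) h

theorem ip_lf (γ : ι →₀ ℕ) : ∀ (S : ℕ) (x : MvPolynomial σ ℂ),
    ip (Phi f (lf lam ^ S)) (monomial γ x) =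
      C ((S.descFactorial γ.degree : ℂ) * ∏ j, lam j ^ γ j) * x * lcomb f lam ^ (S - γ.degree) := by
  induction γ using finsupp_ind with
  | h0 =>
    intro S x
    rw [ip_monomial]
    have h : coeff 0 (Phi f (lf lam ^ S)) = lcomb f lam ^ S := by
      rw [← constantCoeff_eq, map_pow, map_pow]
      congr 1
      rw [lf, lcomb, map_sum, map_sum]
      refine Finset.sum_congr rfl fun j _ => ?_
      rw [map_mul, map_mul, Phi, aeval_X, aeval_C, map_add]
      have h1 : (algebraMap ℂ (MvPolynomial ι (MvPolynomial σ ℂ))) (lam j) = C (C (lam j)) := rfl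
      rw [h1]
      simp
    rw [h]
    simp [mfact]
  | h1 γ k ih =>
    intro S x
    have h : monomial (γ + Finsupp.single k 1) x = X k * monomial γ x := by
      rw [mul_comm, X, monomial_mul, mul_one]
    have h2 : pderiv k (Phi f (lf lam ^ S)) =
        C (C ((S : ℂ) * lam k)) * Phi f (lf lam ^ (S - 1)) := by
      rw [pderiv_Phi, Derivation.leibniz_pow, pderiv_lf]
      rw [smul_eq_mul, map_nsmul, map_mul, nsmul_eq_mul]
      have h3 : Phi f (C (lam k)) = C (C (lam k)) := by rw [Phi, aeval_C]; rfl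
      rw [h3]
      simp only [map_mul, map_natCast]
      ring
    rw [h, ip_X_mul, h2, ip_C_mul_left, ih]
    have h4 : (γ + Finsupp.single k 1).degree = γ.degree + 1 := by
      rw [map_add, Finsupp.degree_single]
    have h5 : ∏ j, lam j ^ ((γ + Finsupp.single k 1 : ι →₀ ℕ) j) = lam k * ∏ j, lam j ^ γ j := by
      rw [← Finset.mul_prod_erase _ _ (Finset.mem_univ k),
        ← Finset.mul_prod_erase Finset.univ (fun j => lam j ^ γ j) (Finset.mem_univ k),
        Finsupp.add_apply, Finsupp.single_eq_same, pow_succ]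
      have : ∏ x ∈ Finset.univ.erase k, lam x ^ ((γ + Finsupp.single k 1 : ι →₀ ℕ) x)
          = ∏ x ∈ Finset.univ.erase k, lam x ^ γ x := by
        refine Finset.prod_congr rfl fun j hj => ?_
        rw [Finsupp.add_apply, Finsupp.single_eq_of_ne (Finset.ne_of_mem_erase hj), add_zero]
      rw [this]
      ring
    rw [h4, h5]
    have h6 : ((S.descFactorial (γ.degree + 1) : ℕ) : ℂ) =
        S * ((S - 1).descFactorial γ.degree : ℕ) := by
      rcases Nat.eq_zero_or_pos S with h0 | h0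
      · subst h0; simp
      · obtain ⟨m, rfl⟩ : ∃ m, S = m + 1 := ⟨S - 1, by omega⟩
        rw [Nat.succ_descFactorial_succ, Nat.add_sub_cancel]
        push_cast
        ring
    have h7 : S - 1 - γ.degree = S - (γ.degree + 1) := by omega
    rw [h6, h7]
    simp only [C_mul]
    ring

end Power

section Main

variable {σ ι : Type} [Fintype σ] [DecidableEq σ] [Fintype ι] [DecidableEq ι]
  (f : ι → MvPolynomial σ ℂ) (lam : ι → ℂ)

/-- **The exactness theorem.** For a functional equation of an ideal generated by forms `f_j` of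
the degree `d` and a member `G` of the linear system, `b(c) G ^ c` is the divergence of a vector
field `v(c) G ^ (c - K)`, where `v(c)` is homogeneous of degree `d K + 1` and depends polynomially
on `c`. -/
theorem ex_main (d : ℕ) (hd : 0 < d) (hf : ∀ j, (f j).IsHomogeneous d) (b : Polynomial ℂ)
    (hb : IsFunctionalEq f b) (hG : lcomb f lam ≠ 0) :
    ∃ (K : ℕ) (v : ℂ → σ → MvPolynomial σ ℂ), (∀ i, PolyFam (fun c => v c i)) ∧
      (∀ c i, (v c i).IsHomogeneous (d * K + 1)) ∧
      ∀ c, C (b.eval c) * lcomb f lam ^ (K + 1) = ∑ i, (lcomb f lam * pderiv i (v c i) +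
        C (c - K) * pderiv i (lcomb f lam) * v c i) := by
  classical
  obtain ⟨a, ha⟩ := exists_prim_F f d hd hf b hb
  set G := lcomb f lam with hGdef
  have hGh : G.IsHomogeneous d := by
    rw [hGdef, lcomb]
    refine IsHomogeneous.sum _ _ _ fun j _ => ?_
    rw [C_mul']
    exact (homogeneousSubmodule _ ℂ _).smul_mem _ (hf j)
  set K : ℕ := ∑ i, (a i).totalDegree with hK
  have hKle : ∀ i, ∀ γ ∈ (a i).support, γ.degree ≤ K := by
    intro i γ hγ
    have h1 : γ.degree ≤ (a i).totalDegree := by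
      have := le_totalDegree hγ
      rwa [Finsupp.degree_eq_sum, ← Finsupp.sum_fintype _ (fun _ e => e) (by simp)]
    have h2 : (a i).totalDegree ≤ K :=
      Finset.single_le_sum (f := fun i => (a i).totalDegree) (fun _ _ => Nat.zero_le _)
        (Finset.mem_univ i)
    omega
  set v : ℂ → σ → MvPolynomial σ ℂ := fun c i => ∑ γ ∈ (a i).support,
    C ((descPochhammer ℂ γ.degree).eval c * ∏ j, lam j ^ γ j) *
      homogeneousComponent (d * γ.degree + 1) (coeff γ (a i)) * G ^ (K - γ.degree) with hv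
  have hpf : ∀ i, PolyFam (fun c => v c i) := by
    intro i
    rw [hv]
    refine pf_sum _ fun γ _ => ?_
    have h1 := pf_poly (σ := σ) (descPochhammer ℂ γ.degree * Polynomial.C (∏ j, lam j ^ γ j))
    have h2 := pf_mul (pf_mul h1 (pf_const (homogeneousComponent (d * γ.degree + 1)
      (coeff γ (a i))))) (pf_const (G ^ (K - γ.degree)))
    refine pf_congr h2 fun c => ?_
    rw [Polynomial.eval_mul, Polynomial.eval_C]
  have hvh : ∀ c i, (v c i).IsHomogeneous (d * K + 1) := by
    intro c i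
    rw [hv]
    refine IsHomogeneous.sum _ _ _ fun γ hγ => ?_
    have h1 : (homogeneousComponent (d * γ.degree + 1) (coeff γ (a i))).IsHomogeneous
      (d * γ.degree + 1) := homogeneousComponent_isHomogeneous _ _
    have h2 := (((isHomogeneous_C σ ((descPochhammer ℂ γ.degree).eval c *
      ∏ j, lam j ^ γ j)).mul h1).mul (hGh.pow (K - γ.degree)))
    have h3 : 0 + (d * γ.degree + 1) + d * (K - γ.degree) = d * K + 1 := by
      obtain ⟨m, hm⟩ := Nat.exists_eq_add_of_le (hKle i γ hγ)
      rw [hm, Nat.add_sub_cancel_left]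
      ring
    rwa [h3] at h2
  have hPhi : ∀ (S : ℕ) (i : σ), K + 1 ≤ S →
      homogeneousComponent (d * S + 1) (ip (Phi f (lf lam ^ S)) (a i)) =
        v S i * G ^ (S - K) := by
    intro S i hS
    conv_lhs => rw [(a i).as_sum]
    rw [map_sum, map_sum, hv, Finset.sum_mul]
    refine Finset.sum_congr rfl fun γ hγ => ?_
    rw [ip_lf]
    have h1 : d * S + 1 = (d * γ.degree + 1) + d * (S - γ.degree) := by
      obtain ⟨m, hm⟩ := Nat.exists_eq_add_of_le (le_trans (hKle i γ hγ) (by omega : K ≤ S))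
      rw [hm, Nat.add_sub_cancel_left]
      ring
    rw [h1, hc_mul _ _ _ _ (hGh.pow (S - γ.degree)), homogeneousComponent_C_mul]
    have h2 : S - γ.degree = (K - γ.degree) + (S - K) := by
      have := hKle i γ hγ
      omega
    rw [h2, pow_add, descPochhammer_eval_eq_descFactorial]
    ring
  refine ⟨K, v, hpf, hvh, fun c => ?_⟩
  refine pf_eq (F := fun c => C (b.eval c) * G ^ (K + 1)) (G := fun c =>
    ∑ i, (G * pderiv i (v c i) + C (c - K) * pderiv i G * v c i))
    (pf_mul (pf_poly b) (pf_const _)) ?_ (K + 1) ?_ c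
  · refine pf_sum _ fun i _ => ?_
    refine pf_add (pf_mul (pf_const G) (pf_pderiv (hpf i) i)) ?_
    refine pf_mul (pf_mul ?_ (pf_const _)) (hpf i)
    have := pf_poly (σ := σ) (Polynomial.X - Polynomial.C (K : ℂ))
    refine pf_congr this fun c => ?_
    rw [Polynomial.eval_sub, Polynomial.eval_X, Polynomial.eval_C]
  · intro S hS
    obtain ⟨m, rfl⟩ : ∃ m, S = K + 1 + m := ⟨S - (K + 1), by omega⟩
    have hl : (lf lam ^ (K + 1 + m)).IsHomogeneous (K + 1 + m) := by
      have h0 : (lf lam).IsHomogeneous 1 := by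
        rw [lf]
        refine IsHomogeneous.sum _ _ _ fun j _ => ?_
        have := (isHomogeneous_C ι (lam j)).mul (isHomogeneous_X ℂ j)
        rwa [zero_add] at this
      have := h0.pow (K + 1 + m)
      rwa [one_mul] at this
    have h1 := ha (K + 1 + m) _ hl
    have h2 : aeval f (lf lam ^ (K + 1 + m)) = G ^ (K + 1 + m) := by
      rw [map_pow]
      congr 1
      rw [lf, map_sum, hGdef, lcomb]
      refine Finset.sum_congr rfl fun j _ => ?_
      rw [map_mul, aeval_C, aeval_X]
      rfl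
    rw [h2] at h1
    have h3 : ∀ i, pderiv i (homogeneousComponent (d * (K + 1 + m) + 1)
        (ip (Phi f (lf lam ^ (K + 1 + m))) (a i))) = G ^ m * (G * pderiv i
          (v ((K + 1 + m : ℕ) : ℂ) i) + C (((K + 1 + m : ℕ) : ℂ) - K) * pderiv i G *
            v ((K + 1 + m : ℕ) : ℂ) i) := by
      intro i
      rw [hPhi _ i (by omega)]
      have h4 : K + 1 + m - K = m + 1 := by omega
      have h5 : (((K + 1 + m : ℕ) : ℂ) - K) = ((m + 1 : ℕ) : ℂ) := by push_cast; ring
      rw [h4, h5, Derivation.leibniz, Derivation.leibniz_pow]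
      simp only [smul_eq_mul, nsmul_eq_mul, Nat.add_sub_cancel, map_natCast]
      ring
    rw [Finset.sum_congr rfl fun i _ => h3 i, ← Finset.mul_sum] at h1
    apply mul_left_cancel₀ (pow_ne_zero m hG)
    beta_reduce
    rw [← h1]
    ring

end Main

end Pool.Agent.Helper748.MC
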