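import Pool.Agent.helper748_mc.Core

set_option autoImplicit false
set_option linter.unusedSectionVars false

/-! # Ternary forms whose Newton polygon has the barycenter on its boundary are not exact -/

namespace Pool.Agent.Helper748.MC

open MvPolynomial

theorem Eop_sum3 (a : Fin 3 → ℤ) (c : Fin 3 → ℂ) (p : Fin 3 → MvPolynomial (Fin 3) ℂ) :
    Eop a (∑ i, C (c i) * p i) = ∑ i, C (c i) * Eop a (p i) := by
  rw [Fin.sum_univ_three, Fin.sum_univ_three, Eop_add, Eop_add, Eop_C_mul, Eop_C_mul, Eop_C_mul]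

/-- The equation for the initial form, in logarithmic coordinates. -/
theorem log_eq (w : Fin 3 → ℤ) (hw : w 0 + w 1 + w 2 = 0) {d K : ℕ}
    {G : MvPolynomial (Fin 3) ℂ} (hG : G.IsHomogeneous d) (hGw : IsW w 0 G)
    (v : Fin 3 → MvPolynomial (Fin 3) ℂ) (hv : ∀ i, (v i).IsHomogeneous (d * K + 1))
    (hvw : ∀ i, IsW w (w i) (v i)) (s : ℂ) (hs : (d : ℂ) * s = -3)
    (h : G ^ (K + 1) = ∑ i, (G * pderiv i (v i) + C (s - K) * pderiv i G * v i)) :
    C (nq w : ℂ) * (X 0 * X 1 * X 2) * G ^ (K + 1) =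
      G * Eop (ev w) (∑ i, C (ev w i : ℂ) * (Qm i * v i)) +
        C (s - K) * Eop (ev w) G * ∑ i, C (ev w i : ℂ) * (Qm i * v i) := by
  set u : Fin 3 → MvPolynomial (Fin 3) ℂ := fun i => Qm i * v i with hu
  have huh : ∀ i, (u i).IsHomogeneous (d * K + 3) := by
    intro i
    have := (Qm_homog i).mul (hv i)
    rwa [show 2 + (d * K + 1) = d * K + 3 by ring] at this
  have huw : ∀ i, IsW w 0 (u i) := by
    intro i
    have := (Qm_isW w hw i).mul (hvw i)
    rwa [neg_add_cancel] at this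
  have h1 : ∀ i, (X 0 * X 1 * X 2) * pderiv i (v i) = X i * pderiv i (u i) := by
    intro i
    rw [hu]
    simp only
    rw [Derivation.leibniz, Qm_pderiv, smul_zero, add_zero, smul_eq_mul, ← Qm_mul i]
    ring
  have h2 : ∀ i, (X 0 * X 1 * X 2) * (pderiv i G * v i) = (X i * pderiv i G) * u i := by
    intro i
    rw [hu]
    simp only
    rw [← Qm_mul i]
    ring
  have h3 : C (3 * nq w : ℂ) * (X 0 * X 1 * X 2) * G ^ (K + 1) = ∑ i,
      (G * (C (nq w * (d * K + 3 : ℕ) : ℂ) * u i + C (3 * ev w i : ℂ) * Eop (ev w) (u i)) +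
        C (s - K) * (C (nq w * d : ℂ) * G + C (3 * ev w i : ℂ) * Eop (ev w) G) * u i) := by
    rw [h, Finset.mul_sum]
    refine Finset.sum_congr rfl fun i _ => ?_
    rw [← D_eq w hw (huh i) (huw i) i, ← D_eq w hw hG hGw i, ← h1 i]
    have := h2 i
    linear_combination C (3 * nq w : ℂ) * C (s - K) * this
  have h4 : ∀ i, G * (C (nq w * (d * K + 3 : ℕ) : ℂ) * u i + C (3 * ev w i : ℂ) *
      Eop (ev w) (u i)) + C (s - K) * (C (nq w * d : ℂ) * G + C (3 * ev w i : ℂ) *
        Eop (ev w) G) * u i = C (3 : ℂ) * (G * (C (ev w i : ℂ) * Eop (ev w) (u i)) +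
          C (s - K) * Eop (ev w) G * (C (ev w i : ℂ) * u i)) := by
    intro i
    have h5 : (C (nq w * (d * K + 3 : ℕ) : ℂ) : MvPolynomial (Fin 3) ℂ) +
        C (s - K) * C (nq w * d : ℂ) = 0 := by
      rw [← C_mul, ← C_add]
      have : (nq w * (d * K + 3 : ℕ) : ℂ) + (s - K) * (nq w * d : ℂ) = 0 := by
        push_cast
        linear_combination (nq w : ℂ) * hs
      rw [this, C_0]
    have h6 : (C (3 * ev w i : ℂ) : MvPolynomial (Fin 3) ℂ) = C (3 : ℂ) * C (ev w i : ℂ) := by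
      rw [← C_mul]
    rw [h6]
    linear_combination G * u i * h5
  rw [Finset.sum_congr rfl fun i _ => h4 i, ← Finset.mul_sum, Finset.sum_add_distrib,
    ← Finset.mul_sum, ← Finset.mul_sum, ← Eop_sum3 (ev w) (fun i => (ev w i : ℂ))] at h3
  have h7 : (C (3 : ℂ) : MvPolynomial (Fin 3) ℂ) ≠ 0 := by
    rw [Ne, C_eq_zero]; norm_num
  apply mul_left_cancel₀ h7
  rw [← h3]
  have h8 : (C (3 * nq w : ℂ) : MvPolynomial (Fin 3) ℂ) = C (3 : ℂ) * C (nq w : ℂ) := by
    rw [← C_mul]
  rw [h8]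
  ring

/-- **A ternary form of degree `d` whose Newton polygon has the barycenter on its boundary is not
exact for `s = - 3 / d`.** -/
theorem not_exact_face {d : ℕ} (hd : 0 < d) {G : MvPolynomial (Fin 3) ℂ}
    (hG : G.IsHomogeneous d) (w : Fin 3 → ℤ) (hw : w 0 + w 1 + w 2 = 0) (hw0 : w ≠ 0)
    (hGw : Wge w 0 G) (h1 : ∃ m, coeff m G ≠ 0 ∧ mw w m = 0 ∧ mw (ev w) m ≤ 0)
    (h2 : ∃ m, coeff m G ≠ 0 ∧ mw w m = 0 ∧ 0 ≤ mw (ev w) m)
    (hex : ∀ m, coeff m G ≠ 0 → mw w m = 0 → ∀ i j, m i = 0 → 3 * m j ≠ 2 * d) :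
    ¬ Exact d G (-3 / d) := by
  classical
  intro hE
  have hdc : (d : ℂ) ≠ 0 := Nat.cast_ne_zero.2 hd.ne'
  obtain ⟨m1, hm1, hm1w, hm1e⟩ := h1
  obtain ⟨m2, hm2, hm2w, hm2e⟩ := h2
  set G0 := wc w 0 G with hG0
  have hc0 : ∀ m, mw w m = 0 → coeff m G0 = coeff m G := by
    intro m hm
    rw [hG0, coeff_wc, if_pos hm]
  have hG0ne : G0 ≠ 0 := by
    intro h
    have := hc0 m1 hm1w
    rw [h, coeff_zero] at this
    exact hm1 this.symm
  have hG0h : G0.IsHomogeneous d := isHomogeneous_wc hG 0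
  have hG0w : IsW w 0 G0 := isW_wc 0 G
  obtain ⟨K, v, hv, hvw, hEq⟩ := exact_initial hG hGw hG0ne hE
  set s : ℂ := -3 / d with hs
  have hds : (d : ℂ) * s = -3 := by rw [hs]; field_simp
  set U : MvPolynomial (Fin 3) ℂ := ∑ i, C (ev w i : ℂ) * (Qm i * v i) with hU
  have hlog := log_eq w hw hG0h hG0w v hv hvw s hds hEq
  rw [← hU] at hlog
  have hUh : U.IsHomogeneous (d * K + 3) := by
    rw [hU]
    refine IsHomogeneous.sum _ _ _ fun i _ => ?_
    have := (isHomogeneous_C (Fin 3) (ev w i : ℂ)).mul ((Qm_homog i).mul (hv i))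
    rwa [show 0 + (2 + (d * K + 1)) = d * K + 3 by ring] at this
  -- the substitution
  set g := psi (ax w) G0 with hg
  set u := psi (ax w) U with hu
  set c : ℂ := s - K with hc
  have hEa : ∀ {N : ℕ} {p : MvPolynomial (Fin 3) ℂ}, p.IsHomogeneous N →
      Eop (fun i => (ax w i : ℤ)) p = Eop (ev w) p + C ((Nb w : ℂ) * N) * p := by
    intro N p hp
    ext m
    rw [coeff_add, coeff_C_mul, coeff_Eop, coeff_Eop]
    by_cases h : coeff m p = 0
    · rw [h]; ring
    have h3 := nw_eq w m N (degree3 hp h)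
    have h4 : mw (fun i => (ax w i : ℤ)) m = nw (ax w) m := by
      rw [mw3, nw]; push_cast; rfl
    rw [h4, h3]
    push_cast
    ring
  have hrel : Polynomial.C (nq w : ℂ) * Polynomial.X ^ (3 * Nb w) * g ^ (K + 1) =
      Polynomial.X * (g * Polynomial.derivative u +
        Polynomial.C c * Polynomial.derivative g * u) := by
    have h3 := congrArg (psi (ax w)) hlog
    have h4 : psi (ax w) (X 0 * X 1 * X 2) = Polynomial.X ^ (3 * Nb w) := by
      rw [map_mul, map_mul, psi, aeval_X, aeval_X, aeval_X, ← pow_add, ← pow_add]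
      congr 1
      have e0 := ax_eq w 0
      have e1 := ax_eq w 1
      have e2 := ax_eq w 2
      have f0 : ev w 0 = w 1 - w 2 := rfl
      have f1 : ev w 1 = w 2 - w 0 := rfl
      have f2 : ev w 2 = w 0 - w 1 := rfl
      omega
    have hC : ∀ x : ℂ, psi (ax w) (C x) = Polynomial.C x := by
      intro x
      rw [psi, aeval_C]; rfl
    simp only [map_mul, map_add, map_pow, hC] at h3 h4
    rw [h4, ← hg, ← hu] at h3
    rw [h3]
    have h5 : Polynomial.X * Polynomial.derivative u = psi (ax w) (Eop (ev w) U) +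
        Polynomial.C ((Nb w : ℂ) * (d * K + 3 : ℕ)) * u := by
      rw [hu, psi_deriv, hEa hUh, map_add, map_mul, hC]
    have h6 : Polynomial.X * Polynomial.derivative g = psi (ax w) (Eop (ev w) G0) +
        Polynomial.C ((Nb w : ℂ) * d) * g := by
      rw [hg, psi_deriv, hEa hG0h, map_add, map_mul, hC]
    have h7 : Polynomial.C ((Nb w : ℂ) * (d * K + 3 : ℕ)) +
        Polynomial.C c * Polynomial.C ((Nb w : ℂ) * d) = 0 := by
      rw [← Polynomial.C_mul, ← Polynomial.C_add]
      have : ((Nb w : ℂ) * (d * K + 3 : ℕ)) + c * ((Nb w : ℂ) * d) = 0 := by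
        rw [hc]
        push_cast
        linear_combination (Nb w : ℂ) * hds
      rw [this, Polynomial.C_0]
    linear_combination (-g) * h5 - Polynomial.C c * u * h6 - g * u * h7
  -- the support of the substituted form
  have hinj : ∀ m, coeff m G0 ≠ 0 → g.coeff (nw (ax w) m) = coeff m G0 := by
    intro m hm
    rw [hg, psi_coeff, Finset.sum_eq_single m]
    · rw [if_pos rfl]
    · intro m' hm' hne
      rw [if_neg]
      intro h
      apply hne
      have h3 := mem_support_iff.1 hm'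
      exact nw_inj w hw hw0 (degree3 hG0h h3) (degree3 hG0h hm) (hG0w _ h3) (hG0w _ hm) h
    · intro h
      exact absurd (mem_support_iff.2 hm) h
  have hgne : g ≠ 0 := by
    intro h
    have := hinj m1 (by rw [hc0 m1 hm1w]; exact hm1)
    rw [h, Polynomial.coeff_zero, hc0 m1 hm1w] at this
    exact hm1 this.symm
  have hq : (nq w : ℂ) ≠ 0 := by
    have := nq_pos w hw hw0
    exact_mod_cast this.ne'
  have hune : u ≠ 0 := by
    intro h
    rw [h, Polynomial.derivative_zero, mul_zero, mul_zero, add_zero, mul_zero] at hrel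
    exact mul_ne_zero (mul_ne_zero (Polynomial.C_ne_zero.2 hq)
      (pow_ne_zero _ Polynomial.X_ne_zero)) (pow_ne_zero (K + 1) hgne) hrel
  -- the exceptional terms do not exist
  have hmon : ∀ e α : ℕ, u.coeff e ≠ 0 → g.coeff α ≠ 0 → (e : ℂ) + c * α = 0 →
      e = 3 * Nb w + K * α := by
    intro e α he hα heq
    obtain ⟨m, hm, rfl⟩ := exists_of_psi (ax w) (by rw [← hu]; exact he)
    obtain ⟨m0, hm0, rfl⟩ := exists_of_psi (ax w) (by rw [← hg]; exact hα)
    have h3 : ∃ i, coeff m (Qm i * v i) ≠ 0 := by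
      by_contra hne
      push Not at hne
      apply hm
      rw [hU, coeff_sum]
      refine Finset.sum_eq_zero fun i _ => ?_
      rw [coeff_C_mul, hne i, mul_zero]
    obtain ⟨i, hi⟩ := h3
    have hmw : mw w m = 0 := by
      have := ((Qm_isW w hw i).mul (hvw i)) m hi
      rwa [neg_add_cancel] at this
    have hm0w := hG0w m0 hm0
    have hm0G : coeff m0 G ≠ 0 := by rw [← hc0 m0 hm0w]; exact hm0
    exact mon_main w hw hw0 hd i (degree3 hUh hm) (degree3 hG0h hm0) hmw hm0w (Qm_ge i _ hi)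
      (hex m0 hm0G hm0w) heq
  have hlow : 3 * Nb w + K * g.natTrailingDegree ≤ u.natTrailingDegree := by
    by_contra hlt
    push Not at hlt
    have h3 := uni_low hgne hune hrel hlt
    have h4 := hmon _ _ (Polynomial.trailingCoeff_nonzero_iff_nonzero.2 hune)
      (Polynomial.trailingCoeff_nonzero_iff_nonzero.2 hgne) h3
    omega
  have hhigh : u.natDegree ≤ 3 * Nb w + K * g.natDegree := by
    by_contra hlt
    push Not at hlt
    have h3 := uni_high hgne hune hrel hlt
    have h4 := hmon _ _ (Polynomial.leadingCoeff_ne_zero.2 hune)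
      (Polynomial.leadingCoeff_ne_zero.2 hgne) h3
    omega
  have hcc : ∀ m ρ : ℕ, 1 ≤ m → ρ ≤ K * m → (ρ : ℂ) + c * m ≠ 0 := by
    intro m ρ hm hρ h3
    have h4 : (d : ℂ) * ρ = (d * K + 3) * m := by
      rw [hc] at h3
      linear_combination (d : ℂ) * h3 - (m : ℂ) * hds
    have h5 : d * ρ = (d * K + 3) * m := by exact_mod_cast h4
    have h6 : d * ρ ≤ d * (K * m) := Nat.mul_le_mul_left d hρ
    have h7 : d * (K * m) = d * K * m := by ring
    nlinarith
  obtain ⟨h3, h4⟩ := uni_main hgne hq hrel hcc hlow hhigh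
  have h5 : g.natTrailingDegree ≤ Nb w * d := by
    have h6 : g.coeff (nw (ax w) m1) ≠ 0 := by
      rw [hinj m1 (by rw [hc0 m1 hm1w]; exact hm1), hc0 m1 hm1w]; exact hm1
    have h7 := Polynomial.natTrailingDegree_le_of_ne_zero h6
    have h8 := nw_eq w m1 d (degree3 hG hm1)
    have h9 : (nw (ax w) m1 : ℤ) ≤ Nb w * d := by rw [h8]; linarith
    have h10 : nw (ax w) m1 ≤ Nb w * d := by exact_mod_cast h9
    omega
  have h6 : Nb w * d ≤ g.natDegree := by
    have h6 : g.coeff (nw (ax w) m2) ≠ 0 := by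
      rw [hinj m2 (by rw [hc0 m2 hm2w]; exact hm2), hc0 m2 hm2w]; exact hm2
    have h7 := Polynomial.le_natDegree_of_ne_zero h6
    have h8 := nw_eq w m2 d (degree3 hG hm2)
    have h9 : ((Nb w * d : ℕ) : ℤ) ≤ nw (ax w) m2 := by rw [h8]; push_cast; linarith
    have h10 : Nb w * d ≤ nw (ax w) m2 := by exact_mod_cast h9
    omega
  have h7 : g.natDegree = Nb w * d := by omega
  apply h4
  rw [h7, hc]
  push_cast
  linear_combination (Nb w : ℂ) * hds

end Pool.Agent.Helper748.MC
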