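import Pool.Agent.helper748_mc.Init

set_option autoImplicit false
set_option linter.unusedSectionVars false

/-! # Ternary forms with a point of multiplicity `d - 1` -/

namespace Pool.Agent.Helper748.MC

open MvPolynomial

theorem pderiv_comm' {σ : Type} (i j : σ) (p : MvPolynomial σ ℂ) :
    pderiv i (pderiv j p) = pderiv j (pderiv i p) := by
  classical
  ext m
  rw [coeff_pderiv, coeff_pderiv, coeff_pderiv, coeff_pderiv]
  rw [add_right_comm m (Finsupp.single i 1) (Finsupp.single j 1)]
  by_cases h : i = j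
  · subst h; rfl
  · simp only [Finsupp.add_apply, Finsupp.single_apply]
    rw [if_neg h, if_neg (Ne.symm h)]
    push_cast
    ring

/-- The equation of an exact form in two of the variables. -/
theorem exact_two {d : ℕ} {G : MvPolynomial (Fin 3) ℂ} (hG : G.IsHomogeneous d) {s : ℂ}
    (hs : (d : ℂ) * s = -3) (h : Exact d G s) :
    ∃ (K : ℕ) (P Q : MvPolynomial (Fin 3) ℂ), P.IsHomogeneous (d * K + 2) ∧
      Q.IsHomogeneous (d * K + 2) ∧
      X 1 * G ^ (K + 1) = G * (pderiv 0 P + pderiv 2 Q) +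
        C (s - K) * (pderiv 0 G * P + pderiv 2 G * Q) := by
  obtain ⟨K, v, hv, hE⟩ := h
  have hX : ∀ i j : Fin 3, (X i * v j).IsHomogeneous (d * K + 2) := by
    intro i j
    have := (isHomogeneous_X ℂ i).mul (hv j)
    rwa [show 1 + (d * K + 1) = d * K + 2 by ring] at this
  refine ⟨K, X 1 * v 0 - X 0 * v 1, X 1 * v 2 - X 2 * v 1, (hX _ _).sub (hX _ _),
    (hX _ _).sub (hX _ _), ?_⟩
  have e1 := (hv 1).sum_X_mul_pderiv
  have e2 := hG.sum_X_mul_pderiv
  rw [Fin.sum_univ_three, nsmul_eq_mul] at e1 e2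
  rw [Fin.sum_univ_three] at hE
  have p1 : pderiv 0 (X 1 * v 0 - X 0 * v 1 : MvPolynomial (Fin 3) ℂ) =
      X 1 * pderiv 0 (v 0) - (v 1 + X 0 * pderiv 0 (v 1)) := by
    rw [map_sub, Derivation.leibniz, Derivation.leibniz, pderiv_X_self,
      pderiv_X_of_ne (by decide : (1 : Fin 3) ≠ 0)]
    simp only [smul_eq_mul]
    ring
  have p2 : pderiv 2 (X 1 * v 2 - X 2 * v 1 : MvPolynomial (Fin 3) ℂ) =
      X 1 * pderiv 2 (v 2) - (v 1 + X 2 * pderiv 2 (v 1)) := by
    rw [map_sub, Derivation.leibniz, Derivation.leibniz, pderiv_X_self,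
      pderiv_X_of_ne (by decide : (1 : Fin 3) ≠ 2)]
    simp only [smul_eq_mul]
    ring
  rw [p1, p2]
  have h0 : ((d : MvPolynomial (Fin 3) ℂ) * (K : MvPolynomial (Fin 3) ℂ) + 3) +
      (d : MvPolynomial (Fin 3) ℂ) * C (s - K) = 0 := by
    have h1 : (C ((d : ℂ) * K + 3 + d * (s - K)) : MvPolynomial (Fin 3) ℂ) = 0 := by
      rw [show (d : ℂ) * K + 3 + d * (s - K) = 0 by linear_combination hs, C_0]
    have h2 : (C ((d : ℂ) * K + 3 + d * (s - K)) : MvPolynomial (Fin 3) ℂ) =
        (d : MvPolynomial (Fin 3) ℂ) * (K : MvPolynomial (Fin 3) ℂ) + 3 +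
          (d : MvPolynomial (Fin 3) ℂ) * C (s - K) := by
      rw [C_add, C_add, C_mul, C_mul]
      simp only [map_natCast, map_ofNat]
    rw [← h2, h1]
  push_cast at e1
  linear_combination X 1 * hE + G * e1 + C (s - K) * v 1 * e2 + G * v 1 * h0

section Fibre

variable {G A : MvPolynomial (Fin 3) ℂ}

theorem iter_zero (W : MvPolynomial (Fin 3) ℂ) : ∃ N : ℕ, ∀ n, N ≤ n →
    (pderiv (2 : Fin 3))^[n] W = 0 := by
  induction W using MvPolynomial.induction_on' with
  | monomial u a =>
    have key : ∀ (k : ℕ) (u : Fin 3 →₀ ℕ) (a : ℂ), u 2 < k →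
        (pderiv (2 : Fin 3))^[k] (monomial u a) = 0 := by
      intro k
      induction k with
      | zero => intro u a h; omega
      | succ k ih =>
        intro u a h
        rw [Function.iterate_succ_apply, pderiv_monomial]
        by_cases h2 : u 2 = 0
        · rw [h2, Nat.cast_zero, mul_zero, monomial_zero, iterate_map_zero]
        · refine ih _ _ ?_
          rw [Finsupp.tsub_apply, Finsupp.single_eq_same]
          omega
    exact ⟨u 2 + 1, fun n hn => key n u a (by omega)⟩
  | add p q hp hq =>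
    obtain ⟨N, hN⟩ := hp
    obtain ⟨M, hM⟩ := hq
    exact ⟨max N M, fun n hn => by
      rw [iterate_map_add, hN n (le_trans (le_max_left _ _) hn),
        hM n (le_trans (le_max_right _ _) hn), add_zero]⟩

theorem iter_mul_const (hA : pderiv 2 A = 0) (W : MvPolynomial (Fin 3) ℂ) (n : ℕ) :
    (pderiv (2 : Fin 3))^[n] (A * W) = A * (pderiv (2 : Fin 3))^[n] W := by
  induction n with
  | zero => rfl
  | succ n ih =>
    rw [Function.iterate_succ_apply', ih, Function.iterate_succ_apply', Derivation.leibniz, hA]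
    simp only [smul_eq_mul, mul_zero, add_zero]

theorem iter_G (hA : pderiv 2 A = 0) (hG : pderiv 2 G = A) (W : MvPolynomial (Fin 3) ℂ) (n : ℕ) :
    (pderiv (2 : Fin 3))^[n] (G * pderiv 2 W) =
      G * (pderiv (2 : Fin 3))^[n + 1] W + C (n : ℂ) * (A * (pderiv (2 : Fin 3))^[n] W) := by
  induction n with
  | zero =>
    simp
  | succ n ih =>
    rw [Function.iterate_succ_apply', ih]
    have h1 : (pderiv (2 : Fin 3))^[n + 1 + 1] W = pderiv 2 ((pderiv (2 : Fin 3))^[n + 1] W) :=
      Function.iterate_succ_apply' _ _ _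
    have h2 : (pderiv (2 : Fin 3))^[n + 1] W = pderiv 2 ((pderiv (2 : Fin 3))^[n] W) :=
      Function.iterate_succ_apply' _ _ _
    rw [h1, map_add, Derivation.leibniz, pderiv_C_mul, Derivation.leibniz, hA, hG, ← h2]
    simp only [smul_eq_mul, mul_zero, add_zero]
    have h3 : (C ((n + 1 : ℕ) : ℂ) : MvPolynomial (Fin 3) ℂ) = C (n : ℂ) + 1 := by
      push_cast
      rw [C_add, C_1]
    rw [h3]
    ring

/-- The form `W G ^ c dz` is closed only if `W = 0`. -/
theorem ker_zero {c : ℂ} (hA0 : A ≠ 0) (hA : pderiv 2 A = 0) (hG : pderiv 2 G = A)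
    (hc : ∀ n : ℕ, c + n ≠ 0) {W : MvPolynomial (Fin 3) ℂ}
    (h : G * pderiv 2 W + C c * A * W = 0) : W = 0 := by
  by_contra hW
  classical
  have hex : ∃ n, (pderiv (2 : Fin 3))^[n] W = 0 := by
    obtain ⟨N, hN⟩ := iter_zero W
    exact ⟨N, hN N le_rfl⟩
  obtain ⟨n, hn, hmin⟩ : ∃ n, (pderiv (2 : Fin 3))^[n + 1] W = 0 ∧
      (pderiv (2 : Fin 3))^[n] W ≠ 0 := by
    have h1 := Nat.find_spec hex
    have h2 : Nat.find hex ≠ 0 := by
      intro h0
      rw [h0] at h1
      exact hW h1
    obtain ⟨n, hn⟩ := Nat.exists_eq_succ_of_ne_zero h2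
    refine ⟨n, ?_, Nat.find_min hex (by omega)⟩
    rw [← Nat.succ_eq_add_one, ← hn]
    exact h1
  have h3 := congrArg (fun p => (pderiv (2 : Fin 3))^[n] p) h
  simp only [iterate_map_zero, iterate_map_add] at h3
  rw [iter_G hA hG, hn, mul_zero, zero_add] at h3
  have hA' : pderiv 2 (C c * A) = 0 := by rw [pderiv_C_mul, hA, mul_zero]
  rw [iter_mul_const hA'] at h3
  have h4 : C (c + n) * (A * (pderiv (2 : Fin 3))^[n] W) = 0 := by
    rw [C_add]
    linear_combination h3
  rcases mul_eq_zero.1 h4 with h5 | h5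
  · rw [C_eq_zero] at h5
    exact hc n h5
  · rcases mul_eq_zero.1 h5 with h6 | h6
    · exact hA0 h6
    · exact hmin h6

/-- Integration over `z`. -/
theorem exists_primz {c : ℂ} (hA : pderiv 2 A = 0) (hG : pderiv 2 G = A)
    (hc : ∀ n : ℕ, c + n ≠ 0) (n : ℕ) : ∀ P : MvPolynomial (Fin 3) ℂ,
    (pderiv (2 : Fin 3))^[n] P = 0 → ∃ (M : ℕ) (g : MvPolynomial (Fin 3) ℂ),
      G * pderiv 2 g + C c * A * g = A ^ M * P := by
  induction n with
  | zero =>
    intro P hP
    refine ⟨0, 0, ?_⟩
    have : P = 0 := hP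
    rw [this]
    simp
  | succ n ih =>
    intro P hP
    have hAM : ∀ m : ℕ, pderiv 2 (A ^ m) = 0 := by
      intro m
      rw [Derivation.leibniz_pow, hA]
      simp
    set P' := A * P - C (c + n)⁻¹ * (G * pderiv 2 P + C c * A * P) with hP'
    have h1 : (pderiv (2 : Fin 3))^[n] P' = 0 := by
      have hA' : pderiv 2 (C c * A) = 0 := by rw [pderiv_C_mul, hA, mul_zero]
      rw [hP', iterate_map_sub, iter_mul_const hA, iter_mul_const pderiv_C, iterate_map_add,
        iter_G hA hG, hP, iter_mul_const hA', mul_zero, zero_add]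
      have h2 : (C (c + n)⁻¹ * C (c + n) : MvPolynomial (Fin 3) ℂ) = 1 := by
        rw [← C_mul, inv_mul_cancel₀ (hc n), C_1]
      rw [C_add] at h2
      linear_combination (-(A * (pderiv (2 : Fin 3))^[n] P)) * h2
    obtain ⟨M', g', hg'⟩ := ih P' h1
    refine ⟨M' + 1, g' + A ^ M' * (C (c + n)⁻¹ * P), ?_⟩
    rw [map_add, Derivation.leibniz, hAM, pderiv_C_mul]
    simp only [smul_eq_mul, mul_zero, add_zero]
    rw [hP'] at hg'
    linear_combination hg'

/-- The equation after integration over `z`. -/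
theorem fibre_eq {s : ℂ} {K : ℕ} (hA0 : A ≠ 0) (hA : pderiv 2 A = 0) (hG : pderiv 2 G = A)
    (hs : ∀ n : ℤ, s + n ≠ 0) {Y P Q : MvPolynomial (Fin 3) ℂ} (hY : pderiv 2 Y = 0)
    (h : Y * G ^ (K + 1) = G * (pderiv 0 P + pderiv 2 Q) +
        C (s - K) * (pderiv 0 G * P + pderiv 2 G * Q)) :
    ∃ (M : ℕ) (g : MvPolynomial (Fin 3) ℂ), C (s + 1)⁻¹ * (Y * (A ^ M * G ^ (K + 1))) =
      A * (G * pderiv 0 g + C (s - K + 1) * (pderiv 0 G * g)) - C (M : ℂ) *
        (pderiv 0 A * (G * g)) + A ^ (M + 1) * Q := by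
  obtain ⟨N, hN⟩ := iter_zero P
  have hc1 : ∀ n : ℕ, s - K + 1 + n ≠ 0 := by
    intro n
    have := hs (1 + n - K)
    push_cast at this
    intro h0
    apply this
    linear_combination h0
  have hc0 : ∀ n : ℕ, s - K + n ≠ 0 := by
    intro n
    have := hs (n - K)
    push_cast at this
    intro h0
    apply this
    linear_combination h0
  obtain ⟨M, g, hg⟩ := exists_primz hA hG hc1 N P (hN N le_rfl)
  refine ⟨M, g, ?_⟩
  rw [← sub_eq_zero]
  refine ker_zero hA0 hA hG hc0 ?_
  have hAM : ∀ m : ℕ, pderiv 2 (A ^ m) = 0 := by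
    intro m
    rw [Derivation.leibniz_pow, hA]
    simp
  have hA02 : pderiv 2 (pderiv 0 A) = 0 := by
    rw [pderiv_comm', hA, map_zero]
  have hG02 : pderiv 2 (pderiv 0 G) = pderiv 0 A := by
    rw [pderiv_comm', hG]
  have hGK : pderiv 2 (G ^ (K + 1)) = C ((K : ℂ) + 1) * (G ^ K * A) := by
    rw [Derivation.leibniz_pow, hG]
    simp only [smul_eq_mul, nsmul_eq_mul, Nat.add_sub_cancel]
    push_cast
    rw [C_add, C_1]
    simp
  have hs1 : (C (s + 1)⁻¹ * C (s + 1) : MvPolynomial (Fin 3) ℂ) = 1 := by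
    have h1 : s + 1 ≠ 0 := by
      have := hs 1
      push_cast at this
      exact this
    rw [← C_mul, inv_mul_cancel₀ h1, C_1]
  have hsc : (C (s - K) : MvPolynomial (Fin 3) ℂ) = C (s + 1) - (C ((K : ℂ) + 1)) := by
    rw [← C_sub]
    congr 1
    ring
  have hsc1 : (C (s - K + 1) : MvPolynomial (Fin 3) ℂ) = C (s - K) + 1 := by
    rw [C_add, C_1]
  -- derivative of `hg` with respect to `x₀`
  have hA0M : A * pderiv 0 (A ^ M) = C (M : ℂ) * (A ^ M * pderiv 0 A) := by
    rw [Derivation.leibniz_pow]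
    rcases M with _ | M
    · simp
    · simp only [smul_eq_mul, nsmul_eq_mul, Nat.add_sub_cancel]
      simp only [map_natCast]
      ring
  have hd := congrArg (fun p => pderiv 0 p) hg
  simp only [map_add, Derivation.leibniz, pderiv_C, smul_eq_mul, mul_zero, add_zero] at hd
  have hcomm := pderiv_comm' (0 : Fin 3) 2 g
  have e1 : pderiv 2 (C (s + 1)⁻¹ * (Y * (A ^ M * G ^ (K + 1))) - (A * (G * pderiv 0 g +
      C (s - K + 1) * (pderiv 0 G * g)) - C (M : ℂ) * (pderiv 0 A * (G * g)) + A ^ (M + 1) * Q)) =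
      C (s + 1)⁻¹ * (Y * (A ^ M * (C ((K : ℂ) + 1) * (G ^ K * A)))) -
      (A * (A * pderiv 0 g + G * pderiv 0 (pderiv 2 g) + C (s - K + 1) * (pderiv 0 A * g +
        pderiv 0 G * pderiv 2 g)) - C (M : ℂ) * (pderiv 0 A * (A * g + G * pderiv 2 g)) +
        A ^ (M + 1) * pderiv 2 Q) := by
    simp only [map_sub, map_add, Derivation.leibniz, pderiv_C, hY, hA, hG, hAM, hGK, hA02, hG02,
      smul_eq_mul, mul_zero, add_zero, hcomm]
    ring
  rw [e1]
  rw [hG] at h
  have hGK' : G ^ (K + 1) = G * G ^ K := by ring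
  have hAM' : A ^ (M + 1) = A * A ^ M := by ring
  rw [hAM', hGK', hsc1]
  rw [hsc1] at hg
  rw [C_1] at hd
  rw [hGK'] at h
  linear_combination (A * A ^ M * G * G ^ K * Y) * hs1 +
    (C (s + 1)⁻¹ * (A * A ^ M * G * G ^ K * Y)) * hsc + A * A ^ M * h - A * G * hd -
    G * P * hA0M + G * C (M : ℂ) * pderiv 0 A * hg - C (s - K) * A * pderiv 0 G * hg

end Fibre

section Order

open Polynomial

/-- The residue at a simple zero of `a`. -/
theorem order_contra (a1 b γ q : Polynomial ℂ) (M K : ℕ) (τ c : ℂ) (hτ : τ ≠ 0)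
    (ha : a1.eval 0 ≠ 0) (hb : b.eval 0 ≠ 0)
    (h : Polynomial.C τ * ((Polynomial.X * a1) ^ M * b ^ (K + 1)) =
      (Polynomial.X * a1) * (b * derivative γ + Polynomial.C c * (derivative b * γ)) -
        Polynomial.C (M : ℂ) * (derivative (Polynomial.X * a1) * (b * γ)) +
          (Polynomial.X * a1) ^ (M + 1) * q) : False := by
  have key : ∀ (k : ℕ) (η : Polynomial ℂ), γ = Polynomial.X ^ k * η →
      Polynomial.X ^ M * (Polynomial.C τ * (a1 ^ M * b ^ (K + 1))) =
        Polynomial.X ^ k * (Polynomial.C ((k : ℂ) - M) * (a1 * b * η)) +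
        Polynomial.X ^ (k + 1) * (a1 * b * derivative η + Polynomial.C c * (a1 * derivative b * η) -
          Polynomial.C (M : ℂ) * (derivative a1 * b * η)) +
        Polynomial.X ^ (M + 1) * (a1 ^ (M + 1) * q) := by
    intro k η hη
    have h1 : Polynomial.X * derivative γ = Polynomial.C (k : ℂ) * (Polynomial.X ^ k * η) +
        Polynomial.X ^ (k + 1) * derivative η := by
      rw [hη, derivative_mul, derivative_X_pow]
      rcases k with _ | k
      · simp
      · simp only [Nat.add_sub_cancel]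
        ring
    have h2 : derivative (Polynomial.X * a1) = a1 + Polynomial.X * derivative a1 := by
      rw [derivative_mul, derivative_X, one_mul]
    rw [h2] at h
    rw [mul_pow, mul_pow] at h
    have h3 : (Polynomial.C ((k : ℂ) - M) : Polynomial ℂ) = Polynomial.C (k : ℂ) -
      Polynomial.C (M : ℂ) := by rw [Polynomial.C_sub]
    rw [h3]
    linear_combination h + (a1 * b) * h1 + (Polynomial.C c * Polynomial.X * a1 * derivative b -
      Polynomial.C (M : ℂ) * (a1 + Polynomial.X * derivative a1) * b) * hη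
  have hX : ∀ p : Polynomial ℂ, p.eval 0 = 0 → ∃ r, p = Polynomial.X * r := by
    intro p hp
    have : Polynomial.X ∣ p := by
      rw [Polynomial.X_dvd_iff, Polynomial.coeff_zero_eq_eval_zero]
      exact hp
    exact this
  have step : ∀ k ≤ M, ∃ η, γ = Polynomial.X ^ k * η := by
    intro k
    induction k with
    | zero => exact fun _ => ⟨γ, by simp⟩
    | succ k ih =>
      intro hk
      obtain ⟨η, hη⟩ := ih (by omega)
      obtain ⟨r, hr⟩ : ∃ r, M = k + 1 + r := ⟨M - (k + 1), by omega⟩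
      have h1 := key k η hη
      set R1 := a1 * b * derivative η + Polynomial.C c * (a1 * derivative b * η) -
          Polynomial.C (M : ℂ) * (derivative a1 * b * η) with hR1
      set R2 := a1 ^ (M + 1) * q with hR2
      set R3 := Polynomial.C τ * (a1 ^ M * b ^ (K + 1)) with hR3
      have h2 : Polynomial.X ^ k * (Polynomial.C ((k : ℂ) - M) * (a1 * b * η)) =
          Polynomial.X ^ k * (Polynomial.X * (Polynomial.X ^ r * R3 - R1 -
            Polynomial.X ^ (r + 1) * R2)) := by
        have e1 : (Polynomial.X : Polynomial ℂ) ^ M = Polynomial.X ^ k * Polynomial.X *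
          Polynomial.X ^ r := by rw [hr]; ring
        have e2 : (Polynomial.X : Polynomial ℂ) ^ (M + 1) = Polynomial.X ^ k * Polynomial.X *
          Polynomial.X ^ (r + 1) := by rw [hr]; ring
        rw [e1, e2] at h1
        linear_combination -h1
      have h3 := mul_left_cancel₀ (pow_ne_zero k Polynomial.X_ne_zero) h2
      have h4 := congrArg (Polynomial.eval 0) h3
      rw [Polynomial.eval_mul, Polynomial.eval_C, Polynomial.eval_mul, Polynomial.eval_mul,
        Polynomial.eval_mul, Polynomial.eval_X, zero_mul] at h4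
      have h5 : η.eval 0 = 0 := by
        rcases mul_eq_zero.1 h4 with h5 | h5
        · exfalso
          have h6 : (k : ℂ) = M := sub_eq_zero.1 h5
          have h7 : k = M := by exact_mod_cast h6
          omega
        · rcases mul_eq_zero.1 h5 with h6 | h6
          · rcases mul_eq_zero.1 h6 with h7 | h7
            · exact absurd h7 ha
            · exact absurd h7 hb
          · exact h6
      obtain ⟨r', hr'⟩ := hX η h5
      exact ⟨r', by rw [hη, hr']; ring⟩
  obtain ⟨η, hη⟩ := step M le_rfl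
  have h1 := key M η hη
  rw [sub_self, Polynomial.C_0, zero_mul, mul_zero, zero_add] at h1
  set R1 := a1 * b * derivative η + Polynomial.C c * (a1 * derivative b * η) -
      Polynomial.C (M : ℂ) * (derivative a1 * b * η) with hR1
  have h2 : Polynomial.X ^ M * (Polynomial.C τ * (a1 ^ M * b ^ (K + 1))) =
      Polynomial.X ^ M * (Polynomial.X * (R1 + a1 ^ (M + 1) * q)) := by
    rw [h1]; ring
  have h3 := mul_left_cancel₀ (pow_ne_zero M Polynomial.X_ne_zero) h2
  have h4 := congrArg (Polynomial.eval 0) h3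
  rw [Polynomial.eval_mul, Polynomial.eval_C, Polynomial.eval_mul, Polynomial.eval_pow,
    Polynomial.eval_pow, Polynomial.eval_mul, Polynomial.eval_X, zero_mul] at h4
  exact mul_ne_zero hτ (mul_ne_zero (pow_ne_zero _ ha) (pow_ne_zero _ hb)) h4

end Order

section Fan

/-- the substitution `x₀ = T`, `x₁ = 1`, `x₂ = 0` -/
noncomputable def ev01 : MvPolynomial (Fin 3) ℂ →ₐ[ℂ] Polynomial ℂ :=
  aeval ![Polynomial.X, 1, 0]

theorem ev01_pderiv (p : MvPolynomial (Fin 3) ℂ) :
    ev01 (pderiv 0 p) = Polynomial.derivative (ev01 p) := by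
  induction p using MvPolynomial.induction_on with
  | C a => rw [pderiv_C, map_zero, ev01, aeval_C]; simp
  | add p q hp hq => rw [map_add, map_add, map_add, hp, hq, Polynomial.derivative_add]
  | mul_X p i hp =>
    rw [Derivation.leibniz, map_add, smul_eq_mul, smul_eq_mul, map_mul, map_mul, hp, map_mul,
      Polynomial.derivative_mul]
    have h1 : ev01 (pderiv 0 (X i)) = Polynomial.derivative (ev01 (X i)) := by
      fin_cases i
      · simp [ev01]
      · simp [ev01]
      · simp [ev01]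
    rw [h1]
    ring

theorem ev01_ren (a : MvPolynomial (Fin 2) ℂ) :
    (ev01 (rename Fin.castSucc a)).eval 0 = eval ![0, 1] a := by
  induction a using MvPolynomial.induction_on with
  | C a => simp [ev01]
  | add p q hp hq => rw [map_add, map_add, Polynomial.eval_add, hp, hq, map_add]
  | mul_X p i hp =>
    rw [map_mul, map_mul, Polynomial.eval_mul, hp, map_mul, rename_X, eval_X]
    congr 1
    fin_cases i
    · simp [ev01]
    · simp [ev01]

theorem pderiv2_ren (a : MvPolynomial (Fin 2) ℂ) :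
    pderiv 2 (rename Fin.castSucc a : MvPolynomial (Fin 3) ℂ) = 0 := by
  induction a using MvPolynomial.induction_on with
  | C a => rw [rename_C, pderiv_C]
  | add p q hp hq => rw [map_add, map_add, hp, hq, add_zero]
  | mul_X p i hp =>
    rw [map_mul, Derivation.leibniz, hp, rename_X]
    have : pderiv 2 (X (Fin.castSucc i) : MvPolynomial (Fin 3) ℂ) = 0 := by
      refine pderiv_X_of_ne ?_
      fin_cases i <;> decide
    rw [this]
    simp

/-- There are linear coordinates in which `f = x₀ x₂ a(x₀, x₁) + b(x₀, x₁)` with `a(0, 1) ≠ 0` and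
`b(0, 1) ≠ 0`. So the curve `f = 0` of degree `d` has the multiplicity `d - 1` at the point
`(0 : 0 : 1)`, and the line `x₀ = 0` is a simple factor of the tangent cone at this point and meets
the curve only at this point. -/
def FanForm (f : MvPolynomial (Fin 3) ℂ) : Prop :=
  ∃ (A : Matrix (Fin 3) (Fin 3) ℂ) (a b : MvPolynomial (Fin 2) ℂ), A.det ≠ 0 ∧
    lin A f = X 0 * X 2 * rename Fin.castSucc a + rename Fin.castSucc b ∧
    eval ![0, 1] a ≠ 0 ∧ eval ![0, 1] b ≠ 0

theorem not_exact_fan {d : ℕ} (hd : 0 < d) (hd3 : d ≠ 3) {f : MvPolynomial (Fin 3) ℂ}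
    (hf : f.IsHomogeneous d) (h : FanForm f) : f ≠ 0 ∧ ¬ Exact d f (-3 / d) := by
  obtain ⟨A, a, b, hA, hG, ha, hb⟩ := h
  set a' : MvPolynomial (Fin 3) ℂ := rename Fin.castSucc a with ha'
  set b' : MvPolynomial (Fin 3) ℂ := rename Fin.castSucc b with hb'
  have ha1 : (ev01 a').eval 0 ≠ 0 := by rw [ha', ev01_ren]; exact ha
  have hb1 : (ev01 b').eval 0 ≠ 0 := by rw [hb', ev01_ren]; exact hb
  have hX0 : ev01 (X 0) = Polynomial.X := by simp [ev01]
  have hX1 : ev01 (X 1) = 1 := by simp [ev01]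
  have hX2 : ev01 (X 2) = 0 := by simp [ev01]
  refine ⟨?_, fun hE => ?_⟩
  · rintro rfl
    rw [map_zero] at hG
    have h1 := congrArg (fun p => (ev01 p).eval 0) hG
    simp only [map_zero, map_add, map_mul, hX2, mul_zero, zero_mul, zero_add,
      Polynomial.eval_zero] at h1
    exact hb1 h1.symm
  · set G := lin A f with hGdef
    have hGh : G.IsHomogeneous d := lin_homog A hf
    have hG2 : pderiv 2 G = X 0 * a' := by
      rw [hG, map_add, pderiv2_ren, Derivation.leibniz, Derivation.leibniz, pderiv2_ren,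
        pderiv_X_self, pderiv_X_of_ne (by decide : (0 : Fin 3) ≠ 2)]
      simp only [smul_eq_mul]
      ring
    have hA2 : pderiv 2 (X 0 * a') = 0 := by
      rw [Derivation.leibniz, pderiv2_ren, pderiv_X_of_ne (by decide : (0 : Fin 3) ≠ 2)]
      simp
    have ha0 : a' ≠ 0 := by
      intro h0
      rw [h0, map_zero, Polynomial.eval_zero] at ha1
      exact ha1 rfl
    have hd1 : d ≠ 1 := by
      rintro rfl
      have h1 : (pderiv 2 G).IsHomogeneous 0 := hGh.pderiv
      rw [← totalDegree_zero_iff_isHomogeneous, totalDegree_eq_zero_iff_eq_C] at h1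
      have h2 := congrArg (fun p => Polynomial.derivative (ev01 p)) (hG2.symm.trans h1)
      simp only [map_mul, hX0, Polynomial.derivative_mul, Polynomial.derivative_X, one_mul] at h2
      have h3 : ev01 (C (coeff 0 (pderiv 2 G))) = Polynomial.C (coeff 0 (pderiv 2 G)) := by
        rw [ev01, aeval_C]; rfl
      rw [h3, Polynomial.derivative_C] at h2
      have h4 := congrArg (Polynomial.eval 0) h2
      rw [Polynomial.eval_add, Polynomial.eval_mul, Polynomial.eval_X, zero_mul, add_zero,
        Polynomial.eval_zero] at h4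
      exact ha1 h4
    have hdc : (d : ℂ) ≠ 0 := Nat.cast_ne_zero.2 hd.ne'
    have hs : ∀ n : ℤ, (-3 / d : ℂ) + n ≠ 0 := by
      intro n h0
      have h1 : (n : ℂ) * d = 3 := by
        field_simp at h0
        linear_combination h0
      have h2 : n * d = 3 := by exact_mod_cast h1
      have h3 : (d : ℤ) ∣ 3 := ⟨n, by rw [← h2]; ring⟩
      have h4 : d ∣ 3 := by exact_mod_cast h3
      have h5 := Nat.le_of_dvd (by norm_num) h4
      interval_cases d
      · exact hd1 rfl
      · omega
      · exact hd3 rfl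
    have hds : (d : ℂ) * (-3 / d) = -3 := by field_simp
    obtain ⟨K, P, Q, -, -, hEq⟩ := exact_two hGh hds (exact_lin hE A (isUnit_iff_ne_zero.2 hA))
    have hY : pderiv 2 (X 1 : MvPolynomial (Fin 3) ℂ) = 0 :=
      pderiv_X_of_ne (by decide : (1 : Fin 3) ≠ 2)
    have hA0 : (X 0 * a' : MvPolynomial (Fin 3) ℂ) ≠ 0 := mul_ne_zero (X_ne_zero (0 : Fin 3)) ha0
    clear_value G a' b'
    obtain ⟨M, g, hg⟩ := fibre_eq (G := G) (A := X 0 * a') (s := -3 / d) (K := K) (Y := X 1)
      (P := P) (Q := Q) hA0 hA2 hG2 hs hY hEq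
    have h1 := congrArg ev01 hg
    have hGb : ev01 G = ev01 b' := by
      rw [hG]
      simp only [map_add, map_mul, hX2, mul_zero, zero_mul, zero_add]
    have hC : ∀ c : ℂ, ev01 (C c) = Polynomial.C c := by
      intro c
      rw [ev01, aeval_C]; rfl
    simp only [map_add, map_sub, map_mul, map_pow, hX1, one_mul, ev01_pderiv, hGb, hX0, hC] at h1
    have hs1 : ((-3 / d : ℂ) + 1)⁻¹ ≠ 0 := by
      have := hs 1
      push_cast at this
      exact inv_ne_zero this
    rw [← Polynomial.C_sub, ← Polynomial.C_add] at h1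
    exact order_contra (ev01 a') (ev01 b') (ev01 g) (ev01 Q) M K _ _ hs1 ha1 hb1 h1

end Fan

end Pool.Agent.Helper748.MC
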