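import Pool.Agent.helper748_mc.Wt

set_option autoImplicit false
set_option linter.unusedSectionVars false

/-! # Exact forms and their initial forms -/

namespace Pool.Agent.Helper748.MC

open MvPolynomial Pool.Agent.W574.SM Pool.Agent.W574.CN

section Exact

variable {σ : Type} [Fintype σ] [DecidableEq σ]

/-- The function `G ^ s`, for a form `G` of the degree `d`, is the divergence of a vector field
`v G ^ (s - K)`, where the coefficients of `v` are forms of the degree `d K + 1`. -/
def Exact (d : ℕ) (G : MvPolynomial σ ℂ) (s : ℂ) : Prop :=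
  ∃ (K : ℕ) (v : σ → MvPolynomial σ ℂ), (∀ i, (v i).IsHomogeneous (d * K + 1)) ∧
    G ^ (K + 1) = ∑ i, (G * pderiv i (v i) + C (s - K) * pderiv i G * v i)

/-- If `b(s) ≠ 0`, then the member `G` of the linear system is exact for `s`. -/
theorem exact_of_b {ι : Type} [Fintype ι] [DecidableEq ι] (f : ι → MvPolynomial σ ℂ)
    (lam : ι → ℂ) (d : ℕ) (hd : 0 < d) (hf : ∀ j, (f j).IsHomogeneous d) (b : Polynomial ℂ)
    (hb : IsFunctionalEq f b) (hG : lcomb f lam ≠ 0) (s : ℂ) (hs : b.eval s ≠ 0) :
    Exact d (lcomb f lam) s := by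
  obtain ⟨K, v, _, hv, h⟩ := ex_main f lam d hd hf b hb hG
  refine ⟨K, fun i => C (b.eval s)⁻¹ * v s i, fun i => ?_, ?_⟩
  · have := (isHomogeneous_C σ (b.eval s)⁻¹).mul (hv s i)
    rwa [zero_add] at this
  · have h1 : (C (b.eval s)⁻¹ * C (b.eval s) : MvPolynomial σ ℂ) = 1 := by
      rw [← C_mul, inv_mul_cancel₀ hs, C_1]
    calc lcomb f lam ^ (K + 1) = C (b.eval s)⁻¹ * (C (b.eval s) * lcomb f lam ^ (K + 1)) := by
          rw [← mul_assoc, h1, one_mul]
      _ = _ := by
        rw [h s, Finset.mul_sum]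
        refine Finset.sum_congr rfl fun i _ => ?_
        rw [pderiv_C_mul]
        ring

/-- the substitution `x_i ↦ ∑_j A_ij x_j` -/
noncomputable def lin (A : Matrix σ σ ℂ) : MvPolynomial σ ℂ →ₐ[ℂ] MvPolynomial σ ℂ :=
  aeval fun i => ∑ j, C (A i j) * X j

theorem lin_X (A : Matrix σ σ ℂ) (i : σ) : lin A (X i) = ∑ j, C (A i j) * X j := by
  rw [lin, aeval_X]

theorem lin_C (A : Matrix σ σ ℂ) (c : ℂ) : lin A (C c) = C c := by
  rw [algHom_C, algebraMap_eq]

theorem pderiv_lin (A : Matrix σ σ ℂ) (j : σ) (p : MvPolynomial σ ℂ) :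
    pderiv j (lin A p) = ∑ i, C (A i j) * lin A (pderiv i p) := by
  induction p using MvPolynomial.induction_on with
  | C a => rw [lin_C, pderiv_C]; simp
  | add p q hp hq =>
    rw [map_add, map_add, hp, hq, ← Finset.sum_add_distrib]
    refine Finset.sum_congr rfl fun i _ => ?_
    rw [map_add, map_add, mul_add]
  | mul_X p k hp =>
    rw [map_mul, Derivation.leibniz, hp, smul_eq_mul, smul_eq_mul]
    have h1 : pderiv j (lin A (X k)) = C (A k j) := by
      rw [lin_X, map_sum, Finset.sum_eq_single j]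
      · rw [pderiv_C_mul, pderiv_X_self, mul_one]
      · intro l _ hl
        rw [pderiv_C_mul, pderiv_X_of_ne hl, mul_zero]
      · intro h; exact absurd (Finset.mem_univ j) h
    have h2 : ∀ i, C (A i j) * lin A (pderiv i (p * X k)) =
        (if i = k then lin A p * C (A i j) else 0) +
          lin A (X k) * (C (A i j) * lin A (pderiv i p)) := by
      intro i
      rw [Derivation.leibniz, smul_eq_mul, smul_eq_mul, map_add, map_mul, map_mul, pderiv_X]
      by_cases hik : i = k
      · subst hik
        rw [if_pos rfl, Pi.single_eq_same, map_one]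
        ring
      · rw [if_neg hik, Pi.single_eq_of_ne (fun h => hik h.symm), map_zero]
        ring
    rw [Finset.sum_congr rfl fun i _ => h2 i, Finset.sum_add_distrib, ← Finset.mul_sum,
      Finset.sum_ite_eq' Finset.univ k, if_pos (Finset.mem_univ k), h1]

theorem lin_homog (A : Matrix σ σ ℂ) {N : ℕ} {p : MvPolynomial σ ℂ} (hp : p.IsHomogeneous N) :
    (lin A p).IsHomogeneous N := by
  have h1 := hp.aeval (fun i => ∑ j, C (A i j) * X j) (n := 1) (fun i => by
    refine IsHomogeneous.sum _ _ _ fun j _ => ?_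
    have := (isHomogeneous_C σ (A i j)).mul (isHomogeneous_X ℂ j)
    rwa [zero_add] at this)
  rwa [one_mul] at h1

/-- Exactness does not depend on the linear coordinates. -/
theorem exact_lin {d : ℕ} {G : MvPolynomial σ ℂ} {s : ℂ} (h : Exact d G s) (A : Matrix σ σ ℂ)
    (hA : IsUnit A.det) : Exact d (lin A G) s := by
  obtain ⟨K, v, hv, h⟩ := h
  refine ⟨K, fun j => ∑ i, C (A⁻¹ j i) * lin A (v i), fun j => ?_, ?_⟩
  · refine IsHomogeneous.sum _ _ _ fun i _ => ?_
    have := (isHomogeneous_C σ (A⁻¹ j i)).mul (lin_homog A (hv i))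
    rwa [zero_add] at this
  · have hAA : ∀ i k, ∑ j, C (A k j) * C (A⁻¹ j i) = if k = i then (1 : MvPolynomial σ ℂ) else 0 := by
      intro i k
      have h1 := congrFun (congrFun (Matrix.mul_nonsing_inv A hA) k) i
      rw [Matrix.mul_apply, Matrix.one_apply] at h1
      simp only [← C_mul]
      rw [← map_sum, h1]
      split_ifs <;> simp
    have h1 : ∑ j, pderiv j (∑ i, C (A⁻¹ j i) * lin A (v i)) = ∑ i, lin A (pderiv i (v i)) := by
      have h2 : ∀ j, pderiv j (∑ i, C (A⁻¹ j i) * lin A (v i)) =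
          ∑ i, ∑ k, C (A k j) * C (A⁻¹ j i) * lin A (pderiv k (v i)) := by
        intro j
        rw [map_sum]
        refine Finset.sum_congr rfl fun i _ => ?_
        rw [pderiv_C_mul, pderiv_lin, Finset.mul_sum]
        refine Finset.sum_congr rfl fun k _ => ?_
        ring
      rw [Finset.sum_congr rfl fun j _ => h2 j, Finset.sum_comm]
      refine Finset.sum_congr rfl fun i _ => ?_
      rw [Finset.sum_comm, Finset.sum_eq_single i]
      · rw [← Finset.sum_mul, hAA, if_pos rfl, one_mul]
      · intro k _ hk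
        rw [← Finset.sum_mul, hAA, if_neg hk, zero_mul]
      · intro h; exact absurd (Finset.mem_univ i) h
    have h3 : ∑ j, pderiv j (lin A G) * (∑ i, C (A⁻¹ j i) * lin A (v i)) =
        ∑ i, lin A (pderiv i G) * lin A (v i) := by
      have h2 : ∀ j, pderiv j (lin A G) * (∑ i, C (A⁻¹ j i) * lin A (v i)) =
          ∑ i, ∑ k, C (A k j) * C (A⁻¹ j i) * (lin A (pderiv k G) * lin A (v i)) := by
        intro j
        rw [pderiv_lin, Finset.mul_sum]
        refine Finset.sum_congr rfl fun i _ => ?_
        rw [Finset.sum_mul]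
        refine Finset.sum_congr rfl fun k _ => ?_
        ring
      rw [Finset.sum_congr rfl fun j _ => h2 j, Finset.sum_comm]
      refine Finset.sum_congr rfl fun i _ => ?_
      rw [Finset.sum_comm, Finset.sum_eq_single i]
      · rw [← Finset.sum_mul, hAA, if_pos rfl, one_mul]
      · intro k _ hk
        rw [← Finset.sum_mul, hAA, if_neg hk, zero_mul]
      · intro h; exact absurd (Finset.mem_univ i) h
    have h4 := congrArg (lin A) h
    rw [map_pow, map_sum] at h4
    simp only [map_add, map_mul, lin_C] at h4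
    have h6 : ∑ j, (lin A G * pderiv j (∑ i, C (A⁻¹ j i) * lin A (v i)) +
        C (s - K) * pderiv j (lin A G) * (∑ i, C (A⁻¹ j i) * lin A (v i))) =
        lin A G * ∑ j, pderiv j (∑ i, C (A⁻¹ j i) * lin A (v i)) +
        C (s - K) * ∑ j, pderiv j (lin A G) * (∑ i, C (A⁻¹ j i) * lin A (v i)) := by
      rw [Finset.mul_sum, Finset.mul_sum, ← Finset.sum_add_distrib]
      refine Finset.sum_congr rfl fun j _ => ?_
      rw [mul_assoc (C (s - K))]
    rw [h6, h1, h3, h4, Finset.mul_sum, Finset.mul_sum, ← Finset.sum_add_distrib]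
    refine Finset.sum_congr rfl fun i _ => ?_
    rw [mul_assoc (C (s - K))]

end Exact

section Initial

variable {σ : Type} [Fintype σ] [DecidableEq σ] {w : σ → ℤ}

theorem tb_wge (c : ℂ) {g h : MvPolynomial σ ℂ} (hg : Wge w 0 g) (hh : Wge w 1 h) (M : ℕ) :
    Wge w 0 (tb c g h M) ∧ wc w 0 (tb c g h M) = wc w 0 g ^ M := by
  induction M with
  | zero =>
    rw [tb, pow_zero, wc_one]
    exact ⟨Wge.one, rfl⟩
  | succ M ih =>
    have h1 : Wge w 0 (g * tb c g h M) := by
      have := hg.mul ih.1
      rwa [add_zero] at this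
    have h2 : Wge w 1 (C (bc c (M + 1)) * h ^ (M + 1)) := by
      refine ((hh.pow (M + 1)).C_mul _).mono ?_
      push_cast
      omega
    rw [tb]
    refine ⟨h1.add (h2.mono (by norm_num)), ?_⟩
    have h3 := wc_mul hg ih.1
    rw [add_zero] at h3
    rw [map_add, h3, ih.2, wc_eq_zero (by norm_num : (0 : ℤ) < 1) h2, add_zero, pow_succ]
    ring

theorem tb_homog (c : ℂ) {g h : MvPolynomial σ ℂ} {d : ℕ} (hg : g.IsHomogeneous d)
    (hh : h.IsHomogeneous d) (M : ℕ) : (tb c g h M).IsHomogeneous (d * M) := by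
  induction M with
  | zero =>
    rw [tb, mul_zero]
    exact isHomogeneous_one _ _
  | succ M ih =>
    rw [tb]
    refine IsHomogeneous.add ?_ ?_
    · have := hg.mul ih
      rwa [show d + d * M = d * (M + 1) by ring] at this
    · have := (isHomogeneous_C σ (bc c (M + 1))).mul (hh.pow (M + 1))
      rwa [zero_add] at this

/-- **The initial form of an exact form is exact.** -/
theorem exact_initial {d : ℕ} {G : MvPolynomial σ ℂ} {s : ℂ} (hG : G.IsHomogeneous d)
    (hGw : Wge w 0 G) (hG0 : wc w 0 G ≠ 0) (h : Exact d G s) :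
    ∃ (K : ℕ) (v : σ → MvPolynomial σ ℂ), (∀ i, (v i).IsHomogeneous (d * K + 1)) ∧
      (∀ i, IsW w (w i) (v i)) ∧
      wc w 0 G ^ (K + 1) = ∑ i, (wc w 0 G * pderiv i (v i) +
        C (s - K) * pderiv i (wc w 0 G) * v i) := by
  classical
  obtain ⟨K, v, hv, hEq⟩ := h
  choose Mi hMi using fun i => exists_wge w (v i)
  set M : ℕ := ∑ i, (Mi i + (w i).natAbs) with hM
  have hvw : ∀ i, Wge w (w i - M) (v i) := by
    intro i
    refine (hMi i).mono ?_
    have h1 : Mi i + (w i).natAbs ≤ M :=
      Finset.single_le_sum (f := fun i => Mi i + (w i).natAbs) (fun _ _ => Nat.zero_le _)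
        (Finset.mem_univ i)
    have h2 : ((Mi i + (w i).natAbs : ℕ) : ℤ) ≤ M := by exact_mod_cast h1
    push_cast at h2
    have h3 : w i ≤ |w i| := le_abs_self _
    linarith
  set g := wc w 0 G with hg
  set h := G - g with hh
  have hGgh : G = g + h := by rw [hh]; ring
  have hgW : IsW w 0 g := isW_wc 0 G
  have hhW : Wge w 1 h := by
    intro m hm
    rw [hh, coeff_sub, hg, coeff_wc] at hm
    split_ifs at hm with h1
    · rw [sub_self] at hm; exact absurd rfl hm
    · rw [sub_zero] at hm
      have := hGw m hm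
      omega
  have hgh : g.IsHomogeneous d := isHomogeneous_wc hG 0
  have hhh : h.IsHomogeneous d := hG.sub hgh
  set c : ℂ := s - K with hc
  set W := tb c g h M with hW
  obtain ⟨hW1, hW2⟩ := tb_wge c hgW.wge hhW M
  rw [← hW] at hW1 hW2
  have hW3 : W.IsHomogeneous (d * M) := tb_homog c hgh hhh M
  set E : σ → MvPolynomial σ ℂ := fun i => C ((M - c) * bc c M) * h ^ M *
    (g * pderiv i h - h * pderiv i g) with hE
  have hEi : ∀ i, G * g * pderiv i W + C (c - M) * G * W * pderiv i g -
      C c * g * W * pderiv i G = E i := by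
    intro i
    have := tb_deriv c g h (pderiv i) M
    rw [← hGgh, ← hW] at this
    exact this
  set Y := ∑ i, (g * pderiv i (W * v i) + C (c - M) * pderiv i g * (W * v i)) with hY
  have h1 : G * (Y - g * W * G ^ K) = ∑ i, E i * v i := by
    have h2 : G * Y = g * W * ∑ i, (G * pderiv i (v i) + C c * pderiv i G * v i) +
        ∑ i, E i * v i := by
      rw [hY, Finset.mul_sum, Finset.mul_sum, ← Finset.sum_add_distrib]
      refine Finset.sum_congr rfl fun i _ => ?_
      rw [← hEi i, Derivation.leibniz, smul_eq_mul, smul_eq_mul]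
      ring
    rw [← hEq] at h2
    linear_combination h2
  have h2 : Wge w 1 (∑ i, E i * v i) := by
    refine Wge.sum _ fun i _ => ?_
    have h3 : Wge w (1 - w i) (g * pderiv i h - h * pderiv i g) := by
      have ha := hgW.wge.mul (hhW.pderiv i)
      have hb := hhW.mul (hgW.wge.pderiv i)
      exact (ha.mono (by linarith)).sub (hb.mono (by linarith))
    have h4 := (((hhW.pow M).C_mul ((M - c) * bc c M)).mul h3).mul (hvw i)
    exact h4.mono (by linarith)
  rw [← h1] at h2
  have h3 := wge_of_mul hGw hG0 h2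
  have h4 : wc w 0 Y = g ^ (K + M + 1) := by
    have h5 := wc_eq_zero (by norm_num : (0 : ℤ) < 1) h3
    rw [map_sub, sub_eq_zero] at h5
    have h6 : Wge w 0 (g * W) := by
      have := hgW.wge.mul hW1
      rwa [add_zero] at this
    have h7 : Wge w 0 (G ^ K) := by
      have := hGw.pow K
      rwa [mul_zero] at this
    have h8 := wc_mul h6 h7
    have h9 := wc_mul hgW.wge hW1
    rw [add_zero] at h8 h9
    rw [h5, h8, h9, hgW.wc_self, hW2, hgW.wc_self, wc_pow hGw, ← hg]
    ring
  refine ⟨K + M, fun i => wc w (w i) (W * v i), fun i => ?_, fun i => isW_wc _ _, ?_⟩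
  · apply isHomogeneous_wc
    have := hW3.mul (hv i)
    rwa [show d * M + (d * K + 1) = d * (K + M) + 1 by ring] at this
  · rw [← h4, hY, map_sum]
    refine Finset.sum_congr rfl fun i _ => ?_
    have h5 := wc_mul_left (n := 0) (p := pderiv i (W * v i)) hgW
    have h6 : IsW w (0 - w i) (C (c - M) * pderiv i g) := by
      intro m hm
      rw [coeff_C_mul] at hm
      exact hgW.pderiv i m (right_ne_zero_of_mul hm)
    have h7 := wc_mul_left (n := w i) (p := W * v i) h6
    have h8 : (0 : ℤ) - w i + w i = 0 := by ring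
    have h9 : s - ((K + M : ℕ) : ℂ) = c - M := by rw [hc]; push_cast; ring
    rw [h8] at h7
    rw [add_zero, wc_pderiv, zero_add] at h5
    rw [map_add, h5, h7, h9]

end Initial

end Pool.Agent.Helper748.MC
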