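import Pool.Agent.helper748_mc.Bin

set_option autoImplicit false
set_option linter.unusedSectionVars false

/-! # Twisted one-forms on a punctured line which are not exact, and linear functionals -/

namespace Pool.Agent.Helper748.MC

open Polynomial

theorem ode_deg_gen {w v κ : ℂ[X]} {M : ℕ} {γ E : ℂ} (hw : w ≠ 0) (hκ : κ ≠ 0)
    (hv1 : (X * v).natDegree ≤ w.natDegree)
    (hv2 : (X * v).coeff w.natDegree = E * w.leadingCoeff)
    (h : C γ * w ^ (M + 1) = w * derivative κ + (v - C (M : ℂ) * derivative w) * κ) :
    κ.natDegree ≤ M * w.natDegree + 1 ∨ (κ.natDegree : ℂ) + E - M * w.natDegree = 0 := by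
  by_cases hcon : κ.natDegree ≤ M * w.natDegree + 1
  · exact Or.inl hcon
  right
  push Not at hcon
  set N := w.natDegree with hN
  set m := κ.natDegree with hm
  have hX : ∀ p : ℂ[X], (X * derivative p).natDegree ≤ p.natDegree := by
    intro p
    rcases Nat.eq_zero_or_pos p.natDegree with h0 | h0
    · rw [derivative_of_natDegree_zero h0, mul_zero, natDegree_zero]
      exact Nat.zero_le _
    · refine natDegree_mul_le.trans ?_
      rw [natDegree_X]
      have := natDegree_derivative_le p
      omega
  have hXc : ∀ p : ℂ[X], (X * derivative p).coeff p.natDegree = p.natDegree * p.leadingCoeff := by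
    intro p
    rcases hn : p.natDegree with _ | n
    · simp
    · rw [coeff_X_mul, coeff_derivative, leadingCoeff, hn]
      push_cast
      ring
  have h2 : (X * (C γ * w ^ (M + 1))).coeff (N + m) =
      (w * (X * derivative κ)).coeff (N + m) + ((X * v) * κ).coeff (N + m) -
        ((C (M : ℂ) * (X * derivative w)) * κ).coeff (N + m) := by
    rw [h, ← coeff_add, ← coeff_sub]
    congr 1
    ring
  have h3 : (X * (C γ * w ^ (M + 1))).coeff (N + m) = 0 := by
    apply coeff_eq_zero_of_natDegree_lt
    refine lt_of_le_of_lt natDegree_mul_le ?_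
    have h5 : (C γ * w ^ (M + 1)).natDegree ≤ (M + 1) * N := by
      refine (natDegree_C_mul_le _ _).trans ?_
      exact natDegree_pow_le
    rw [natDegree_X]
    have : (M + 1) * N = M * N + N := by ring
    omega
  rw [h3, coeff_mul_add_eq_of_natDegree_le le_rfl (hX κ), coeff_mul_add_eq_of_natDegree_le hv1 le_rfl,
    coeff_mul_add_eq_of_natDegree_le (df := N) (dg := m)
      ((natDegree_C_mul_le _ _).trans (hX w)) le_rfl, hXc, coeff_C_mul, hXc, hv2] at h2
  have h4 : w.leadingCoeff * κ.leadingCoeff * ((m : ℂ) + E - M * N) = 0 := by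
    have e1 : w.coeff N = w.leadingCoeff := rfl
    have e2 : κ.coeff m = κ.leadingCoeff := rfl
    rw [e1, e2] at h2
    linear_combination -h2
  rcases mul_eq_zero.1 h4 with h5 | h5
  · exact absurd h5 (mul_ne_zero (leadingCoeff_ne_zero.2 hw) (leadingCoeff_ne_zero.2 hκ))
  · exact h5

/-- The form `W ^ θ g ^ s dW / W` is not exact, if `g` has more than `ε + ν` different roots. -/
theorem line_not_exact {θ s : ℂ} {g κ : ℂ[X]} {N ε ν : ℕ} (hg0 : g.eval 0 ≠ 0)
    (hgn : 0 < g.natDegree) (hθ : ∀ n : ℕ, θ = n + 1 → n + 1 ≤ ε)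
    (hμ : ∀ n : ℕ, g.natDegree * s + θ = -n → n ≤ ν)
    (hs : ∀ m n : ℕ, 0 < m → (m : ℂ) * s ≠ n) (hcnt : ε + ν < g.roots.toFinset.card)
    (h : g * (X * g) ^ N = (X * g) * derivative κ +
      (C θ * g + C s * (X * derivative g) - C (N : ℂ) * derivative (X * g)) * κ) : False := by
  classical
  have hg : g ≠ 0 := by
    rintro rfl
    simp at hg0
  set w : ℂ[X] := X * g with hw
  have hw0 : w ≠ 0 := mul_ne_zero X_ne_zero hg
  set v : ℂ[X] := C (θ - 1) * g + C s * (X * derivative g) with hv
  set κ' : ℂ[X] := X * κ with hκ'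
  have hE : C 1 * w ^ (N + 1) = w * derivative κ' + (v - C (N : ℂ) * derivative w) * κ' := by
    have e1 : derivative κ' = κ + X * derivative κ := by
      rw [hκ', derivative_mul, derivative_X, one_mul]
    have e2 : (C (θ - 1) : ℂ[X]) = C θ - 1 := by rw [C_sub, C_1]
    rw [e1, hv, e2, C_1, one_mul, pow_succ', hκ']
    have e3 : w * w ^ N = X * (g * w ^ N) := by rw [hw]; ring
    rw [e3, h]
    rw [hw]
    ring
  have hκ0 : κ' ≠ 0 := by
    intro h0
    rw [h0, derivative_zero, mul_zero, mul_zero, add_zero] at hE
    exact mul_ne_zero (by rw [C_1]; exact one_ne_zero) (pow_ne_zero _ hw0) hE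
  have hdw : w.natDegree = g.natDegree + 1 := by rw [hw, natDegree_X_mul hg]
  have hlw : w.leadingCoeff = g.leadingCoeff := by rw [hw, leadingCoeff_mul, leadingCoeff_X, one_mul]
  have hXd : (X * derivative g).natDegree ≤ g.natDegree := by
    refine natDegree_mul_le.trans ?_
    rw [natDegree_X]
    have := natDegree_derivative_le g
    omega
  have hXdc : (X * derivative g).coeff g.natDegree = g.natDegree * g.leadingCoeff := by
    obtain ⟨n, hn⟩ : ∃ n, g.natDegree = n + 1 := ⟨g.natDegree - 1, by omega⟩
    rw [hn, coeff_X_mul, coeff_derivative, leadingCoeff, hn]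
    push_cast
    ring
  have hv1' : v.natDegree ≤ g.natDegree := by
    rw [hv]
    exact (natDegree_add_le _ _).trans (max_le (natDegree_C_mul_le _ _)
      ((natDegree_C_mul_le _ _).trans hXd))
  have hv1 : (X * v).natDegree ≤ w.natDegree := by
    rw [hdw]
    refine natDegree_mul_le.trans ?_
    rw [natDegree_X]
    omega
  have hv2 : (X * v).coeff w.natDegree = (g.natDegree * s + θ - 1) * w.leadingCoeff := by
    rw [hdw, hlw, coeff_X_mul, hv, coeff_add, coeff_C_mul, coeff_C_mul, hXdc]
    have : g.coeff g.natDegree = g.leadingCoeff := rfl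
    rw [this]
    ring
  have hdeg : κ'.natDegree ≤ N * w.natDegree + 1 + ν := by
    rcases ode_deg_gen hw0 hκ0 hv1 hv2 hE with h1 | h1
    · exact h1.trans (Nat.le_add_right _ _)
    · by_cases hle : κ'.natDegree ≤ N * w.natDegree + 1
      · exact hle.trans (Nat.le_add_right _ _)
      · obtain ⟨n, hn⟩ : ∃ n, κ'.natDegree = N * w.natDegree + 1 + n :=
          ⟨κ'.natDegree - (N * w.natDegree + 1), by omega⟩
        have h2 := hμ n (by
          rw [hn] at h1
          push_cast at h1
          linear_combination h1)
        omega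
  -- the orders
  set T : Finset ℂ := insert 0 g.roots.toFinset with hT
  have h0T : (0 : ℂ) ∉ g.roots.toFinset := by
    rw [Multiset.mem_toFinset, mem_roots hg]
    exact hg0
  have hTw : ∀ t ∈ w.roots, t ∈ T := by
    intro t ht
    rw [hw, roots_mul (by rw [← hw]; exact hw0), Multiset.mem_add, roots_X] at ht
    rw [hT, Finset.mem_insert, Multiset.mem_toFinset]
    rcases ht with ht | ht
    · left; exact Multiset.mem_singleton.1 ht
    · right; exact ht
  have sw := sum_mult_eq T w hTw
  have sk := (sum_mult_le T κ').trans hdeg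
  have hder : ∀ (t : ℂ) (n : ℕ) (p : ℂ[X]), (X - C t) * derivative ((X - C t) ^ n * p) =
      (X - C t) ^ n * (C (n : ℂ) * p + (X - C t) * derivative p) := by
    intro t n p
    have hu1 : derivative (X - C t) = 1 := by simp
    rw [derivative_mul, derivative_pow, hu1]
    rcases n with _ | n
    · simp
    · simp only [Nat.add_sub_cancel]
      ring
  have hloc : ∀ t ∈ T, N * w.rootMultiplicity t + 1 ≤ κ'.rootMultiplicity t +
      (if t = 0 then ε else 0) := by
    intro t ht
    rw [hT, Finset.mem_insert] at ht
    rcases ht with rfl | ht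
    · -- the point zero
      have hW : w.rootMultiplicity 0 = 1 := by
        rw [hw, rootMultiplicity_mul (by rw [← hw]; exact hw0)]
        have e1 : (X : ℂ[X]).rootMultiplicity 0 = 1 := by
          have := rootMultiplicity_X_sub_C_self (x := (0 : ℂ))
          rwa [C_0, sub_zero] at this
        have e2 : g.rootMultiplicity 0 = 0 := rootMultiplicity_eq_zero hg0
        rw [e1, e2]
      have key := ord_ode 0 (w1 := g) (v1 := C s * derivative g)
        (e := θ - 1) one_ne_zero hκ0 (W := 1) (by rw [hw, C_0, sub_zero, pow_one]) hg0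
        (by rw [hv, C_0, sub_zero, pow_one]; ring) hE
      rw [if_pos rfl]
      rcases key with h1 | ⟨n, hn, h1⟩
      · rw [h1, hW]
        exact Nat.le_add_right _ _
      · have h2 := hθ n (by linear_combination hn)
        rw [hW]
        omega
    · -- the roots of `g`
      have ht0 : t ≠ 0 := by
        rintro rfl
        exact h0T ht
      rw [Multiset.mem_toFinset] at ht
      obtain ⟨g1, hg1, hg1'⟩ := exists_eq_pow_rootMultiplicity_mul_and_not_dvd g hg t
      rw [dvd_iff_isRoot, IsRoot.def] at hg1'
      have hmpos : 0 < g.rootMultiplicity t := by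
        rw [rootMultiplicity_pos hg]
        exact isRoot_of_mem_roots ht
      set m := g.rootMultiplicity t with hm
      have hW : w.rootMultiplicity t = m := by
        rw [hw, rootMultiplicity_mul (by rw [← hw]; exact hw0)]
        have e1 : (X : ℂ[X]).rootMultiplicity t = 0 := by
          apply rootMultiplicity_eq_zero
          rw [IsRoot.def, eval_X]
          exact ht0
        rw [e1, zero_add]
      have eg := hder t m g1
      rw [← hg1] at eg
      have hwe : w = (X - C t) ^ m * (X * g1) := by
        rw [hw]
        conv_lhs => rw [hg1]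
        ring
      have key := ord_ode t (w1 := X * g1)
        (v1 := C (θ - 1) * g1 + C s * (X * derivative g1))
        (e := (m : ℂ) * s) one_ne_zero hκ0 (W := m) hwe
        (by rw [eval_mul, eval_X]; exact mul_ne_zero ht0 hg1')
        (by
          have e3 : (X - C t) * v = C (θ - 1) * ((X - C t) * g) +
            C s * (X * ((X - C t) * derivative g)) := by rw [hv]; ring
          rw [e3, eg]
          conv_lhs => rw [hg1]
          rw [C_mul]
          ring) hE
      rw [if_neg ht0, add_zero]
      rcases key with h1 | ⟨n, hn, _⟩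
      · rw [h1, hW]
      · exact absurd hn (hs m n hmpos)
  have hsum := Finset.sum_le_sum hloc
  rw [Finset.sum_add_distrib, Finset.sum_add_distrib (f := fun t => κ'.rootMultiplicity t),
    ← Finset.mul_sum, sw, Finset.sum_const, smul_eq_mul, mul_one,
    Finset.sum_ite_eq' T 0 fun _ => ε, if_pos (Finset.mem_insert_self _ _)] at hsum
  have hcard : T.card = g.roots.toFinset.card + 1 := by
    rw [hT, Finset.card_insert_of_notMem h0T]
  omega

end Pool.Agent.Helper748.MC
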