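import Pool.Agent.helper748_mc.Iso1

set_option autoImplicit false
set_option linter.unusedSectionVars false

/-! # The values of a functional on the cohomology of a punctured line -/

namespace Pool.Agent.Helper748.MC

open Polynomial

/-- The values `c q K` of a linear functional on the forms `W ^ (θ + q) g ^ (s - K) dW / W` which
vanishes on exact forms and does not vanish on `W ^ θ g ^ s dW / W`. -/
structure PenSys (θ s : ℂ) (g : ℂ[X]) (c : ℤ → ℕ → ℂ) : Prop where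
  r1 : ∀ (q : ℤ) (K : ℕ), (q + θ) * c q K + (s - K) *
    ∑ i ∈ Finset.range (g.natDegree + 1), (i : ℂ) * g.coeff i * c (q + i) (K + 1) = 0
  r3 : ∀ (q : ℤ) (K : ℕ), c q K =
    ∑ i ∈ Finset.range (g.natDegree + 1), g.coeff i * c (q + i) (K + 1)
  r4 : c 0 0 ≠ 0

section Ex

variable (θ s : ℂ) (g : ℂ[X])

/-- the basis -/
noncomputable def be (q : ℤ) (K : ℕ) : (ℤ × ℕ) →₀ ℂ := Finsupp.single (q, K) 1

/-- the relations -/
noncomputable def rel1 (p : ℤ × ℕ) : (ℤ × ℕ) →₀ ℂ :=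
  ((p.1 : ℂ) + θ) • be p.1 p.2 + (s - p.2) •
    ∑ i ∈ Finset.range (g.natDegree + 1), ((i : ℂ) * g.coeff i) • be (p.1 + i) (p.2 + 1)

/-- the relations -/
noncomputable def rel3 (p : ℤ × ℕ) : (ℤ × ℕ) →₀ ℂ :=
  be p.1 p.2 - ∑ i ∈ Finset.range (g.natDegree + 1), g.coeff i • be (p.1 + i) (p.2 + 1)

/-- multiplication by `X ^ N g ^ N` -/
noncomputable def evp (N : ℕ) : ((ℤ × ℕ) →₀ ℂ) →ₗ[ℂ] ℂ[X] :=
  Finsupp.linearCombination ℂ fun p : ℤ × ℕ => X ^ (p.1 + N).toNat * g ^ (N - p.2)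

theorem evp_be (N : ℕ) (q : ℤ) (K : ℕ) : evp g N (be q K) = X ^ (q + N).toNat * g ^ (N - K) := by
  rw [evp, be, Finsupp.linearCombination_single, one_smul]

/-- the differential operator -/
noncomputable def dop (N : ℕ) : ℂ[X] →ₗ[ℂ] ℂ[X] :=
  (LinearMap.mulLeft ℂ (X * g)).comp derivative + LinearMap.mulLeft ℂ
    (C θ * g + C s * (X * derivative g) - C (N : ℂ) * derivative (X * g))

theorem dop_apply (N : ℕ) (κ : ℂ[X]) : dop θ s g N κ = (X * g) * derivative κ +
      (C θ * g + C s * (X * derivative g) - C (N : ℂ) * derivative (X * g)) * κ := rfl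

theorem X_deriv_pow (r : ℕ) : X * derivative ((X : ℂ[X]) ^ r) = C (r : ℂ) * X ^ r := by
  rw [derivative_X_pow]
  rcases r with _ | r
  · simp
  · rw [Nat.add_sub_cancel]; ring

theorem sum_coeff_X : ∑ i ∈ Finset.range (g.natDegree + 1), C (g.coeff i) * X ^ i = g :=
  (g.as_sum_range_C_mul_X_pow).symm

theorem sum_coeff_XD : ∑ i ∈ Finset.range (g.natDegree + 1), C ((i : ℂ) * g.coeff i) * X ^ i =
    X * derivative g := by
  conv_rhs => rw [← sum_coeff_X g, derivative_sum, Finset.mul_sum]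
  refine Finset.sum_congr rfl fun i _ => ?_
  rw [derivative_C_mul, C_mul]
  linear_combination -(C (g.coeff i)) * X_deriv_pow i

variable {g} in
theorem toNat_shift {N : ℕ} {q : ℤ} (hq : 0 ≤ q + N) (i : ℕ) :
    (X : ℂ[X]) ^ ((q + i : ℤ) + N).toNat = X ^ (q + N).toNat * X ^ i := by
  rw [← pow_add]
  congr 1
  omega

variable {g} in
theorem evp_rel3 {N : ℕ} {p : ℤ × ℕ} (h1 : 0 ≤ p.1 + N) (h2 : p.2 + 1 ≤ N) :
    evp g N (rel3 g p) = 0 := by
  obtain ⟨m, hm⟩ : ∃ m, N = p.2 + 1 + m := ⟨N - (p.2 + 1), by omega⟩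
  have e1 : N - p.2 = m + 1 := by omega
  have e2 : N - (p.2 + 1) = m := by omega
  rw [rel3, map_sub, map_sum, evp_be, e1]
  simp only [map_smul, evp_be, e2, smul_eq_C_mul]
  have e3 : ∀ i ∈ Finset.range (g.natDegree + 1),
      C (g.coeff i) * (X ^ ((p.1 + i : ℤ) + N).toNat * g ^ m) =
      (C (g.coeff i) * X ^ i) * (X ^ (p.1 + N).toNat * g ^ m) := by
    intro i _
    rw [toNat_shift h1]
    ring
  rw [Finset.sum_congr rfl e3, ← Finset.sum_mul, sum_coeff_X]
  ring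

variable {g} in
theorem evp_rel1 {N : ℕ} {p : ℤ × ℕ} (h1 : 0 ≤ p.1 + N) (h2 : p.2 + 1 ≤ N) :
    g * evp g N (rel1 θ s g p) = dop θ s g N (evp g N (be p.1 p.2)) := by
  obtain ⟨m, hm⟩ : ∃ m, N = p.2 + 1 + m := ⟨N - (p.2 + 1), by omega⟩
  have e1 : N - p.2 = m + 1 := by omega
  have e2 : N - (p.2 + 1) = m := by omega
  rw [dop_apply, rel1, map_add, map_smul, map_smul, map_sum, evp_be, e1]
  simp only [map_smul, evp_be, e2, smul_eq_C_mul]
  have e3 : ∀ i ∈ Finset.range (g.natDegree + 1),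
      C ((i : ℂ) * g.coeff i) * (X ^ ((p.1 + i : ℤ) + N).toNat * g ^ m) =
      (C ((i : ℂ) * g.coeff i) * X ^ i) * (X ^ (p.1 + N).toNat * g ^ m) := by
    intro i _
    rw [toNat_shift h1]
    ring
  rw [Finset.sum_congr rfl e3, ← Finset.sum_mul, sum_coeff_XD]
  obtain ⟨r, hr⟩ : ∃ r : ℕ, (p.1 + N).toNat = r := ⟨_, rfl⟩
  have hr' : (p.1 : ℂ) = r - N := by
    have : p.1 = (r : ℤ) - N := by omega
    rw [this]; push_cast; ring
  have hN : (N : ℂ) = p.2 + 1 + m := by rw [hm]; push_cast; ring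
  rw [hr]
  have e4 : X * derivative (X ^ r * g ^ (m + 1)) =
      C (r : ℂ) * (X ^ r * g ^ (m + 1)) + C ((m : ℂ) + 1) * (X ^ r * g ^ m * (X * derivative g)) := by
    rw [derivative_mul, derivative_pow g, Nat.add_sub_cancel]
    have := X_deriv_pow r
    push_cast
    linear_combination g ^ (m + 1) * this
  have e5 : (X * g) * derivative (X ^ r * g ^ (m + 1)) =
      g * (X * derivative (X ^ r * g ^ (m + 1))) := by ring
  rw [e5, e4, derivative_mul, derivative_X, hr']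
  have e6 : (C (s - (p.2 : ℂ)) : ℂ[X]) = C s - C (N : ℂ) + C ((m : ℂ) + 1) := by
    rw [← C_sub, ← C_add]
    congr 1
    rw [hN]; ring
  have e7 : (C ((r : ℂ) - N + θ) : ℂ[X]) = C (r : ℂ) - C (N : ℂ) + C θ := by
    rw [← C_sub, ← C_add]
  rw [e6, e7]
  ring

theorem exists_penSys {ε ν : ℕ} (hg0 : g.eval 0 ≠ 0) (hgn : 0 < g.natDegree)
    (hθ : ∀ n : ℕ, θ = n + 1 → n + 1 ≤ ε) (hμ : ∀ n : ℕ, g.natDegree * s + θ = -n → n ≤ ν)
    (hs : ∀ m n : ℕ, 0 < m → (m : ℂ) * s ≠ n) (hcnt : ε + ν < g.roots.toFinset.card) :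
    ∃ c : ℤ → ℕ → ℂ, PenSys θ s g c := by
  classical
  set R : Submodule ℂ ((ℤ × ℕ) →₀ ℂ) := Submodule.span ℂ (Set.range (rel1 θ s g)) ⊔
    Submodule.span ℂ (Set.range (rel3 g)) with hR
  have hnot : be 0 0 ∉ R := by
    intro hmem
    rw [hR, Submodule.mem_sup] at hmem
    obtain ⟨A, hA, B, hB, hAB⟩ := hmem
    rw [← Finsupp.range_linearCombination, LinearMap.mem_range] at hA hB
    obtain ⟨x, rfl⟩ := hA
    obtain ⟨y, rfl⟩ := hB
    obtain ⟨N, hN⟩ : ∃ N : ℕ, ∀ p ∈ x.support ∪ y.support, 0 ≤ p.1 + N ∧ p.2 + 1 ≤ N := by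
      refine ⟨(x.support ∪ y.support).sup fun p => p.1.natAbs + (p.2 + 1), fun p hp => ?_⟩
      have := Finset.le_sup (f := fun p : ℤ × ℕ => p.1.natAbs + (p.2 + 1)) hp
      omega
    have h1 : g * evp g N (Finsupp.linearCombination ℂ (rel1 θ s g) x) =
        dop θ s g N (evp g N x) := by
      rw [Finsupp.linearCombination_apply, Finsupp.sum, map_sum, Finset.mul_sum]
      conv_rhs => rw [← Finsupp.sum_single x, Finsupp.sum, map_sum, map_sum]
      refine Finset.sum_congr rfl fun p hp => ?_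
      obtain ⟨h1, h2⟩ := hN p (Finset.mem_union_left _ hp)
      have e1 : Finsupp.single p (x p) = x p • be p.1 p.2 := by
        rw [be, Finsupp.smul_single, smul_eq_mul, mul_one]
      rw [e1, map_smul, map_smul, map_smul, mul_smul_comm, evp_rel1 θ s h1 h2]
    have h2 : evp g N (Finsupp.linearCombination ℂ (rel3 g) y) = 0 := by
      rw [Finsupp.linearCombination_apply, Finsupp.sum, map_sum]
      refine Finset.sum_eq_zero fun p hp => ?_
      obtain ⟨h1, h2⟩ := hN p (Finset.mem_union_right _ hp)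
      rw [map_smul, evp_rel3 h1 h2, smul_zero]
    have h3 := congrArg (fun z => g * evp g N z) hAB
    simp only [map_add, h2, add_zero] at h3
    rw [h1, evp_be] at h3
    have e1 : (0 + (N : ℤ)).toNat = N := by omega
    rw [e1, Nat.sub_zero, ← mul_pow, dop_apply] at h3
    exact line_not_exact hg0 hgn hθ hμ hs hcnt h3.symm
  obtain ⟨φ, hφ1, hφ2⟩ := Submodule.exists_dual_map_eq_bot_of_notMem hnot inferInstance
  have hker : ∀ z ∈ R, φ z = 0 := by
    intro z hz
    have : φ z ∈ R.map φ := Submodule.mem_map_of_mem hz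
    rwa [hφ2, Submodule.mem_bot] at this
  refine ⟨fun q K => φ (be q K), ?_, ?_, hφ1⟩
  · intro q K
    have h1 := hker (rel1 θ s g (q, K)) (hR ▸ Submodule.mem_sup_left
      (Submodule.subset_span ⟨(q, K), rfl⟩))
    rw [rel1, map_add, map_smul, map_smul, map_sum] at h1
    simpa only [map_smul, smul_eq_mul] using h1
  · intro q K
    have h1 := hker (rel3 g (q, K)) (hR ▸ Submodule.mem_sup_right
      (Submodule.subset_span ⟨(q, K), rfl⟩))
    rw [rel3, map_sub, map_sum, sub_eq_zero] at h1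
    simpa only [map_smul, smul_eq_mul] using h1

end Ex

end Pool.Agent.Helper748.MC
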