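import Pool.Agent.helper748_mc.Iso2

set_option autoImplicit false
set_option linter.unusedSectionVars false

/-! # The integrals of the monomials against a power of `η x ^ j G(α x ^ k, β)` -/

namespace Pool.Agent.Helper748.MC

open Polynomial

/-- the integral of `x ^ m` against the power of `η x ^ j G(α x ^ k, β)`, `G` of degree `n` -/
noncomputable def gpsi (c : ℤ → ℕ → ℂ) (j k n : ℕ) (η α β : ℂ) (K : ℕ) (m : ℤ) : ℂ :=
  if (k : ℤ) ∣ m - j * K then
    c ((m - j * K) / k) K * (η ^ (-(K : ℤ)) * α ^ (-((m - j * K) / k)) *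
      β ^ ((m - j * K) / k - n * K)) else 0

theorem gpsi_of {c : ℤ → ℕ → ℂ} {j k n : ℕ} (hk : 0 < k) {η α β : ℂ} {K : ℕ} {m : ℤ} (q : ℤ)
    (hq : m = k * q + j * K) : gpsi c j k n η α β K m =
      c q K * (η ^ (-(K : ℤ)) * α ^ (-q) * β ^ (q - n * K)) := by
  have h1 : m - j * K = k * q := by linarith
  have h2 : (m - j * K) / (k : ℤ) = q := by
    rw [h1]
    exact Int.mul_ediv_cancel_left q (by exact_mod_cast hk.ne')
  rw [gpsi, if_pos ⟨q, h1⟩, h2]

theorem gpsi_zero {c : ℤ → ℕ → ℂ} {j k n : ℕ} {η α β : ℂ} {K : ℕ} {m : ℤ}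
    (h : ¬ (k : ℤ) ∣ m - j * K) : gpsi c j k n η α β K m = 0 := by
  rw [gpsi, if_neg h]

/-- the functional -/
noncomputable def Gn (c : ℤ → ℕ → ℂ) (j k n : ℕ) (η α β : ℂ) (K : ℕ) (e : ℤ) : ℂ[X] →ₗ[ℂ] ℂ :=
  Polynomial.lsum fun i => gpsi c j k n η α β K (i + e) • LinearMap.id

variable {θ s : ℂ} {g : ℂ[X]} {c : ℤ → ℕ → ℂ} {j k n : ℕ} {η α β : ℂ}

theorem Gn_monomial (K : ℕ) (e : ℤ) (i : ℕ) (a : ℂ) :
    Gn c j k n η α β K e (monomial i a) = a * gpsi c j k n η α β K (i + e) := by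
  rw [Gn, Polynomial.lsum_apply, Polynomial.sum_monomial_index]
  · simp [mul_comm]
  · simp

theorem Gn_Xpow (K : ℕ) (e : ℤ) (r : ℕ) (Y : ℂ[X]) :
    Gn c j k n η α β K e (X ^ r * Y) = Gn c j k n η α β K (e + r) Y := by
  refine Fn_ext (f := (Gn c j k n η α β K e).comp (LinearMap.mulLeft ℂ (X ^ r))) (fun i => ?_) Y
  rw [LinearMap.comp_apply, LinearMap.mulLeft_apply, X_pow_mul_monomial, Gn_monomial, Gn_monomial]
  congr 2
  push_cast
  ring

theorem Gn_X (K : ℕ) (e : ℤ) (Y : ℂ[X]) :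
    Gn c j k n η α β K e (X * Y) = Gn c j k n η α β K (e + 1) Y := by
  have := Gn_Xpow (c := c) (j := j) (k := k) (n := n) (η := η) (α := α) (β := β) K e 1 Y
  rwa [pow_one, Nat.cast_one] at this

/-- the polynomial `G(α x ^ k, β)`, homogenized with the degree of `g` -/
noncomputable def Hg (g : ℂ[X]) (k : ℕ) (α β : ℂ) : ℂ[X] :=
  ∑ i ∈ Finset.range (g.natDegree + 1), C (g.coeff i * α ^ i * β ^ (g.natDegree - i)) * X ^ (k * i)

/-- the Euler derivative of `G` with respect to the first variable -/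
noncomputable def Hg1 (g : ℂ[X]) (k : ℕ) (α β : ℂ) : ℂ[X] :=
  ∑ i ∈ Finset.range (g.natDegree + 1),
    C ((i : ℂ) * (g.coeff i * α ^ i * β ^ (g.natDegree - i))) * X ^ (k * i)

/-- the form on the line -/
noncomputable def Gl (g : ℂ[X]) (j k : ℕ) (η α β : ℂ) : ℂ[X] := C η * X ^ j * Hg g k α β

/-- the form on the line -/
noncomputable def Gl1 (g : ℂ[X]) (j k : ℕ) (η α β : ℂ) : ℂ[X] := C η * X ^ j * Hg1 g k α β

theorem X_deriv_Hg : X * derivative (Hg g k α β) = C (k : ℂ) * Hg1 g k α β := by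
  rw [Hg, Hg1, derivative_sum, Finset.mul_sum, Finset.mul_sum]
  refine Finset.sum_congr rfl fun i _ => ?_
  obtain ⟨y, hy⟩ : ∃ y, g.coeff i * α ^ i * β ^ (g.natDegree - i) = y := ⟨_, rfl⟩
  rw [hy, derivative_C_mul, C_mul]
  have h1 := X_deriv_pow (k * i)
  rw [Nat.cast_mul, C_mul] at h1
  linear_combination (C y) * h1

theorem X_deriv_Gl : X * derivative (Gl g j k η α β) =
    C (j : ℂ) * Gl g j k η α β + C (k : ℂ) * Gl1 g j k η α β := by
  rw [Gl, Gl1, derivative_mul, derivative_C_mul]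
  have h1 := X_deriv_pow j
  have h2 := X_deriv_Hg (g := g) (k := k) (α := α) (β := β)
  linear_combination (C η * Hg g k α β) * h1 + (C η * X ^ j) * h2

theorem Gn_sum (K : ℕ) (e : ℤ) (i : ℕ) (x : ℕ → ℂ) :
    Gn c j k n η α β (K + 1) e (C η * X ^ j *
      (∑ l ∈ Finset.range (g.natDegree + 1), C (x l) * X ^ (k * l)) * monomial i 1) =
      ∑ l ∈ Finset.range (g.natDegree + 1), x l * (η *
        gpsi c j k n η α β (K + 1) (i + e + j + k * l)) := by
  rw [Finset.mul_sum, Finset.sum_mul, map_sum]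
  refine Finset.sum_congr rfl fun l _ => ?_
  have e1 : C η * X ^ j * (C (x l) * X ^ (k * l)) * monomial i 1 =
      (x l * η) • (X ^ (j + k * l) * monomial i 1) := by
    rw [smul_eq_C_mul, C_mul, pow_add]; ring
  rw [e1, map_smul, Gn_Xpow, Gn_monomial, one_mul, smul_eq_mul, mul_assoc]
  congr 3
  push_cast
  ring

theorem gpsi_shift (hk : 0 < k) (hη : η ≠ 0) (hα : α ≠ 0) (hβ : β ≠ 0) {K l : ℕ} {m q : ℤ}
    (hq : m = k * q + j * K) (hl : l ≤ n) :
    α ^ l * β ^ (n - l) * (η * gpsi c j k n η α β (K + 1) (m + j + k * l)) =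
      c (q + l) (K + 1) * (η ^ (-(K : ℤ)) * α ^ (-q) * β ^ (q - n * K)) := by
  rw [gpsi_of hk (q + l) (by rw [hq]; push_cast; ring)]
  have e1 : η * η ^ (-((K + 1 : ℕ) : ℤ)) = η ^ (-(K : ℤ)) := by
    rw [← zpow_one_add₀ hη]; congr 1; push_cast; ring
  have e2 : α ^ l * α ^ (-(q + l : ℤ)) = α ^ (-q) := by
    rw [← zpow_natCast α l, ← zpow_add₀ hα]; congr 1; ring
  have e3 : β ^ (n - l) * β ^ ((q + l : ℤ) - n * (K + 1 : ℕ)) = β ^ (q - n * K) := by
    rw [← zpow_natCast β (n - l), ← zpow_add₀ hβ]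
    congr 1
    rw [Nat.cast_sub hl]; push_cast; ring
  rw [← e1, ← e2, ← e3]
  ring

theorem Gn_G_mon (hc : PenSys θ s g c) (hk : 0 < k) (hη : η ≠ 0) (hα : α ≠ 0) (hβ : β ≠ 0)
    (K : ℕ) (e : ℤ) (i : ℕ) :
    Gn c j k g.natDegree η α β (K + 1) e (Gl g j k η α β * monomial i 1) =
      gpsi c j k g.natDegree η α β K (i + e) := by
  rw [Gl, Hg, Gn_sum (g := g) K e i (fun l => g.coeff l * α ^ l * β ^ (g.natDegree - l))]
  by_cases h : (k : ℤ) ∣ (i + e : ℤ) - j * K
  · obtain ⟨q, hq⟩ := h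
    have hq' : (i + e : ℤ) = k * q + j * K := by linarith
    rw [gpsi_of hk q hq', hc.r3 q K, Finset.sum_mul]
    refine Finset.sum_congr rfl fun l hl => ?_
    have := gpsi_shift (c := c) (j := j) hk hη hα hβ hq' (n := g.natDegree)
      (Nat.lt_succ_iff.1 (Finset.mem_range.1 hl))
    linear_combination (g.coeff l) * this
  · rw [gpsi_zero h]
    refine Finset.sum_eq_zero fun l _ => ?_
    rw [gpsi_zero, mul_zero, mul_zero]
    rwa [show (i + e + j + k * l : ℤ) - j * (K + 1 : ℕ) = (i + e - j * K) + k * l by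
      push_cast; ring, dvd_add_left (Dvd.intro _ rfl)]

theorem Gn_G1_mon (hc : PenSys θ s g c) (hk : 0 < k) (hη : η ≠ 0) (hα : α ≠ 0) (hβ : β ≠ 0)
    (hθ : k * θ = 1 + s * j) (K : ℕ) (e : ℤ) (i : ℕ) :
    k * ((s - K) * Gn c j k g.natDegree η α β (K + 1) e (Gl1 g j k η α β * monomial i 1)) =
      -((i + e + 1 + (s - K) * j) * gpsi c j k g.natDegree η α β K (i + e)) := by
  rw [Gl1, Hg1, Gn_sum (g := g) K e i
    (fun l => (l : ℂ) * (g.coeff l * α ^ l * β ^ (g.natDegree - l)))]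
  by_cases h : (k : ℤ) ∣ (i + e : ℤ) - j * K
  · obtain ⟨q, hq⟩ := h
    have hq' : (i + e : ℤ) = k * q + j * K := by linarith
    have h1 := hc.r1 q K
    have h2 : ∑ l ∈ Finset.range (g.natDegree + 1),
        (l : ℂ) * (g.coeff l * α ^ l * β ^ (g.natDegree - l)) *
          (η * gpsi c j k g.natDegree η α β (K + 1) (i + e + j + k * l)) =
        (∑ l ∈ Finset.range (g.natDegree + 1), (l : ℂ) * g.coeff l * c (q + l) (K + 1)) *
          (η ^ (-(K : ℤ)) * α ^ (-q) * β ^ (q - g.natDegree * K)) := by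
      rw [Finset.sum_mul]
      refine Finset.sum_congr rfl fun l hl => ?_
      have := gpsi_shift (c := c) (j := j) hk hη hα hβ hq' (n := g.natDegree)
        (Nat.lt_succ_iff.1 (Finset.mem_range.1 hl))
      linear_combination ((l : ℂ) * g.coeff l) * this
    rw [h2, gpsi_of hk q hq']
    have h3 : (i : ℂ) + e = k * q + j * K := by exact_mod_cast congrArg (Int.cast : ℤ → ℂ) hq'
    set w1 := η ^ (-(K : ℤ)) * α ^ (-q) * β ^ (q - g.natDegree * K)
    linear_combination (k * w1) * h1 + (c q K * w1) * h3 - (c q K * w1) * hθ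
  · rw [gpsi_zero h]
    have h0 : ∑ l ∈ Finset.range (g.natDegree + 1),
        (l : ℂ) * (g.coeff l * α ^ l * β ^ (g.natDegree - l)) *
          (η * gpsi c j k g.natDegree η α β (K + 1) (i + e + j + k * l)) = 0 := by
      refine Finset.sum_eq_zero fun l _ => ?_
      rw [gpsi_zero, mul_zero, mul_zero]
      rwa [show (i + e + j + k * l : ℤ) - j * (K + 1 : ℕ) = (i + e - j * K) + k * l by
        push_cast; ring, dvd_add_left (Dvd.intro _ rfl)]
    rw [h0]
    ring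

theorem Gn_G (hc : PenSys θ s g c) (hk : 0 < k) (hη : η ≠ 0) (hα : α ≠ 0) (hβ : β ≠ 0)
    (K : ℕ) (e : ℤ) (Y : ℂ[X]) :
    Gn c j k g.natDegree η α β (K + 1) e (Gl g j k η α β * Y) =
      Gn c j k g.natDegree η α β K e Y := by
  refine Fn_ext (f := (Gn c j k g.natDegree η α β (K + 1) e).comp
    (LinearMap.mulLeft ℂ (Gl g j k η α β))) (fun i => ?_) Y
  rw [LinearMap.comp_apply, LinearMap.mulLeft_apply, Gn_G_mon hc hk hη hα hβ, Gn_monomial, one_mul]

theorem Gn_Gpow (hc : PenSys θ s g c) (hk : 0 < k) (hη : η ≠ 0) (hα : α ≠ 0) (hβ : β ≠ 0)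
    (K : ℕ) (e : ℤ) (Y : ℂ[X]) :
    Gn c j k g.natDegree η α β K e (Gl g j k η α β ^ K * Y) =
      Gn c j k g.natDegree η α β 0 e Y := by
  induction K with
  | zero => rw [pow_zero, one_mul]
  | succ K ih => rw [pow_succ', mul_assoc, Gn_G hc hk hη hα hβ, ih]

/-- Integration by parts in `x`. -/
theorem Gn_exact (hc : PenSys θ s g c) (hk : 0 < k) (hη : η ≠ 0) (hα : α ≠ 0) (hβ : β ≠ 0)
    (hθ : k * θ = 1 + s * j) (K : ℕ) (Q : ℂ[X]) :
    Gn c j k g.natDegree η α β (K + 1) 0 (Gl g j k η α β * derivative Q +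
      C (s - K) * (derivative (Gl g j k η α β) * Q)) = 0 := by
  have hsplit : ∀ Y : ℂ[X], Gn c j k g.natDegree η α β (K + 1) 0 Y =
      Gn c j k g.natDegree η α β (K + 1) (-1) (X * Y) := by
    intro Y
    rw [Gn_X]
    congr 2
  rw [hsplit]
  have h1 : X * (Gl g j k η α β * derivative Q + C (s - K) * (derivative (Gl g j k η α β) * Q)) =
      Gl g j k η α β * (X * derivative Q + C ((s - K) * j) * Q) +
        C ((s - K) * k) * (Gl1 g j k η α β * Q) := by
    rw [C_mul, C_mul]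
    linear_combination (C (s - K) * Q) * X_deriv_Gl (g := g) (j := j) (k := k) (η := η) (α := α)
      (β := β)
  rw [h1, map_add, Gn_G hc hk hη hα hβ, ← smul_eq_C_mul, ← smul_eq_C_mul, map_add, map_smul,
    map_smul]
  have key : ∀ Q : ℂ[X], Gn c j k g.natDegree η α β K (-1) (X * derivative Q) =
      - (((s - K) * j) * Gn c j k g.natDegree η α β K (-1) Q +
        ((s - K) * k) * Gn c j k g.natDegree η α β (K + 1) (-1) (Gl1 g j k η α β * Q)) := by
    refine Fn_ext (f := (Gn c j k g.natDegree η α β K (-1)).comp ((LinearMap.mulLeft ℂ X).comp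
      derivative)) (g := -(((s - K) * j) • Gn c j k g.natDegree η α β K (-1) +
        ((s - K) * k) • (Gn c j k g.natDegree η α β (K + 1) (-1)).comp
          (LinearMap.mulLeft ℂ (Gl1 g j k η α β)))) (fun i => ?_)
    simp only [LinearMap.comp_apply, LinearMap.mulLeft_apply, LinearMap.neg_apply,
      LinearMap.add_apply, LinearMap.smul_apply, smul_eq_mul, Gn_monomial, one_mul]
    have e1 : X * derivative (monomial i (1 : ℂ)) = monomial i (i : ℂ) := by
      rw [← C_mul_X_pow_eq_monomial, ← C_mul_X_pow_eq_monomial, C_1, one_mul, X_deriv_pow]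
    rw [e1, Gn_monomial]
    have h2 := Gn_G1_mon (j := j) hc hk hη hα hβ hθ K (-1) i
    push_cast at h2 ⊢
    linear_combination h2
  rw [key]
  simp only [smul_eq_mul]
  ring

end Pool.Agent.Helper748.MC
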