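import Pool.Agent.helper748_mc.Iso3

set_option autoImplicit false
set_option linter.unusedSectionVars false

/-! # Families of polynomials which depend on a parameter, and the derivative of the integral -/

namespace Pool.Agent.Helper748.MC

open Polynomial Filter Topology

/-- `Y'` is the derivative at `t` of the family `Y` of polynomials of bounded degree. -/
structure HasPD (Y : ℂ → ℂ[X]) (Y' : ℂ[X]) (t : ℂ) : Prop where
  co : ∀ i, HasDerivAt (fun u => (Y u).coeff i) (Y'.coeff i) t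
  bd : ∃ N, ∀ u, (Y u).natDegree ≤ N

namespace HasPD

variable {Y Z : ℂ → ℂ[X]} {Y' Z' : ℂ[X]} {t : ℂ}

theorem const (Y : ℂ[X]) (t : ℂ) : HasPD (fun _ => Y) 0 t :=
  ⟨fun i => by simpa using hasDerivAt_const t (Y.coeff i), Y.natDegree, fun _ => le_rfl⟩

theorem C {f : ℂ → ℂ} {f' : ℂ} (h : HasDerivAt f f' t) :
    HasPD (fun u => Polynomial.C (f u)) (Polynomial.C f') t := by
  refine ⟨fun i => ?_, 0, fun u => (natDegree_C _).le⟩
  rcases i with _ | i
  · simpa using h
  · simpa [coeff_C_succ] using hasDerivAt_const t (0 : ℂ)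

theorem add (hY : HasPD Y Y' t) (hZ : HasPD Z Z' t) : HasPD (fun u => Y u + Z u) (Y' + Z') t := by
  obtain ⟨N, hN⟩ := hY.bd
  obtain ⟨M, hM⟩ := hZ.bd
  refine ⟨fun i => ?_, max N M, fun u => (natDegree_add_le _ _).trans (max_le_max (hN u) (hM u))⟩
  simp only [coeff_add]
  exact (hY.co i).add (hZ.co i)

theorem mul (hY : HasPD Y Y' t) (hZ : HasPD Z Z' t) :
    HasPD (fun u => Y u * Z u) (Y' * Z t + Y t * Z') t := by
  obtain ⟨N, hN⟩ := hY.bd
  obtain ⟨M, hM⟩ := hZ.bd
  refine ⟨fun i => ?_, N + M, fun u => natDegree_mul_le.trans (add_le_add (hN u) (hM u))⟩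
  simp only [coeff_add, coeff_mul]
  rw [← Finset.sum_add_distrib]
  exact HasDerivAt.fun_sum fun x _ => (hY.co x.1).fun_mul (hZ.co x.2)

theorem sum {ι : Type} (S : Finset ι) {Y : ι → ℂ → ℂ[X]} {Y' : ι → ℂ[X]}
    (h : ∀ i ∈ S, HasPD (Y i) (Y' i) t) : HasPD (fun u => ∑ i ∈ S, Y i u) (∑ i ∈ S, Y' i) t := by
  classical
  induction S using Finset.induction_on with
  | empty => simpa using const 0 t
  | insert a S ha ih =>
    simp only [Finset.sum_insert ha]
    exact (h a (Finset.mem_insert_self _ _)).add (ih fun i hi => h i (Finset.mem_insert_of_mem hi))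

theorem unique {Y1 Y2 : ℂ[X]} (hY : HasPD Y Y1 t) (hZ : HasPD Z Y2 t)
    (h : ∀ᶠ u in 𝓝 t, Y u = Z u) : Y1 = Y2 := by
  ext i
  refine (hY.co i).unique ((hZ.co i).congr_of_eventuallyEq ?_)
  filter_upwards [h] with u hu
  rw [hu]

theorem natDegree_le {N : ℕ} (hY : HasPD Y Y' t) (hN : ∀ u, (Y u).natDegree ≤ N) :
    Y'.natDegree ≤ N := by
  rw [natDegree_le_iff_coeff_eq_zero]
  intro i hi
  refine (hY.co i).unique ?_
  have : (fun u => (Y u).coeff i) = fun _ => 0 := by
    funext u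
    exact coeff_eq_zero_of_natDegree_lt ((hN u).trans_lt hi)
  rw [this]
  exact hasDerivAt_const t 0

end HasPD

theorem lin_sum (Λ : ℂ[X] →ₗ[ℂ] ℂ) {Y : ℂ[X]} {N : ℕ} (h : Y.natDegree ≤ N) :
    Λ Y = ∑ i ∈ Finset.range (N + 1), Y.coeff i * Λ (monomial i 1) := by
  conv_lhs => rw [Y.as_sum_range' (N + 1) (Nat.lt_succ_of_le h), map_sum]
  refine Finset.sum_congr rfl fun i _ => ?_
  rw [← smul_eq_mul, ← map_smul, smul_monomial, smul_eq_mul, mul_one]

variable {θ s : ℂ} {g : ℂ[X]} {c : ℤ → ℕ → ℂ} {j k : ℕ} {h r a b : ℂ[X]} {t : ℂ}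

/-- the coefficient `h / r` -/
noncomputable def et (h r : ℂ[X]) (t : ℂ) : ℂ := h.eval t * (r.eval t)⁻¹

theorem et_ne {h r : ℂ[X]} {t : ℂ} (hη : h.eval t ≠ 0) (hr : r.eval t ≠ 0) : et h r t ≠ 0 :=
  mul_ne_zero hη (inv_ne_zero hr)

/-- the form for a value of `t` -/
noncomputable def Glt (g : ℂ[X]) (j k : ℕ) (h r a b : ℂ[X]) (t : ℂ) : ℂ[X] :=
  Gl g j k (et h r t) (a.eval t) (b.eval t)

/-- logarithmic derivative -/
noncomputable def ld (h : ℂ[X]) (t : ℂ) : ℂ := (derivative h).eval t * (h.eval t)⁻¹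

/-- its derivative -/
noncomputable def dGt (g : ℂ[X]) (j k : ℕ) (h r a b : ℂ[X]) (t : ℂ) : ℂ[X] :=
  C (ld h t - ld r t + g.natDegree * ld b t) * Glt g j k h r a b t +
    C (ld a t - ld b t) * Gl1 g j k (et h r t) (a.eval t) (b.eval t)

/-- the logarithmic derivative of `(h / r) ^ s a ^ (-θ) b ^ μ` -/
noncomputable def omr (s θ μ : ℂ) (h r a b : ℂ[X]) (t : ℂ) : ℂ :=
  s * (ld h t - ld r t) - θ * ld a t + μ * ld b t

theorem hasDerivAt_eval_pow' (p : ℂ[X]) (m : ℕ) {t : ℂ} (h : p.eval t ≠ 0) :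
    HasDerivAt (fun t => p.eval t ^ m) (p.eval t ^ m * (m * ld p t)) t := by
  have := hasDerivAt_eval_zpow p (m : ℤ) h
  simpa only [zpow_natCast, Int.cast_natCast, ld] using this

theorem hasDerivAt_et (hη : h.eval t ≠ 0) (hr : r.eval t ≠ 0) :
    HasDerivAt (et h r) (et h r t * (ld h t - ld r t)) t := by
  have h1 := (h.hasDerivAt t).mul ((r.hasDerivAt t).inv hr)
  refine h1.congr_deriv ?_
  rw [et, ld, ld]
  simp only [Pi.inv_apply]
  field_simp
  ring

theorem hasPD_Glt (hη : h.eval t ≠ 0) (hr : r.eval t ≠ 0) (hα : a.eval t ≠ 0)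
    (hβ : b.eval t ≠ 0) : HasPD (Glt g j k h r a b) (dGt g j k h r a b t) t := by
  have e1 : ∀ i ∈ Finset.range (g.natDegree + 1), HasPD
      (fun u => C (g.coeff i * a.eval u ^ i * b.eval u ^ (g.natDegree - i)) * X ^ (k * i))
      (C ((i * ld a t + (g.natDegree - i) * ld b t) *
        (g.coeff i * a.eval t ^ i * b.eval t ^ (g.natDegree - i))) * X ^ (k * i)) t := by
    intro i hi
    have hi' : i ≤ g.natDegree := Nat.lt_succ_iff.1 (Finset.mem_range.1 hi)
    have h1 := ((hasDerivAt_eval_pow' a i hα).const_mul (g.coeff i)).mul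
      (hasDerivAt_eval_pow' b (g.natDegree - i) hβ)
    have h2 := (HasPD.C h1).mul (HasPD.const (X ^ (k * i)) t)
    have h3 : Polynomial.C (g.coeff i * (a.eval t ^ i * (i * ld a t)) *
        b.eval t ^ (g.natDegree - i) + g.coeff i * a.eval t ^ i *
        (b.eval t ^ (g.natDegree - i) * (((g.natDegree - i : ℕ) : ℂ) * ld b t))) * X ^ (k * i) +
        Polynomial.C (g.coeff i * a.eval t ^ i * b.eval t ^ (g.natDegree - i)) * 0 =
        C ((i * ld a t + (g.natDegree - i) * ld b t) *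
        (g.coeff i * a.eval t ^ i * b.eval t ^ (g.natDegree - i))) * X ^ (k * i) := by
      rw [mul_zero, add_zero, Nat.cast_sub hi']
      congr 2
      ring
    rw [← h3]
    exact h2
  have e2 := HasPD.sum _ e1
  have e3 := ((HasPD.C (hasDerivAt_et hη hr)).mul (HasPD.const (X ^ j) t)).mul e2
  have e4 : (C (et h r t * (ld h t - ld r t)) * X ^ j + C (et h r t) * 0) *
      (∑ i ∈ Finset.range (g.natDegree + 1),
        C (g.coeff i * a.eval t ^ i * b.eval t ^ (g.natDegree - i)) * X ^ (k * i)) +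
      C (et h r t) * X ^ j * (∑ i ∈ Finset.range (g.natDegree + 1),
        C ((i * ld a t + (g.natDegree - i) * ld b t) *
          (g.coeff i * a.eval t ^ i * b.eval t ^ (g.natDegree - i))) * X ^ (k * i)) =
      dGt g j k h r a b t := by
    have e5 : (∑ i ∈ Finset.range (g.natDegree + 1),
        C ((i * ld a t + (g.natDegree - i) * ld b t) *
          (g.coeff i * a.eval t ^ i * b.eval t ^ (g.natDegree - i))) * X ^ (k * i)) =
        C (g.natDegree * ld b t) * Hg g k (a.eval t) (b.eval t) +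
          C (ld a t - ld b t) * Hg1 g k (a.eval t) (b.eval t) := by
      rw [Hg, Hg1, Finset.mul_sum, Finset.mul_sum, ← Finset.sum_add_distrib]
      refine Finset.sum_congr rfl fun i _ => ?_
      obtain ⟨y, hy⟩ : ∃ y, g.coeff i * a.eval t ^ i * b.eval t ^ (g.natDegree - i) = y := ⟨_, rfl⟩
      rw [hy]
      simp only [C_mul, C_add, C_sub]
      ring
    rw [e5, dGt, Glt, Gl, Gl1, C_add, C_mul]
    change (C (et h r t) * C (ld h t - ld r t) * X ^ j + C (et h r t) * 0) *
      Hg g k (a.eval t) (b.eval t) + _ = _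
    ring
  rw [← e4]
  exact e3

theorem gpsi_deriv (hc : PenSys θ s g c) (hk : 0 < k) (hη : h.eval t ≠ 0) (hr : r.eval t ≠ 0)
    (hα : a.eval t ≠ 0) (hβ : b.eval t ≠ 0) (hθ : k * θ = 1 + s * j) (K i : ℕ) :
    HasDerivAt (fun u => gpsi c j k g.natDegree (et h r u) (a.eval u) (b.eval u) K i)
      ((s - K) * Gn c j k g.natDegree (et h r t) (a.eval t) (b.eval t) (K + 1) 0
        (dGt g j k h r a b t * monomial i 1) - omr s θ (g.natDegree * s + θ) h r a b t *
          gpsi c j k g.natDegree (et h r t) (a.eval t) (b.eval t) K i) t := by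
  have hkc : (k : ℂ) ≠ 0 := Nat.cast_ne_zero.2 hk.ne'
  have he := et_ne hη hr
  have e1 : dGt g j k h r a b t * monomial i 1 =
      (ld h t - ld r t + g.natDegree * ld b t) • (Gl g j k (et h r t) (a.eval t) (b.eval t) *
        monomial i 1) + (ld a t - ld b t) • (Gl1 g j k (et h r t) (a.eval t) (b.eval t) *
        monomial i 1) := by
    rw [dGt, Glt, smul_eq_C_mul, smul_eq_C_mul]
    ring
  have e2 := Gn_G_mon (j := j) hc hk he hα hβ K 0 i
  have e3 := Gn_G1_mon (j := j) hc hk he hα hβ hθ K 0 i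
  rw [add_zero] at e2 e3
  rw [e1, map_add, map_smul, map_smul, e2]
  simp only [smul_eq_mul]
  by_cases hd : (k : ℤ) ∣ (i : ℤ) - j * K
  · obtain ⟨q, hq⟩ := hd
    have h1 : ∀ t : ℂ, gpsi c j k g.natDegree (et h r t) (a.eval t) (b.eval t) K i =
        c q K * (et h r t ^ (-(K : ℤ)) * a.eval t ^ (-q) * b.eval t ^ (q - g.natDegree * K)) :=
      fun t => gpsi_of hk q (by linarith)
    have h5 : (i : ℂ) = k * q + j * K := by
      have : (i : ℤ) = k * q + j * K := by linarith
      exact_mod_cast congrArg (Int.cast : ℤ → ℂ) this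
    have h4 : (s - K) * Gn c j k g.natDegree (et h r t) (a.eval t) (b.eval t) (K + 1) 0
        (Gl1 g j k (et h r t) (a.eval t) (b.eval t) * monomial i 1) =
        -((q + θ) * gpsi c j k g.natDegree (et h r t) (a.eval t) (b.eval t) K i) := by
      refine mul_left_cancel₀ hkc ?_
      rw [e3, h5]
      push_cast
      linear_combination (gpsi c j k g.natDegree (et h r t) (a.eval t) (b.eval t) K i) * hθ
    have h8 : HasDerivAt (fun u => et h r u ^ (-(K : ℤ)))
        (et h r t ^ (-(K : ℤ)) * (-(K : ℤ) * (ld h t - ld r t))) t := by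
      have h9 := (hasDerivAt_zpow (-(K : ℤ)) (et h r t) (Or.inl he)).comp t
        (hasDerivAt_et (h := h) (r := r) hη hr)
      refine h9.congr_deriv ?_
      rw [zpow_sub_one₀ he]
      push_cast
      field_simp
    have h2 := (((h8.mul
      (hasDerivAt_eval_zpow a (-q) hα)).mul
      (hasDerivAt_eval_zpow b (q - g.natDegree * K) hβ)).const_mul (c q K))
    have h6 : (fun u => gpsi c j k g.natDegree (et h r u) (a.eval u) (b.eval u) K i) =
        fun t => c q K * (et h r t ^ (-(K : ℤ)) * a.eval t ^ (-q) *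
          b.eval t ^ (q - g.natDegree * K)) := funext h1
    rw [h6]
    refine h2.congr_deriv ?_
    have h7 : (s - K) * ((ld h t - ld r t + g.natDegree * ld b t) *
        gpsi c j k g.natDegree (et h r t) (a.eval t) (b.eval t) K i + (ld a t - ld b t) *
        Gn c j k g.natDegree (et h r t) (a.eval t) (b.eval t) (K + 1) 0
          (Gl1 g j k (et h r t) (a.eval t) (b.eval t) * monomial i 1)) =
        ((s - K) * (ld h t - ld r t + g.natDegree * ld b t) - (ld a t - ld b t) * (q + θ)) *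
        gpsi c j k g.natDegree (et h r t) (a.eval t) (b.eval t) K i := by
      linear_combination (ld a t - ld b t) * h4
    rw [h7, h1, omr]
    have hla : (derivative a).eval t * (a.eval t)⁻¹ = ld a t := rfl
    have hlb : (derivative b).eval t * (b.eval t)⁻¹ = ld b t := rfl
    simp only [Pi.mul_apply]
    rw [hla, hlb]
    push_cast
    ring
  · have h1 : (fun u : ℂ => gpsi c j k g.natDegree (et h r u) (a.eval u) (b.eval u) K i) =
        fun _ => 0 := funext fun t => gpsi_zero hd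
    rw [h1, gpsi_zero hd]
    have h4 : (s - K) * Gn c j k g.natDegree (et h r t) (a.eval t) (b.eval t) (K + 1) 0
        (Gl1 g j k (et h r t) (a.eval t) (b.eval t) * monomial i 1) = 0 := by
      refine mul_left_cancel₀ hkc ?_
      rw [e3, gpsi_zero hd]
      ring
    refine (hasDerivAt_const t (0 : ℂ)).congr_deriv ?_
    linear_combination -(ld a t - ld b t) * h4

/-- the derivative of the integral of a family -/
theorem Gn_deriv (hc : PenSys θ s g c) (hk : 0 < k) (hη : h.eval t ≠ 0) (hr : r.eval t ≠ 0)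
    (hα : a.eval t ≠ 0) (hβ : b.eval t ≠ 0) (hθ : k * θ = 1 + s * j) (K : ℕ) {Y : ℂ → ℂ[X]} {Y' : ℂ[X]}
    (hY : HasPD Y Y' t) :
    HasDerivAt (fun u => Gn c j k g.natDegree (et h r u) (a.eval u) (b.eval u) K 0 (Y u))
      (Gn c j k g.natDegree (et h r t) (a.eval t) (b.eval t) K 0 Y' + (s - K) *
        Gn c j k g.natDegree (et h r t) (a.eval t) (b.eval t) (K + 1) 0
          (dGt g j k h r a b t * Y t) - omr s θ (g.natDegree * s + θ) h r a b t *
          Gn c j k g.natDegree (et h r t) (a.eval t) (b.eval t) K 0 (Y t)) t := by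
  obtain ⟨N, hN⟩ := hY.bd
  have hN' := hY.natDegree_le hN
  have h1 : (fun u => Gn c j k g.natDegree (et h r u) (a.eval u) (b.eval u) K 0 (Y u)) =
      fun u => ∑ i ∈ Finset.range (N + 1), (Y u).coeff i *
        gpsi c j k g.natDegree (et h r u) (a.eval u) (b.eval u) K i := by
    funext u
    rw [lin_sum _ (hN u)]
    refine Finset.sum_congr rfl fun i _ => ?_
    rw [Gn_monomial, one_mul, add_zero]
  have h2 := HasDerivAt.fun_sum (u := Finset.range (N + 1)) fun i _ =>
    (hY.co i).fun_mul (gpsi_deriv (j := j) hc hk hη hr hα hβ hθ K i)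
  rw [h1]
  refine h2.congr_deriv ?_
  rw [lin_sum (Gn c j k g.natDegree (et h r t) (a.eval t) (b.eval t) K 0) hN',
    lin_sum (Gn c j k g.natDegree (et h r t) (a.eval t) (b.eval t) K 0) (hN t)]
  have h3 := lin_sum ((Gn c j k g.natDegree (et h r t) (a.eval t) (b.eval t) (K + 1) 0).comp
    (LinearMap.mulLeft ℂ (dGt g j k h r a b t))) (hN t)
  simp only [LinearMap.comp_apply, LinearMap.mulLeft_apply] at h3
  rw [h3, Finset.mul_sum, Finset.mul_sum, ← Finset.sum_add_distrib, ← Finset.sum_sub_distrib]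
  refine Finset.sum_congr rfl fun i _ => ?_
  rw [Gn_monomial, add_zero]
  ring

end Pool.Agent.Helper748.MC
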