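import Pool.Agent.helper748_mc.Iso4

set_option autoImplicit false
set_option linter.unusedSectionVars false

/-! # The coordinate `L = l x₂ + m` on the lines through `(0 : 0 : 1)` -/

namespace Pool.Agent.Helper748.MC

open Polynomial Filter Topology

section Mv

open MvPolynomial

/-- the substitution `x₀ = t`, `x₁ = 1`, `x₂ = (X - m) / l` -/
noncomputable def evL (l m : ℂ[X]) (t : ℂ) : MvPolynomial (Fin 3) ℂ →ₐ[ℂ] ℂ[X] :=
  aeval ![Polynomial.C t, 1, Polynomial.C (l.eval t)⁻¹ * (Polynomial.X - Polynomial.C (m.eval t))]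

theorem evL_X0 (l m : ℂ[X]) (t : ℂ) : evL l m t (X 0) = Polynomial.C t := by simp [evL]

theorem evL_X1 (l m : ℂ[X]) (t : ℂ) : evL l m t (X 1) = 1 := by simp [evL]

theorem evL_X2 (l m : ℂ[X]) (t : ℂ) : evL l m t (X 2) =
    Polynomial.C (l.eval t)⁻¹ * (Polynomial.X - Polynomial.C (m.eval t)) := by simp [evL]

theorem evL_C (l m : ℂ[X]) (t x : ℂ) : evL l m t (MvPolynomial.C x) = Polynomial.C x := by
  rw [evL, MvPolynomial.aeval_C]; rfl

theorem evL_ren (l m : ℂ[X]) (t : ℂ) (p : MvPolynomial (Fin 2) ℂ) :
    evL l m t (rename Fin.castSucc p) = Polynomial.C ((binPoly p).eval t) := by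
  induction p using MvPolynomial.induction_on with
  | C x => simp [evL, binPoly]
  | add p q hp hq => rw [map_add, map_add, hp, hq, map_add, Polynomial.eval_add, Polynomial.C_add]
  | mul_X p i hp =>
    rw [map_mul, map_mul, hp, map_mul, rename_X, Polynomial.eval_mul, Polynomial.C_mul]
    congr 1
    fin_cases i
    · simp [evL, binPoly]
    · simp [evL, binPoly]

/-- the derivative of `(X - m) / l` with respect to `t` -/
noncomputable def xiL (l m : ℂ[X]) (t : ℂ) : ℂ[X] :=
  Polynomial.C (-(Polynomial.derivative l).eval t / l.eval t ^ 2) *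
    (Polynomial.X - Polynomial.C (m.eval t)) +
  Polynomial.C (l.eval t)⁻¹ * (0 - Polynomial.C ((Polynomial.derivative m).eval t))

theorem hasPD_evL {l m : ℂ[X]} {t : ℂ} (hl : l.eval t ≠ 0) (P : MvPolynomial (Fin 3) ℂ) :
    HasPD (fun u => evL l m u P) (evL l m t (pderiv 0 P) + xiL l m t * evL l m t (pderiv 2 P)) t := by
  induction P using MvPolynomial.induction_on with
  | C x =>
    simp only [pderiv_C, map_zero, mul_zero, add_zero, evL_C]
    exact HasPD.const _ t
  | add P Q hP hQ =>
    simp only [map_add]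
    have := hP.add hQ
    have e : evL l m t (pderiv 0 P) + xiL l m t * evL l m t (pderiv 2 P) +
        (evL l m t (pderiv 0 Q) + xiL l m t * evL l m t (pderiv 2 Q)) =
        evL l m t (pderiv 0 P) + evL l m t (pderiv 0 Q) +
          xiL l m t * (evL l m t (pderiv 2 P) + evL l m t (pderiv 2 Q)) := by ring
    rw [← e]
    exact this
  | mul_X P i hP =>
    simp only [map_mul, Derivation.leibniz, map_add, smul_eq_mul]
    have hx : HasPD (fun u => evL l m u (X i))
        (evL l m t (pderiv 0 (X i)) + xiL l m t * evL l m t (pderiv 2 (X i))) t := by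
      fin_cases i
      · change HasPD (fun u => evL l m u (X 0))
          (evL l m t (pderiv 0 (X 0)) + xiL l m t * evL l m t (pderiv 2 (X 0))) t
        simp only [evL_X0]
        rw [pderiv_X_self, pderiv_X_of_ne (by decide), map_one, map_zero, mul_zero, add_zero,
          ← Polynomial.C_1]
        exact HasPD.C (hasDerivAt_id t)
      · change HasPD (fun u => evL l m u (X 1))
          (evL l m t (pderiv 0 (X 1)) + xiL l m t * evL l m t (pderiv 2 (X 1))) t
        simp only [evL_X1]
        rw [pderiv_X_of_ne (by decide), pderiv_X_of_ne (by decide), map_zero, mul_zero, add_zero]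
        exact HasPD.const _ t
      · change HasPD (fun u => evL l m u (X 2))
          (evL l m t (pderiv 0 (X 2)) + xiL l m t * evL l m t (pderiv 2 (X 2))) t
        simp only [evL_X2]
        rw [pderiv_X_self, pderiv_X_of_ne (by decide), map_one, map_zero, mul_one, zero_add]
        have h1 := HasPD.C ((l.hasDerivAt t).inv hl)
        have h2 : HasPD (fun u => Polynomial.X - Polynomial.C (m.eval u))
            (0 - Polynomial.C ((Polynomial.derivative m).eval t)) t := by
          have h3 := (HasPD.const Polynomial.X t).add (HasPD.C ((m.hasDerivAt t).neg))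
          have e1 : (fun u => Polynomial.X + Polynomial.C (-m.eval u)) =
              fun u => Polynomial.X - Polynomial.C (m.eval u) := by
            funext u
            rw [Polynomial.C_neg, sub_eq_add_neg]
          have h4 : HasPD (fun u => Polynomial.X + Polynomial.C (-m.eval u))
              (0 + Polynomial.C (-(Polynomial.derivative m).eval t)) t := h3
          rw [e1, Polynomial.C_neg, ← sub_eq_add_neg] at h4
          exact h4
        exact h1.mul h2
    have h1 := hP.mul hx
    have e : (evL l m t (pderiv 0 P) + xiL l m t * evL l m t (pderiv 2 P)) * evL l m t (X i) +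
        evL l m t P * (evL l m t (pderiv 0 (X i)) + xiL l m t * evL l m t (pderiv 2 (X i))) =
        evL l m t P * evL l m t (pderiv 0 (X i)) + evL l m t (X i) * evL l m t (pderiv 0 P) +
        xiL l m t * (evL l m t P * evL l m t (pderiv 2 (X i)) +
          evL l m t (X i) * evL l m t (pderiv 2 P)) := by ring
    rw [← e]
    exact h1

theorem evL_deriv {l m : ℂ[X]} {t : ℂ} (P : MvPolynomial (Fin 3) ℂ) :
    Polynomial.derivative (evL l m t P) = Polynomial.C (l.eval t)⁻¹ * evL l m t (pderiv 2 P) := by
  induction P using MvPolynomial.induction_on with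
  | C x => rw [pderiv_C, map_zero, mul_zero, evL_C, Polynomial.derivative_C]
  | add P Q hP hQ => rw [map_add, map_add, map_add, map_add, hP, hQ]; ring
  | mul_X P i hP =>
    have hx : Polynomial.derivative (evL l m t (X i)) =
        Polynomial.C (l.eval t)⁻¹ * evL l m t (pderiv 2 (X i)) := by
      fin_cases i
      · change Polynomial.derivative (evL l m t (X 0)) = _ * evL l m t (pderiv 2 (X 0))
        rw [evL_X0, pderiv_X_of_ne (by decide), map_zero, mul_zero, Polynomial.derivative_C]
      · change Polynomial.derivative (evL l m t (X 1)) = _ * evL l m t (pderiv 2 (X 1))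
        rw [evL_X1, pderiv_X_of_ne (by decide), map_zero, mul_zero, Polynomial.derivative_one]
      · change Polynomial.derivative (evL l m t (X 2)) = _ * evL l m t (pderiv 2 (X 2))
        rw [evL_X2, pderiv_X_self, map_one, mul_one, Polynomial.derivative_C_mul]
        simp
    rw [map_mul (evL l m t), Derivation.leibniz, map_add (evL l m t), smul_eq_mul, smul_eq_mul,
      map_mul (evL l m t), map_mul (evL l m t), Polynomial.derivative_mul, hP, hx]
    ring

/-- the integral of `P` -/
noncomputable def zL (c : ℤ → ℕ → ℂ) (j k n : ℕ) (h r a b l m : ℂ[X]) (K : ℕ) (e : ℤ)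
    (P : MvPolynomial (Fin 3) ℂ) (t : ℂ) : ℂ :=
  Gn c j k n (et h r t) (a.eval t) (b.eval t) K e (evL l m t P)

theorem zL_poly {c : ℤ → ℕ → ℂ} {j k n : ℕ} {h r a b l m : ℂ[X]} (hk : 0 < k) (K : ℕ)
    (P : MvPolynomial (Fin 3) ℂ) : ∀ e : ℤ,
    ∃ (M : ℕ) (κ : ℂ[X]), ∀ t : ℂ, (h * r * a * b * l).eval t ≠ 0 →
      κ.eval t = (h * r * a * b * l).eval t ^ M * zL c j k n h r a b l m K e P t := by
  induction P using MvPolynomial.induction_on with
  | C x =>
    intro e
    by_cases hd : (k : ℤ) ∣ e - j * K
    · obtain ⟨q, hq⟩ := hd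
      set M := K + q.natAbs + n * K with hM
      refine ⟨M, Polynomial.C (x * c q K) * h ^ ((M : ℤ) - K).toNat * r ^ (M + K) *
        a ^ ((M : ℤ) - q).toNat * b ^ ((M : ℤ) + q - n * K).toNat * l ^ M, fun t ht => ?_⟩
      rw [Polynomial.eval_mul, Polynomial.eval_mul, Polynomial.eval_mul, Polynomial.eval_mul] at ht
      have h4 := right_ne_zero_of_mul ht
      have ht := left_ne_zero_of_mul ht
      have h1 := left_ne_zero_of_mul (left_ne_zero_of_mul (left_ne_zero_of_mul ht))
      have h5 := right_ne_zero_of_mul (left_ne_zero_of_mul (left_ne_zero_of_mul ht))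
      have h2 := right_ne_zero_of_mul (left_ne_zero_of_mul ht)
      have h3 := right_ne_zero_of_mul ht
      have hnK : (0 : ℤ) ≤ (n : ℤ) * K := by positivity
      have hK0 : (0 : ℤ) ≤ (K : ℤ) := by positivity
      have hq1 := abs_nonneg q
      have hq2 := le_abs_self q
      have hq3 := neg_abs_le q
      have k1 : (0 : ℤ) ≤ (M : ℤ) - K := by rw [hM]; push_cast; linarith
      have k2 : (0 : ℤ) ≤ (M : ℤ) - q := by rw [hM]; push_cast; linarith
      have k3 : (0 : ℤ) ≤ (M : ℤ) + q - n * K := by rw [hM]; push_cast; linarith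
      have z1 : ∀ (y : ℂ) (m : ℤ), 0 ≤ m → y ^ m.toNat = y ^ m := by
        intro y m hm
        rw [← zpow_natCast, Int.toNat_of_nonneg hm]
      have e1 : (Polynomial.C x : ℂ[X]) = Polynomial.monomial 0 x := rfl
      rw [zL, evL_C, e1, Gn_monomial, gpsi_of hk q (by push_cast; linarith)]
      simp only [Polynomial.eval_mul, Polynomial.eval_pow, Polynomial.eval_C]
      have e2 : et h r t ^ (-(K : ℤ)) = Polynomial.eval t h ^ (-(K : ℤ)) *
          Polynomial.eval t r ^ K := by
        rw [et, mul_zpow, inv_zpow', neg_neg, zpow_natCast]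
      rw [z1 _ _ k1, z1 _ _ k2, z1 _ _ k3, mul_pow, mul_pow, mul_pow, mul_pow, e2, pow_add,
        ← zpow_natCast (Polynomial.eval t h), ← zpow_natCast (Polynomial.eval t a),
        ← zpow_natCast (Polynomial.eval t b), zpow_sub₀ h1, zpow_sub₀ h2, zpow_sub₀ h3,
        zpow_add₀ h3, zpow_sub₀ h3, zpow_neg, zpow_neg]
      field_simp
    · refine ⟨0, 0, fun t _ => ?_⟩
      have e1 : (Polynomial.C x : ℂ[X]) = Polynomial.monomial 0 x := rfl
      rw [zL, evL_C, e1, Gn_monomial, gpsi_zero (by simpa using hd), mul_zero, mul_zero,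
        Polynomial.eval_zero]
  | add P Q hP hQ =>
    intro e
    obtain ⟨M1, κ1, h1⟩ := hP e
    obtain ⟨M2, κ2, h2⟩ := hQ e
    refine ⟨M1 + M2, (h * r * a * b * l) ^ M2 * κ1 + (h * r * a * b * l) ^ M1 * κ2, fun t ht => ?_⟩
    have e1 : zL c j k n h r a b l m K e (P + Q) t = zL c j k n h r a b l m K e P t +
        zL c j k n h r a b l m K e Q t := by
      rw [zL, map_add, map_add]; rfl
    rw [e1, Polynomial.eval_add, Polynomial.eval_mul, Polynomial.eval_mul,
      Polynomial.eval_pow, Polynomial.eval_pow, h1 t ht, h2 t ht]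
    ring
  | mul_X P i hP =>
    intro e
    fin_cases i
    · obtain ⟨M, κ, h1⟩ := hP e
      refine ⟨M, Polynomial.X * κ, fun t ht => ?_⟩
      change _ = _ * zL c j k n h r a b l m K e (P * X 0) t
      rw [zL, map_mul, evL_X0, mul_comm (evL l m t P), ← Polynomial.smul_eq_C_mul, map_smul, smul_eq_mul,
        Polynomial.eval_mul, Polynomial.eval_X, h1 t ht, zL]
      ring
    · obtain ⟨M, κ, h1⟩ := hP e
      refine ⟨M, κ, fun t ht => ?_⟩
      change _ = _ * zL c j k n h r a b l m K e (P * X 1) t
      rw [zL, map_mul, evL_X1, mul_one, h1 t ht, zL]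
    · obtain ⟨M1, κ1, h1⟩ := hP (e + 1)
      obtain ⟨M2, κ2, h2⟩ := hP e
      refine ⟨M1 + M2 + 1, h * r * a * b * ((h * r * a * b * l) ^ M2 * κ1 -
        m * (h * r * a * b * l) ^ M1 * κ2), fun t ht => ?_⟩
      change _ = _ * zL c j k n h r a b l m K e (P * X 2) t
      have hl : l.eval t ≠ 0 := by
        rw [Polynomial.eval_mul] at ht
        exact right_ne_zero_of_mul ht
      have e1 : zL c j k n h r a b l m K e (P * X 2) t = (l.eval t)⁻¹ *
          (zL c j k n h r a b l m K (e + 1) P t - m.eval t * zL c j k n h r a b l m K e P t) := by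
        have e2 : evL l m t P * (Polynomial.C (l.eval t)⁻¹ *
            (Polynomial.X - Polynomial.C (m.eval t))) =
            (l.eval t)⁻¹ • (Polynomial.X * evL l m t P - m.eval t • evL l m t P) := by
          rw [Polynomial.smul_eq_C_mul, Polynomial.smul_eq_C_mul]; ring
        rw [zL, map_mul, evL_X2, e2, map_smul, map_sub, map_smul, Gn_X]
        rfl
      rw [e1]
      have h1' := h1 t ht
      have h2' := h2 t ht
      simp only [Polynomial.eval_mul, Polynomial.eval_sub, Polynomial.eval_pow] at h1' h2' ⊢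
      rw [h1', h2']
      field_simp
      ring

end Mv

end Pool.Agent.Helper748.MC
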