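import Pool.Agent.helper748_mc.Iso5

set_option autoImplicit false
set_option linter.unusedSectionVars false

/-! # Products of powers of polynomials, and the count of zeros -/

namespace Pool.Agent.Helper748.MC

open Polynomial

/-- `v / w` is the logarithmic derivative of a product of powers with the exponents `e t` at the
points `t`, with the sum `E`. -/
structure LogF (w v : ℂ[X]) (e : ℂ → ℚ) (E : ℚ) : Prop where
  ne : w ≠ 0
  dg : (X * v).natDegree ≤ w.natDegree
  lc : (X * v).coeff w.natDegree = E * w.leadingCoeff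
  res : ∀ t : ℂ, ∃ w1 v1 : ℂ[X], w = (X - C t) ^ w.rootMultiplicity t * w1 ∧ w1.eval t ≠ 0 ∧
    (X - C t) * v = (X - C t) ^ w.rootMultiplicity t * (C (e t : ℂ) * w1 + (X - C t) * v1)
  sm : ∀ T : Finset ℂ, (∀ t ∈ w.roots, t ∈ T) → ∑ t ∈ T, e t = E

theorem LogF.base {p : ℂ[X]} (hp : p ≠ 0) (ε : ℚ) :
    LogF p (C (ε : ℂ) * derivative p) (fun t => ε * p.rootMultiplicity t) (ε * p.natDegree) := by
  have hX : (X * derivative p).natDegree ≤ p.natDegree := by
    rcases Nat.eq_zero_or_pos p.natDegree with h0 | h0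
    · rw [derivative_of_natDegree_zero h0, mul_zero, natDegree_zero]
      exact Nat.zero_le _
    · refine natDegree_mul_le.trans ?_
      rw [natDegree_X]
      have := natDegree_derivative_le p
      omega
  have hXc : (X * derivative p).coeff p.natDegree = p.natDegree * p.leadingCoeff := by
    rcases hn : p.natDegree with _ | n
    · simp
    · rw [coeff_X_mul, coeff_derivative, leadingCoeff, hn]
      push_cast
      ring
  have e0 : X * (C (ε : ℂ) * derivative p) = C (ε : ℂ) * (X * derivative p) := by ring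
  refine ⟨hp, ?_, ?_, fun t => ?_, fun T hT => ?_⟩
  · rw [e0]
    exact (natDegree_C_mul_le _ _).trans hX
  · rw [e0, coeff_C_mul, hXc]
    push_cast
    ring
  · obtain ⟨p1, hp1, hp1'⟩ := exists_eq_pow_rootMultiplicity_mul_and_not_dvd p hp t
    rw [dvd_iff_isRoot, IsRoot.def] at hp1'
    refine ⟨p1, C (ε : ℂ) * derivative p1, hp1, hp1', ?_⟩
    set n := p.rootMultiplicity t
    have hu1 : derivative (X - C t) = 1 := by simp
    have h1 : (X - C t) * derivative p = (X - C t) ^ n * (C (n : ℂ) * p1 + (X - C t) *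
        derivative p1) := by
      conv_lhs => rw [hp1]
      rw [derivative_mul, derivative_pow, hu1]
      rcases n with _ | n
      · simp
      · simp only [Nat.add_sub_cancel]
        ring
    have h2 : (C (((ε * n : ℚ)) : ℂ) : ℂ[X]) = C (ε : ℂ) * C (n : ℂ) := by
      rw [← C_mul]; congr 1; push_cast; ring
    rw [h2]
    linear_combination (C (ε : ℂ)) * h1
  · rw [← Finset.mul_sum, ← Nat.cast_sum, sum_mult_eq T p hT]

theorem LogF.mul {w1 v1 w2 v2 : ℂ[X]} {e1 e2 : ℂ → ℚ} {E1 E2 : ℚ} (h1 : LogF w1 v1 e1 E1)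
    (h2 : LogF w2 v2 e2 E2) :
    LogF (w1 * w2) (v1 * w2 + w1 * v2) (fun t => e1 t + e2 t) (E1 + E2) := by
  have hne : w1 * w2 ≠ 0 := mul_ne_zero h1.ne h2.ne
  have hd : (w1 * w2).natDegree = w1.natDegree + w2.natDegree := natDegree_mul h1.ne h2.ne
  have e0 : X * (v1 * w2 + w1 * v2) = (X * v1) * w2 + w1 * (X * v2) := by ring
  refine ⟨hne, ?_, ?_, fun t => ?_, fun T hT => ?_⟩
  · rw [e0, hd]
    exact (natDegree_add_le _ _).trans (max_le (natDegree_mul_le.trans (add_le_add h1.dg le_rfl))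
      (natDegree_mul_le.trans (add_le_add le_rfl h2.dg)))
  · rw [e0, hd, leadingCoeff_mul, coeff_add, coeff_mul_add_eq_of_natDegree_le h1.dg le_rfl,
      coeff_mul_add_eq_of_natDegree_le le_rfl h2.dg, h1.lc, h2.lc]
    have i1 : w1.coeff w1.natDegree = w1.leadingCoeff := rfl
    have i2 : w2.coeff w2.natDegree = w2.leadingCoeff := rfl
    rw [i1, i2]
    push_cast
    ring
  · obtain ⟨a1, b1, ha1, ha1', hb1⟩ := h1.res t
    obtain ⟨a2, b2, ha2, ha2', hb2⟩ := h2.res t
    refine ⟨a1 * a2, b1 * a2 + a1 * b2, ?_, ?_, ?_⟩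
    · rw [rootMultiplicity_mul hne, pow_add]
      conv_lhs => rw [ha1, ha2]
      ring
    · rw [eval_mul]
      exact mul_ne_zero ha1' ha2'
    · rw [rootMultiplicity_mul hne, pow_add]
      have h3 : (X - C t) * (v1 * w2 + w1 * v2) = ((X - C t) * v1) * w2 + w1 * ((X - C t) * v2) := by
        ring
      rw [h3, hb1, hb2]
      have h4 : (C (((e1 t + e2 t : ℚ)) : ℂ) : ℂ[X]) = C (e1 t : ℂ) + C (e2 t : ℂ) := by
        rw [← C_add]; congr 1; push_cast; ring
      rw [h4]
      set n1 := w1.rootMultiplicity t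
      set n2 := w2.rootMultiplicity t
      conv_lhs => rw [ha1, ha2]
      ring
  · rw [roots_mul hne] at hT
    rw [Finset.sum_add_distrib, h1.sm T fun t ht => hT t (Multiset.mem_add.2 (Or.inl ht)),
      h2.sm T fun t ht => hT t (Multiset.mem_add.2 (Or.inr ht))]

open Classical in
/-- The number of the roots of `w` is greater than `2` plus the sum of `1 + e t` over those roots
`t` of `w` at which `e t` is a natural number. -/
def CPos (w : ℂ[X]) (e : ℂ → ℚ) : Prop :=
  2 + ∑ t ∈ w.roots.toFinset with ∃ n : ℕ, e t = n, (1 + e t) < w.roots.toFinset.card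

theorem ode_count_gen {w v κ : ℂ[X]} {e : ℂ → ℚ} {M : ℕ} {γ : ℂ} (hγ : γ ≠ 0)
    (hl : LogF w v e (-2)) (hpos : CPos w e)
    (hE : C γ * w ^ (M + 1) = w * derivative κ + (v - C (M : ℂ) * derivative w) * κ) : False := by
  classical
  have hw0 := hl.ne
  have hκ : κ ≠ 0 := by
    rintro rfl
    rw [derivative_zero, mul_zero, mul_zero, add_zero] at hE
    exact mul_ne_zero (C_ne_zero.2 hγ) (pow_ne_zero _ hw0) hE
  have hkd := ode_deg hw0 hκ hl.dg (by rw [hl.lc]; push_cast; ring) hE
  set T := w.roots.toFinset with hT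
  have hTT : ∀ t ∈ w.roots, t ∈ T := fun t ht => Multiset.mem_toFinset.2 ht
  have sw := sum_mult_eq T w hTT
  have sk := sum_mult_le T κ
  have swq : ∑ t ∈ T, (w.rootMultiplicity t : ℚ) = w.natDegree := by rw [← Nat.cast_sum, sw]
  have skq : ∑ t ∈ T, (κ.rootMultiplicity t : ℚ) ≤ M * w.natDegree + 2 := by
    rw [← Nat.cast_sum]
    exact_mod_cast sk.trans hkd
  have hloc : ∀ t ∈ T, (M : ℚ) * w.rootMultiplicity t - e t +
      (if (∀ n : ℕ, e t ≠ n) then 1 + e t else 0) ≤ κ.rootMultiplicity t := by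
    intro t _
    obtain ⟨w1, v1, hwe, hw1, hve⟩ := hl.res t
    have key := ord_ode t (w1 := w1) (v1 := v1) (e := ((e t : ℚ) : ℂ)) hγ hκ hwe hw1 hve hE
    by_cases he : ∀ n : ℕ, e t ≠ n
    · rw [if_pos he]
      rcases key with h1 | ⟨n, hn, _⟩
      · rw [h1]
        push_cast
        linarith
      · exfalso
        exact he n (by exact_mod_cast hn)
    · rw [if_neg he]
      push Not at he
      obtain ⟨n, hn⟩ := he
      rcases key with h1 | ⟨n', hn', h1⟩
      · have h3 : (0 : ℚ) ≤ n := Nat.cast_nonneg n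
        rw [h1, hn]
        push_cast
        linarith
      · have h2 : (κ.rootMultiplicity t : ℚ) = (M : ℚ) * w.rootMultiplicity t - n' := by
          exact_mod_cast h1
        have h4 : e t = n' := by exact_mod_cast hn'
        rw [h2, h4]
        linarith
  have hsum' := Finset.sum_le_sum hloc
  rw [Finset.sum_add_distrib, Finset.sum_sub_distrib, ← Finset.mul_sum, swq,
    ← Finset.sum_filter] at hsum'
  have hq : ∑ t ∈ T, e t = -2 := hl.sm T hTT
  rw [hq] at hsum'
  have hpos' : 2 + ∑ t ∈ T with ∃ n : ℕ, e t = n, (1 + e t) < T.card := hpos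
  have hsplit := Finset.sum_filter_add_sum_filter_not T (fun t => ∃ n : ℕ, e t = n)
    (fun t => 1 + e t)
  rw [Finset.sum_add_distrib (s := T), hq, Finset.sum_const, nsmul_eq_mul, mul_one] at hsplit
  have hnot : ∑ t ∈ T with ¬ ∃ n : ℕ, e t = n, (1 + e t) =
      ∑ t ∈ T with ∀ n : ℕ, e t ≠ n, (1 + e t) := by
    refine Finset.sum_congr (Finset.filter_congr fun t _ => ?_) fun _ _ => rfl
    push Not
    rfl
  rw [hnot] at hsplit
  linarith [hsum', skq, hpos', hsplit]

end Pool.Agent.Helper748.MC
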