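import Pool.Agent.helper748_mc.Iso6

set_option autoImplicit false
set_option linter.unusedSectionVars false

/-! # The differential equation for the integral over the lines through `(0 : 0 : 1)` -/

namespace Pool.Agent.Helper748.MC

open Polynomial Filter Topology

/-- the numerator of the logarithmic derivative of `(h / r) ^ s a ^ (-θ) b ^ μ l ^ (-1)` -/
noncomputable def vL (s θ μ : ℂ) (h r a b l : ℂ[X]) : ℂ[X] :=
  (((C s * derivative h * r + h * (C (-s) * derivative r)) * a +
    h * r * (C (-θ) * derivative a)) * b + h * r * a * (C μ * derivative b)) * l +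
    h * r * a * b * (C (-1) * derivative l)

theorem logF_vL {h r a b l : ℂ[X]} (hh : h ≠ 0) (hr : r ≠ 0) (ha : a ≠ 0) (hb : b ≠ 0)
    (hl : l ≠ 0) (s θ μ : ℚ) :
    LogF (h * r * a * b * l) (vL s θ μ h r a b l)
      (fun t => s * h.rootMultiplicity t + -s * r.rootMultiplicity t +
        -θ * a.rootMultiplicity t + μ * b.rootMultiplicity t + -1 * l.rootMultiplicity t)
      (s * h.natDegree + -s * r.natDegree + -θ * a.natDegree + μ * b.natDegree +
        -1 * l.natDegree) := by
  have h1 := ((((LogF.base hh s).mul (LogF.base hr (-s))).mul (LogF.base ha (-θ))).mul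
    (LogF.base hb μ)).mul (LogF.base hl (-1))
  push_cast at h1
  exact h1

section Eq

open MvPolynomial

variable {θ s : ℂ} {g : ℂ[X]} {c : ℤ → ℕ → ℂ} {j k : ℕ} {h r a b l m : ℂ[X]} {t : ℂ}

theorem zL_deriv (hc : PenSys θ s g c) (hk : 0 < k) (hη : h.eval t ≠ 0) (hr : r.eval t ≠ 0)
    (hα : a.eval t ≠ 0) (hβ : b.eval t ≠ 0) (hl : l.eval t ≠ 0) (hθ : k * θ = 1 + s * j) (K : ℕ)
    {P Q G : MvPolynomial (Fin 3) ℂ}
    (hG : ∀ t : ℂ, r.eval t ≠ 0 → l.eval t ≠ 0 → evL l m t G = Glt g j k h r a b t)
    (hEq : X 1 * G ^ (K + 1) = G * (pderiv 0 P + pderiv 2 Q) +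
        MvPolynomial.C (s - K) * (pderiv 0 G * P + pderiv 2 G * Q)) :
    HasDerivAt (zL c j k g.natDegree h r a b l m K 0 P)
      (c 0 0 - (omr s θ (g.natDegree * s + θ) h r a b t - ld l t) *
        zL c j k g.natDegree h r a b l m K 0 P t) t := by
  have he := et_ne hη hr
  have h1 := Gn_deriv (j := j) hc hk hη hr hα hβ hθ K (hasPD_evL (l := l) (m := m) hl P)
  refine h1.congr_deriv ?_
  -- the derivative of `G`
  have hdG : evL l m t (pderiv 0 G) + xiL l m t * evL l m t (pderiv 2 G) =
      dGt g j k h r a b t := by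
    refine (hasPD_evL (l := l) (m := m) hl G).unique (hasPD_Glt hη hr hα hβ) ?_
    have hop : IsOpen {t : ℂ | l.eval t ≠ 0} := isOpen_ne_fun l.continuous continuous_const
    have hop' : IsOpen {t : ℂ | r.eval t ≠ 0} := isOpen_ne_fun r.continuous continuous_const
    filter_upwards [hop.mem_nhds hl, hop'.mem_nhds hr] with u hu hu'
    exact hG u hu' hu
  have hGt := hG t hr hl
  have e1 := congrArg (evL l m t) hEq
  rw [map_add, map_mul, map_mul, map_mul, map_add, map_add, map_pow, map_mul, map_mul, evL_X1,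
    evL_C, hGt, one_mul] at e1
  set Gt := Glt g j k h r a b t with hGtd
  set p := evL l m t P with hp
  set q := evL l m t Q with hq
  set ξ := xiL l m t with hξ
  have hCl : (Polynomial.C (l.eval t) : ℂ[X]) * Polynomial.C (l.eval t)⁻¹ = 1 := by
    rw [← Polynomial.C_mul, mul_inv_cancel₀ hl, Polynomial.C_1]
  have d2P : evL l m t (pderiv 2 P) = Polynomial.C (l.eval t) * Polynomial.derivative p := by
    rw [hp, evL_deriv, ← mul_assoc, hCl, one_mul]
  have d2Q : evL l m t (pderiv 2 Q) = Polynomial.C (l.eval t) * Polynomial.derivative q := by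
    rw [hq, evL_deriv, ← mul_assoc, hCl, one_mul]
  have d2G : evL l m t (pderiv 2 G) = Polynomial.C (l.eval t) * Polynomial.derivative Gt := by
    rw [← hGt, evL_deriv, ← mul_assoc, hCl, one_mul]
  set Dp := evL l m t (pderiv 0 P) + ξ * evL l m t (pderiv 2 P) with hDp
  have dξ : Polynomial.C (l.eval t) * Polynomial.derivative ξ = Polynomial.C (-ld l t) := by
    rw [hξ, xiL]
    simp only [Polynomial.derivative_add, Polynomial.derivative_C_mul, Polynomial.derivative_sub,
      Polynomial.derivative_X, Polynomial.derivative_C, Polynomial.derivative_zero, sub_zero,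
      mul_zero, add_zero, mul_one]
    rw [← Polynomial.C_mul, ld]
    congr 1
    field_simp
  set R := Polynomial.C (l.eval t) * q - Polynomial.C (l.eval t) * ξ * p with hR
  have key : Gt ^ (K + 1) * 1 = Gt * Dp + (s - K) • (dGt g j k h r a b t * p) +
      (Gt * Polynomial.derivative R + Polynomial.C (s - K) *
        (Polynomial.derivative Gt * R)) + (ld l t) • (-(Gt * p)) := by
    rw [mul_one, e1]
    have dR : Polynomial.derivative R = Polynomial.C (l.eval t) * Polynomial.derivative q -
        (Polynomial.C (-ld l t) * p + Polynomial.C (l.eval t) * ξ * Polynomial.derivative p) := by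
      rw [hR, Polynomial.derivative_sub, Polynomial.derivative_C_mul, Polynomial.derivative_mul,
        Polynomial.derivative_C_mul, ← dξ]
    rw [dR, ← hdG, d2G, d2Q, Polynomial.smul_eq_C_mul, Polynomial.smul_eq_C_mul, hDp, d2P, hR,
      Polynomial.C_neg]
    ring
  have e2 := congrArg (Gn c j k g.natDegree (et h r t) (a.eval t) (b.eval t) (K + 1) 0) key
  rw [map_add, map_add, map_add, map_smul, map_smul, map_neg] at e2
  have e3 := Gn_Gpow (j := j) hc hk he hα hβ (K + 1) 0 1
  have e4 := Gn_G (j := j) hc hk he hα hβ K 0 Dp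
  have e5 := Gn_G (j := j) hc hk he hα hβ K 0 p
  have e6 := Gn_exact (j := j) hc hk he hα hβ hθ K R
  have e7 : Gn c j k g.natDegree (et h r t) (a.eval t) (b.eval t) 0 0 1 = c 0 0 := by
    rw [← Polynomial.monomial_zero_one, Gn_monomial, gpsi_of hk 0 (by simp)]
    simp
  change Gn c j k g.natDegree _ _ _ (K + 1) 0 (Gt ^ (K + 1) * 1) = _ at e3
  change Gn c j k g.natDegree _ _ _ (K + 1) 0 (Gt * Dp) = _ at e4
  change Gn c j k g.natDegree _ _ _ (K + 1) 0 (Gt * p) = _ at e5
  change Gn c j k g.natDegree _ _ _ (K + 1) 0 (Gt * Polynomial.derivative R +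
    Polynomial.C (s - K) * (Polynomial.derivative Gt * R)) = 0 at e6
  rw [e3, e4, e5, e6, e7] at e2
  simp only [smul_eq_mul] at e2
  have e8 : zL c j k g.natDegree h r a b l m K 0 P t =
    Gn c j k g.natDegree (et h r t) (a.eval t) (b.eval t) K 0 p := rfl
  rw [e8, e2]
  ring

theorem iso_eq (hc : PenSys θ s g c) (hk : 0 < k) (hθ : k * θ = 1 + s * j)
    (hw : h * r * a * b * l ≠ 0) {K : ℕ} {P Q G : MvPolynomial (Fin 3) ℂ}
    (hG : ∀ t : ℂ, r.eval t ≠ 0 → l.eval t ≠ 0 → evL l m t G = Glt g j k h r a b t)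
    (hEq : X 1 * G ^ (K + 1) = G * (pderiv 0 P + pderiv 2 Q) +
        MvPolynomial.C (s - K) * (pderiv 0 G * P + pderiv 2 G * Q)) :
    ∃ (M : ℕ) (κ : Polynomial ℂ),
      Polynomial.C (c 0 0) * (h * r * a * b * l) ^ (M + 1) =
        (h * r * a * b * l) * Polynomial.derivative κ +
        (vL s θ (g.natDegree * s + θ) h r a b l - Polynomial.C (M : ℂ) *
          Polynomial.derivative (h * r * a * b * l)) * κ := by
  obtain ⟨M, κ, hκ⟩ := zL_poly (c := c) (j := j) (n := g.natDegree) (h := h) (r := r) (a := a)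
    (b := b) (l := l) (m := m) hk K P 0
  refine ⟨M, κ, ?_⟩
  have hpt : ∀ t : ℂ, (h * r * a * b * l).eval t ≠ 0 →
      (Polynomial.C (c 0 0) * (h * r * a * b * l) ^ (M + 1)).eval t =
        ((h * r * a * b * l) * Polynomial.derivative κ +
        (vL s θ (g.natDegree * s + θ) h r a b l - Polynomial.C (M : ℂ) *
          Polynomial.derivative (h * r * a * b * l)) * κ).eval t := by
    intro t ht
    have ht' := ht
    rw [Polynomial.eval_mul, Polynomial.eval_mul, Polynomial.eval_mul,
      Polynomial.eval_mul] at ht'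
    have h4 := right_ne_zero_of_mul ht'
    have ht'' := left_ne_zero_of_mul ht'
    have h1 := left_ne_zero_of_mul (left_ne_zero_of_mul (left_ne_zero_of_mul ht''))
    have h5 := right_ne_zero_of_mul (left_ne_zero_of_mul (left_ne_zero_of_mul ht''))
    have h2 := right_ne_zero_of_mul (left_ne_zero_of_mul ht'')
    have h3 := right_ne_zero_of_mul ht''
    have hder := zL_deriv (j := j) hc hk h1 h5 h2 h3 h4 hθ K hG hEq
    set w := h * r * a * b * l with hwdef
    have hop : IsOpen {t : ℂ | w.eval t ≠ 0} := isOpen_ne_fun w.continuous continuous_const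
    have hev : (fun t => κ.eval t) =ᶠ[nhds t] fun t => w.eval t ^ M *
        zL c j k g.natDegree h r a b l m K 0 P t := by
      filter_upwards [hop.mem_nhds ht] with x hx
      exact hκ x hx
    have d1 := κ.hasDerivAt t
    have d2 := ((w.hasDerivAt t).pow M).mul hder
    have d3 := d1.unique (d2.congr_of_eventuallyEq hev)
    have hκt := hκ t ht
    have hv : (vL s θ (g.natDegree * s + θ) h r a b l).eval t = w.eval t *
        (omr s θ (g.natDegree * s + θ) h r a b t - ld l t) := by
      rw [vL, omr, hwdef]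
      simp only [ld, Polynomial.eval_add, Polynomial.eval_mul, Polynomial.eval_C]
      field_simp
      ring
    simp only [Polynomial.eval_add, Polynomial.eval_sub, Polynomial.eval_mul, Polynomial.eval_C,
      Polynomial.eval_pow] at d3 ⊢
    rw [Pi.pow_apply] at d3
    have hM : w.eval t * (M * w.eval t ^ (M - 1)) = M * w.eval t ^ M := by
      rcases M with _ | M
      · simp
      · rw [Nat.add_sub_cancel]; ring
    rw [hv, d3, hκt]
    linear_combination (-((Polynomial.derivative w).eval t *
      zL c j k g.natDegree h r a b l m K 0 P t)) * hM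
  have hfin : (Polynomial.C (c 0 0) * (h * r * a * b * l) ^ (M + 1) -
      ((h * r * a * b * l) * Polynomial.derivative κ +
        (vL s θ (g.natDegree * s + θ) h r a b l - Polynomial.C (M : ℂ) *
          Polynomial.derivative (h * r * a * b * l)) * κ)) * (h * r * a * b * l) = 0 := by
    refine Polynomial.funext fun t => ?_
    rw [Polynomial.eval_mul, Polynomial.eval_zero]
    by_cases ht : (h * r * a * b * l).eval t = 0
    · rw [ht, mul_zero]
    · rw [Polynomial.eval_sub, hpt t ht, sub_self, zero_mul]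
  exact sub_eq_zero.1 ((mul_eq_zero.1 hfin).resolve_right hw)

end Eq

end Pool.Agent.Helper748.MC
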