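import Pool.Agent.helper748_mc.Iso7
import Pool.Agent.helper748_mc.BinForm

set_option autoImplicit false
set_option linter.unusedSectionVars false

/-! # Ternary forms `(h / r) L ^ j G(a L ^ k, b)`, `L = l x₂ + m` -/

namespace Pool.Agent.Helper748.MC

open MvPolynomial

/-- the exponent `-(3/d) (χ - ρ) - θ α + μ β - λ` at `t`, where `χ`, `ρ`, `α`, `β`, `λ` are the
multiplicities of `t` as a root of `h`, `r`, `a`, `b` and `l` -/
noncomputable def pexp (s θ μ : ℚ) (h r a b l : Polynomial ℂ) (t : ℂ) : ℚ :=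
  s * h.rootMultiplicity t + -s * r.rootMultiplicity t + -θ * a.rootMultiplicity t +
    μ * b.rootMultiplicity t + -1 * l.rootMultiplicity t

open Classical in
/-- The number of the different roots of `g` is at least `2` and greater than `u + v`, where `u = 1`
if `θ = 1` and `u = 0` otherwise, and `v = -μ` if `-μ` is a natural number and `v = 0` otherwise. -/
def LPos (θ μ : ℚ) (g : Polynomial ℂ) : Prop :=
  2 ≤ g.roots.toFinset.card ∧
    (if θ = 1 then 1 else 0) + (if ∃ n : ℕ, -μ = n then -μ else 0) < g.roots.toFinset.card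

/-- There are linear coordinates in which `r f = h L ^ j G(a L ^ k, b)`, `L = l x₂ + m`, where `r`,
`h`, `a`, `b`, `l`, `m` are polynomials in `x₀` and `x₁`, and `G(u, v)` is the form
`∑ g_i u ^ i v ^ (n - i)` of degree `n` belonging to the polynomial `g = ∑ g_i W ^ i` of degree `n`
with `g(0) ≠ 0`, such that `r(t, 1)`, `h(t, 1)`, `a(t, 1)`, `b(t, 1)`, `l(t, 1)` are nonzero and have
the degrees `R`, `R + d - j (D + 1) - n (k (D + 1) + D')`, `D'`, `k (D + 1) + D'` and `D` for some
`R`, `D`, `D'`, such that with `θ = (1 - 3 j / d) / k` and `μ = θ - 3 n / d`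

* the number of the different roots of `g` is at least `2`, and greater than the sum of `1` if
  `θ = 1` (that is, `j = 0` and `k = 1`) and of `-μ` if `-μ` is a natural number;
* the number of the roots `t` of `r h a b l` is greater than `2` plus the sum of `1 + e` over those
  of them at which `e = -(3/d) (χ - ρ) - θ α + μ β - λ` is a natural number; here `χ`, `ρ`, `α`,
  `β`, `λ` are the multiplicities of `t` as a root of `h`, `r`, `a`, `b` and `l`. -/
def PencilForm (d : ℕ) (f : MvPolynomial (Fin 3) ℂ) : Prop :=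
  ∃ (A : Matrix (Fin 3) (Fin 3) ℂ) (h r a b l m : MvPolynomial (Fin 2) ℂ) (g : Polynomial ℂ)
    (j k : ℕ), 0 < d ∧ A.det ≠ 0 ∧ 0 < k ∧ g.eval 0 ≠ 0 ∧
    rename Fin.castSucc r * lin A f = rename Fin.castSucc h *
      (rename Fin.castSucc l * X 2 + rename Fin.castSucc m) ^ j *
      ∑ i ∈ Finset.range (g.natDegree + 1), C (g.coeff i) *
        (rename Fin.castSucc a * (rename Fin.castSucc l * X 2 + rename Fin.castSucc m) ^ k) ^ i *
          rename Fin.castSucc b ^ (g.natDegree - i) ∧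
    binPoly h ≠ 0 ∧ binPoly r ≠ 0 ∧ binPoly a ≠ 0 ∧ binPoly b ≠ 0 ∧ binPoly l ≠ 0 ∧
    (binPoly a).natDegree + k * ((binPoly l).natDegree + 1) = (binPoly b).natDegree ∧
    (binPoly h).natDegree + j * ((binPoly l).natDegree + 1) +
      g.natDegree * (binPoly b).natDegree = (binPoly r).natDegree + d ∧
    LPos ((1 - 3 * j / d) / k) ((1 - 3 * j / d) / k - 3 * g.natDegree / d) g ∧
    CPos (binPoly h * binPoly r * binPoly a * binPoly b * binPoly l)
      (pexp (-3 / d) ((1 - 3 * j / d) / k) ((1 - 3 * j / d) / k - 3 * g.natDegree / d)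
        (binPoly h) (binPoly r) (binPoly a) (binPoly b) (binPoly l))

theorem natDegree_pos_of_card {g : Polynomial ℂ} (h : 2 ≤ g.roots.toFinset.card) :
    0 < g.natDegree := by
  have h1 := (Multiset.toFinset_card_le g.roots).trans (Polynomial.card_roots' g)
  omega

theorem theta_le {j k d : ℕ} (hk : 0 < k) : ((1 - 3 * j / d) / k : ℚ) ≤ 1 := by
  have hkq : (1 : ℚ) ≤ k := by exact_mod_cast hk
  have h1 : (0 : ℚ) ≤ 3 * j / d := by positivity
  rw [div_le_one (by linarith)]
  linarith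

theorem PencilForm.pos {d : ℕ} {f : MvPolynomial (Fin 3) ℂ} (h : PencilForm d f) : 0 < d := by
  obtain ⟨A, h, r, a, b, l, m, g, j, k, hd, -⟩ := h
  exact hd

theorem evL_form {h r a b l m : MvPolynomial (Fin 2) ℂ} {g : Polynomial ℂ} {j k : ℕ} {t : ℂ}
    {F : MvPolynomial (Fin 3) ℂ} (hr : (binPoly r).eval t ≠ 0) (hl : (binPoly l).eval t ≠ 0)
    (hF : rename Fin.castSucc r * F = rename Fin.castSucc h *
      (rename Fin.castSucc l * X 2 + rename Fin.castSucc m) ^ j *
      ∑ i ∈ Finset.range (g.natDegree + 1), C (g.coeff i) *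
        (rename Fin.castSucc a * (rename Fin.castSucc l * X 2 + rename Fin.castSucc m) ^ k) ^ i *
          rename Fin.castSucc b ^ (g.natDegree - i)) :
    evL (binPoly l) (binPoly m) t F =
      Glt g j k (binPoly h) (binPoly r) (binPoly a) (binPoly b) t := by
  have hL : evL (binPoly l) (binPoly m) t
      (rename Fin.castSucc l * X 2 + rename Fin.castSucc m) = Polynomial.X := by
    have h1 : (Polynomial.C ((binPoly l).eval t) : Polynomial ℂ) *
        Polynomial.C ((binPoly l).eval t)⁻¹ = 1 := by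
      rw [← Polynomial.C_mul, mul_inv_cancel₀ hl, Polynomial.C_1]
    rw [map_add, map_mul, evL_ren, evL_ren, evL_X2]
    linear_combination (Polynomial.X - Polynomial.C ((binPoly m).eval t)) * h1
  have hr' : (Polynomial.C ((binPoly r).eval t) : Polynomial ℂ) ≠ 0 := Polynomial.C_ne_zero.2 hr
  refine mul_left_cancel₀ hr' ?_
  have h2 := congrArg (evL (binPoly l) (binPoly m) t) hF
  rw [map_mul, evL_ren] at h2
  rw [h2, map_mul, map_mul, map_pow, hL, evL_ren, map_sum, Glt, Gl, Hg, et]
  have h3 : (Polynomial.C ((binPoly r).eval t) : Polynomial ℂ) *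
      (Polynomial.C ((binPoly h).eval t * ((binPoly r).eval t)⁻¹)) =
      Polynomial.C ((binPoly h).eval t) := by
    rw [← Polynomial.C_mul]
    congr 1
    field_simp
  rw [mul_assoc (Polynomial.C ((binPoly h).eval t * ((binPoly r).eval t)⁻¹)), ← mul_assoc, h3,
    mul_assoc]
  congr 2
  refine Finset.sum_congr rfl fun i _ => ?_
  rw [map_mul, map_mul, map_pow, map_pow, map_mul, map_pow, hL, evL_ren, evL_ren, evL_C]
  simp only [Polynomial.C_mul, Polynomial.C_pow]
  ring

theorem Hg_ne {g : Polynomial ℂ} {k : ℕ} {α β : ℂ} (hk : 0 < k) (hg : g.eval 0 ≠ 0) (hβ : β ≠ 0) :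
    Hg g k α β ≠ 0 := by
  intro h0
  have h1 := congrArg (Polynomial.eval 0) h0
  rw [Hg, Polynomial.eval_finset_sum, Polynomial.eval_zero,
    Finset.sum_eq_single_of_mem 0 (Finset.mem_range.2 (Nat.succ_pos _))] at h1
  · rw [Polynomial.eval_mul, Polynomial.eval_C, mul_zero, pow_zero, pow_zero, Polynomial.eval_one,
      mul_one, mul_one, Nat.sub_zero] at h1
    refine mul_ne_zero ?_ (pow_ne_zero _ hβ) h1
    rwa [Polynomial.coeff_zero_eq_eval_zero]
  · intro i _ hi
    rw [Polynomial.eval_mul, Polynomial.eval_pow, Polynomial.eval_X, zero_pow, mul_zero]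
    exact Nat.mul_ne_zero hk.ne' hi

open Classical in
theorem not_exact_pencil {d : ℕ} {f : MvPolynomial (Fin 3) ℂ}
    (hf : f.IsHomogeneous d) (h : PencilForm d f) : f ≠ 0 ∧ ¬ Exact d f (-3 / d) := by
  obtain ⟨A, h, r, a, b, l, m, g, j, k, hd0, hA, hk, hg0, hG, hh0, hr0, ha0, hb0,
    hl0, hab, hd, ⟨hc2, hcnt⟩, hpos⟩ := h
  have hgn := natDegree_pos_of_card hc2
  have hw : binPoly h * binPoly r * binPoly a * binPoly b * binPoly l ≠ 0 :=
    mul_ne_zero (mul_ne_zero (mul_ne_zero (mul_ne_zero hh0 hr0) ha0) hb0) hl0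
  set G := lin A f with hGdef
  have hGh : G.IsHomogeneous d := lin_homog A hf
  have hGt : ∀ t : ℂ, (binPoly r).eval t ≠ 0 → (binPoly l).eval t ≠ 0 →
      evL (binPoly l) (binPoly m) t G =
      Glt g j k (binPoly h) (binPoly r) (binPoly a) (binPoly b) t :=
    fun t ht ht' => evL_form ht ht' hG
  have hf0 : f ≠ 0 := by
    rintro rfl
    rw [map_zero] at hGdef
    obtain ⟨t, ht⟩ := exists_eval_ne hw
    rw [Polynomial.eval_mul, Polynomial.eval_mul, Polynomial.eval_mul, Polynomial.eval_mul] at ht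
    have h4 := right_ne_zero_of_mul ht
    have ht'' := left_ne_zero_of_mul ht
    have h1 := left_ne_zero_of_mul (left_ne_zero_of_mul (left_ne_zero_of_mul ht''))
    have h2 := right_ne_zero_of_mul (left_ne_zero_of_mul (left_ne_zero_of_mul ht''))
    have h3 := right_ne_zero_of_mul ht''
    have h5 := hGt t h2 h4
    rw [hGdef, map_zero, Glt, Gl] at h5
    exact mul_ne_zero (mul_ne_zero (Polynomial.C_ne_zero.2 (et_ne h1 h2))
      (pow_ne_zero _ Polynomial.X_ne_zero)) (Hg_ne hk hg0 h3) h5.symm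
  refine ⟨hf0, fun hE => ?_⟩
  have hdc : (d : ℂ) ≠ 0 := Nat.cast_ne_zero.2 hd0.ne'
  have hdq : (d : ℚ) ≠ 0 := Nat.cast_ne_zero.2 hd0.ne'
  have hkc : (k : ℂ) ≠ 0 := Nat.cast_ne_zero.2 hk.ne'
  have hkq : (k : ℚ) ≠ 0 := Nat.cast_ne_zero.2 hk.ne'
  have hds : (d : ℂ) * (-3 / d) = -3 := by field_simp
  obtain ⟨K, P, Q, -, -, hEq⟩ := exact_two hGh hds (exact_lin hE A (isUnit_iff_ne_zero.2 hA))
  set θ : ℚ := (1 - 3 * j / d) / k with hθdef
  set s : ℚ := -3 / d with hsdef
  set μ : ℚ := θ - 3 * g.natDegree / d with hμdef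
  have hsc : ((s : ℚ) : ℂ) = -3 / d := by rw [hsdef]; push_cast; ring
  have hσθ : (g.natDegree : ℂ) * s + θ = μ := by
    rw [hμdef, hsdef]; push_cast; ring
  have hθ1 : θ ≤ 1 := theta_le hk
  obtain ⟨ε, hε⟩ : ∃ ε : ℕ, (if θ = 1 then (1 : ℚ) else 0) = ε := by
    by_cases h1 : θ = 1
    · exact ⟨1, by rw [if_pos h1]; simp⟩
    · exact ⟨0, by rw [if_neg h1]; simp⟩
  obtain ⟨ν, hν⟩ : ∃ ν : ℕ, (if ∃ n : ℕ, -μ = n then -μ else 0) = ν := by
    by_cases h1 : ∃ n : ℕ, -μ = n
    · obtain ⟨n, hn⟩ := h1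
      exact ⟨n, by rw [if_pos ⟨n, hn⟩, hn]⟩
    · exact ⟨0, by rw [if_neg h1]; simp⟩
  have hcnt' : ε + ν < g.roots.toFinset.card := by
    rw [hε, hν] at hcnt
    exact_mod_cast hcnt
  obtain ⟨c, hc⟩ := exists_penSys (θ : ℂ) (s : ℂ) g (ε := ε) (ν := ν) hg0 hgn (by
    intro n h0
    have h1 : θ = n + 1 := by exact_mod_cast h0
    have h2 : (n : ℚ) ≤ 0 := by linarith
    have h3 : n = 0 := by
      have : n ≤ 0 := by exact_mod_cast h2
      omega
    rw [h3, Nat.cast_zero, zero_add] at h1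
    rw [if_pos h1] at hε
    rw [h3]
    have : (1 : ℕ) = ε := by exact_mod_cast hε
    omega) (by
    intro n h0
    rw [hσθ] at h0
    have h1 : -μ = n := by
      have : μ = -(n : ℚ) := by exact_mod_cast h0
      linarith
    rw [if_pos ⟨n, h1⟩, h1] at hν
    have : n = ν := by exact_mod_cast hν
    omega) (by
    intro N N' hN h0
    have h1 : (N : ℚ) * s = N' := by exact_mod_cast h0
    have h2 : (0 : ℚ) < d := by exact_mod_cast hd0
    have h3 : (0 : ℚ) < N := by exact_mod_cast hN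
    have h4 : 0 < (N : ℚ) * (3 / d) := by positivity
    have h5 : (0 : ℚ) ≤ N' := Nat.cast_nonneg N'
    rw [hsdef] at h1
    have h6 : (N : ℚ) * (-3 / d) = -(N * (3 / d)) := by ring
    rw [h6] at h1
    linarith) hcnt'
  rw [← hsc] at hEq
  obtain ⟨M, κ, hfin⟩ := iso_eq (j := j) (k := k) (h := binPoly h) (r := binPoly r)
    (a := binPoly a) (b := binPoly b) (l := binPoly l) (m := binPoly m) (s := (s : ℂ)) hc hk (by
      rw [hθdef, hsdef]; push_cast; field_simp; ring) hw hGt hEq
  rw [hσθ] at hfin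
  have hlog := logF_vL hh0 hr0 ha0 hb0 hl0 s θ μ
  have e1 : ((binPoly h).natDegree : ℚ) = (binPoly r).natDegree + d -
      j * ((binPoly l).natDegree + 1) - g.natDegree * (binPoly b).natDegree := by
    have : ((binPoly h).natDegree : ℚ) + j * ((binPoly l).natDegree + 1) +
      g.natDegree * (binPoly b).natDegree = (binPoly r).natDegree + d := by exact_mod_cast hd
    linarith
  have e2 : ((binPoly a).natDegree : ℚ) = (binPoly b).natDegree -
      k * ((binPoly l).natDegree + 1) := by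
    have : ((binPoly a).natDegree : ℚ) + k * ((binPoly l).natDegree + 1) =
      (binPoly b).natDegree := by exact_mod_cast hab
    linarith
  have e3 : s * (binPoly h).natDegree + -s * (binPoly r).natDegree + -θ * (binPoly a).natDegree +
      μ * (binPoly b).natDegree + -1 * (binPoly l).natDegree = -2 := by
    rw [e1, e2, hμdef, hθdef, hsdef]
    field_simp
    ring
  rw [e3] at hlog
  exact ode_count_gen hc.r4 hlog hpos hfin

end Pool.Agent.Helper748.MC
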