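import Pool.Agent.helper748_mc.QuadCount

set_option autoImplicit false
set_option linter.unusedSectionVars false

/-! # Counting zeros of a solution of a differential equation of the first order -/

namespace Pool.Agent.Helper748.MC

open Polynomial

/-- the orders of a solution -/
theorem ord_ode (t : ℂ) {w v κ w1 v1 : ℂ[X]} {M W : ℕ} {γ e : ℂ} (hγ : γ ≠ 0) (hκ : κ ≠ 0)
    (hw : w = (X - C t) ^ W * w1) (hw1 : w1.eval t ≠ 0)
    (hv : (X - C t) * v = (X - C t) ^ W * (C e * w1 + (X - C t) * v1))
    (h : C γ * w ^ (M + 1) = w * derivative κ + (v - C (M : ℂ) * derivative w) * κ) :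
    κ.rootMultiplicity t = M * W + 1 ∨
      ∃ n : ℕ, e = n ∧ (κ.rootMultiplicity t : ℤ) = (M : ℤ) * W - n := by
  obtain ⟨k1, hk1, hk1'⟩ := exists_eq_pow_rootMultiplicity_mul_and_not_dvd κ hκ t
  rw [dvd_iff_isRoot, IsRoot.def] at hk1'
  set m := κ.rootMultiplicity t with hm
  set u : ℂ[X] := X - C t with hu
  have hder : ∀ (n : ℕ) (p : ℂ[X]), u * derivative (u ^ n * p) =
      u ^ n * (C (n : ℂ) * p + u * derivative p) := by
    intro n p
    have hu1 : derivative u = 1 := by rw [hu]; simp
    rw [derivative_mul, derivative_pow, hu1]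
    rcases n with _ | n
    · simp
    · simp only [Nat.add_sub_cancel]
      ring
  have ew : u * derivative w = u ^ W * (C (W : ℂ) * w1 + u * derivative w1) := by
    rw [hw]; exact hder W w1
  have ek : u * derivative κ = u ^ m * (C (m : ℂ) * k1 + u * derivative k1) := by
    rw [hk1]; exact hder m k1
  set l : ℂ := m + e - M * W with hl
  have key : u ^ (1 + W * (M + 1)) * (C γ * w1 ^ (M + 1)) =
      u ^ (W + m) * (C l * (w1 * k1) + u * (w1 * derivative k1 +
        (v1 - C (M : ℂ) * derivative w1) * k1)) := by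
    have e1 : u ^ (1 + W * (M + 1)) * (C γ * w1 ^ (M + 1)) = u * (C γ * w ^ (M + 1)) := by
      rw [hw, mul_pow, ← pow_mul]
      ring
    have e2 : (C l : ℂ[X]) = C (m : ℂ) + C e - C (M : ℂ) * C (W : ℂ) := by
      rw [← C_mul, ← C_add, ← C_sub]
    rw [e1, h, e2]
    have e3 : u * (w * derivative κ + (v - C (M : ℂ) * derivative w) * κ) =
        w * (u * derivative κ) + (u * v - C (M : ℂ) * (u * derivative w)) * κ := by ring
    rw [e3, ew, ek, hv]
    conv_lhs => rw [hw, hk1]
    ring
  have hF1 : (C γ * w1 ^ (M + 1)).eval t ≠ 0 := by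
    rw [eval_mul, eval_C, eval_pow]
    exact mul_ne_zero hγ (pow_ne_zero _ hw1)
  have hF2 : (w1 * k1).eval t ≠ 0 := by
    rw [eval_mul]
    exact mul_ne_zero hw1 hk1'
  rcases ord_cmp t hF1 hF2 key with ⟨_, hpq⟩ | ⟨hl0, hpq⟩
  · left
    have : W * (M + 1) = W * M + W := by ring
    rw [this] at hpq
    rw [mul_comm M W]
    omega
  · right
    have h3 : (m : ℤ) ≤ (M : ℤ) * W := by
      have : W * (M + 1) = W * M + W := by ring
      rw [this] at hpq
      have h4 : m ≤ W * M := by omega
      have h5 : (m : ℤ) ≤ (W : ℤ) * M := by exact_mod_cast h4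
      linarith [mul_comm (W : ℤ) M]
    obtain ⟨n, hn⟩ : ∃ n : ℕ, (n : ℤ) = (M : ℤ) * W - m :=
      ⟨((M : ℤ) * W - m).toNat, Int.toNat_of_nonneg (by linarith)⟩
    refine ⟨n, ?_, by linarith⟩
    have h4 : (n : ℂ) = (M : ℂ) * W - m := by
      have := congrArg (Int.cast : ℤ → ℂ) hn
      push_cast at this
      exact this
    rw [h4]
    rw [hl] at hl0
    linear_combination hl0

/-- the polynomial `w (log (h ^ s a ^ (-θ) b ^ μ))'`, `w = h a b` -/
noncomputable def vpol (s θ μ : ℂ) (h a b : ℂ[X]) : ℂ[X] :=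
  C s * (derivative h * a * b) - C θ * (h * derivative a * b) + C μ * (h * a * derivative b)

/-- the exponent of `h ^ s a ^ (-θ) b ^ μ` at `t` -/
noncomputable def bexp (s θ μ : ℚ) (h a b : ℂ[X]) (t : ℂ) : ℚ :=
  s * h.rootMultiplicity t - θ * a.rootMultiplicity t + μ * b.rootMultiplicity t

theorem ode_deg {w v κ : ℂ[X]} {M : ℕ} {γ : ℂ} (hw : w ≠ 0) (hκ : κ ≠ 0)
    (hv1 : (X * v).natDegree ≤ w.natDegree)
    (hv2 : (X * v).coeff w.natDegree = -2 * w.leadingCoeff)
    (h : C γ * w ^ (M + 1) = w * derivative κ + (v - C (M : ℂ) * derivative w) * κ) :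
    κ.natDegree ≤ M * w.natDegree + 2 := by
  by_contra hcon
  push Not at hcon
  set N := w.natDegree with hN
  set m := κ.natDegree with hm
  have hX : ∀ p : ℂ[X], (X * derivative p).natDegree ≤ p.natDegree := by
    intro p
    rcases Nat.eq_zero_or_pos p.natDegree with h0 | h0
    · rw [derivative_of_natDegree_zero h0, mul_zero, natDegree_zero]
      exact Nat.zero_le _
    · refine natDegree_mul_le.trans ?_
      rw [natDegree_X]
      have := natDegree_derivative_le p
      omega
  have hXc : ∀ p : ℂ[X], (X * derivative p).coeff p.natDegree = p.natDegree * p.leadingCoeff := by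
    intro p
    rcases hn : p.natDegree with _ | n
    · simp
    · rw [coeff_X_mul, coeff_derivative, leadingCoeff, hn]
      push_cast
      ring
  have h2 : (X * (C γ * w ^ (M + 1))).coeff (N + m) =
      (w * (X * derivative κ)).coeff (N + m) + ((X * v) * κ).coeff (N + m) -
        ((C (M : ℂ) * (X * derivative w)) * κ).coeff (N + m) := by
    rw [h, ← coeff_add, ← coeff_sub]
    congr 1
    ring
  have h3 : (X * (C γ * w ^ (M + 1))).coeff (N + m) = 0 := by
    apply coeff_eq_zero_of_natDegree_lt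
    refine lt_of_le_of_lt natDegree_mul_le ?_
    have h5 : (C γ * w ^ (M + 1)).natDegree ≤ (M + 1) * N := by
      refine (natDegree_C_mul_le _ _).trans ?_
      exact natDegree_pow_le
    rw [natDegree_X]
    have : (M + 1) * N = M * N + N := by ring
    omega
  rw [h3, coeff_mul_add_eq_of_natDegree_le le_rfl (hX κ), coeff_mul_add_eq_of_natDegree_le hv1 le_rfl,
    coeff_mul_add_eq_of_natDegree_le (df := N) (dg := m)
      ((natDegree_C_mul_le _ _).trans (hX w)) le_rfl, hXc, coeff_C_mul, hXc, hv2] at h2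
  have h4 : w.leadingCoeff * κ.leadingCoeff * ((m : ℂ) - 2 - M * N) = 0 := by
    have e1 : w.coeff N = w.leadingCoeff := rfl
    have e2 : κ.coeff m = κ.leadingCoeff := rfl
    rw [e1, e2] at h2
    linear_combination -h2
  rcases mul_eq_zero.1 h4 with h5 | h5
  · exact mul_ne_zero (leadingCoeff_ne_zero.2 hw) (leadingCoeff_ne_zero.2 hκ) h5
  · have h6 : (m : ℂ) = ((M * N + 2 : ℕ) : ℂ) := by
      push_cast
      linear_combination h5
    have h7 : m = M * N + 2 := by exact_mod_cast h6
    omega

open Classical in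
/-- The number of the roots of `h a b` is greater than `2` plus the sum of `1 + e`, `e` the number
`bexp`, over those roots of `h a b` at which `e` is a natural number. -/
def BPos (s θ μ : ℚ) (h a b : ℂ[X]) : Prop :=
  2 + ∑ t ∈ (h * a * b).roots.toFinset with ∃ n : ℕ, bexp s θ μ h a b t = n,
    (1 + bexp s θ μ h a b t) < (h * a * b).roots.toFinset.card

theorem ode_count {s θ μ : ℚ} {h a b κ : ℂ[X]} {M : ℕ} {γ : ℂ} (hγ : γ ≠ 0)
    (hw0 : h * a * b ≠ 0)
    (hsum : s * h.natDegree - θ * a.natDegree + μ * b.natDegree = -2)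
    (hpos : BPos s θ μ h a b)
    (hE : C γ * (h * a * b) ^ (M + 1) = (h * a * b) * derivative κ +
      (vpol s θ μ h a b - C (M : ℂ) * derivative (h * a * b)) * κ) : False := by
  classical
  have hh : h ≠ 0 := fun h0 => hw0 (by rw [h0]; ring)
  have ha : a ≠ 0 := fun h0 => hw0 (by rw [h0]; ring)
  have hb : b ≠ 0 := fun h0 => hw0 (by rw [h0]; ring)
  set w := h * a * b with hwdef
  have hκ : κ ≠ 0 := by
    rintro rfl
    rw [derivative_zero, mul_zero, mul_zero, add_zero] at hE
    exact mul_ne_zero (C_ne_zero.2 hγ) (pow_ne_zero _ hw0) hE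
  have hdw : w.natDegree = h.natDegree + a.natDegree + b.natDegree := by
    rw [hwdef, natDegree_mul (mul_ne_zero hh ha) hb, natDegree_mul hh ha]
  have hlw : w.leadingCoeff = h.leadingCoeff * a.leadingCoeff * b.leadingCoeff := by
    rw [hwdef, leadingCoeff_mul, leadingCoeff_mul]
  have hX : ∀ p : ℂ[X], (X * derivative p).natDegree ≤ p.natDegree := by
    intro p
    rcases Nat.eq_zero_or_pos p.natDegree with h0 | h0
    · rw [derivative_of_natDegree_zero h0, mul_zero, natDegree_zero]
      exact Nat.zero_le _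
    · refine natDegree_mul_le.trans ?_
      rw [natDegree_X]
      have := natDegree_derivative_le p
      omega
  have hXc : ∀ p : ℂ[X], (X * derivative p).coeff p.natDegree = p.natDegree * p.leadingCoeff := by
    intro p
    rcases hn : p.natDegree with _ | n
    · simp
    · rw [coeff_X_mul, coeff_derivative, leadingCoeff, hn]
      push_cast
      ring
  have hXv : X * vpol s θ μ h a b = C (s : ℂ) * (X * derivative h * a * b) -
      C (θ : ℂ) * (h * (X * derivative a) * b) + C (μ : ℂ) * (h * a * (X * derivative b)) := by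
    rw [vpol]; ring
  have d1 : (X * derivative h * a).natDegree ≤ h.natDegree + a.natDegree :=
    natDegree_mul_le.trans (add_le_add (hX h) le_rfl)
  have d2 : (h * (X * derivative a)).natDegree ≤ h.natDegree + a.natDegree :=
    natDegree_mul_le.trans (add_le_add le_rfl (hX a))
  have d3 : (h * a).natDegree ≤ h.natDegree + a.natDegree := natDegree_mul_le
  have hv1 : (X * vpol s θ μ h a b).natDegree ≤ w.natDegree := by
    rw [hXv, hdw]
    refine (natDegree_add_le _ _).trans (max_le ((natDegree_sub_le _ _).trans (max_le ?_ ?_)) ?_)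
    · exact (natDegree_C_mul_le _ _).trans (natDegree_mul_le.trans (add_le_add d1 le_rfl))
    · exact (natDegree_C_mul_le _ _).trans (natDegree_mul_le.trans (add_le_add d2 le_rfl))
    · exact (natDegree_C_mul_le _ _).trans (natDegree_mul_le.trans (add_le_add d3 (hX b)))
  have hv2 : (X * vpol s θ μ h a b).coeff w.natDegree = -2 * w.leadingCoeff := by
    rw [hXv, hdw, hlw, coeff_add, coeff_sub, coeff_C_mul, coeff_C_mul, coeff_C_mul,
      coeff_mul_add_eq_of_natDegree_le d1 le_rfl, coeff_mul_add_eq_of_natDegree_le (hX h) le_rfl,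
      coeff_mul_add_eq_of_natDegree_le d2 le_rfl, coeff_mul_add_eq_of_natDegree_le le_rfl (hX a),
      coeff_mul_add_eq_of_natDegree_le d3 (hX b), coeff_mul_add_eq_of_natDegree_le le_rfl le_rfl,
      hXc, hXc, hXc]
    have e1 : h.coeff h.natDegree = h.leadingCoeff := rfl
    have e2 : a.coeff a.natDegree = a.leadingCoeff := rfl
    have e3 : b.coeff b.natDegree = b.leadingCoeff := rfl
    rw [e1, e2, e3]
    have h5 : (s : ℂ) * h.natDegree - θ * a.natDegree + μ * b.natDegree = -2 := by
      exact_mod_cast congrArg (Rat.cast : ℚ → ℂ) hsum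
    linear_combination (h.leadingCoeff * a.leadingCoeff * b.leadingCoeff) * h5
  have hkd := ode_deg hw0 hκ hv1 hv2 hE
  set T := w.roots.toFinset with hT
  have sw := sum_mult_eq T w (fun t ht => Multiset.mem_toFinset.2 ht)
  have sk := sum_mult_le T κ
  have hsub : ∀ p : ℂ[X], p ∣ w → ∀ t ∈ p.roots, t ∈ T := by
    intro p hp t ht
    rw [hT, Multiset.mem_toFinset]
    exact Multiset.mem_of_le (roots.le_of_dvd hw0 hp) ht
  have sh := sum_mult_eq T h (hsub h ⟨a * b, by rw [hwdef]; ring⟩)
  have sa := sum_mult_eq T a (hsub a ⟨h * b, by rw [hwdef]; ring⟩)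
  have sb := sum_mult_eq T b (hsub b ⟨h * a, by rw [hwdef]; ring⟩)
  have shq : ∑ t ∈ T, (h.rootMultiplicity t : ℚ) = h.natDegree := by rw [← Nat.cast_sum, sh]
  have saq : ∑ t ∈ T, (a.rootMultiplicity t : ℚ) = a.natDegree := by rw [← Nat.cast_sum, sa]
  have sbq : ∑ t ∈ T, (b.rootMultiplicity t : ℚ) = b.natDegree := by rw [← Nat.cast_sum, sb]
  have swq : ∑ t ∈ T, (w.rootMultiplicity t : ℚ) = w.natDegree := by rw [← Nat.cast_sum, sw]
  have skq : ∑ t ∈ T, (κ.rootMultiplicity t : ℚ) ≤ M * w.natDegree + 2 := by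
    rw [← Nat.cast_sum]
    exact_mod_cast sk.trans hkd
  have hloc : ∀ t ∈ T, (M : ℚ) * w.rootMultiplicity t - bexp s θ μ h a b t +
      (if (∀ n : ℕ, bexp s θ μ h a b t ≠ n) then 1 + bexp s θ μ h a b t else 0) ≤
        κ.rootMultiplicity t := by
    intro t _
    obtain ⟨h1, hh1, hh1'⟩ := exists_eq_pow_rootMultiplicity_mul_and_not_dvd h hh t
    obtain ⟨a1, ha1, ha1'⟩ := exists_eq_pow_rootMultiplicity_mul_and_not_dvd a ha t
    obtain ⟨b1, hb1, hb1'⟩ := exists_eq_pow_rootMultiplicity_mul_and_not_dvd b hb t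
    rw [dvd_iff_isRoot, IsRoot.def] at hh1' ha1' hb1'
    have hWm : w.rootMultiplicity t =
        h.rootMultiplicity t + a.rootMultiplicity t + b.rootMultiplicity t := by
      rw [hwdef, rootMultiplicity_mul (by rw [← hwdef]; exact hw0),
        rootMultiplicity_mul (mul_ne_zero hh ha)]
    set χ := h.rootMultiplicity t with hχ
    set α := a.rootMultiplicity t with hα
    set β := b.rootMultiplicity t with hβ
    set u : ℂ[X] := X - C t with hu
    have hder : ∀ (n : ℕ) (p : ℂ[X]), u * derivative (u ^ n * p) =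
        u ^ n * (C (n : ℂ) * p + u * derivative p) := by
      intro n p
      have hu1 : derivative u = 1 := by rw [hu]; simp
      rw [derivative_mul, derivative_pow, hu1]
      rcases n with _ | n
      · simp
      · simp only [Nat.add_sub_cancel]
        ring
    have eh : u * derivative h = u ^ χ * (C (χ : ℂ) * h1 + u * derivative h1) := by
      rw [hh1]; exact hder χ h1
    have ea : u * derivative a = u ^ α * (C (α : ℂ) * a1 + u * derivative a1) := by
      rw [ha1]; exact hder α a1
    have eb : u * derivative b = u ^ β * (C (β : ℂ) * b1 + u * derivative b1) := by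
      rw [hb1]; exact hder β b1
    have hbe : ((bexp s θ μ h a b t : ℚ) : ℂ) = s * χ - θ * α + μ * β := by
      rw [bexp]; push_cast; ring
    have hwe : w = u ^ (w.rootMultiplicity t) * (h1 * a1 * b1) := by
      rw [hWm]
      conv_lhs => rw [hwdef, hh1, ha1, hb1]
      rw [pow_add, pow_add]
      ring
    have hve : u * vpol s θ μ h a b = u ^ (w.rootMultiplicity t) *
        (C (((bexp s θ μ h a b t : ℚ) : ℂ)) * (h1 * a1 * b1) +
          u * vpol s θ μ h1 a1 b1) := by
      have e1 : u * vpol s θ μ h a b = C (s : ℂ) * ((u * derivative h) * a * b) -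
          C (θ : ℂ) * (h * (u * derivative a) * b) + C (μ : ℂ) * (h * a * (u * derivative b)) := by
        rw [vpol]; ring
      have e2 : (C (((bexp s θ μ h a b t : ℚ) : ℂ)) : ℂ[X]) = C (s : ℂ) * C (χ : ℂ) -
          C (θ : ℂ) * C (α : ℂ) + C (μ : ℂ) * C (β : ℂ) := by
        rw [hbe, ← C_mul, ← C_mul, ← C_mul, ← C_sub, ← C_add]
      rw [e1, eh, ea, eb, e2, hWm, pow_add, pow_add, vpol]
      conv_lhs => rw [hh1, ha1, hb1]
      ring
    have key := ord_ode t (w1 := h1 * a1 * b1) (v1 := vpol s θ μ h1 a1 b1)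
      (e := ((bexp s θ μ h a b t : ℚ) : ℂ)) hγ hκ hwe (by
        rw [eval_mul, eval_mul]
        exact mul_ne_zero (mul_ne_zero hh1' ha1') hb1') hve hE
    by_cases he : ∀ n : ℕ, bexp s θ μ h a b t ≠ n
    · rw [if_pos he]
      rcases key with h1 | ⟨n, hn, _⟩
      · rw [h1]
        push_cast
        linarith
      · exfalso
        exact he n (by exact_mod_cast hn)
    · rw [if_neg he]
      push Not at he
      obtain ⟨n, hn⟩ := he
      rcases key with h1 | ⟨n', hn', h1⟩
      · have h3 : (0 : ℚ) ≤ n := Nat.cast_nonneg n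
        rw [h1, hn]
        push_cast
        linarith
      · have h2 : (κ.rootMultiplicity t : ℚ) = (M : ℚ) * w.rootMultiplicity t - n' := by
          exact_mod_cast h1
        have h4 : bexp s θ μ h a b t = n' := by exact_mod_cast hn'
        rw [h2, h4]
        linarith
  have hsum' := Finset.sum_le_sum hloc
  rw [Finset.sum_add_distrib, Finset.sum_sub_distrib, ← Finset.mul_sum, swq,
    ← Finset.sum_filter] at hsum'
  have hq : ∑ t ∈ T, bexp s θ μ h a b t = -2 := by
    simp only [bexp]
    rw [Finset.sum_add_distrib, Finset.sum_sub_distrib, ← Finset.mul_sum, ← Finset.mul_sum,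
      ← Finset.mul_sum, shq, saq, sbq, hsum]
  rw [hq] at hsum'
  have hpos' : 2 + ∑ t ∈ T with ∃ n : ℕ, bexp s θ μ h a b t = n, (1 + bexp s θ μ h a b t) <
      T.card := hpos
  have hsplit := Finset.sum_filter_add_sum_filter_not T (fun t => ∃ n : ℕ, bexp s θ μ h a b t = n)
    (fun t => 1 + bexp s θ μ h a b t)
  rw [Finset.sum_add_distrib (s := T), hq, Finset.sum_const, nsmul_eq_mul, mul_one] at hsplit
  have hnot : ∑ t ∈ T with ¬ ∃ n : ℕ, bexp s θ μ h a b t = n, (1 + bexp s θ μ h a b t) =
      ∑ t ∈ T with ∀ n : ℕ, bexp s θ μ h a b t ≠ n, (1 + bexp s θ μ h a b t) := by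
    refine Finset.sum_congr (Finset.filter_congr fun t _ => ?_) fun _ _ => rfl
    push Not
    rfl
  rw [hnot] at hsplit
  linarith [hsum', skq, hpos', hsplit]

end Pool.Agent.Helper748.MC
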