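import Pool.Agent.helper748_mc.FanThm
import Pool.Agent.helper748_mc.Iso8

set_option autoImplicit false
set_option linter.unusedSectionVars false

/-! # The root `-3/d` for the forms `(h / r) L ^ j G(a L ^ k, b)`, `L = l x₂ + m` -/

namespace Pool.Agent.Helper748.MC

open MvPolynomial Pool.Agent.W574.SM Pool.Agent.W574.CN Pool.Agent.W574.MO Pool.Agent.W574.HS
  Pool.Agent.W574.LM Pool.Agent.H628R4.TP

variable {ι : Type} [Fintype ι] [DecidableEq ι]

/-- The root `-3/d` of the Bernstein-Sato polynomial of a form with `PencilForm`. -/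
theorem pen_single (f : MvPolynomial (Fin 3) ℂ) (d : ℕ) (hf : f.IsHomogeneous d)
    (h : PencilForm d f) (b : Polynomial ℂ) (hb : IsBFunction f b) :
    b.eval (-3 / d : ℂ) = 0 := by
  obtain ⟨hf0, hE⟩ := not_exact_pencil hf h
  exact root_of_not_exact (fun _ : Unit => f) d h.pos (fun _ => hf) b (funEq_unit f b hb)
    (fun _ => 1) (by rw [lcomb_unit]; exact hf0) (by rw [lcomb_unit]; exact hE)

theorem pen_ideal (f : ι → MvPolynomial (Fin 3) ℂ) (d : ℕ)
    (hf : ∀ j, (f j).IsHomogeneous d) (lam : ι → ℂ) (h : PencilForm d (lcomb f lam))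
    (b : Polynomial ℂ) (hb : IsFunctionalEq f b) : b.eval (-3 / d : ℂ) = 0 := by
  obtain ⟨hf0, hE⟩ := not_exact_pencil (lcomb_homog hf lam) h
  exact root_of_not_exact f d h.pos hf b hb lam hf0 hE

theorem pen_form (f : ι → MvPolynomial (Fin 3) ℂ) (d : ℕ)
    (hf : ∀ j, (f j).IsHomogeneous d) (lam : ι → ℂ) (h : PencilForm d (lcomb f lam))
    (b : Polynomial ℂ) (hb : IsBFunction (univ f) b) : b.eval (-3 / d : ℂ) = 0 :=
  pen_ideal f d hf lam h b (functionalEq_of_univ f b hb)

end Pool.Agent.Helper748.MC
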