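import Pool.Agent.helper748_mc.Ex

set_option autoImplicit false
set_option linter.unusedSectionVars false

/-! # Weights, and the initial form of an exact form -/

namespace Pool.Agent.Helper748.MC

open MvPolynomial

section Wt

variable {σ : Type} [Fintype σ] [DecidableEq σ] (w : σ → ℤ)

/-- the weight of a monomial -/
def mw (m : σ →₀ ℕ) : ℤ := ∑ i, w i * (m i : ℤ)

theorem mw_add (m m' : σ →₀ ℕ) : mw w (m + m') = mw w m + mw w m' := by
  rw [mw, mw, mw, ← Finset.sum_add_distrib]
  refine Finset.sum_congr rfl fun i _ => ?_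
  rw [Finsupp.add_apply]
  push_cast
  ring

theorem mw_single (i : σ) : mw w (Finsupp.single i 1) = w i := by
  rw [mw, Finset.sum_eq_single i]
  · rw [Finsupp.single_eq_same]; simp
  · intro j _ hj
    rw [Finsupp.single_eq_of_ne hj]; simp
  · intro h; exact absurd (Finset.mem_univ i) h

/-- all monomials have a weight `≥ n` -/
def Wge (n : ℤ) (p : MvPolynomial σ ℂ) : Prop := ∀ m, coeff m p ≠ 0 → n ≤ mw w m

/-- all monomials have the weight `n` -/
def IsW (n : ℤ) (p : MvPolynomial σ ℂ) : Prop := ∀ m, coeff m p ≠ 0 → mw w m = n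

/-- the part of the weight `n` -/
noncomputable def wc (n : ℤ) : MvPolynomial σ ℂ →ₗ[ℂ] MvPolynomial σ ℂ :=
  weightedHomogeneousComponent w n

theorem weight_eq_mw (m : σ →₀ ℕ) : Finsupp.weight w m = mw w m := by
  rw [Finsupp.weight_apply, Finsupp.sum_fintype _ _ (by simp), mw]
  refine Finset.sum_congr rfl fun i _ => ?_
  rw [nsmul_eq_mul, mul_comm]

theorem coeff_wc (n : ℤ) (p : MvPolynomial σ ℂ) (m : σ →₀ ℕ) :
    coeff m (wc w n p) = if mw w m = n then coeff m p else 0 := by
  rw [wc, coeff_weightedHomogeneousComponent, weight_eq_mw]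

variable {w}

theorem Wge.mono {n n' : ℤ} (h : n ≤ n') {p : MvPolynomial σ ℂ} (hp : Wge w n' p) :
    Wge w n p := fun m hm => le_trans h (hp m hm)

theorem Wge.add {n : ℤ} {p q : MvPolynomial σ ℂ} (hp : Wge w n p) (hq : Wge w n q) :
    Wge w n (p + q) := by
  intro m hm
  rw [coeff_add] at hm
  by_cases h : coeff m p = 0
  · rw [h, zero_add] at hm; exact hq m hm
  · exact hp m h

theorem Wge.zero (n : ℤ) : Wge w n (0 : MvPolynomial σ ℂ) := fun m hm => by
  rw [coeff_zero] at hm; exact absurd rfl hm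

theorem Wge.neg {n : ℤ} {p : MvPolynomial σ ℂ} (hp : Wge w n p) : Wge w n (-p) := by
  intro m hm
  rw [coeff_neg, neg_ne_zero] at hm
  exact hp m hm

theorem Wge.sub {n : ℤ} {p q : MvPolynomial σ ℂ} (hp : Wge w n p) (hq : Wge w n q) :
    Wge w n (p - q) := by
  rw [sub_eq_add_neg]; exact hp.add hq.neg

theorem Wge.sum {α : Type} (s : Finset α) {n : ℤ} {p : α → MvPolynomial σ ℂ}
    (h : ∀ i ∈ s, Wge w n (p i)) : Wge w n (∑ i ∈ s, p i) := by
  classical
  induction s using Finset.induction_on with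
  | empty => rw [Finset.sum_empty]; exact Wge.zero n
  | insert i s hi ih =>
    rw [Finset.sum_insert hi]
    exact (h i (Finset.mem_insert_self i s)).add (ih fun j hj => h j (Finset.mem_insert_of_mem hj))

theorem Wge.C_mul {n : ℤ} {p : MvPolynomial σ ℂ} (hp : Wge w n p) (c : ℂ) :
    Wge w n (C c * p) := by
  intro m hm
  rw [coeff_C_mul] at hm
  exact hp m (right_ne_zero_of_mul hm)

theorem Wge.mul {a b : ℤ} {p q : MvPolynomial σ ℂ} (hp : Wge w a p) (hq : Wge w b q) :
    Wge w (a + b) (p * q) := by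
  intro m hm
  rw [coeff_mul] at hm
  obtain ⟨x, hx, hx0⟩ := Finset.exists_ne_zero_of_sum_ne_zero hm
  rw [Finset.HasAntidiagonal.mem_antidiagonal] at hx
  rw [← hx, mw_add]
  exact add_le_add (hp _ (left_ne_zero_of_mul hx0)) (hq _ (right_ne_zero_of_mul hx0))

theorem Wge.one : Wge w 0 (1 : MvPolynomial σ ℂ) := by
  intro m hm
  rw [coeff_one] at hm
  split_ifs at hm with h
  · rw [← h, mw]; simp
  · exact absurd rfl hm

theorem Wge.pow {p : MvPolynomial σ ℂ} {a : ℤ} (hp : Wge w a p) (k : ℕ) :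
    Wge w (k * a) (p ^ k) := by
  induction k with
  | zero => rw [pow_zero]; simpa using Wge.one (w := w)
  | succ k ih =>
    rw [pow_succ]
    have := ih.mul hp
    refine (congrArg (fun n => Wge w n (p ^ k * p)) ?_).mp this
    push_cast; ring

theorem coeff_pderiv_ne {i : σ} {p : MvPolynomial σ ℂ} {m : σ →₀ ℕ}
    (h : coeff m (pderiv i p) ≠ 0) : coeff (m + Finsupp.single i 1) p ≠ 0 := by
  rw [coeff_pderiv] at h
  exact left_ne_zero_of_mul h

theorem Wge.pderiv {n : ℤ} {p : MvPolynomial σ ℂ} (hp : Wge w n p) (i : σ) :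
    Wge w (n - w i) (pderiv i p) := by
  intro m hm
  have := hp _ (coeff_pderiv_ne hm)
  rw [mw_add, mw_single] at this
  linarith

theorem wc_eq_zero {n n' : ℤ} (h : n < n') {p : MvPolynomial σ ℂ} (hp : Wge w n' p) :
    wc w n p = 0 := by
  ext m
  rw [coeff_wc, coeff_zero]
  split_ifs with h1
  · by_contra h2
    have := hp m h2
    omega
  · rfl

theorem wc_mul {a b : ℤ} {p q : MvPolynomial σ ℂ} (hp : Wge w a p) (hq : Wge w b q) :
    wc w (a + b) (p * q) = wc w a p * wc w b q := by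
  ext m
  rw [coeff_wc, coeff_mul, coeff_mul]
  split_ifs with h
  · refine Finset.sum_congr rfl fun x hx => ?_
    rw [Finset.HasAntidiagonal.mem_antidiagonal] at hx
    rw [coeff_wc, coeff_wc]
    by_cases h1 : coeff x.1 p = 0
    · rw [h1]; simp
    by_cases h2 : coeff x.2 q = 0
    · rw [h2]; simp
    have h3 := hp _ h1
    have h4 := hq _ h2
    rw [← hx, mw_add] at h
    rw [if_pos (by omega), if_pos (by omega)]
  · symm
    refine Finset.sum_eq_zero fun x hx => ?_
    rw [Finset.HasAntidiagonal.mem_antidiagonal] at hx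
    rw [coeff_wc, coeff_wc]
    by_cases h1 : mw w x.1 = a
    · by_cases h2 : mw w x.2 = b
      · exact absurd (by rw [← hx, mw_add, h1, h2]) h
      · rw [if_neg h2, mul_zero]
    · rw [if_neg h1, zero_mul]

theorem wc_mul_left {a n : ℤ} {g p : MvPolynomial σ ℂ} (hg : IsW w a g) :
    wc w (a + n) (g * p) = g * wc w n p := by
  ext m
  rw [coeff_wc, coeff_mul, coeff_mul]
  split_ifs with h
  · refine Finset.sum_congr rfl fun x hx => ?_
    rw [Finset.HasAntidiagonal.mem_antidiagonal] at hx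
    rw [coeff_wc]
    by_cases h1 : coeff x.1 g = 0
    · rw [h1]; simp
    have h3 := hg _ h1
    rw [← hx, mw_add] at h
    rw [if_pos (by omega)]
  · symm
    refine Finset.sum_eq_zero fun x hx => ?_
    rw [Finset.HasAntidiagonal.mem_antidiagonal] at hx
    rw [coeff_wc]
    by_cases h1 : coeff x.1 g = 0
    · rw [h1]; simp
    by_cases h2 : mw w x.2 = n
    · exact absurd (by rw [← hx, mw_add, hg _ h1, h2]) h
    · rw [if_neg h2, mul_zero]

theorem wc_pderiv (n : ℤ) (i : σ) (p : MvPolynomial σ ℂ) :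
    wc w n (pderiv i p) = pderiv i (wc w (n + w i) p) := by
  ext m
  rw [coeff_wc, coeff_pderiv, coeff_pderiv, coeff_wc, mw_add, mw_single]
  by_cases h : mw w m = n
  · rw [if_pos h, if_pos (by rw [h])]
  · rw [if_neg h, if_neg (by omega), zero_mul]

theorem isW_wc (n : ℤ) (p : MvPolynomial σ ℂ) : IsW w n (wc w n p) := by
  intro m hm
  rw [coeff_wc] at hm
  split_ifs at hm with h
  · exact h
  · exact absurd rfl hm

theorem IsW.pderiv {n : ℤ} {p : MvPolynomial σ ℂ} (hp : IsW w n p) (i : σ) :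
    IsW w (n - w i) (pderiv i p) := by
  intro m hm
  have := hp _ (coeff_pderiv_ne hm)
  rw [mw_add, mw_single] at this
  linarith

theorem IsW.wge {n : ℤ} {p : MvPolynomial σ ℂ} (hp : IsW w n p) : Wge w n p :=
  fun m hm => (hp m hm).ge

theorem IsW.wc_self {n : ℤ} {p : MvPolynomial σ ℂ} (hp : IsW w n p) : wc w n p = p := by
  ext m
  rw [coeff_wc]
  split_ifs with h
  · rfl
  · by_contra h1
    exact h (hp m fun h2 => h1 h2.symm)

theorem isHomogeneous_wc {N : ℕ} {p : MvPolynomial σ ℂ} (hp : p.IsHomogeneous N) (n : ℤ) :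
    (wc w n p).IsHomogeneous N := by
  intro m hm
  rw [coeff_wc] at hm
  split_ifs at hm with h
  · exact hp hm
  · exact absurd rfl hm

theorem wc_one : wc w 0 (1 : MvPolynomial σ ℂ) = 1 := by
  apply IsW.wc_self
  intro m hm
  rw [coeff_one] at hm
  split_ifs at hm with h
  · rw [← h, mw]; simp
  · exact absurd rfl hm

theorem wc_pow {p : MvPolynomial σ ℂ} (hp : Wge w 0 p) (k : ℕ) :
    wc w 0 (p ^ k) = wc w 0 p ^ k := by
  induction k with
  | zero => rw [pow_zero, pow_zero, wc_one]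
  | succ k ih =>
    have h1 := wc_mul (hp.pow k) hp
    rw [mul_zero, zero_add] at h1
    rw [pow_succ, h1, ih, pow_succ]

/-- all monomials of `p` have weights which are bounded from below -/
theorem exists_wge (w : σ → ℤ) (p : MvPolynomial σ ℂ) : ∃ M : ℕ, Wge w (-(M : ℤ)) p := by
  refine ⟨∑ m ∈ p.support, (mw w m).natAbs, fun m hm => ?_⟩
  have h1 : (mw w m).natAbs ≤ ∑ m ∈ p.support, (mw w m).natAbs :=
    Finset.single_le_sum (f := fun m => (mw w m).natAbs) (fun _ _ => Nat.zero_le _)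
      (mem_support_iff.2 hm)
  have h2 : ((mw w m).natAbs : ℤ) ≤ (∑ m ∈ p.support, (mw w m).natAbs : ℕ) := by exact_mod_cast h1
  have h3 : -((mw w m).natAbs : ℤ) ≤ mw w m := by omega
  linarith

/-- the initial form -/
theorem exists_wc_ne {p : MvPolynomial σ ℂ} (hp : p ≠ 0) :
    ∃ n : ℤ, Wge w n p ∧ wc w n p ≠ 0 := by
  obtain ⟨m, hm, hmin⟩ := Finset.exists_min_image p.support (mw w) (support_nonempty.2 hp)
  refine ⟨mw w m, fun m' hm' => hmin m' (mem_support_iff.2 hm'), fun h => ?_⟩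
  have h1 := congrArg (coeff m) h
  rw [coeff_wc, if_pos rfl, coeff_zero] at h1
  exact mem_support_iff.1 hm h1

theorem wge_of_mul {n : ℤ} {g p : MvPolynomial σ ℂ} (hg : Wge w 0 g) (hg0 : wc w 0 g ≠ 0)
    (h : Wge w n (g * p)) : Wge w n p := by
  by_cases hp : p = 0
  · rw [hp]; exact Wge.zero n
  obtain ⟨k, hk1, hk2⟩ := exists_wc_ne (w := w) hp
  refine hk1.mono ?_
  by_contra hlt
  push Not at hlt
  have h1 := wc_mul hg hk1
  rw [zero_add, wc_eq_zero hlt h] at h1
  exact mul_ne_zero hg0 hk2 h1.symm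

end Wt

section Trunc

variable {σ : Type}

/-- the binomial coefficients -/
noncomputable def bc (c : ℂ) : ℕ → ℂ
  | 0 => 1
  | M + 1 => (c - M) / (M + 1) * bc c M

theorem bc_rec (c : ℂ) (M : ℕ) : ((M : ℂ) + 1) * bc c (M + 1) = (c - M) * bc c M := by
  have h4 : ((M : ℂ) + 1) ≠ 0 := by exact_mod_cast M.succ_ne_zero
  rw [bc]
  field_simp

/-- the truncated binomial series of `(g + h) ^ c / g ^ (c - M)` -/
noncomputable def tb (c : ℂ) (g h : MvPolynomial σ ℂ) : ℕ → MvPolynomial σ ℂ
  | 0 => 1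
  | M + 1 => g * tb c g h M + C (bc c (M + 1)) * h ^ (M + 1)

theorem tb_deriv (c : ℂ) (g h : MvPolynomial σ ℂ)
    (d : Derivation ℂ (MvPolynomial σ ℂ) (MvPolynomial σ ℂ)) (M : ℕ) :
    (g + h) * g * d (tb c g h M) + C (c - M) * (g + h) * tb c g h M * d g -
      C c * g * tb c g h M * d (g + h) =
      C ((M - c) * bc c M) * h ^ M * (g * d h - h * d g) := by
  induction M with
  | zero =>
    rw [tb, Derivation.map_one_eq_zero, bc, map_add]
    simp only [Nat.cast_zero, sub_zero, zero_sub, mul_one, mul_zero, zero_add, C_neg, pow_zero]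
    ring
  | succ M ih =>
    have h1 := bc_rec c M
    have h2 : C (((M : ℂ) + 1) * bc c (M + 1)) =
      (C ((c - M) * bc c M) : MvPolynomial σ ℂ) := by rw [h1]
    have h3 : d (tb c g h (M + 1)) = d g * tb c g h M + g * d (tb c g h M) +
        C (bc c (M + 1)) * (C ((M : ℂ) + 1) * h ^ M * d h) := by
      rw [tb, map_add, Derivation.leibniz, Derivation.leibniz, Derivation.leibniz_pow,
        ← algebraMap_eq, Derivation.map_algebraMap]
      simp only [smul_eq_mul, smul_zero, add_zero, nsmul_eq_mul, Nat.add_sub_cancel,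
        algebraMap_eq, C_add, C_1]
      have h5 : (C (M : ℂ) : MvPolynomial σ ℂ) = (M : MvPolynomial σ ℂ) := by simp
      rw [h5]
      push_cast
      ring
    rw [h3, tb]
    have h6 : d (g + h) = d g + d h := map_add d g h
    rw [h6] at ih ⊢
    have h5 : (C (M : ℂ) : MvPolynomial σ ℂ) = (M : MvPolynomial σ ℂ) := by simp
    simp only [C_mul, C_sub, C_add, C_1, h5] at ih h2 ⊢
    push_cast
    simp only [C_add, C_1, h5]
    linear_combination g * ih + h ^ M * (g * d h - h * d g) * g * h2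

end Trunc

end Pool.Agent.Helper748.MC
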