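import Pool.Agent.helper748_mc.Fan
import Pool.Agent.helper748_mc.Wt

set_option autoImplicit false
set_option linter.unusedSectionVars false

/-! # Ternary forms with a point of multiplicity `d - 2`: integration over `x₂` -/

namespace Pool.Agent.Helper748.MC

open MvPolynomial

/-- `G ^ (1 - c)` times the derivative of `g G ^ c` with respect to `x₂` -/
noncomputable def Lz (G : MvPolynomial (Fin 3) ℂ) (c : ℂ) (g : MvPolynomial (Fin 3) ℂ) :
    MvPolynomial (Fin 3) ℂ := G * pderiv 2 g + C c * pderiv 2 G * g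

theorem Lz_add (G : MvPolynomial (Fin 3) ℂ) (c : ℂ) (g h : MvPolynomial (Fin 3) ℂ) :
    Lz G c (g + h) = Lz G c g + Lz G c h := by
  simp only [Lz, map_add]; ring

theorem Lz_sub (G : MvPolynomial (Fin 3) ℂ) (c : ℂ) (g h : MvPolynomial (Fin 3) ℂ) :
    Lz G c (g - h) = Lz G c g - Lz G c h := by
  simp only [Lz, map_sub]; ring

theorem Lz_mul (G : MvPolynomial (Fin 3) ℂ) (c : ℂ) {h : MvPolynomial (Fin 3) ℂ}
    (hh : pderiv 2 h = 0) (g : MvPolynomial (Fin 3) ℂ) : Lz G c (h * g) = h * Lz G c g := by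
  simp only [Lz, Derivation.leibniz, hh, smul_eq_mul, mul_zero, add_zero]; ring

section Fibre

variable {G A E : MvPolynomial (Fin 3) ℂ}

theorem iter_G2 (hA : pderiv 2 A = 0) (hG : pderiv 2 G = E) (hE : pderiv 2 E = C 2 * A)
    (W : MvPolynomial (Fin 3) ℂ) (n : ℕ) : (pderiv (2 : Fin 3))^[n + 1] (G * pderiv 2 W) =
      G * (pderiv (2 : Fin 3))^[n + 2] W + C ((n : ℂ) + 1) * (E * (pderiv (2 : Fin 3))^[n + 1] W) +
        C (((n : ℂ) + 1) * n) * (A * (pderiv (2 : Fin 3))^[n] W) := by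
  induction n with
  | zero =>
    simp only [zero_add, Function.iterate_one, Function.iterate_succ, Function.comp_apply,
      Function.iterate_zero, id_eq, Nat.cast_zero, mul_zero, C_0, zero_mul, add_zero, C_1, one_mul]
    rw [Derivation.leibniz, hG]
    simp only [smul_eq_mul]
    ring
  | succ n ih =>
    rw [Function.iterate_succ_apply', ih]
    have h1 : ∀ k, pderiv 2 ((pderiv (2 : Fin 3))^[k] W) = (pderiv (2 : Fin 3))^[k + 1] W :=
      fun k => (Function.iterate_succ_apply' _ _ _).symm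
    simp only [Derivation.map_add, Derivation.leibniz, hA, hG, hE, pderiv_C, smul_eq_mul, mul_zero,
      add_zero, h1]
    have e1 : (C (((n + 1 : ℕ) : ℂ) + 1) : MvPolynomial (Fin 3) ℂ) = C ((n : ℂ) + 1) + 1 := by
      rw [← C_1, ← C_add]; congr 1; push_cast; ring
    have e2 : (C ((((n + 1 : ℕ) : ℂ) + 1) * ((n + 1 : ℕ) : ℂ)) : MvPolynomial (Fin 3) ℂ) =
        C (((n : ℂ) + 1) * n) + C ((n : ℂ) + 1) * C 2 := by
      rw [← C_mul, ← C_add]; congr 1; push_cast; ring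
    rw [e1, e2]
    ring

theorem iter_E (hA : pderiv 2 A = 0) (hE : pderiv 2 E = C 2 * A)
    (W : MvPolynomial (Fin 3) ℂ) (n : ℕ) : (pderiv (2 : Fin 3))^[n + 1] (E * W) =
      E * (pderiv (2 : Fin 3))^[n + 1] W +
        C (2 * ((n : ℂ) + 1)) * (A * (pderiv (2 : Fin 3))^[n] W) := by
  induction n with
  | zero =>
    simp only [zero_add, Function.iterate_one, Function.iterate_zero, id_eq, Nat.cast_zero, mul_one]
    rw [Derivation.leibniz, hE]
    simp only [smul_eq_mul]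
    ring
  | succ n ih =>
    rw [Function.iterate_succ_apply', ih]
    have h1 : ∀ k, pderiv 2 ((pderiv (2 : Fin 3))^[k] W) = (pderiv (2 : Fin 3))^[k + 1] W :=
      fun k => (Function.iterate_succ_apply' _ _ _).symm
    simp only [Derivation.map_add, Derivation.leibniz, hA, hE, pderiv_C, smul_eq_mul, mul_zero,
      add_zero, h1]
    have e2 : (C (2 * (((n + 1 : ℕ) : ℂ) + 1)) : MvPolynomial (Fin 3) ℂ) =
        C (2 * ((n : ℂ) + 1)) + C 2 := by
      rw [← C_add]; congr 1; push_cast; ring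
    rw [e2]
    ring

/-- iterates of `Lz` on the last possible order -/
theorem iter_Lz (hA : pderiv 2 A = 0) (hG : pderiv 2 G = E) (hE : pderiv 2 E = C 2 * A) (c : ℂ)
    {W : MvPolynomial (Fin 3) ℂ} {n : ℕ} (hW : (pderiv (2 : Fin 3))^[n + 1] W = 0) :
    (pderiv (2 : Fin 3))^[n + 1] (Lz G c W) =
      C (((n : ℂ) + 1) * (n + 2 * c)) * (A * (pderiv (2 : Fin 3))^[n] W) := by
  have hW2 : (pderiv (2 : Fin 3))^[n + 2] W = 0 := by
    rw [Function.iterate_succ_apply', hW, map_zero]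
  rw [Lz, iterate_map_add, iter_G2 hA hG hE, hW, hW2, mul_zero, mul_zero, mul_zero, zero_add,
    zero_add, hG, mul_assoc, iter_mul_const pderiv_C, iter_E hA hE, hW, mul_zero, zero_add]
  have e2 : (C (((n : ℂ) + 1) * (n + 2 * c)) : MvPolynomial (Fin 3) ℂ) =
      C (((n : ℂ) + 1) * n) + C c * C (2 * ((n : ℂ) + 1)) := by
    rw [← C_mul, ← C_add]; congr 1; ring
  rw [e2]
  ring

theorem ker_Lz {c : ℂ} (hA0 : A ≠ 0) (hA : pderiv 2 A = 0) (hG : pderiv 2 G = E)
    (hE : pderiv 2 E = C 2 * A) (hc : ∀ n : ℕ, 2 * c + n ≠ 0) {W κ : MvPolynomial (Fin 3) ℂ}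
    (hκ : pderiv 2 κ = 0) (h : Lz G c W = κ) : κ = 0 := by
  suffices hW : W = 0 by rw [← h, hW, Lz]; simp
  by_contra hW
  classical
  have hex : ∃ n, (pderiv (2 : Fin 3))^[n] W = 0 := by
    obtain ⟨N, hN⟩ := iter_zero W
    exact ⟨N, hN N le_rfl⟩
  obtain ⟨n, hn, hmin⟩ : ∃ n, (pderiv (2 : Fin 3))^[n + 1] W = 0 ∧
      (pderiv (2 : Fin 3))^[n] W ≠ 0 := by
    have h1 := Nat.find_spec hex
    have h2 : Nat.find hex ≠ 0 := by
      intro h0
      rw [h0] at h1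
      exact hW h1
    obtain ⟨n, hn⟩ := Nat.exists_eq_succ_of_ne_zero h2
    refine ⟨n, ?_, Nat.find_min hex (by omega)⟩
    rw [← Nat.succ_eq_add_one, ← hn]
    exact h1
  have h3 := iter_Lz hA hG hE c hn
  rw [h, Function.iterate_succ_apply, hκ, iterate_map_zero] at h3
  rcases mul_eq_zero.1 h3.symm with h5 | h5
  · rw [C_eq_zero] at h5
    rcases mul_eq_zero.1 h5 with h6 | h6
    · have : ((n : ℂ) + 1) ≠ 0 := Nat.cast_add_one_ne_zero n
      exact this h6
    · exact hc n (by linear_combination h6)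
  · rcases mul_eq_zero.1 h5 with h6 | h6
    · exact hA0 h6
    · exact hmin h6

/-- degree at most `N` -/
abbrev Dle (N : ℤ) (p : MvPolynomial (Fin 3) ℂ) : Prop := Wge (fun _ : Fin 3 => (-1 : ℤ)) (-N) p

theorem Dle.mul' {a b : ℤ} {p q : MvPolynomial (Fin 3) ℂ} (hp : Dle a p) (hq : Dle b q) :
    Dle (a + b) (p * q) := by
  have := Wge.mul hp hq
  rwa [← neg_add] at this

theorem Dle.pd {a : ℤ} {p : MvPolynomial (Fin 3) ℂ} (hp : Dle a p) (i : Fin 3) :
    Dle (a - 1) (pderiv i p) := by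
  have := Wge.pderiv hp i
  rwa [show -a - -1 = -(a - 1) by ring] at this

theorem Dle.mono' {a b : ℤ} {p : MvPolynomial (Fin 3) ℂ} (hp : Dle a p) (h : a ≤ b) : Dle b p :=
  Wge.mono (by linarith) hp

/-- Reduction to polynomials which do not depend on `x₂`. -/
theorem exists_red {c : ℂ} {d : ℤ} (hA : pderiv 2 A = 0) (hG : pderiv 2 G = E)
    (hE : pderiv 2 E = C 2 * A) (hc : ∀ n : ℕ, 2 * c + n ≠ 0) (hGd : Dle d G)
    (hAd : Dle (d - 2) A) (n : ℕ) : ∀ (N : ℤ) (P : MvPolynomial (Fin 3) ℂ), Dle N P →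
    (pderiv (2 : Fin 3))^[n + 1] P = 0 → ∃ (M : ℕ) (g κ : MvPolynomial (Fin 3) ℂ),
      pderiv 2 κ = 0 ∧ Dle (N + M * (d - 2)) κ ∧ A ^ M * P = Lz G c g + κ := by
  have hEd : Dle (d - 1) E := by rw [← hG]; exact hGd.pd 2
  induction n with
  | zero =>
    intro N P hN hP
    refine ⟨0, 0, P, hP, ?_, ?_⟩
    · simpa using hN
    · simp [Lz]
  | succ n ih =>
    intro N P hN hP
    have hAM : ∀ m : ℕ, pderiv 2 (A ^ m) = 0 := by
      intro m
      rw [Derivation.leibniz_pow, hA]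
      simp
    set r : ℂ := (((n : ℂ) + 1) * (n + 2 * c))⁻¹ with hr
    have hr0 : ((n : ℂ) + 1) * (n + 2 * c) ≠ 0 := by
      refine mul_ne_zero (Nat.cast_add_one_ne_zero n) ?_
      have := hc n
      intro h0
      exact this (by linear_combination h0)
    set P' := A * P - C r * Lz G c (pderiv 2 P) with hP'
    have h0 : (pderiv (2 : Fin 3))^[n + 1] (pderiv 2 P) = 0 := by
      rw [← Function.iterate_succ_apply]
      exact hP
    have h1 : (pderiv (2 : Fin 3))^[n + 1] P' = 0 := by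
      rw [hP', iterate_map_sub, iter_mul_const hA, iter_mul_const pderiv_C,
        iter_Lz hA hG hE c h0, ← Function.iterate_succ_apply]
      have h2 : (C r * C (((n : ℂ) + 1) * (n + 2 * c)) : MvPolynomial (Fin 3) ℂ) = 1 := by
        rw [← C_mul, hr, inv_mul_cancel₀ hr0, C_1]
      linear_combination (-(A * (pderiv (2 : Fin 3))^[n + 1] P)) * h2
    have h2 : Dle (N + (d - 2)) P' := by
      rw [hP']
      refine Wge.sub ?_ (Wge.C_mul ?_ r)
      · have := hAd.mul' hN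
        rwa [show d - 2 + N = N + (d - 2) by ring] at this
      · rw [Lz]
        refine Wge.add ?_ ?_
        · have := hGd.mul' ((hN.pd 2).pd 2)
          rwa [show d + (N - 1 - 1) = N + (d - 2) by ring] at this
        · rw [mul_assoc]
          refine Wge.C_mul ?_ c
          rw [hG]
          have := hEd.mul' (hN.pd 2)
          rwa [show d - 1 + (N - 1) = N + (d - 2) by ring] at this
    obtain ⟨M', g', κ, hκ, hκd, hg'⟩ := ih _ P' h2 h1
    refine ⟨M' + 1, g' + A ^ M' * (C r * pderiv 2 P), κ, hκ, ?_, ?_⟩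
    · have e : N + (d - 2) + (M' : ℤ) * (d - 2) = N + ((M' + 1 : ℕ) : ℤ) * (d - 2) := by
        push_cast; ring
      rwa [e] at hκd
    · rw [Lz_add, Lz_mul G c (hAM M'), Lz_mul G c pderiv_C]
      rw [hP'] at hg'
      linear_combination hg'

end Fibre

section Chain

variable {G A E Δ : MvPolynomial (Fin 3) ℂ}

theorem chain {c : ℂ} (hA : pderiv 2 A = 0) (hG : pderiv 2 G = E) (hE : pderiv 2 E = C 2 * A)
    (hΔ : pderiv 2 Δ = 0) (hD : E ^ 2 = Δ + C 4 * (A * G)) (hc1 : ∀ n : ℕ, c + n ≠ 0)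
    (hc2 : ∀ n : ℕ, 4 * (c + n) + 2 ≠ 0) (K : ℕ) : ∃ (c1 c2 : ℂ) (g : MvPolynomial (Fin 3) ℂ),
      c1 ≠ 0 ∧ c2 ≠ 0 ∧ C c1 * (A ^ (K + 1) * G ^ (K + 1)) = Lz G c g + C c2 * Δ ^ (K + 1) := by
  induction K with
  | zero =>
    have h1 := hc1 0
    have h2 := hc2 0
    rw [Nat.cast_zero, add_zero] at h1 h2
    refine ⟨4 * c + 2, -c, E, h2, neg_ne_zero.2 h1, ?_⟩
    rw [Lz, hG, hE, C_add, C_mul, C_neg]
    have h4 : (C 4 : MvPolynomial (Fin 3) ℂ) = 4 := map_ofNat C 4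
    have h2 : (C 2 : MvPolynomial (Fin 3) ℂ) = 2 := map_ofNat C 2
    rw [h4, h2]
    rw [h4] at hD
    linear_combination (-C c) * hD
  | succ K ih =>
    obtain ⟨c1, c2, g, h1, h2, h⟩ := ih
    have h3 := hc1 (K + 1)
    have h4 := hc2 (K + 1)
    set τ : ℂ := c + (K + 1 : ℕ) with hτ
    refine ⟨c1 * (4 * τ + 2), -(τ * c2), C c1 * (A ^ (K + 1) * (E * G ^ (K + 1))) - C τ * (Δ * g),
      mul_ne_zero h1 h4, neg_ne_zero.2 (mul_ne_zero h3 h2), ?_⟩
    have hAM : ∀ m : ℕ, pderiv 2 (A ^ m) = 0 := by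
      intro m
      rw [Derivation.leibniz_pow, hA]
      simp
    rw [Lz_sub, Lz_mul G c pderiv_C, Lz_mul G c (hAM _), Lz_mul G c pderiv_C, Lz_mul G c hΔ]
    have hGK : pderiv 2 (G ^ (K + 1)) = C ((K : ℂ) + 1) * (G ^ K * E) := by
      rw [Derivation.leibniz_pow, hG]
      simp only [smul_eq_mul, nsmul_eq_mul, Nat.add_sub_cancel]
      push_cast
      rw [C_add, C_1]
      simp
    have hL : Lz G c (E * G ^ (K + 1)) = G ^ (K + 1) * (C 2 * (A * G) + C τ * E ^ 2) := by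
      rw [Lz, hG, Derivation.leibniz, hE, hGK]
      have e1 : (C τ : MvPolynomial (Fin 3) ℂ) = C c + C ((K : ℂ) + 1) := by
        rw [← C_add, hτ]; congr 1; push_cast; ring
      rw [e1]
      simp only [smul_eq_mul]
      ring
    rw [hL]
    have h44 : (C 4 : MvPolynomial (Fin 3) ℂ) = 4 := map_ofNat C 4
    have h22 : (C 2 : MvPolynomial (Fin 3) ℂ) = 2 := map_ofNat C 2
    rw [C_mul, C_add, C_mul, C_neg, C_mul, h44, h22]
    rw [h44] at hD
    linear_combination (-(C c1 * A ^ (K + 1) * G ^ (K + 1) * C τ)) * hD - C τ * Δ * h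

theorem red_G0 {c : ℂ} (hA : pderiv 2 A = 0) (hG : pderiv 2 G = E) (hE : pderiv 2 E = C 2 * A)
    (hD : E ^ 2 = Δ + C 4 * (A * G)) :
    C (4 * c * (2 * c + 1)) * (A ^ 2 * pderiv 0 G) =
      Lz G c (A * (C (2 * (2 * c + 1)) * pderiv 0 E) - pderiv 0 A * (C (2 * (c + 1)) * E)) +
      C (2 * c * (c + 1)) * (pderiv 0 A * Δ) - C (c * (2 * c + 1)) * (A * pderiv 0 Δ) := by
  have hA02 : pderiv 2 (pderiv 0 A) = 0 := by rw [pderiv_comm', hA, map_zero]
  have hE02 : pderiv 2 (pderiv 0 E) = C 2 * pderiv 0 A := by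
    rw [pderiv_comm', hE, pderiv_C_mul]
  rw [Lz_sub, Lz_mul G c hA, Lz_mul G c pderiv_C, Lz_mul G c hA02, Lz_mul G c pderiv_C]
  have h1 : Lz G c (pderiv 0 E) = C 2 * (pderiv 0 A * G) + C c * (E * pderiv 0 E) := by
    rw [Lz, hE02, hG]; ring
  have h2 : Lz G c E = C 2 * (A * G) + C c * E ^ 2 := by
    rw [Lz, hE, hG]; ring
  have h3 := congrArg (fun p => pderiv 0 p) hD
  simp only [Derivation.map_add, Derivation.leibniz, Derivation.leibniz_pow, pderiv_C,
    smul_eq_mul, mul_zero, add_zero] at h3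
  rw [h1, h2]
  have h44 : (C 4 : MvPolynomial (Fin 3) ℂ) = 4 := map_ofNat C 4
  have h22 : (C 2 : MvPolynomial (Fin 3) ℂ) = 2 := map_ofNat C 2
  simp only [C_mul, C_add, C_1, h44, h22]
  rw [h44] at h3 hD
  simp only [Nat.add_one_sub_one, pow_one, nsmul_eq_mul, Nat.cast_ofNat] at h3
  linear_combination (-(C c * (2 * C c + 1) * A)) * h3 + 2 * C c * (C c + 1) * pderiv 0 A * hD

/-- The derivative with respect to `x₀` commutes with the integration over `x₂`. -/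
theorem Lz_comm {c : ℂ} (hA : pderiv 2 A = 0) (hG : pderiv 2 G = E) (M : ℂ)
    (g : MvPolynomial (Fin 3) ℂ) :
    G * (A * pderiv 0 (Lz G (c + 1) g)) - C M * (pderiv 0 A * (G * Lz G (c + 1) g)) +
      C c * (A * (pderiv 0 G * Lz G (c + 1) g)) =
    Lz G c (A * (G * pderiv 0 g + C (c + 1) * (pderiv 0 G * g)) -
      C M * (pderiv 0 A * (G * g))) := by
  have hA02 : pderiv 2 (pderiv 0 A) = 0 := by rw [pderiv_comm', hA, map_zero]
  have hG02 : pderiv 2 (pderiv 0 G) = pderiv 0 E := by rw [pderiv_comm', hG]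
  have hcomm := pderiv_comm' (2 : Fin 3) 0 g
  simp only [Lz, Derivation.map_add, Derivation.map_sub, Derivation.leibniz, pderiv_C, hA, hG,
    hA02, hG02, hcomm, smul_eq_mul, mul_zero, add_zero]
  rw [show (C (c + 1) : MvPolynomial (Fin 3) ℂ) = C c + 1 by rw [C_add, C_1]]
  ring

theorem quad_eq {s : ℂ} {K : ℕ} {d N : ℤ} (hA0 : A ≠ 0) (hA : pderiv 2 A = 0)
    (hG : pderiv 2 G = E) (hE : pderiv 2 E = C 2 * A) (hΔ : pderiv 2 Δ = 0)
    (hD : E ^ 2 = Δ + C 4 * (A * G)) (hs : ∀ n : ℤ, 2 * s + n ≠ 0) (hGd : Dle d G)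
    (hAd : Dle (d - 2) A) {Y P Q : MvPolynomial (Fin 3) ℂ} (hY : pderiv 2 Y = 0) (hP : Dle N P)
    (h : Y * G ^ (K + 1) = G * (pderiv 0 P + pderiv 2 Q) +
        C (s - K) * (pderiv 0 G * P + pderiv 2 G * Q)) :
    ∃ (M : ℕ) (κ : MvPolynomial (Fin 3) ℂ) (C1 C2 : ℂ), C1 ≠ 0 ∧ C2 ≠ 0 ∧
      Dle (N + M * (d - 2)) κ ∧ C C1 * (Y * (A ^ (M + 1) * Δ ^ (K + 1))) =
        C C2 * (A ^ K * (A * (Δ * pderiv 0 κ) + (C (s - K + 1 / 2) * (A * pderiv 0 Δ) -
          C (s - K + 1 + M) * (pderiv 0 A * Δ)) * κ)) := by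
  set c : ℂ := s - K with hc
  have hc0 : ∀ n : ℤ, 2 * c + n ≠ 0 := by
    intro n h0
    have := hs (n - 2 * K)
    push_cast at this
    apply this
    rw [hc] at h0
    linear_combination h0
  have hc0' : ∀ n : ℕ, 2 * c + n ≠ 0 := fun n => by
    have := hc0 n
    push_cast at this
    exact this
  have hc1 : ∀ n : ℕ, c + n ≠ 0 := fun n h0 => by
    have := hc0 (2 * n)
    push_cast at this
    exact this (by linear_combination 2 * h0)
  have hc2 : ∀ n : ℕ, 4 * (c + n) + 2 ≠ 0 := fun n h0 => by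
    have := hc0 (2 * n + 1)
    push_cast at this
    exact this (by linear_combination (1 / 2 : ℂ) * h0)
  have hc3 : ∀ n : ℕ, 2 * (c + 1) + n ≠ 0 := fun n h0 => by
    have := hc0 (n + 2)
    push_cast at this
    exact this (by linear_combination h0)
  obtain ⟨n, hn⟩ := iter_zero P
  obtain ⟨M, g, κ, hκ, hκd, hg⟩ := exists_red hA hG hE hc3 hGd hAd n N P hP (hn (n + 1) (by omega))
  obtain ⟨c1, c2, g', hc1', hc2', hch⟩ := chain hA hG hE hΔ hD hc1 hc2 K
  have hc00 : c ≠ 0 := by simpa using hc1 0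
  have hc01 : 2 * c + 1 ≠ 0 := by simpa using hc0' 1
  refine ⟨M, κ, 4 * (2 * c + 1) * c2, -(2 * c * c1), mul_ne_zero (mul_ne_zero (by norm_num) hc01)
    hc2', neg_ne_zero.2 (mul_ne_zero (mul_ne_zero two_ne_zero hc00) hc1'), hκd, ?_⟩
  have hAM : ∀ m : ℕ, pderiv 2 (A ^ m) = 0 := by
    intro m
    rw [Derivation.leibniz_pow, hA]
    simp
  have hA02 : pderiv 2 (pderiv 0 A) = 0 := by rw [pderiv_comm', hA, map_zero]
  have hκ02 : pderiv 2 (pderiv 0 κ) = 0 := by rw [pderiv_comm', hκ, map_zero]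
  have hΔ02 : pderiv 2 (pderiv 0 Δ) = 0 := by rw [pderiv_comm', hΔ, map_zero]
  have hA0M : A * pderiv 0 (A ^ M) = C (M : ℂ) * (A ^ M * pderiv 0 A) := by
    rw [Derivation.leibniz_pow]
    rcases M with _ | M
    · simp
    · simp only [smul_eq_mul, nsmul_eq_mul, Nat.add_sub_cancel]
      simp only [map_natCast]
      ring
  -- the equation up to exact terms
  set Wg := A * (G * pderiv 0 g + C (c + 1) * (pderiv 0 G * g)) -
      C (M : ℂ) * (pderiv 0 A * (G * g)) with hWg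
  have hcom := Lz_comm (c := c) hA hG (M : ℂ) g
  rw [← hWg] at hcom
  have hd := congrArg (fun p => pderiv 0 p) hg
  simp only [Derivation.map_add, Derivation.leibniz, smul_eq_mul] at hd
  have hLQ : Lz G c Q = G * pderiv 2 Q + C c * (E * Q) := by rw [Lz, hG]; ring
  rw [hG] at h
  have hI : A ^ (M + 1) * (Y * G ^ (K + 1)) = G * (A * pderiv 0 κ - C (M : ℂ) * (pderiv 0 A * κ)) +
      C c * (A * (κ * pderiv 0 G)) + Lz G c (Wg + A ^ (M + 1) * Q) := by
    rw [Lz_add, Lz_mul G c (hAM (M + 1)), ← hcom, hLQ, h]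
    have e : A ^ (M + 1) = A * A ^ M := by ring
    rw [e]
    linear_combination A * G * hd - G * P * hA0M +
      (C c * A * pderiv 0 G - C (M : ℂ) * pderiv 0 A * G) * hg
  have hii : C (2 * (2 * c + 1)) * (A * G) = Lz G c E - C c * Δ := by
    rw [Lz, hG, hE]
    have h44 : (C 4 : MvPolynomial (Fin 3) ℂ) = 4 := map_ofNat C 4
    have h22 : (C 2 : MvPolynomial (Fin 3) ℂ) = 2 := map_ofNat C 2
    simp only [C_mul, C_add, C_1, h22]
    rw [h44] at hD
    linear_combination (-C c) * hD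
  have hG0 := red_G0 (c := c) hA hG hE hD
  set V := A * (C (2 * (2 * c + 1)) * pderiv 0 E) - pderiv 0 A * (C (2 * (c + 1)) * E) with hV
  -- the exact term
  set T := A * pderiv 0 κ - C (M : ℂ) * (pderiv 0 A * κ) with hT
  have hT2 : pderiv 2 T = 0 := by
    rw [hT, Derivation.map_sub, Derivation.leibniz, hA, hκ02, pderiv_C_mul, Derivation.leibniz,
      hA02, hκ]
    simp
  have hker := ker_Lz (c := c) (W := C c1 * (A ^ K * (C (4 * (2 * c + 1)) * (A * (Wg +
      A ^ (M + 1) * Q)) + C 2 * (T * E) + κ * V)) - C (4 * (2 * c + 1)) * (Y * (A ^ (M + 1) * g')))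
      (κ := C (4 * (2 * c + 1) * c2) * (Y * (A ^ (M + 1) * Δ ^ (K + 1))) -
        C (-(2 * c * c1)) * (A ^ K * (A * (Δ * pderiv 0 κ) + (C (c + 1 / 2) * (A * pderiv 0 Δ) -
          C (c + 1 + M) * (pderiv 0 A * Δ)) * κ))) hA0 hA hG hE hc0' ?_ ?_
  · exact sub_eq_zero.1 hker
  · have hΔK : pderiv 2 (Δ ^ (K + 1)) = 0 := by
      rw [Derivation.leibniz_pow, hΔ]; simp
    simp only [Derivation.map_sub, Derivation.map_add, Derivation.leibniz, pderiv_C, hY, hAM, hΔK,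
      hA, hΔ, hκ, hκ02, hA02, hΔ02, smul_eq_mul, mul_zero, add_zero, sub_zero]
  · rw [Lz_sub, Lz_mul G c pderiv_C, Lz_mul G c (hAM K), Lz_add, Lz_add, Lz_mul G c pderiv_C,
      Lz_mul G c hA, Lz_mul G c pderiv_C, Lz_mul G c hT2, Lz_mul G c hκ, Lz_mul G c pderiv_C,
      Lz_mul G c hY, Lz_mul G c (hAM (M + 1))]
    have hhalf : (C (c + 1 / 2) : MvPolynomial (Fin 3) ℂ) * 2 = 2 * C c + 1 := by
      have : (2 : MvPolynomial (Fin 3) ℂ) = C 2 := (map_ofNat C 2).symm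
      rw [this, ← C_mul, ← C_mul, ← C_1, ← C_add]; congr 1; ring
    have h44 : (C 4 : MvPolynomial (Fin 3) ℂ) = 4 := map_ofNat C 4
    have h22 : (C 2 : MvPolynomial (Fin 3) ℂ) = 2 := map_ofNat C 2
    have hcM : (C (c + 1 + M) : MvPolynomial (Fin 3) ℂ) = C c + 1 + C (M : ℂ) := by
      rw [C_add, C_add, C_1]
    rw [hcM]
    simp only [C_mul, C_add, C_1, C_neg, h44, h22] at hii hG0 hhalf ⊢
    linear_combination (-(4 * (2 * C c + 1) * C c1 * A ^ K * A)) * hI -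
      2 * T * C c1 * A ^ K * hii - κ * C c1 * A ^ K * hG0 +
      4 * (2 * C c + 1) * Y * A ^ (M + 1) * hch -
      C c * C c1 * A ^ K * A * pderiv 0 Δ * κ * hhalf + 2 * C c * Δ * C c1 * A ^ K * hT

end Chain

end Pool.Agent.Helper748.MC
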