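import Mathlib

set_option autoImplicit false
set_option linter.unusedSectionVars false

/-! # Orders of vanishing for a differential equation of the first order -/

namespace Pool.Agent.Helper748.MC

open Polynomial

theorem ord_cmp (t : ℂ) {p q : ℕ} {F1 F2 F3 : ℂ[X]} {l : ℂ} (h1 : F1.eval t ≠ 0)
    (h2 : F2.eval t ≠ 0)
    (h : (X - C t) ^ p * F1 = (X - C t) ^ q * (C l * F2 + (X - C t) * F3)) :
    (l ≠ 0 ∧ p = q) ∨ (l = 0 ∧ q + 1 ≤ p) := by
  have hu : (X - C t : ℂ[X]) ≠ 0 := X_sub_C_ne_zero t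
  have hu0 : (X - C t : ℂ[X]).eval t = 0 := by simp
  by_cases hl : l = 0
  · right
    refine ⟨hl, ?_⟩
    by_contra hlt
    obtain ⟨r, hr⟩ : ∃ r, q = p + r := ⟨q - p, by omega⟩
    rw [hl, C_0, zero_mul, zero_add, hr, pow_add, mul_assoc] at h
    have h3 := mul_left_cancel₀ (pow_ne_zero p hu) h
    have h4 := congrArg (eval t) h3
    rw [eval_mul, eval_mul, hu0, zero_mul, mul_zero] at h4
    exact h1 h4
  · left
    refine ⟨hl, ?_⟩
    rcases lt_trichotomy p q with hlt | heq | hgt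
    · exfalso
      obtain ⟨r, hr⟩ : ∃ r, q = p + (r + 1) := ⟨q - p - 1, by omega⟩
      rw [hr, pow_add, mul_assoc] at h
      have h3 := mul_left_cancel₀ (pow_ne_zero p hu) h
      have h4 := congrArg (eval t) h3
      rw [eval_mul, eval_pow, hu0, zero_pow (Nat.succ_ne_zero r), zero_mul] at h4
      exact h1 h4
    · exact heq
    · exfalso
      obtain ⟨r, hr⟩ : ∃ r, p = q + (r + 1) := ⟨p - q - 1, by omega⟩
      rw [hr, pow_add, mul_assoc] at h
      have h3 := mul_left_cancel₀ (pow_ne_zero q hu) h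
      have h4 := congrArg (eval t) h3
      rw [eval_mul, eval_pow, hu0, zero_pow (Nat.succ_ne_zero r), zero_mul, eval_add, eval_mul,
        eval_C, eval_mul, hu0, zero_mul, add_zero] at h4
      exact mul_ne_zero hl h2 h4.symm

theorem ord_at (t : ℂ) {a δ k : ℂ[X]} {M K : ℕ} {C1 C2 s : ℂ} (ha : a ≠ 0) (hδ : δ ≠ 0)
    (hC1 : C1 ≠ 0) (hC2 : C2 ≠ 0) (hk : k ≠ 0)
    (h : C C1 * (a ^ (M + 1) * δ ^ (K + 1)) = C C2 * (a ^ K * (a * (δ * derivative k) +
      (C (s - K + 1 / 2) * (a * derivative δ) - C (s - K + 1 + M) * (derivative a * δ)) * k))) :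
    ((k.rootMultiplicity t : ℤ) = ((M : ℤ) - K) * a.rootMultiplicity t +
      K * δ.rootMultiplicity t + 1) ∨
    ∃ n : ℕ, (s + 1 / 2) * δ.rootMultiplicity t - (s + 1) * a.rootMultiplicity t = n ∧
      ((k.rootMultiplicity t : ℤ) = ((M : ℤ) - K) * a.rootMultiplicity t +
        K * δ.rootMultiplicity t - n) := by
  obtain ⟨a1, ha1, ha1'⟩ := exists_eq_pow_rootMultiplicity_mul_and_not_dvd a ha t
  obtain ⟨d1, hd1, hd1'⟩ := exists_eq_pow_rootMultiplicity_mul_and_not_dvd δ hδ t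
  obtain ⟨k1, hk1, hk1'⟩ := exists_eq_pow_rootMultiplicity_mul_and_not_dvd k hk t
  rw [dvd_iff_isRoot, IsRoot.def] at ha1' hd1' hk1'
  set α := a.rootMultiplicity t with hα
  set β := δ.rootMultiplicity t with hβ
  set m := k.rootMultiplicity t with hm
  set u : ℂ[X] := X - C t with hu
  have hder : ∀ (n : ℕ) (p : ℂ[X]), u * derivative (u ^ n * p) =
      u ^ n * (C (n : ℂ) * p + u * derivative p) := by
    intro n p
    have hu1 : derivative u = 1 := by rw [hu]; simp
    rw [derivative_mul, derivative_pow, hu1]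
    rcases n with _ | n
    · simp
    · simp only [Nat.add_sub_cancel]
      ring
  have ea : u * derivative a = u ^ α * (C (α : ℂ) * a1 + u * derivative a1) := by
    rw [ha1]; exact hder α a1
  have ed : u * derivative δ = u ^ β * (C (β : ℂ) * d1 + u * derivative d1) := by
    rw [hd1]; exact hder β d1
  have ek : u * derivative k = u ^ m * (C (m : ℂ) * k1 + u * derivative k1) := by
    rw [hk1]; exact hder m k1
  set l : ℂ := m + (s - K + 1 / 2) * β - (s - K + 1 + M) * α with hl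
  have h2 := congrArg (fun p => u * p) h
  have key : u ^ (1 + α * (M + 1) + β * (K + 1)) * (C C1 * (a1 ^ (M + 1) * d1 ^ (K + 1))) =
      u ^ (α * K + α + β + m) * (C l * (C C2 * (a1 ^ (K + 1) * (d1 * k1))) + u * (C C2 * (a1 ^ K *
        (a1 * d1 * derivative k1 + (C (s - K + 1 / 2) * (a1 * derivative d1) -
          C (s - K + 1 + M) * (derivative a1 * d1)) * k1)))) := by
    have e1 : u ^ (1 + α * (M + 1) + β * (K + 1)) * (C C1 * (a1 ^ (M + 1) * d1 ^ (K + 1))) =
        u * (C C1 * (a ^ (M + 1) * δ ^ (K + 1))) := by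
      conv_rhs => rw [ha1, hd1]
      rw [mul_pow, mul_pow, ← pow_mul, ← pow_mul]
      ring
    rw [e1, h]
    have e2 : (C l : ℂ[X]) = C (m : ℂ) + C (s - K + 1 / 2) * C (β : ℂ) -
        C (s - K + 1 + M) * C (α : ℂ) := by
      rw [← C_mul, ← C_mul, ← C_add, ← C_sub]
    rw [e2]
    have e3 : u * (C C2 * (a ^ K * (a * (δ * derivative k) + (C (s - K + 1 / 2) *
        (a * derivative δ) - C (s - K + 1 + M) * (derivative a * δ)) * k))) =
        C C2 * (a ^ K * (a * (δ * (u * derivative k)) + (C (s - K + 1 / 2) *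
        (a * (u * derivative δ)) - C (s - K + 1 + M) * ((u * derivative a) * δ)) * k)) := by
      ring
    rw [e3, ea, ed, ek]
    conv_lhs => rw [ha1, hd1, hk1]
    rw [mul_pow, ← pow_mul]
    ring
  have hF1 : (C C1 * (a1 ^ (M + 1) * d1 ^ (K + 1))).eval t ≠ 0 := by
    rw [eval_mul, eval_C, eval_mul, eval_pow, eval_pow]
    exact mul_ne_zero hC1 (mul_ne_zero (pow_ne_zero _ ha1') (pow_ne_zero _ hd1'))
  have hF2 : (C C2 * (a1 ^ (K + 1) * (d1 * k1))).eval t ≠ 0 := by
    rw [eval_mul, eval_C, eval_mul, eval_pow, eval_mul]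
    exact mul_ne_zero hC2 (mul_ne_zero (pow_ne_zero _ ha1') (mul_ne_zero hd1' hk1'))
  rcases ord_cmp t hF1 hF2 key with ⟨_, hpq⟩ | ⟨hl0, hpq⟩
  · left
    have : (1 + α * (M + 1) + β * (K + 1) : ℤ) = α * K + α + β + m := by exact_mod_cast hpq
    linarith
  · right
    have h3 : (α * K + α + β + m + 1 : ℤ) ≤ 1 + α * (M + 1) + β * (K + 1) := by exact_mod_cast hpq
    obtain ⟨n, hn⟩ : ∃ n : ℕ, (n : ℤ) = ((M : ℤ) - K) * α + K * β - m :=
      ⟨(((M : ℤ) - K) * α + K * β - m).toNat, Int.toNat_of_nonneg (by linarith)⟩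
    refine ⟨n, ?_, by linarith⟩
    have h4 : (n : ℂ) = ((M : ℂ) - K) * α + K * β - m := by
      have := congrArg (Int.cast : ℤ → ℂ) hn
      push_cast at this
      exact this
    rw [h4]
    rw [hl] at hl0
    linear_combination hl0

end Pool.Agent.Helper748.MC
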