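import Pool.Agent.helper748_mc.Face

set_option autoImplicit false
set_option linter.unusedSectionVars false

/-! # Strictly semistable ternary forms are not exact -/

namespace Pool.Agent.Helper748.MC

open MvPolynomial

/-- Semistability of a ternary form (the Hilbert-Mumford criterion): in all linear coordinates, for
all weights with the sum zero, there is a monomial with a weight `≤ 0`. -/
def Semistable (G : MvPolynomial (Fin 3) ℂ) : Prop :=
  ∀ A : Matrix (Fin 3) (Fin 3) ℂ, A.det ≠ 0 → ∀ w : Fin 3 → ℤ, ∑ i, w i = 0 →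
    ∃ m ∈ (lin A G).support, ∑ i, w i * (m i : ℤ) ≤ 0

/-- Stability of a ternary form (the Hilbert-Mumford criterion): in all linear coordinates, for
all weights, not all zero, with the sum zero, there is a monomial with a negative weight. -/
def Stable (G : MvPolynomial (Fin 3) ℂ) : Prop :=
  ∀ A : Matrix (Fin 3) (Fin 3) ℂ, A.det ≠ 0 → ∀ w : Fin 3 → ℤ, ∑ i, w i = 0 → w ≠ 0 →
    ∃ m ∈ (lin A G).support, ∑ i, w i * (m i : ℤ) < 0

theorem lin_lin (A B : Matrix (Fin 3) (Fin 3) ℂ) (p : MvPolynomial (Fin 3) ℂ) :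
    lin B (lin A p) = lin (A * B) p := by
  have h : (lin B).comp (lin A) = lin (A * B) := by
    apply algHom_ext
    intro i
    rw [AlgHom.comp_apply, lin_X, lin_X, map_sum]
    simp only [map_mul, lin_C, lin_X, Finset.mul_sum, Matrix.mul_apply, map_sum, Finset.sum_mul]
    rw [Finset.sum_comm]
    refine Finset.sum_congr rfl fun j _ => Finset.sum_congr rfl fun k _ => ?_
    ring
  exact congrArg (fun φ => φ p) h

theorem eval_lin (A : Matrix (Fin 3) (Fin 3) ℂ) (x : Fin 3 → ℂ) (p : MvPolynomial (Fin 3) ℂ) :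
    eval x (lin A p) = eval (fun i => ∑ j, A i j * x j) p := by
  induction p using MvPolynomial.induction_on with
  | C a => rw [lin_C, eval_C, eval_C]
  | add p q hp hq => rw [map_add, map_add, map_add, hp, hq]
  | mul_X p i hp =>
    rw [map_mul, map_mul, map_mul, hp, lin_X, map_sum, eval_X]
    simp only [map_mul, eval_C, eval_X]

theorem isW_of_eq {w : Fin 3 → ℤ} {a b : ℤ} (h : a = b) {p : MvPolynomial (Fin 3) ℂ}
    (hp : IsW w a p) : IsW w b p := h ▸ hp

theorem IsW.add' {w : Fin 3 → ℤ} {a : ℤ} {p q : MvPolynomial (Fin 3) ℂ} (hp : IsW w a p)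
    (hq : IsW w a q) : IsW w a (p + q) := by
  intro m hm
  rw [coeff_add] at hm
  by_cases h : coeff m p = 0
  · rw [h, zero_add] at hm; exact hq m hm
  · exact hp m h

theorem IsW.zero' (w : Fin 3 → ℤ) (a : ℤ) : IsW w a (0 : MvPolynomial (Fin 3) ℂ) :=
  fun m hm => by rw [coeff_zero] at hm; exact absurd rfl hm

theorem IsW.C' (w : Fin 3 → ℤ) (c : ℂ) : IsW w 0 (C c : MvPolynomial (Fin 3) ℂ) := by
  intro m hm
  rw [coeff_C] at hm
  split_ifs at hm with h
  · rw [← h, mw]; simp
  · exact absurd rfl hm

theorem IsW.pow' {w : Fin 3 → ℤ} {a : ℤ} {p : MvPolynomial (Fin 3) ℂ} (hp : IsW w a p) (k : ℕ) :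
    IsW w (k * a) (p ^ k) := by
  induction k with
  | zero =>
    rw [pow_zero]
    have := IsW.C' w 1
    rw [C_1] at this
    exact isW_of_eq (by simp) this
  | succ k ih =>
    rw [pow_succ]
    exact isW_of_eq (by push_cast; ring) (ih.mul hp)

/-- a linear substitution which preserves the weights -/
theorem isW_lin {w : Fin 3 → ℤ} {A : Matrix (Fin 3) (Fin 3) ℂ}
    (hA : ∀ i j, A i j ≠ 0 → w i = w j) (m : Fin 3 →₀ ℕ) (c : ℂ) :
    IsW w (mw w m) (lin A (monomial m c)) := by
  have hX : ∀ i, IsW w (w i) (lin A (X i)) := by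
    intro i
    rw [lin_X, Fin.sum_univ_three]
    have h : ∀ j, IsW w (w i) (C (A i j) * X j : MvPolynomial (Fin 3) ℂ) := by
      intro j
      by_cases h0 : A i j = 0
      · rw [h0, C_0, zero_mul]; exact IsW.zero' w _
      · rw [hA i j h0]
        exact isW_of_eq (by ring) ((IsW.C' w _).mul (isW_X w j))
    exact ((h 0).add' (h 1)).add' (h 2)
  rw [monomial_eq, Finsupp.prod_fintype _ _ (by simp), Fin.prod_univ_three]
  simp only [map_mul, map_pow, lin_C]
  refine isW_of_eq ?_ ((IsW.C' w c).mul ((((hX 0).pow' _).mul ((hX 1).pow' _)).mul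
    ((hX 2).pow' _)))
  rw [mw3]
  ring

theorem wge_lin {w : Fin 3 → ℤ} {A : Matrix (Fin 3) (Fin 3) ℂ}
    (hA : ∀ i j, A i j ≠ 0 → w i = w j) {n : ℤ} {p : MvPolynomial (Fin 3) ℂ} (hp : Wge w n p) :
    Wge w n (lin A p) := by
  rw [p.as_sum, map_sum]
  refine Wge.sum _ fun m hm => ?_
  exact (isW_lin hA m _).wge.mono (hp m (mem_support_iff.1 hm))

theorem wc_lin {w : Fin 3 → ℤ} {A : Matrix (Fin 3) (Fin 3) ℂ}
    (hA : ∀ i j, A i j ≠ 0 → w i = w j) (n : ℤ) (p : MvPolynomial (Fin 3) ℂ) :
    wc w n (lin A p) = lin A (wc w n p) := by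
  induction p using MvPolynomial.induction_on' with
  | monomial m c =>
    have h1 : wc w n (monomial m c) = if mw w m = n then monomial m c else 0 := by
      ext k
      rw [coeff_wc, coeff_monomial]
      by_cases hk : m = k
      · subst hk
        by_cases h : mw w m = n
        · rw [if_pos h, if_pos h, if_pos rfl, coeff_monomial, if_pos rfl]
        · rw [if_neg h, if_neg h, coeff_zero]
      · by_cases h : mw w m = n
        · rw [if_neg hk, ite_self, if_pos h, coeff_monomial, if_neg hk]
        · rw [if_neg hk, ite_self, if_neg h, coeff_zero]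
    rw [h1]
    have h2 := isW_lin hA m c
    by_cases h : mw w m = n
    · rw [if_pos h]
      rw [h] at h2
      exact h2.wc_self
    · rw [if_neg h, map_zero]
      ext k
      rw [coeff_wc, coeff_zero]
      split_ifs with h3
      · by_contra h4
        exact h (by rw [← h2 k h4, h3])
      · rfl
  | add p q hp hq => rw [map_add, map_add, map_add, map_add, hp, hq]

/-- Semistability implies that the barycenter lies in the face. -/
theorem balanced {G : MvPolynomial (Fin 3) ℂ} (hss : Semistable G)
    (A : Matrix (Fin 3) (Fin 3) ℂ) (hA : A.det ≠ 0) (w : Fin 3 → ℤ)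
    (hw : w 0 + w 1 + w 2 = 0) (hWge : Wge w 0 (lin A G)) (ε : ℤ) :
    ∃ m, coeff m (lin A G) ≠ 0 ∧ mw w m = 0 ∧ ε * mw (ev w) m ≤ 0 := by
  by_contra hne
  push Not at hne
  set p := lin A G with hp
  set N : ℤ := ∑ m ∈ p.support, |ε * mw (ev w) m| + 1 with hN
  obtain ⟨m, hm, hle⟩ := hss A hA (fun i => N * w i + ε * ev w i) (by
    rw [Fin.sum_univ_three]
    have e0 : ev w 0 = w 1 - w 2 := rfl
    have e1 : ev w 1 = w 2 - w 0 := rfl
    have e2 : ev w 2 = w 0 - w 1 := rfl
    rw [e0, e1, e2]
    linear_combination N * hw)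
  have hsum : ∑ i, (N * w i + ε * ev w i) * (m i : ℤ) = N * mw w m + ε * mw (ev w) m := by
    rw [mw, mw, Finset.mul_sum, Finset.mul_sum, ← Finset.sum_add_distrib]
    refine Finset.sum_congr rfl fun i _ => ?_
    ring
  rw [hsum] at hle
  have hm0 := mem_support_iff.1 hm
  have h1 := hWge m hm0
  have h2 : |ε * mw (ev w) m| ≤ ∑ m ∈ p.support, |ε * mw (ev w) m| :=
    Finset.single_le_sum (f := fun m => |ε * mw (ev w) m|) (fun _ _ => abs_nonneg _) hm
  have h3 := neg_abs_le (ε * mw (ev w) m)
  rcases h1.lt_or_eq with h4 | h4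
  · have h5 : N ≤ N * mw w m := by
      have : 0 ≤ N := by
        have := abs_nonneg (ε * mw (ev w) m)
        omega
      nlinarith
    omega
  · have h5 := hne m hm0 h4.symm
    rw [← h4, mul_zero, zero_add] at hle
    omega

/-- the conditions of the theorem `not_exact_face` for the form `lin A G` -/
def FaceCond (d : ℕ) (G : MvPolynomial (Fin 3) ℂ) (A : Matrix (Fin 3) (Fin 3) ℂ)
    (w : Fin 3 → ℤ) : Prop :=
  A.det ≠ 0 ∧ w 0 + w 1 + w 2 = 0 ∧ w ≠ 0 ∧ Wge w 0 (lin A G) ∧
  (∃ m, coeff m (lin A G) ≠ 0 ∧ mw w m = 0 ∧ mw (ev w) m ≤ 0) ∧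
  (∃ m, coeff m (lin A G) ≠ 0 ∧ mw w m = 0 ∧ 0 ≤ mw (ev w) m) ∧
  (∀ m, coeff m (lin A G) ≠ 0 → mw w m = 0 → ∀ i j, m i = 0 → 3 * m j ≠ 2 * d)

theorem FaceCond.not_exact {d : ℕ} (hd : 0 < d) {G : MvPolynomial (Fin 3) ℂ}
    (hG : G.IsHomogeneous d) {A : Matrix (Fin 3) (Fin 3) ℂ} {w : Fin 3 → ℤ}
    (h : FaceCond d G A w) : ¬ Exact d G (-3 / d) := by
  obtain ⟨hA, hw, hw0, hWge, h1, h2, hex⟩ := h
  intro hE
  exact not_exact_face hd (lin_homog A hG) w hw hw0 hWge h1 h2 hex
    (exact_lin hE A (isUnit_iff_ne_zero.2 hA))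

/-- the case of the weight `(1, 1, -2)` and its multiples -/
theorem exists_face_special {d : ℕ} (hd : 0 < d) {G : MvPolynomial (Fin 3) ℂ}
    (hG : G.IsHomogeneous d) (hss : Semistable G) (A : Matrix (Fin 3) (Fin 3) ℂ)
    (hA : A.det ≠ 0) (w : Fin 3 → ℤ) (hw : w 0 + w 1 + w 2 = 0) (hw0 : w ≠ 0)
    (hWge : Wge w 0 (lin A G)) (h01 : w 0 = w 1) : ∃ A', FaceCond d G A' w := by
  have hw00 : w 0 ≠ 0 := by
    intro h
    apply hw0
    funext i
    fin_cases i
    · exact h
    · change w 1 = 0; omega
    · change w 2 = 0; omega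
  -- the shape of the monomials
  have hshape : ∀ m : Fin 3 →₀ ℕ, m 0 + m 1 + m 2 = d → mw w m = 0 →
      3 * m 2 = d ∧ m 0 + m 1 = 2 * m 2 := by
    intro m hm hmw
    rw [mw3] at hmw
    have h2 : w 2 = -2 * w 0 := by omega
    have h3 : w 0 * ((m 0 : ℤ) + m 1 - 2 * m 2) = 0 := by
      rw [← h01, h2] at hmw
      linear_combination hmw
    have h4 := (mul_eq_zero.1 h3).resolve_left hw00
    omega
  -- if the coordinates are changed by a matrix which preserves the weight
  have hmain : ∀ B : Matrix (Fin 3) (Fin 3) ℂ, B.det ≠ 0 → (∀ i j, B i j ≠ 0 → w i = w j) →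
      (∀ m, coeff m (lin B (wc w 0 (lin A G))) ≠ 0 → ∀ i j, m i = 0 → 3 * m j ≠ 2 * d) →
      FaceCond d G (A * B) w := by
    intro B hB hBw hex
    have hAB : (A * B).det ≠ 0 := by
      rw [Matrix.det_mul]; exact mul_ne_zero hA hB
    have hWge' : Wge w 0 (lin (A * B) G) := by
      rw [← lin_lin]; exact wge_lin hBw hWge
    refine ⟨hAB, hw, hw0, hWge', ?_, ?_, ?_⟩
    · obtain ⟨m, h1, h2, h3⟩ := balanced hss (A * B) hAB w hw hWge' 1
      exact ⟨m, h1, h2, by linarith⟩
    · obtain ⟨m, h1, h2, h3⟩ := balanced hss (A * B) hAB w hw hWge' (-1)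
      exact ⟨m, h1, h2, by linarith⟩
    · intro m hm hmw
      refine hex m ?_
      rw [← wc_lin hBw, lin_lin, coeff_wc, if_pos hmw]
      exact hm
  set p0 := wc w 0 (lin A G) with hp0
  have hp0h : p0.IsHomogeneous d := isHomogeneous_wc (lin_homog A hG) 0
  have hp0w : IsW w 0 p0 := isW_wc 0 _
  -- the values of `p0`
  have heval : ∀ (p : MvPolynomial (Fin 3) ℂ), p.IsHomogeneous d → IsW w 0 p → ∀ x : ℂ,
      (∀ m, coeff m p ≠ 0 → m 0 = 0 → eval ![0, 1, 1] p = coeff m p) ∧
      (∀ m, coeff m p ≠ 0 → m 1 = 0 → eval ![1, 0, 1] p = coeff m p) := by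
    intro p hp hpw x
    have huniq : ∀ m m' : Fin 3 →₀ ℕ, coeff m p ≠ 0 → coeff m' p ≠ 0 →
        (m 0 = m' 0 ∨ m 1 = m' 1) → m = m' := by
      intro m m' hm hm' h
      have ha := hshape m (degree3 hp hm) (hpw m hm)
      have hb := hshape m' (degree3 hp hm') (hpw m' hm')
      ext i
      fin_cases i
      · change m 0 = m' 0; omega
      · change m 1 = m' 1; omega
      · change m 2 = m' 2; omega
    refine ⟨fun m hm h0 => ?_, fun m hm h0 => ?_⟩
    · rw [eval_eq, Finset.sum_eq_single m]
      · rw [Finset.prod_eq_one, mul_one]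
        intro i hi
        fin_cases i
        · simp [h0] at hi
        · simp
        · simp
      · intro m' hm' hne
        have h1 : m' 0 ≠ 0 := fun h1 => hne (huniq m' m (mem_support_iff.1 hm') hm
          (Or.inl (by rw [h1, h0])))
        rw [Finset.prod_eq_zero (i := 0), mul_zero]
        · simpa using h1
        · simp [h1]
      · intro h; exact absurd (mem_support_iff.2 hm) h
    · rw [eval_eq, Finset.sum_eq_single m]
      · rw [Finset.prod_eq_one, mul_one]
        intro i hi
        fin_cases i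
        · simp
        · simp [h0] at hi
        · simp
      · intro m' hm' hne
        have h1 : m' 1 ≠ 0 := fun h1 => hne (huniq m' m (mem_support_iff.1 hm') hm
          (Or.inr (by rw [h1, h0])))
        rw [Finset.prod_eq_zero (i := 1), mul_zero]
        · simpa using h1
        · simp [h1]
      · intro h; exact absurd (mem_support_iff.2 hm) h
  -- the polynomial in one variable
  set φ : MvPolynomial (Fin 3) ℂ →ₐ[ℂ] Polynomial ℂ := aeval ![1, Polynomial.X, 1] with hφ
  set Q : Polynomial ℂ := φ p0 with hQ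
  have hQe : ∀ y : ℂ, Q.eval y = eval ![1, y, 1] p0 := by
    intro y
    have h1 : (Polynomial.evalRingHom y).comp (φ : MvPolynomial (Fin 3) ℂ →+* Polynomial ℂ) =
        eval ![1, y, 1] := by
      apply ringHom_ext
      · intro c
        simp [hφ]
      · intro i
        fin_cases i <;> simp [hφ]
    have := congrArg (fun ψ => ψ p0) h1
    simpa [hQ] using this
  have hcoef : ∀ (p : MvPolynomial (Fin 3) ℂ), p.IsHomogeneous d → IsW w 0 p →
      ∀ m, coeff m p ≠ 0 → (φ p).coeff (m 1) = coeff m p := by
    intro p hp hpw m hm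
    have h1 : φ p = ∑ m' ∈ p.support, Polynomial.C (coeff m' p) * Polynomial.X ^ (m' 1) := by
      conv_lhs => rw [p.as_sum]
      rw [map_sum]
      refine Finset.sum_congr rfl fun m' _ => ?_
      rw [hφ, aeval_monomial, Finsupp.prod_fintype _ _ (by simp), Fin.prod_univ_three]
      simp
    rw [h1, Polynomial.finsetSum_coeff, Finset.sum_eq_single m]
    · rw [Polynomial.coeff_C_mul_X_pow, if_pos rfl]
    · intro m' hm' hne
      rw [Polynomial.coeff_C_mul_X_pow, if_neg]
      intro h
      apply hne
      have ha := hshape m (degree3 hp hm) (hpw m hm)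
      have hb := hshape m' (degree3 hp (mem_support_iff.1 hm')) (hpw m' (mem_support_iff.1 hm'))
      ext i
      fin_cases i
      · change m' 0 = m 0; omega
      · change m' 1 = m 1; omega
      · change m' 2 = m 2; omega
    · intro h; exact absurd (mem_support_iff.2 hm) h
  by_cases h2 : ∃ y1 y2 : ℂ, y1 ≠ y2 ∧ Q.eval y1 = 0 ∧ Q.eval y2 = 0
  · -- two different roots
    obtain ⟨y1, y2, hy, hy1, hy2⟩ := h2
    set B : Matrix (Fin 3) (Fin 3) ℂ := !![1, 1, 0; y1, y2, 0; 0, 0, 1] with hB
    have hBdet : B.det ≠ 0 := by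
      rw [hB, Matrix.det_fin_three]
      simp
      intro h
      exact hy (by linear_combination -h)
    have hBw : ∀ i j, B i j ≠ 0 → w i = w j := by
      intro i j hij
      fin_cases i <;> fin_cases j
      · rfl
      · exact h01
      · simp [hB] at hij
      · exact h01.symm
      · rfl
      · simp [hB] at hij
      · simp [hB] at hij
      · simp [hB] at hij
      · rfl
    refine ⟨A * B, hmain B hBdet hBw fun m hm i j hmi hmj => ?_⟩
    have hBh : (lin B p0).IsHomogeneous d := lin_homog B hp0h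
    have hBW : IsW w 0 (lin B p0) := by
      rw [hp0, ← wc_lin hBw]; exact isW_wc 0 _
    have hs := hshape m (degree3 hBh hm) (hBW m hm)
    have he := heval (lin B p0) hBh hBW 0
    fin_cases i
    · have h3 := he.1 m hm hmi
      rw [eval_lin] at h3
      apply hm
      rw [← h3]
      refine (?_ : _ = eval ![1, y2, 1] p0).trans ((hQe y2).symm.trans hy2)
      congr 2
      funext i
      fin_cases i <;> simp [hB, Fin.sum_univ_three]
    · have h3 := he.2 m hm hmi
      rw [eval_lin] at h3
      apply hm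
      rw [← h3]
      refine (?_ : _ = eval ![1, y1, 1] p0).trans ((hQe y1).symm.trans hy1)
      congr 2
      funext i
      fin_cases i <;> simp [hB, Fin.sum_univ_three]
    · change m 2 = 0 at hmi
      omega
  · -- at most one root
    push Not at h2
    have hQne : Q ≠ 0 := by
      intro h
      obtain ⟨m, hm, hmw, _⟩ := balanced hss A hA w hw hWge 1
      have hm' : coeff m p0 ≠ 0 := by rw [hp0, coeff_wc, if_pos hmw]; exact hm
      have := hcoef p0 hp0h hp0w m hm'
      rw [← hQ, h, Polynomial.coeff_zero] at this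
      exact hm' this.symm
    obtain ⟨y1, hy1⟩ : ∃ y1 : ℂ, ∀ y, Q.eval y = 0 → y = y1 := by
      by_cases h : ∃ y1, Q.eval y1 = 0
      · obtain ⟨y1, h⟩ := h
        refine ⟨y1, fun y hy => ?_⟩
        by_contra hne
        exact h2 y y1 hne hy h
      · push Not at h
        exact ⟨0, fun y hy => absurd hy (h y)⟩
    set B : Matrix (Fin 3) (Fin 3) ℂ := !![1, 0, 0; y1, 1, 0; 0, 0, 1] with hB
    have hBdet : B.det ≠ 0 := by
      rw [hB, Matrix.det_fin_three]
      simp
    have hBw : ∀ i j, B i j ≠ 0 → w i = w j := by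
      intro i j hij
      fin_cases i <;> fin_cases j
      · rfl
      · exact h01
      · simp [hB] at hij
      · exact h01.symm
      · rfl
      · simp [hB] at hij
      · simp [hB] at hij
      · simp [hB] at hij
      · rfl
    have hBh : (lin B p0).IsHomogeneous d := lin_homog B hp0h
    have hBW : IsW w 0 (lin B p0) := by
      rw [hp0, ← wc_lin hBw]; exact isW_wc 0 _
    -- the polynomial is a power
    have hroots : ∀ y, (φ (lin B p0)).eval y = 0 → y = 0 := by
      intro y hy
      have h3 : (φ (lin B p0)).eval y = Q.eval (y1 + y) := by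
        have h4 : (φ (lin B p0)).eval y = eval ![1, y, 1] (lin B p0) := by
          have h1 : (Polynomial.evalRingHom y).comp
              (φ : MvPolynomial (Fin 3) ℂ →+* Polynomial ℂ) = eval ![1, y, 1] := by
            apply ringHom_ext
            · intro c
              simp [hφ]
            · intro i
              fin_cases i <;> simp [hφ]
          have := congrArg (fun ψ => ψ (lin B p0)) h1
          simpa using this
        rw [h4, hQe, eval_lin]
        congr 2
        funext i
        fin_cases i <;> simp [hB, Fin.sum_univ_three]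
      rw [h3] at hy
      have := hy1 _ hy
      linear_combination this
    have hne' : φ (lin B p0) ≠ 0 := by
      intro h
      apply hQne
      apply Polynomial.funext
      intro y
      have h4 : (φ (lin B p0)).eval (y - y1) = Q.eval y := by
        have h5 : (φ (lin B p0)).eval (y - y1) = eval ![1, y - y1, 1] (lin B p0) := by
          have h1 : (Polynomial.evalRingHom (y - y1)).comp
              (φ : MvPolynomial (Fin 3) ℂ →+* Polynomial ℂ) = eval ![1, y - y1, 1] := by
            apply ringHom_ext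
            · intro c
              simp [hφ]
            · intro i
              fin_cases i <;> simp [hφ]
          have := congrArg (fun ψ => ψ (lin B p0)) h1
          simpa using this
        rw [h5, hQe, eval_lin]
        congr 2
        funext i
        fin_cases i <;> simp [hB, Fin.sum_univ_three]
      rw [h, Polynomial.eval_zero] at h4
      rw [Polynomial.eval_zero, h4]
    have hmon : ∀ e e', (φ (lin B p0)).coeff e ≠ 0 → (φ (lin B p0)).coeff e' ≠ 0 → e = e' := by
      set R := φ (lin B p0) with hR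
      have hRr : R.roots = Multiset.replicate R.natDegree 0 := by
        rw [← Polynomial.splits_iff_card_roots.1 (IsAlgClosed.splits R),
          Multiset.eq_replicate_card]
        intro a ha
        exact hroots a ((Polynomial.mem_roots hne').1 ha)
      have hRe : R = Polynomial.C R.leadingCoeff * Polynomial.X ^ R.natDegree := by
        have h6 := (IsAlgClosed.splits R).eq_prod_roots
        rw [hRr, Multiset.map_replicate, Multiset.prod_replicate, Polynomial.C_0, sub_zero] at h6
        exact h6
      have hco : ∀ e, R.coeff e ≠ 0 → e = R.natDegree := by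
        intro e he
        rw [hRe, Polynomial.coeff_C_mul_X_pow] at he
        by_contra h
        rw [if_neg h] at he
        exact he rfl
      intro e e' he he'
      rw [hco e he, hco e' he']
    refine ⟨A * B, hmain B hBdet hBw fun m hm i j hmi hmj => ?_⟩
    -- all monomials agree, so they are the barycenter
    have hall : ∀ m', coeff m' (lin B p0) ≠ 0 → m' 1 = m 1 := by
      intro m' hm'
      exact hmon _ _ (by rw [hcoef _ hBh hBW m' hm']; exact hm')
        (by rw [hcoef _ hBh hBW m hm]; exact hm)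
    have hAB : (A * B).det ≠ 0 := by
      rw [Matrix.det_mul]; exact mul_ne_zero hA hBdet
    have hWge' : Wge w 0 (lin (A * B) G) := by
      rw [← lin_lin]; exact wge_lin hBw hWge
    have hcc : ∀ m', coeff m' (lin (A * B) G) ≠ 0 → mw w m' = 0 → coeff m' (lin B p0) ≠ 0 := by
      intro m' hm' hmw'
      rw [hp0, ← wc_lin hBw, lin_lin, coeff_wc, if_pos hmw']
      exact hm'
    obtain ⟨m1, h1a, h1b, h1c⟩ := balanced hss (A * B) hAB w hw hWge' 1
    obtain ⟨m2, h2a, h2b, h2c⟩ := balanced hss (A * B) hAB w hw hWge' (-1)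
    have hm1 := hall m1 (hcc m1 h1a h1b)
    have hm2 := hall m2 (hcc m2 h2a h2b)
    have hs := hshape m (degree3 hBh hm) (hBW m hm)
    have hs1 := hshape m1 (degree3 (lin_homog _ hG) h1a) h1b
    have hs2 := hshape m2 (degree3 (lin_homog _ hG) h2a) h2b
    have hm12 : mw (ev w) m1 = mw (ev w) m := by
      rw [mw3, mw3]
      have e0 : m1 0 = m 0 := by omega
      have e2 : m1 2 = m 2 := by omega
      rw [e0, e2, hm1]
    have hm22 : mw (ev w) m2 = mw (ev w) m := by
      rw [mw3, mw3]
      have e0 : m2 0 = m 0 := by omega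
      have e2 : m2 2 = m 2 := by omega
      rw [e0, e2, hm2]
    have hz : mw (ev w) m = 0 := by omega
    rw [mw3] at hz
    have e0 : ev w 0 = w 1 - w 2 := rfl
    have e1 : ev w 1 = w 2 - w 0 := rfl
    have e2 : ev w 2 = w 0 - w 1 := rfl
    have h2 : w 2 = -2 * w 0 := by omega
    rw [e0, e1, e2, ← h01, h2] at hz
    have h3 : w 0 * (3 * ((m 0 : ℤ) - m 1)) = 0 := by linear_combination hz
    have h4 := (mul_eq_zero.1 h3).resolve_left hw00
    fin_cases i
    · change m 0 = 0 at hmi
      omega
    · change m 1 = 0 at hmi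
      omega
    · change m 2 = 0 at hmi
      omega

end Pool.Agent.Helper748.MC
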