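import Pool.Agent.helper748_mc.Stab

set_option autoImplicit false
set_option linter.unusedSectionVars false

/-! # Strictly semistable ternary forms are not exact -/

namespace Pool.Agent.Helper748.MC

open MvPolynomial

/-- the matrix of a permutation of the variables -/
noncomputable def pm (σ : Equiv.Perm (Fin 3)) : Matrix (Fin 3) (Fin 3) ℂ :=
  (Equiv.toPEquiv σ).toMatrix

theorem pm_det (σ : Equiv.Perm (Fin 3)) : (pm σ).det ≠ 0 := by
  rw [pm, Matrix.det_permutation]
  rcases Int.units_eq_one_or (Equiv.Perm.sign σ) with h | h <;> rw [h] <;> simp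

theorem lin_pm (σ : Equiv.Perm (Fin 3)) (p : MvPolynomial (Fin 3) ℂ) :
    lin (pm σ) p = rename σ p := by
  have h : lin (pm σ) = rename σ := by
    apply algHom_ext
    intro i
    rw [lin_X, rename_X, Finset.sum_eq_single (σ i)]
    · rw [pm, PEquiv.toMatrix_apply]
      simp
    · intro j _ hj
      rw [pm, PEquiv.toMatrix_apply, if_neg]
      · simp
      · simp only [Equiv.toPEquiv_apply, Option.mem_some_iff]
        exact fun h => hj h.symm
    · intro h; exact absurd (Finset.mem_univ _) h
  rw [h]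

theorem wge_rename (σ : Equiv.Perm (Fin 3)) {w : Fin 3 → ℤ} {n : ℤ}
    {p : MvPolynomial (Fin 3) ℂ} (hp : Wge w n p) :
    Wge (fun i => w (σ.symm i)) n (rename σ p) := by
  intro m hm
  obtain ⟨u, hu, hu0⟩ := coeff_rename_ne_zero _ _ _ hm
  have h1 := hp u hu0
  have h2 : mw (fun i => w (σ.symm i)) m = mw w u := by
    rw [mw, mw, ← Equiv.sum_comp σ]
    refine Finset.sum_congr rfl fun i _ => ?_
    rw [← hu, Finsupp.mapDomain_apply σ.injective, Equiv.symm_apply_apply]
  rw [h2]
  exact h1

theorem exists_perm : ∀ i j : Fin 3, i ≠ j → ∃ σ : Equiv.Perm (Fin 3), σ i = 0 ∧ σ j = 1 := by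
  decide

/-- Strictly semistable forms satisfy the conditions of `not_exact_face` in some coordinates. -/
theorem exists_face {d : ℕ} (hd : 0 < d) {G : MvPolynomial (Fin 3) ℂ} (hG : G.IsHomogeneous d)
    (hss : Semistable G) (hns : ¬ Stable G) : ∃ A w, FaceCond d G A w := by
  unfold Stable at hns
  push Not at hns
  obtain ⟨A, hA, w, hw, hw0, hm⟩ := hns
  rw [Fin.sum_univ_three] at hw
  have hWge : Wge w 0 (lin A G) := fun m hm0 => hm m (mem_support_iff.2 hm0)
  by_cases hex : ∀ m, coeff m (lin A G) ≠ 0 → mw w m = 0 → ∀ i j, m i = 0 → 3 * m j ≠ 2 * d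
  · refine ⟨A, w, hA, hw, hw0, hWge, ?_, ?_, hex⟩
    · obtain ⟨m, h1, h2, h3⟩ := balanced hss A hA w hw hWge 1
      exact ⟨m, h1, h2, by linarith⟩
    · obtain ⟨m, h1, h2, h3⟩ := balanced hss A hA w hw hWge (-1)
      exact ⟨m, h1, h2, by linarith⟩
  · push Not at hex
    obtain ⟨m, hm0, hmw, i, j, hmi, hmj⟩ := hex
    have hij : i ≠ j := by
      rintro rfl
      omega
    have hdeg := degree3 (lin_homog A hG) hm0
    rw [mw3] at hmw
    have hwij : w i = w j := by
      have key : ∀ x y z : ℤ, x + y + z = 0 → 3 * y * m j + 3 * z * ((d : ℤ) - m j) = 0 →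
          x = y := by
        intro x y z h1 h2
        have h3 : (3 * (m j : ℤ)) = 2 * d := by exact_mod_cast hmj
        have h4 : (d : ℤ) * (2 * y + z) = 0 := by linear_combination h2 - (y - z) * h3
        have h5 := (mul_eq_zero.1 h4).resolve_left (by exact_mod_cast hd.ne')
        omega
      have hdeg' : (m 0 : ℤ) + m 1 + m 2 = d := by exact_mod_cast hdeg
      fin_cases i <;> fin_cases j
      · exact absurd rfl hij
      · change m 0 = 0 at hmi
        refine key (w 0) (w 1) (w 2) (by linarith) ?_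
        change 3 * w 1 * (m 1 : ℤ) + 3 * w 2 * ((d : ℤ) - m 1) = 0
        rw [← hdeg', hmi]
        rw [hmi] at hmw
        push_cast at hmw ⊢
        linear_combination 3 * hmw
      · change m 0 = 0 at hmi
        refine key (w 0) (w 2) (w 1) (by linarith) ?_
        change 3 * w 2 * (m 2 : ℤ) + 3 * w 1 * ((d : ℤ) - m 2) = 0
        rw [← hdeg', hmi]
        rw [hmi] at hmw
        push_cast at hmw ⊢
        linear_combination 3 * hmw
      · change m 1 = 0 at hmi
        refine key (w 1) (w 0) (w 2) (by linarith) ?_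
        change 3 * w 0 * (m 0 : ℤ) + 3 * w 2 * ((d : ℤ) - m 0) = 0
        rw [← hdeg', hmi]
        rw [hmi] at hmw
        push_cast at hmw ⊢
        linear_combination 3 * hmw
      · exact absurd rfl hij
      · change m 1 = 0 at hmi
        refine key (w 1) (w 2) (w 0) (by linarith) ?_
        change 3 * w 2 * (m 2 : ℤ) + 3 * w 0 * ((d : ℤ) - m 2) = 0
        rw [← hdeg', hmi]
        rw [hmi] at hmw
        push_cast at hmw ⊢
        linear_combination 3 * hmw
      · change m 2 = 0 at hmi
        refine key (w 2) (w 0) (w 1) (by linarith) ?_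
        change 3 * w 0 * (m 0 : ℤ) + 3 * w 1 * ((d : ℤ) - m 0) = 0
        rw [← hdeg', hmi]
        rw [hmi] at hmw
        push_cast at hmw ⊢
        linear_combination 3 * hmw
      · change m 2 = 0 at hmi
        refine key (w 2) (w 1) (w 0) (by linarith) ?_
        change 3 * w 1 * (m 1 : ℤ) + 3 * w 0 * ((d : ℤ) - m 1) = 0
        rw [← hdeg', hmi]
        rw [hmi] at hmw
        push_cast at hmw ⊢
        linear_combination 3 * hmw
      · exact absurd rfl hij
    obtain ⟨σ, hσi, hσj⟩ := exists_perm i j hij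
    set w' : Fin 3 → ℤ := fun i => w (σ.symm i) with hw'
    have hw'0 : w' ≠ 0 := by
      intro h
      apply hw0
      funext k
      have := congrFun h (σ k)
      rw [hw'] at this
      simpa using this
    have hw's : w' 0 + w' 1 + w' 2 = 0 := by
      have h1 : ∑ k, w' k = ∑ k, w k := Equiv.sum_comp σ.symm w
      rw [Fin.sum_univ_three, Fin.sum_univ_three] at h1
      rw [h1, hw]
    have h01 : w' 0 = w' 1 := by
      change w (σ.symm 0) = w (σ.symm 1)
      rw [← hσi, ← hσj, Equiv.symm_apply_apply, Equiv.symm_apply_apply, hwij]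
    have hWge' : Wge w' 0 (lin (A * pm σ) G) := by
      rw [← lin_lin, lin_pm]
      exact wge_rename σ hWge
    obtain ⟨A', hA'⟩ := exists_face_special hd hG hss (A * pm σ)
      (by rw [Matrix.det_mul]; exact mul_ne_zero hA (pm_det σ)) w' hw's hw'0 hWge' h01
    exact ⟨A', w', hA'⟩

/-- **Strictly semistable ternary forms of degree `d` are not exact for `s = -3 / d`.** -/
theorem not_exact_strict {d : ℕ} (hd : 0 < d) {G : MvPolynomial (Fin 3) ℂ}
    (hG : G.IsHomogeneous d) (hss : Semistable G) (hns : ¬ Stable G) : ¬ Exact d G (-3 / d) := by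
  obtain ⟨A, w, h⟩ := exists_face hd hG hss hns
  exact h.not_exact hd hG

end Pool.Agent.Helper748.MC
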